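import Pool.Agent.P.MP_ee618e_ag.Y.G0

/-! NV: the configuration exists for all parameters and all further curves. -/

namespace Pool.Agent.P.MP_ee618e_ag.X.Y

open IsDedekindDomain Polynomial
open scoped Classical

namespace NV

variable {p : ℕ} [Fact p.Prime]

theorem per (c : AlgebraicClosure (ZMod p)) : ∃ n, 0 < n ∧ c ^ p ^ n = c := by
  have hc : IsIntegral (ZMod p) c := Algebra.IsIntegral.isIntegral c
  have h1 := IntermediateField.adjoin.finiteDimensional hc
  have h2 : Finite (IntermediateField.adjoin (ZMod p) {c}) := Module.finite_of_finite (ZMod p)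
  have h3 := Fintype.ofFinite (IntermediateField.adjoin (ZMod p) {c})
  obtain ⟨n, -, hn⟩ := FiniteField.card (IntermediateField.adjoin (ZMod p) {c}) p
  refine ⟨n, n.pos, ?_⟩
  have h4 := FiniteField.pow_card (IntermediateField.AdjoinSimple.gen (ZMod p) c)
  rw [hn] at h4
  exact congrArg Subtype.val h4

theorem mem_range (p : ℕ) [Fact p.Prime] {k Ω : Type} [Field k] [Field Ω] [CharP Ω p]
    [Algebra k Ω] [IsAlgClosed k] {c : Ω} (hc : c ∈ cst Ω) : ∃ a : k, algebraMap k Ω a = c := by
  obtain ⟨n, hn, h⟩ := hc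
  rw [ringChar.eq Ω p] at h
  have h1 : IsAlgebraic k c :=
    ⟨Polynomial.X ^ p ^ n - Polynomial.X,
      FiniteField.X_pow_card_pow_sub_X_ne_zero k hn.ne' (Fact.out : p.Prime).one_lt, by simp [h]⟩
  exact minpoly.mem_range_of_degree_eq_one k c
    (IsAlgClosed.degree_eq_one_of_irreducible k (minpoly.irreducible h1.isIntegral))

omit [Fact p.Prime] in
theorem pow_frob {Ω : Type} [Field Ω] {σ : Au Ω} (h : ∀ c ∈ cst Ω, σ c = c ^ p) (r : ℕ) :
    ∀ c ∈ cst Ω, (σ ^ r) c = c ^ p ^ r := by
  intro c hc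
  induction r with
  | zero => simp
  | succ r ih => rw [pow_succ', au_mul, ih, map_pow, h c hc, ← pow_mul, pow_succ']

end NV

open NV in
theorem exists_cfg (p : ℕ) [Fact p.Prime] (h2 : p ≠ 2) (h3 : p ≠ 3)
    (c : Fin 4 → AlgebraicClosure (ZMod p)) (inj : Function.Injective c)
    (hc : ∀ j, c j ≠ 0 ∧ c j ≠ 1) (g : Fin 2 → (AlgebraicClosure (ZMod p))[X][X])
    (hg : ∀ j, 0 < (g j).natDegree) :
    ∃ (Ω : Type) (_ : Field Ω) (_ : IsAlgClosed Ω) (_ : CharP Ω p)
      (i : AlgebraicClosure (ZMod p) →+* Ω) (r : ℕ) (D : Cfg Ω (p ^ r)) (y : Fin 2 → Ω),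
      0 < r ∧ (∀ j, D.c j = i (c j)) ∧ (∀ j, (g j).eval₂ (eval₂RingHom i (D.t 0)) (y j) = 0) ∧
        D.S 2 = {D.t 0, y 0} ∧ D.S 3 = {D.t 0, y 1} := by
  let k := AlgebraicClosure (ZMod p)
  let R := MvPolynomial (Fin 2) k
  let Ω := AlgebraicClosure (FractionRing R)
  have hch : CharP Ω p := charP_of_injective_algebraMap (algebraMap k Ω).injective p
  let f : R →+* Ω := algebraMap R Ω
  have hf : Function.Injective f := by
    have e : f = (algebraMap (FractionRing R) Ω).comp (algebraMap R (FractionRing R)) :=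
      IsScalarTower.algebraMap_eq R (FractionRing R) Ω
    rw [e]
    exact (algebraMap (FractionRing R) Ω).injective.comp (IsFractionRing.injective R _)
  have hfC : ∀ a : k, f (MvPolynomial.C a) = algebraMap k Ω a := fun a =>
    (IsScalarTower.algebraMap_apply k R Ω a).symm
  have halg : ∀ (L : Subfield Ω), (∀ r, f r ∈ L) → ∀ z : Ω, IsAlgebraic L z := by
    intro L hL z
    have h1 : Algebra.IsAlgebraic R (FractionRing R) :=
      IsLocalization.isAlgebraic (FractionRing R) (nonZeroDivisors R)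
    have h2 : Algebra.IsAlgebraic R Ω := Algebra.IsAlgebraic.trans R (FractionRing R) Ω
    exact (h2.isAlgebraic z).ringHom_of_comp_eq (f.codRestrict L hL) (RingHom.id Ω)
      (fun x y h => hf (congrArg Subtype.val h)) rfl
  have hcst : ∀ a : k, algebraMap k Ω a ∈ cst Ω := fun a => by
    obtain ⟨n, hn, h⟩ := per a
    exact ⟨n, hn, by rw [ringChar.eq Ω p, ← map_pow, h]⟩
  let t : Fin 2 → Ω := fun i => f (MvPolynomial.X i)
  have hal : ∀ z : Ω, IsAlgebraic (Subfield.closure (cst Ω ∪ {t 0, t 1})) z := by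
    refine halg _ fun r => ?_
    induction r using MvPolynomial.induction_on with
    | C a => rw [hfC]; exact Subfield.subset_closure (Or.inl (hcst a))
    | add p q hp hq => rw [map_add]; exact add_mem hp hq
    | mul_X p n hp =>
      rw [map_mul]
      refine mul_mem hp (Subfield.subset_closure (Or.inr ?_))
      fin_cases n
      · exact Or.inl rfl
      · exact Or.inr rfl
  have hgen0 : AlgebraicIndependent k t := by
    rw [algebraicIndependent_iff_injective_aeval]
    have e : (MvPolynomial.aeval t : R →ₐ[k] Ω) = IsScalarTower.toAlgHom k R Ω :=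
      MvPolynomial.algHom_ext fun n => MvPolynomial.aeval_X _ _
    rw [e]
    exact hf
  have hgen : AlgebraicIndependent (Subfield.closure (cst Ω)) t := by
    refine hgen0.ringHom_of_comp_eq ((algebraMap k Ω).codRestrict (Subfield.closure (cst Ω))
      fun a => Subfield.subset_closure (hcst a)) (RingHom.id Ω) (fun c => ?_) (fun _ _ h => h) rfl
    have hc : (c : Ω) ∈ cst Ω := (Set.ext_iff.1 (kk_eq (Ω := Ω) p) c).1 c.2
    obtain ⟨a, ha⟩ := mem_range p (k := k) hc
    exact ⟨a, Subtype.ext ha⟩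
  have hfr : Function.Bijective (frobenius k p) := (frobeniusEquiv k p).bijective
  obtain ⟨σ, hσ⟩ := ext_iso f (f.comp (MvPolynomial.map (frobenius k p))) hf
    (hf.comp (MvPolynomial.map_injective _ hfr.1))
    (Set.eq_univ_of_forall (halg _ fun r => Subfield.subset_closure ⟨r, rfl⟩))
    (Set.eq_univ_of_forall (halg _ fun r => by
      obtain ⟨s, rfl⟩ := MvPolynomial.map_surjective _ hfr.2 r
      exact Subfield.subset_closure ⟨s, rfl⟩))
  have hσc : ∀ c ∈ cst Ω, σ c = c ^ p := by
    intro c hc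
    obtain ⟨a, rfl⟩ := mem_range p (k := k) hc
    rw [← hfC, hσ, RingHom.comp_apply, MvPolynomial.map_C, hfC, hfC, frobenius_def, map_pow]
  have hσt : ∀ i, σ (t i) = t i := fun i => by
    simp only [t]
    rw [hσ, RingHom.comp_apply, MvPolynomial.map_X]
  have hper : ∀ z : Ω, ∃ m, 0 < m ∧ (σ ^ m) z = z := by
    intro z
    refine alpha_orbit (S := cst Ω ∪ {t 0, t 1}) σ ?_ (hal z)
    rintro c (hc | rfl | rfl)
    · obtain ⟨n, hn, h⟩ := id hc
      rw [ringChar.eq Ω p] at h
      exact ⟨n, hn, by rw [pow_frob hσc n c hc, h]⟩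
    · exact ⟨1, one_pos, by simpa using hσt 0⟩
    · exact ⟨1, one_pos, by simpa using hσt 1⟩
  have h6 : ((6 : ℕ) : k) ≠ 0 := by
    rw [Ne, CharP.cast_eq_zero_iff k p]
    intro h
    have hp : p.Prime := Fact.out
    rcases (hp.dvd_mul (m := 2) (n := 3)).1 h with h | h
    · exact h2 ((Nat.prime_dvd_prime_iff_eq hp Nat.prime_two).1 h)
    · exact h3 ((Nat.prime_dvd_prime_iff_eq hp Nat.prime_three).1 h)
  have : NeZero ((6 : ℕ) : k) := ⟨h6⟩
  obtain ⟨ζ, hζ⟩ := HasEnoughRootsOfUnity.exists_primitiveRoot k 6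
  choose w hw using fun i => IsAlgClosed.exists_pow_nat_eq
    (t i ^ 3 * (t i - 1) ^ 2 * ∏ j, (t i - algebraMap k Ω (c j))) (show 0 < 6 by norm_num)
  have hinj : Function.Injective (eval₂RingHom (algebraMap k Ω) (t 0)) :=
    transcendental_iff_injective.1 (hgen0.transcendental 0)
  choose y hy using fun j => IsAlgClosed.exists_eval₂_eq_zero_of_injective _ hinj (g j)
    (natDegree_pos_iff_degree_pos.1 (hg j)).ne'
  obtain ⟨r, hr, hag⟩ := alpha_finset σ ({algebraMap k Ω ζ} ∪ Finset.univ.image t ∪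
    Finset.univ.image w ∪ Finset.univ.image y ∪ Finset.univ.image fun j => algebraMap k Ω (c j))
    fun z _ => hper z
  have ht : ∀ i, (σ ^ r) (t i) = t i := fun i => hag _ (by simp)
  have hy' : ∀ i, (σ ^ r) (y i) = y i := fun i => hag _ (by simp)
  refine ⟨Ω, inferInstance, inferInstance, hch, algebraMap k Ω, r,
    { c := fun j => algebraMap k Ω (c j), ζ := algebraMap k Ω ζ, t := t, w := w,
      S₂ := {t 0, y 0}, S₃ := {t 0, y 1}, α := σ ^ r, hc := fun j => ⟨?_, ?_, ?_⟩,
      inj := (algebraMap k Ω).injective.comp inj,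
      hζ := hζ.map_of_injective (algebraMap k Ω).injective, hζq := ?_, eq := hw, gen := hgen,
      alg := hal, frob := pow_frob hσc r, fix := fun i => ⟨ht i, hag _ (by simp)⟩, fix' := ?_ },
    y, hr, fun _ => rfl, hy, ?_, ?_⟩
  · rw [← pow_frob hσc r _ (hcst _)]
    exact hag _ (by simp)
  · exact (_root_.map_ne_zero _).2 (hc j).1
  · exact fun h => (hc j).2 ((algebraMap k Ω).injective (h.trans (map_one _).symm))
  · rw [← pow_frob hσc r _ (hcst _)]
    exact hag _ (by simp)
  · intro z hz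
    simp only [Finset.mem_insert, Finset.mem_singleton] at hz
    rcases hz with (rfl | rfl) | rfl | rfl
    exacts [ht 0, hy' 0, ht 0, hy' 1]
  · exact Finset.coe_pair
  · exact Finset.coe_pair

end Pool.Agent.P.MP_ee618e_ag.X.Y
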