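import Pool.Agent.P.MP_ee618e_ag.Y.B
import Pool.Agent.P.MP_ee618e_ag.X.V4

/-! D1: values of divisors. -/

namespace Pool.Agent.P.MP_ee618e_ag.X.Y

open IsDedekindDomain
open scoped Classical

set_option linter.unusedSectionVars false

variable {Ω : Type} [Field Ω] {Γ : Type} [LinearOrderedCommGroupWithZero Γ] {v : Valuation Ω Γ}
  {A : Subfield Ω} {σ τ : Au Ω}

theorem vc_apply (v : Valuation Ω Γ) (g : Au Ω) (x : Ω) : vc v g x = v (g x) := rfl

theorem vc_vc (v : Valuation Ω Γ) (g g' : Au Ω) : vc (vc v g) g' = vc v (g * g') := by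
  exact Valuation.ext fun _ => rfl

theorem vc_one (v : Valuation Ω Γ) : vc v 1 = v := by
  exact Valuation.ext fun _ => rfl

theorem Triv.vc (h : Triv A v) (hσ : σ ∈ St (A : Set Ω)) : Triv A (vc v σ) := by
  exact fun c hc h0 => h (σ c) ((hσ c).2 hc) ((map_ne_zero_iff σ σ.injective).2 h0)

theorem triv_of_sub {O : ValuationSubring Ω} (h : (A : Set Ω) ⊆ O) : Triv A O.valuation := by
  intro c hc h0
  have h1 : O.valuation c ≤ 1 := (O.valuation_le_one_iff c).2 (h hc)
  have h2 : O.valuation c⁻¹ ≤ 1 := (O.valuation_le_one_iff _).2 (h (A.inv_mem hc))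
  rw [map_inv₀] at h2
  exact le_antisymm h1 ((inv_le_one₀ (zero_lt_iff.2 ((Valuation.ne_zero_iff _).2 h0))).1 h2)

/-- `dominate` for `Polynomial.aeval z` on `A[X]` (injective, as `z` is transcendental by `acl_eq`)
and the prime `(X)` -/
theorem exists_small [IsAlgClosed A] {z : Ω} (hz : z ∉ A) :
    ∃ O : ValuationSubring Ω, (A : Set Ω) ⊆ O ∧ O.valuation z < 1 := by
  have ht : Transcendental A z := fun h => hz (by
    have e := acl_eq A
    rw [Acl, Subfield.closure_eq] at e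
    exact e.subset h)
  have : (Ideal.span {(Polynomial.X : Polynomial A)}).IsPrime :=
    (Ideal.span_singleton_prime Polynomial.X_ne_zero).2 Polynomial.prime_X
  obtain ⟨O, h1, h2⟩ := dominate (Polynomial.aeval z : Polynomial A →ₐ[A] Ω).toRingHom
    (transcendental_iff_injective.1 ht) (Ideal.span {(Polynomial.X : Polynomial A)})
  refine ⟨O, fun c hc => ?_, ?_⟩
  · have e := h1 (Polynomial.C ⟨c, hc⟩)
    simp only [AlgHom.toRingHom_eq_coe, RingHom.coe_coe, Polynomial.aeval_C] at e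
    exact e
  · have e := (h2 Polynomial.X).2 (Ideal.mem_span_singleton_self _)
    rw [← ValuationSubring.mem_nonunits_iff]
    simpa using e

theorem mem_of_triv [IsAlgClosed A] {z : Ω}
    (h : ∀ O : ValuationSubring Ω, (A : Set Ω) ⊆ O → O.valuation z = 1) : z ∈ A := by
  by_contra hz
  obtain ⟨O, h1, h2⟩ := exists_small hz
  exact h2.ne (h O h1)

section Lg

variable {M : Type} [CommGroupWithZero M] {x y : M}

theorem lg_one : lg (1 : M) = 0 := by
  rw [lg, dif_neg one_ne_zero, Units.mk0_one, ofMul_one]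

theorem lg_mul (hx : x ≠ 0) (hy : y ≠ 0) : lg (x * y) = lg x + lg y := by
  rw [lg, lg, lg, dif_neg hx, dif_neg hy, dif_neg (mul_ne_zero hx hy), Units.mk0_mul, ofMul_mul]

theorem lg_inv (x : M) : lg x⁻¹ = -lg x := by
  rcases eq_or_ne x 0 with rfl | hx
  · rw [inv_zero, lg, dif_pos rfl, neg_zero]
  · rw [eq_neg_iff_add_eq_zero, ← lg_mul (inv_ne_zero hx) hx, inv_mul_cancel₀ hx, lg_one]

theorem lg_div (hx : x ≠ 0) (hy : y ≠ 0) : lg (x / y) = lg x - lg y := by
  rw [div_eq_mul_inv, lg_mul hx (inv_ne_zero hy), lg_inv, sub_eq_add_neg]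

theorem lg_pow (hx : x ≠ 0) (n : ℕ) : lg (x ^ n) = n • lg x := by
  induction n with
  | zero => rw [pow_zero, lg_one, zero_smul]
  | succ n ih => rw [pow_succ, lg_mul (pow_ne_zero n hx) hx, ih, succ_nsmul]

theorem lg_zpow (hx : x ≠ 0) (n : ℤ) : lg (x ^ n) = n • lg x := by
  obtain ⟨n, rfl | rfl⟩ := n.eq_nat_or_neg
  · rw [zpow_natCast, lg_pow hx, natCast_zsmul]
  · rw [zpow_neg, lg_inv, zpow_natCast, lg_pow hx, neg_smul, natCast_zsmul]

theorem lg_prod {ι : Type} (s : Finset ι) {a : ι → M} (h : ∀ i ∈ s, a i ≠ 0) :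
    lg (∏ i ∈ s, a i) = ∑ i ∈ s, lg (a i) := by
  induction s using Finset.induction_on with
  | empty => rw [Finset.prod_empty, Finset.sum_empty, lg_one]
  | insert i s hi ih =>
    have h' : ∀ j ∈ s, a j ≠ 0 := fun j hj => h j (Finset.mem_insert_of_mem hj)
    rw [Finset.prod_insert hi, Finset.sum_insert hi,
      lg_mul (h i (Finset.mem_insert_self i s)) (Finset.prod_ne_zero_iff.2 h'), ih h']

theorem lg_inj (hx : x ≠ 0) (hy : y ≠ 0) (h : lg x = lg y) : x = y := by
  rw [lg, lg, dif_neg hx, dif_neg hy] at h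
  exact congrArg Units.val (Additive.ofMul.injective h)

end Lg

variable {R : Subalgebra A Ω} [IsDedekindDomain R] {P Q : HeightOneSpectrum R} {D D' : Dv R}

/-- the lemmas on `ap`, `ad` are copies of those in `X/F1.lean` -/
theorem mem_ap (hσ : σ ∈ St (R : Set Ω)) {f g : R} (h : (g : Ω) = σ f) (P : HeightOneSpectrum R) :
    g ∈ (ap σ P).asIdeal ↔ f ∈ P.asIdeal := by
  obtain rfl : g = rs σ hσ f := Subtype.ext h
  rw [ap, dif_pos hσ]
  exact mem_mp

theorem ap_mul (hσ : σ ∈ St (R : Set Ω)) (hτ : τ ∈ St (R : Set Ω)) (P : HeightOneSpectrum R) :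
    ap (σ * τ) P = ap σ (ap τ P) := by
  simp only [ap, dif_pos hσ, dif_pos hτ, dif_pos ((St (R : Set Ω)).mul_mem hσ hτ)]
  rw [← mp_trans]
  rfl

theorem ap_fix (hσ : σ ∈ Fix (R : Set Ω)) (P : HeightOneSpectrum R) : ap σ P = P := by
  have e : rs σ (fix_le_st _ hσ) = RingEquiv.refl R :=
    RingEquiv.ext fun f => Subtype.ext (hσ f f.2)
  rw [ap, dif_pos (fix_le_st _ hσ), e]
  exact mp_refl

theorem ad_apply (hσ : σ ∈ St (R : Set Ω)) (D : Dv R) (P : HeightOneSpectrum R) :
    ad σ D (ap σ P) = D P := by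
  rw [ad, ap, dif_pos hσ, dif_pos hσ]
  exact md_apply

theorem ad_mul (hσ : σ ∈ St (R : Set Ω)) (hτ : τ ∈ St (R : Set Ω)) (D : Dv R) :
    ad (σ * τ) D = ad σ (ad τ D) := by
  simp only [ad, dif_pos hσ, dif_pos hτ, dif_pos ((St (R : Set Ω)).mul_mem hσ hτ)]
  rw [← md_trans]
  rfl

theorem ad_fix (hσ : σ ∈ Fix (R : Set Ω)) (D : Dv R) : ad σ D = D := by
  have e : rs σ (fix_le_st _ hσ) = RingEquiv.refl R :=
    RingEquiv.ext fun f => Subtype.ext (hσ f f.2)
  rw [ad, dif_pos (fix_le_st _ hσ), e]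
  exact md_refl

theorem ad_add (σ : Au Ω) (D D' : Dv R) : ad σ (D + D') = ad σ D + ad σ D' := by
  simp only [ad]
  split_ifs
  · exact map_add _ _ _
  · rfl

theorem ad_sub (σ : Au Ω) (D D' : Dv R) : ad σ (D - D') = ad σ D - ad σ D' := by
  simp only [ad]
  split_ifs
  · exact map_sub _ _ _
  · rfl

theorem ad_zsmul (σ : Au Ω) (n : ℤ) (D : Dv R) : ad σ (n • D) = n • ad σ D := by
  simp only [ad]
  split_ifs
  · exact map_zsmul _ _ _
  · rfl

theorem ad_single (σ : Au Ω) (P : HeightOneSpectrum R) (n : ℤ) :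
    ad σ (Finsupp.single P n) = Finsupp.single (ap σ P) n := by
  simp only [ad, ap]
  split_ifs
  · exact md_single n
  · rfl

theorem ad_dv (hσ : σ ∈ St (R : Set Ω)) {f g : R} (h : (g : Ω) = σ f) : ad σ (dv f) = dv g := by
  obtain rfl : g = rs σ hσ f := Subtype.ext h
  rw [ad, dif_pos hσ]
  exact md_dv f

theorem Ctr.unique (h : Ctr v P) (h' : Ctr v Q) : P = Q := by
  exact HeightOneSpectrum.ext (Ideal.ext fun a => (h.2 a).symm.trans (h'.2 a))

/-- elements of the same order have the same value -/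
theorem Ctr.val_eq (h : Ctr v P) {f g : R} (hf : f ≠ 0) (hg : g ≠ 0) (e : ord P f = ord P g) :
    v f = v g := by
  obtain ⟨s, s', hs, hs', e'⟩ := ord_eq_imp hf hg e
  have e2 := congrArg (fun a : R => v a) e'
  simp only [Subalgebra.coe_mul, map_mul] at e2
  rwa [(h.1 s).eq_of_not_lt fun c => hs ((h.2 s).1 c),
    (h.1 s').eq_of_not_lt fun c => hs' ((h.2 s').1 c), mul_one, mul_one] at e2

/-- `ord_eq_imp`, `exists_unif` -/
theorem Ctr.pv_eq (h : Ctr v P) {π : R} (h0 : π ≠ 0) (h1 : ord P π = 1) : pv v P = v π := by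
  have sp := Classical.epsilon_spec (exists_unif P)
  rw [pv, if_pos h]
  exact h.val_eq sp.1 h0 (sp.2.trans h1.symm)

theorem pv_of_not (h : ¬ Ctr v P) : pv v P = 1 := by
  rw [pv, if_neg h]

theorem pv_ne_zero (v : Valuation Ω Γ) (P : HeightOneSpectrum R) : pv v P ≠ 0 := by
  by_cases h : Ctr v P
  · obtain ⟨π, h0, h1⟩ := exists_unif P
    rw [h.pv_eq h0 h1]
    exact (Valuation.ne_zero_iff v).2 fun e => h0 (Subtype.ext e)
  · rw [pv_of_not h]
    exact one_ne_zero

theorem pv_vc (hσ : σ ∈ St (R : Set Ω)) (P : HeightOneSpectrum R) :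
    pv (vc v σ) P = pv v (ap σ P) := by
  have c : Ctr (vc v σ) P ↔ Ctr v (ap σ P) := by
    refine ⟨fun h => ⟨fun a => ?_, fun a => ?_⟩, fun h => ⟨fun a => h.1 (rs σ hσ a), fun a => ?_⟩⟩
    · obtain ⟨b, rfl⟩ := (rs σ hσ).surjective a
      exact h.1 b
    · obtain ⟨b, rfl⟩ := (rs σ hσ).surjective a
      exact (h.2 b).trans (mem_ap hσ rfl P).symm
    · exact (h.2 (rs σ hσ a)).trans (mem_ap hσ rfl P)
  by_cases h : Ctr (vc v σ) P
  · obtain ⟨π, h0, h1⟩ := exists_unif P
    rw [h.pv_eq h0 h1, (c.1 h).pv_eq (π := rs σ hσ π)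
      ((map_ne_zero_iff _ (rs σ hσ).injective).2 h0) (by rw [ap, dif_pos hσ, ord_mp, h1])]
    rfl
  · rw [pv_of_not h, pv_of_not fun e => h (c.2 e)]

theorem lb_zero (v : Valuation Ω Γ) : lb v (0 : Dv R) = 0 := by
  exact Finsupp.sum_zero_index

theorem lb_add (v : Valuation Ω Γ) (D D' : Dv R) : lb v (D + D') = lb v D + lb v D' := by
  exact Finsupp.sum_add_index' (fun _ => zero_smul _ _) fun _ _ _ => add_smul _ _ _

theorem lb_neg (v : Valuation Ω Γ) (D : Dv R) : lb v (-D) = -lb v D := by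
  rw [eq_neg_iff_add_eq_zero, ← lb_add, neg_add_cancel, lb_zero]

theorem lb_sub (v : Valuation Ω Γ) (D D' : Dv R) : lb v (D - D') = lb v D - lb v D' := by
  rw [sub_eq_add_neg, lb_add, lb_neg, sub_eq_add_neg]

theorem lb_zsmul (v : Valuation Ω Γ) (n : ℤ) (D : Dv R) : lb v (n • D) = n • lb v D := by
  exact map_zsmul (AddMonoidHom.mk' (lb v) (lb_add v) : Dv R →+ Additive Γˣ) n D

theorem lb_single (v : Valuation Ω Γ) (P : HeightOneSpectrum R) (n : ℤ) :
    lb v (Finsupp.single P n) = n • lg (pv v P) := by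
  exact Finsupp.sum_single_index (zero_smul _ _)

theorem lb_vc (hσ : σ ∈ St (R : Set Ω)) (D : Dv R) : lb (vc v σ) D = lb v (ad σ D) := by
  induction D using Finsupp.induction_linear with
  | zero => rw [← sub_self (0 : Dv R), ad_sub, sub_self, sub_self, lb_zero, lb_zero]
  | add f g hf hg => rw [ad_add, lb_add, lb_add, hf, hg]
  | single P n => rw [ad_single, lb_single, lb_single, pv_vc hσ]

/-- The elements of `R` with `v a < 1` form a prime ideal. If it is zero then `v f = 1` and there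
is no centre. Otherwise it is a point `P`, and `v f = v π ^ ord P f` (`ord_eq_imp` for `f` and
`π ^ ord P f`). -/
theorem lb_dv (h : ∀ a : R, v a ≤ 1) {f : R} (hf : f ≠ 0) : lb v (dv f) = lg (v f) := by
  let I : Ideal R :=
    { carrier := {a | v a < 1}
      add_mem' := fun {a b} ha hb => v.map_add_lt ha hb
      zero_mem' := by simp
      smul_mem' := fun c a ha => by
        show v ((c : Ω) * a) < 1
        rw [map_mul]
        exact (mul_le_of_le_one_left' (h c)).trans_lt ha }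
  have mI : ∀ a : R, a ∈ I ↔ v a < 1 := fun _ => Iff.rfl
  have hI : I.IsPrime := by
    refine ⟨(Ideal.ne_top_iff_one I).2 (by simp [mI]), fun {a b} hab => ?_⟩
    by_contra c
    obtain ⟨c1, c2⟩ := not_or.1 c
    rw [mI] at c1 c2 hab
    rw [Subalgebra.coe_mul, map_mul, (h a).eq_of_not_lt c1, (h b).eq_of_not_lt c2, one_mul] at hab
    exact hab.false
  by_cases h0 : I = ⊥
  · have h1 : v f = 1 := (h f).eq_of_not_lt fun e => hf (by
      have e' := (mI f).2 e
      rwa [h0, Ideal.mem_bot] at e')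
    rw [h1, lg_one]
    refine Finset.sum_eq_zero fun Q _ => ?_
    have hQ : ¬ Ctr v Q := fun c => Q.ne_bot (h0 ▸ Ideal.ext fun a => (c.2 a).symm)
    simp only [pv_of_not hQ, lg_one, smul_zero]
  · let P : HeightOneSpectrum R := ⟨I, hI, h0⟩
    have c : Ctr v P := ⟨h, fun _ => Iff.rfl⟩
    obtain ⟨π, p0, p1⟩ := exists_unif P
    have e : v f = v π ^ ord P f := by
      rw [c.val_eq hf (pow_ne_zero (ord P f) p0) (by rw [ord_pow p0, p1, mul_one]),
        SubmonoidClass.coe_pow, map_pow]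
    rw [e, ← c.pv_eq p0 p1, lg_pow (pv_ne_zero v P), lb, Finsupp.sum_eq_single P, dv_apply hf,
      natCast_zsmul]
    · intro Q _ ne
      rw [pv_of_not fun c' => ne (c'.unique c), lg_one, smul_zero]
    · intro _
      exact zero_smul _ _

theorem lb_special (h : ¬ ∀ a : R, v a ≤ 1) (D : Dv R) : lb v D = 0 := by
  refine Finset.sum_eq_zero fun Q _ => ?_
  have hQ : ¬ Ctr v Q := fun c => h c.1
  simp only [pv_of_not hQ, lg_one, smul_zero]

end Pool.Agent.P.MP_ee618e_ag.X.Y
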