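import Pool.Agent.P.MP_ee618e_ag.X.K2
import Pool.Agent.P.MP_ee618e_ag.X.G3
import Pool.Agent.P.MP_ee618e_ag.Y.D1

/-! A1: the divisors attached to a locally trivial cocycle on a fibred surface (copies of X/K2b glue, X/K3). -/

namespace Pool.Agent.P.MP_ee618e_ag.X.Y

open IsDedekindDomain
open scoped Classical

variable {Ω : Type} [Field Ω] [IsAlgClosed Ω] {F : Fam Ω} {N : ℕ} {ζ : Ω}
  {c : Au Ω → Au Ω → ZMod N}

namespace Fam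

omit [IsAlgClosed Ω] in
theorem a1_k_le (F : Fam Ω) {x : Ω} (hx : x ∈ F.k) : x ∈ F.R := F.R.algebraMap_mem ⟨x, F.kA hx⟩

omit [IsAlgClosed Ω] in
theorem a1_zeta (F : Fam Ω) (hζ : IsPrimitiveRoot ζ N) (hN : (N : Ω) ≠ 0) : ζ ∈ F.k :=
  root_mem F.k (Nat.pos_of_ne_zero (Fib.k1_ne hN)) F.k.one_mem hζ.pow_eq_one

omit [IsAlgClosed Ω] in
theorem conj (F : Fam Ω) {τ h : Au Ω} (hτ : τ ∈ F.G) (hh : h ∈ Fix (F.R : Set Ω)) :
    τ⁻¹ * h * τ ∈ Fix (F.R : Set Ω) := by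
  intro x hx
  rw [au_mul, au_mul, hh _ ((F.GR hτ x).2 hx), au_inv, τ.symm_apply_apply]

omit [IsAlgClosed Ω] in
theorem fix_le (F : Fam Ω) : Fix (F.R : Set Ω) ≤ Fix (F.A : Set Ω) := by
  exact fix_anti fun x hx => F.R.algebraMap_mem ⟨x, hx⟩

omit [IsAlgClosed Ω] in
/-- copy of `Fib.glue` in `X/K2b.lean` -/
theorem glue (F : Fam Ω) (N : ℕ) (a : Au Ω → Dv F.R) (fin : (a '' (F.G : Set (Au Ω))).Finite)
    (coc : ∀ σ ∈ F.G, ∀ τ ∈ F.G, ∃ E, a (σ * τ) = a σ + ad σ (a τ) + (N : ℤ) • E)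
    (loc : ∀ τ ∈ F.G, ∀ P, ap τ P = P → (N : ℤ) ∣ a τ P) :
    ∃ D₀, ∀ τ ∈ F.G, ∃ E, a τ = D₀ - ad τ D₀ + (N : ℤ) • E := by
  have hG := F.GR
  have one : ∀ P : HeightOneSpectrum F.R, ap 1 P = P := ap_fix (one_mem _)
  have inv : ∀ τ ∈ F.G, ∀ P : HeightOneSpectrum F.R, ap τ⁻¹ (ap τ P) = P := fun τ hτ P => by
    rw [← ap_mul (hG (inv_mem hτ)) (hG hτ), inv_mul_cancel, one]
  let s : Setoid (HeightOneSpectrum F.R) :=
    ⟨fun P Q => ∃ τ ∈ F.G, ap τ P = Q, fun P => ⟨1, one_mem _, one P⟩,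
      fun ⟨τ, hτ, e⟩ => ⟨τ⁻¹, inv_mem hτ, e ▸ inv τ hτ _⟩,
      fun ⟨τ, hτ, e⟩ ⟨σ, hσ, e'⟩ => ⟨σ * τ, mul_mem hσ hτ, by rw [ap_mul (hG hσ) (hG hτ), e, e']⟩⟩
  have ex : ∀ P, ∃ τ ∈ F.G, ap τ (Quotient.out (Quotient.mk s P)) = P := fun P =>
    Quotient.mk_out (s := s) P
  choose g hg eg using ex
  have fs : (Function.support fun P => a (g P) P).Finite := by
    refine (fin.biUnion fun D _ => D.support.finite_toSet).subset fun P hP => ?_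
    exact Set.mem_biUnion (Set.mem_image_of_mem a (hg P)) (Finsupp.mem_support_iff.2 hP)
  refine ⟨Finsupp.ofSupportFinite _ fs, fun τ hτ => ?_⟩
  set D₀ := Finsupp.ofSupportFinite _ fs with hD₀
  have eD : ∀ P, D₀ P = a (g P) P := fun P => congrFun Finsupp.ofSupportFinite_coe P
  have dvd : ∀ Q, (N : ℤ) ∣ (a τ - (D₀ - ad τ D₀)) Q := by
    intro Q
    obtain ⟨P, rfl⟩ : ∃ P, ap τ P = Q := ⟨ap τ⁻¹ Q, by simpa using inv τ⁻¹ (inv_mem hτ) Q⟩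
    have e1 : Quotient.mk s (ap τ P) = Quotient.mk s P :=
      (Quotient.sound (s := s) ⟨τ, hτ, rfl⟩).symm
    have e2 := eg (ap τ P)
    have e3 := eg P
    rw [e1] at e2
    set B := Quotient.out (Quotient.mk s P)
    have hu : (g (ap τ P))⁻¹ * (τ * g P) ∈ F.G := mul_mem (inv_mem (hg _)) (mul_mem hτ (hg _))
    have e4 : ap ((g (ap τ P))⁻¹ * (τ * g P)) B = B := by
      rw [ap_mul (hG (inv_mem (hg _))) (hG (mul_mem hτ (hg _))), ap_mul (hG hτ) (hG (hg _)), e3]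
      nth_rewrite 2 [← e2]
      exact inv _ (hg _) B
    obtain ⟨E, hE⟩ := coc τ hτ _ (hg P)
    obtain ⟨E', hE'⟩ := coc _ (hg (ap τ P)) _ hu
    rw [mul_inv_cancel_left, hE] at hE'
    have e5 := DFunLike.congr_fun hE' (ap τ P)
    have e6 := ad_apply (hG (hg (ap τ P))) (a ((g (ap τ P))⁻¹ * (τ * g P))) B
    rw [e2] at e6
    obtain ⟨n, hn⟩ := loc _ hu B e4
    simp only [Finsupp.add_apply, Finsupp.smul_apply, smul_eq_mul, ad_apply (hG hτ), e6, hn] at e5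
    simp only [Finsupp.sub_apply, ad_apply (hG hτ), eD]
    exact ⟨n + E' (ap τ P) - E (ap τ P), by linear_combination e5⟩
  refine ⟨(a τ - (D₀ - ad τ D₀)).mapRange (· / (N : ℤ)) (Int.zero_ediv _), ?_⟩
  rw [← sub_eq_iff_eq_add']
  ext Q
  rw [Finsupp.smul_apply, Finsupp.mapRange_apply, smul_eq_mul, Int.mul_ediv_cancel' (dvd Q)]

omit [IsAlgClosed Ω] in
/-- copy of `Fib.norm_facts` in `X/K3.lean` -/
theorem norm_facts (hc : Coc F.G c) (h1 : ∀ σ ∈ F.G, ∀ h ∈ Fix (F.R : Set Ω), c σ h = 0) :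
    (∀ σ ∈ F.G, ∀ τ ∈ F.G, ∀ h ∈ Fix (F.R : Set Ω), c σ (τ * h) = c σ τ) ∧
    (∀ τ ∈ F.G, Hom (Fix (F.R : Set Ω)) fun h => c h τ) ∧
    ∀ σ ∈ F.G, ∀ τ ∈ F.G, ∀ h ∈ Fix (F.R : Set Ω), c h (σ * τ) = c h σ + c (σ⁻¹ * h * σ) τ := by
  have hH := F.RG
  have hn : ∀ τ ∈ F.G, ∀ h ∈ Fix (F.R : Set Ω), τ⁻¹ * h * τ ∈ Fix (F.R : Set Ω) :=
    fun τ hτ h hh => F.conj hτ hh
  have a1 : ∀ σ ∈ F.G, ∀ τ ∈ F.G, ∀ h ∈ Fix (F.R : Set Ω), c σ (τ * h) = c σ τ := by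
    intro σ hσ τ hτ h hh
    have e := hc σ hσ τ hτ h (hH hh)
    rwa [h1 τ hτ h hh, h1 _ (mul_mem hσ hτ) h hh, zero_add, zero_add] at e
  have a2 : ∀ σ ∈ F.G, ∀ τ ∈ F.G, ∀ h ∈ Fix (F.R : Set Ω), c σ (h * τ) = c σ τ := by
    intro σ hσ τ hτ h hh
    rw [← a1 σ hσ τ hτ _ (hn τ hτ h hh)]
    congr 1
    group
  refine ⟨a1, fun τ hτ h hh h' hh' => ?_, fun σ hσ τ hτ h hh => ?_⟩
  · have e := hc h (hH hh) h' (hH hh') τ hτ
    rw [a2 h (hH hh) τ hτ h' hh', h1 h (hH hh) h' hh', add_zero] at e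
    exact e.symm.trans (add_comm _ _)
  · have e := hc h (hH hh) σ hσ τ hτ
    have e' := hc σ hσ _ (hH (hn σ hσ h hh)) τ hτ
    rw [a2 σ hσ τ hτ _ (hn σ hσ h hh), h1 σ hσ _ (hn σ hσ h hh), add_zero,
      show σ * (σ⁻¹ * h * σ) = h * σ by group] at e'
    linear_combination e - e'

/-- copy of `Fib.k1_loc` in `X/K3.lean` (`ζ ∈ k` by `root_mem`) -/
theorem k1_loc (hζ : IsPrimitiveRoot ζ N) (hN : (N : Ω) ≠ 0) (hc : Coc F.G c)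
    (hl : Loc F.k F.G c) (h1 : ∀ σ ∈ F.G, ∀ h ∈ Fix (F.R : Set Ω), c σ h = 0) {τ : Au Ω}
    (hτ : τ ∈ F.G) {P : HeightOneSpectrum F.R} (hP : ap τ P = P) {f : F.R} {r : Ω} (hf : f ≠ 0)
    (hr : r ^ N = f) (hk : Kum ζ (Fix (F.R : Set Ω)) r fun h => c h τ) : N ∣ ord P f := by
  have N0 : N ≠ 0 := by
    rintro rfl
    exact hN Nat.cast_zero
  have hζk := F.a1_zeta hζ hN
  have hH := F.RG
  have hNm := F.GR hτ
  obtain ⟨O, hO, hOP⟩ := dominate (F.R.val : F.R →+* Ω) Subtype.val_injective P.asIdeal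
  have hO : ∀ a : F.R, (a : Ω) ∈ O := hO
  have hOP : ∀ a : F.R, (a : Ω) ∈ O.nonunits ↔ a ∈ P.asIdeal := hOP
  have hk' : (F.k : Set Ω) ⊆ O := fun x hx => hO ⟨x, F.a1_k_le hx⟩
  have hO' : O ≠ ⊤ := by
    rintro rfl
    obtain ⟨π, h0, h1⟩ := exists_unif P
    have h2 : π ∈ P.asIdeal := by
      by_contra h3
      rw [(ord_eq_zero h0).2 h3] at h1
      exact zero_ne_one h1
    rcases (ValuationSubring.mem_nonunits_iff_or _).1 ((hOP π).2 h2) with h3 | h3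
    · exact h0 (Subtype.ext h3)
    · exact h3 trivial
  have ho : ∀ a a' : F.R, a ≠ 0 → (a' : Ω) = τ a → a' ≠ 0 ∧ ord P a' = ord P a := by
    intro a a' ha e
    have h0 : a' ≠ 0 := fun h => ha (Subtype.ext (τ.injective (by
      rw [← e, h]
      simp)))
    have e1 := ad_apply hNm (dv a) P
    rw [ad_dv hNm e, hP, dv_apply h0, dv_apply ha] at e1
    exact ⟨h0, by exact_mod_cast e1⟩
  obtain ⟨h₁, hh₁, e₁⟩ := pc_conj F.alg O (O.comap (τ : Ω →+* Ω)) (by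
    intro x hx
    obtain ⟨a, ha, b, hb, b0, rfl⟩ := mem_closure_alg.1 hx
    rw [ValuationSubring.mem_comap]
    rcases eq_or_ne a 0 with rfl | a0
    · simp
    have a0' : (⟨a, ha⟩ : F.R) ≠ 0 := fun h => a0 (congrArg Subtype.val h)
    have b0' : (⟨b, hb⟩ : F.R) ≠ 0 := fun h => b0 (congrArg Subtype.val h)
    obtain ⟨a1, a2⟩ := ho ⟨a, ha⟩ ⟨τ a, (hNm a).2 ha⟩ a0' rfl
    obtain ⟨b1, b2⟩ := ho ⟨b, hb⟩ ⟨τ b, (hNm b).2 hb⟩ b0' rfl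
    have k1 := (val_iff hO hOP a0' b0').1
    have k2 := (val_iff hO hOP a1 b1).1
    rw [a2, b2] at k2
    rw [map_div₀]
    exact k1.trans k2.symm)
  have hτ' : τ * h₁ ∈ F.G := mul_mem hτ (hH hh₁)
  have hst : τ * h₁ ∈ St (O : Set Ω) := fun x => e₁ x
  obtain ⟨β, hβ, eβ⟩ := hl O hk' hO'
  obtain ⟨h, hh, hi, eh⟩ := ram F.alg hO hOP hζ N0 (F.kA hζk)
  have hh' := F.conj hτ' hh
  have hi' := hi.conj hst
  have hW : Fix (F.R : Set Ω) ⊓ St (O : Set Ω) ≤ F.G ⊓ St (O : Set Ω) := inf_le_inf_right _ hH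
  have t1 := tame hk' hζ N0 hζk (W := Fix (F.R : Set Ω) ⊓ St (O : Set Ω)) (β := β) F.fo
    F.Gk (inf_le_left.trans hH) (fun σ hσ ρ hρ => by
      have e := eβ σ (hW hσ) ρ (hW hρ)
      rw [h1 σ (hH hσ.1) ρ hρ.1] at e
      linear_combination e) (hβ.mono hW subset_rfl) hτ' hst ⟨hh, hi.st⟩ ⟨hh', hi'.st⟩ hi
  have t2 := eβ h ⟨hH hh, hi.st⟩ _ ⟨hτ', hst⟩
  have t3 := eβ _ ⟨hτ', hst⟩ _ ⟨hH hh', hi'.st⟩
  rw [h1 _ hτ' _ hh', t1, show τ * h₁ * ((τ * h₁)⁻¹ * h * (τ * h₁)) = h * (τ * h₁) by group] at t3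
  rw [(norm_facts hc h1).1 h (hH hh) τ hτ h₁ hh₁] at t2
  have t4 : c h τ = 0 := by linear_combination t2 - t3
  have t5 := hk.2 h hh
  simp only [t4, ZMod.val_zero, pow_zero] at t5
  rw [eh f r hf hr] at t5
  exact hζ.dvd_of_pow_eq_one _ (mul_right_cancel₀ hk.1 t5)

/-- `kummer_fix`, `Fib.kum_clear`; see `Fib.kum_R` in `X/K2.lean` -/
theorem kum_R (hζ : IsPrimitiveRoot ζ N) (hN : (N : Ω) ≠ 0) {χ : Au Ω → ZMod N}
    (h : Hom (Fix (F.R : Set Ω)) χ) (hs : Sm (Fix (F.R : Set Ω)) Set.univ χ) :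
    ∃ (f : F.R) (r : Ω), f ≠ 0 ∧ r ^ N = f ∧ Kum ζ (Fix (F.R : Set Ω)) r χ := by
  have hN0 : N ≠ 0 := fun h => hN (by simp [h])
  obtain ⟨r₁, hk₁, hr₁⟩ := kummer_fix hζ hN
    (Subfield.subset_closure (F.a1_k_le (F.a1_zeta hζ hN))) h (F.alg ▸ hs)
  exact kum_clear hN0 hk₁ hr₁

/-- copy of the first part of `Fib.k1_data` in `X/K3.lean` (up to the application of `glue`) -/
theorem data (hζ : IsPrimitiveRoot ζ N) (hN : (N : Ω) ≠ 0) (hs : Sm2 F.G c) (hc : Coc F.G c)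
    (hl : Loc F.k F.G c) (h1 : ∀ σ ∈ F.G, ∀ h ∈ Fix (F.R : Set Ω), c σ h = 0) :
    ∃ D₀ : Dv F.R, ∀ τ ∈ F.G, ∃ (f : F.R) (r : Ω) (E : Dv F.R), f ≠ 0 ∧ r ^ N = f ∧
      (Kum ζ (Fix (F.R : Set Ω)) r fun h => c h τ) ∧ dv f = D₀ - ad τ D₀ + (N : ℤ) • E := by
  have N0 : N ≠ 0 := by
    rintro rfl
    exact hN Nat.cast_zero
  have hζk := F.a1_zeta hζ hN
  have hH := F.RG
  have hNm := F.GR
  obtain ⟨-, n2, n3⟩ := norm_facts hc h1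
  have tw : ∀ σ ∈ F.G, ∀ h ∈ Fix (F.R : Set Ω), ∀ (r : Ω) (χ : Au Ω → ZMod N),
      Kum ζ (Fix (F.R : Set Ω)) r χ → h (σ r) = ζ ^ (χ (σ⁻¹ * h * σ)).val * σ r := by
    intro σ hσ h hh r χ hk
    have e := congrArg σ (hk.2 _ (F.conj hσ hh))
    rw [map_mul, map_pow, F.Gk hσ ζ hζk, ← au_mul, ← mul_assoc, ← mul_assoc,
      mul_inv_cancel, one_mul] at e
    exact e
  have tr : ∀ σ ∈ F.G, ∀ a : F.R, a ≠ 0 → ∃ a' : F.R, a' ≠ 0 ∧ (a' : Ω) = σ a ∧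
      ad σ (dv a) = dv a' := fun σ hσ a ha =>
    ⟨⟨σ a, (hNm hσ a).2 a.2⟩, fun h => ha (Subtype.ext (σ.injective (by
      rw [show σ a = 0 from congrArg Subtype.val h]
      simp))), rfl, ad_dv (hNm hσ) rfl⟩
  have ne : ∀ a : F.R, a ≠ 0 → (a : Ω) ≠ 0 := fun a ha h => ha (Subtype.ext h)
  have ex : ∀ χ : Au Ω → ZMod N, ∃ (f : F.R) (r : Ω), Hom (Fix (F.R : Set Ω)) χ →
      Sm (Fix (F.R : Set Ω)) Set.univ χ → f ≠ 0 ∧ r ^ N = f ∧ Kum ζ (Fix (F.R : Set Ω)) r χ := by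
    intro χ
    by_cases h : Hom (Fix (F.R : Set Ω)) χ ∧ Sm (Fix (F.R : Set Ω)) Set.univ χ
    · obtain ⟨f, r, h'⟩ := kum_R hζ hN h.1 h.2
      exact ⟨f, r, fun _ _ => h'⟩
    · exact ⟨0, 0, fun a b => absurd ⟨a, b⟩ h⟩
  choose f r hfr using ex
  let χ : Au Ω → Au Ω → ZMod N := fun τ h => if h ∈ Fix (F.R : Set Ω) then c h τ else 0
  have eχ : ∀ τ, ∀ h ∈ Fix (F.R : Set Ω), χ τ h = c h τ := fun τ h hh => if_pos hh
  have sp : ∀ τ ∈ F.G, f (χ τ) ≠ 0 ∧ r (χ τ) ^ N = f (χ τ) ∧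
      Kum ζ (Fix (F.R : Set Ω)) (r (χ τ)) fun h => c h τ := by
    intro τ hτ
    obtain ⟨a1, a2, a3⟩ := hfr (χ τ) (fun h hh h' hh' => by
      rw [eχ τ h hh, eχ τ h' hh', eχ τ _ (mul_mem hh hh')]
      exact n2 τ hτ h hh h' hh')
      (((hs.left hτ).mono hH subset_rfl).congr fun h hh => (eχ τ h hh).symm)
    exact ⟨a1, a2, a3.1, fun h hh => by rw [a3.2 h hh, eχ τ h hh]⟩
  have sχ : Sm (F.G) Set.univ χ := by
    obtain ⟨T, hT⟩ := hs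
    refine ⟨T, Set.subset_univ _, fun σ hσ τ hτ e => funext fun h => ?_⟩
    by_cases hh : h ∈ Fix (F.R : Set Ω)
    · rw [eχ σ h hh, eχ τ h hh]
      exact hT h (hH hh) h (hH hh) σ hσ τ hτ (fun _ _ => rfl) e
    · simp only [χ, if_neg hh]
  obtain ⟨D₀, hD⟩ := F.glue N (fun τ => dv (f (χ τ)))
    ((sχ.map fun x => dv (f x)).finite_range F.fo) (fun σ hσ τ hτ => by
      obtain ⟨a1, a2, a3⟩ := sp σ hσ
      obtain ⟨b1, b2, b3⟩ := sp τ hτ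
      obtain ⟨c1, c2, c3⟩ := sp _ (mul_mem hσ hτ)
      obtain ⟨g, g1, g2, g3⟩ := tr σ hσ _ b1
      have e0 : (r (χ σ) * σ (r (χ τ)) / r (χ (σ * τ))) ^ N = f (χ σ) * g / f (χ (σ * τ)) := by
        rw [div_pow, mul_pow, ← map_pow, a2, b2, c2, g2]
      have m := Fib.mem_of_pow (S := (F.R : Set Ω)) hN
        (z := r (χ σ) * σ (r (χ τ)) / r (χ (σ * τ))) (fun h hh => by
          rw [map_div₀, map_mul, a3.2 h hh, tw σ hσ h hh _ _ b3, c3.2 h hh]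
          simp only [n3 σ hσ τ hτ h hh, pow_val_add hζ N0]
          have z0 := hζ.ne_zero N0
          have := c3.1
          field_simp) (by
          rw [e0]
          exact mem_closure_alg.2 ⟨_, (f (χ σ) * g).2, _, (f (χ (σ * τ))).2, ne _ c1, rfl⟩)
      obtain ⟨u, hu, v, hv, v0, e⟩ := mem_closure_alg.1 m
      have u0 : u ≠ 0 := by
        rintro rfl
        rw [zero_div] at e
        exact div_ne_zero (mul_ne_zero a3.1 ((map_ne_zero σ).2 b3.1)) c3.1 e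
      have u1 : (⟨u, hu⟩ : F.R) ≠ 0 := fun h => u0 (congrArg Subtype.val h)
      have v1 : (⟨v, hv⟩ : F.R) ≠ 0 := fun h => v0 (congrArg Subtype.val h)
      have e1 : (⟨u, hu⟩ : F.R) ^ N * f (χ (σ * τ)) = f (χ σ) * g * ⟨v, hv⟩ ^ N := by
        refine Subtype.ext ?_
        rw [e, div_pow, div_eq_div_iff (pow_ne_zero _ v0) (ne _ c1)] at e0
        exact e0
      have e2 := congrArg dv e1
      rw [dv_mul (pow_ne_zero _ u1) c1, dv_mul (mul_ne_zero a1 g1) (pow_ne_zero _ v1),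
        dv_mul a1 g1, dv_pow u1, dv_pow v1] at e2
      refine ⟨dv ⟨v, hv⟩ - dv ⟨u, hu⟩, ?_⟩
      rw [g3, smul_sub]
      linear_combination (norm := abel1) e2) (fun τ hτ P hP => by
      obtain ⟨a1, a2, a3⟩ := sp τ hτ
      rw [dv_apply a1]
      exact_mod_cast k1_loc hζ hN hc hl h1 hτ hP a1 a2 a3)
  refine ⟨D₀, fun τ hτ => ?_⟩
  obtain ⟨E, hE⟩ := hD τ hτ
  obtain ⟨a1, a2, a3⟩ := sp τ hτ
  exact ⟨_, _, E, a1, a2, a3, hE⟩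

end Fam

end Pool.Agent.P.MP_ee618e_ag.X.Y
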