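import Pool.Agent.P.MP_ee618e_ag.Y.A1
import Pool.Agent.P.MP_ee618e_ag.X.K3b

/-! A2: an operator which kills divisor classes kills locally trivial cocycles. -/

namespace Pool.Agent.P.MP_ee618e_ag.X.Y

open IsDedekindDomain
open scoped Classical

variable {Ω : Type} [Field Ω] [IsAlgClosed Ω] {N : ℕ} {ζ : Ω} {S : Set Ω}
  {c : Au Ω → Au Ω → ZMod N}

omit [IsAlgClosed Ω] in
theorem sm2_cj {Y : Type} {G G' : Subgroup (Au Ω)} {c : Au Ω → Au Ω → Y} (h : Sm2 G c) {s : Au Ω}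
    (hs : ∀ σ ∈ G', s⁻¹ * σ * s ∈ G) : Sm2 G' fun σ τ => c (s⁻¹ * σ * s) (s⁻¹ * τ * s) := by
  obtain ⟨T, h⟩ := h
  have k : ∀ σ τ : Au Ω, Ag (T.image s) σ τ → Ag T (s⁻¹ * σ * s) (s⁻¹ * τ * s) := fun σ τ e t ht => by
    show s⁻¹ (σ (s t)) = s⁻¹ (τ (s t))
    rw [e _ (Finset.mem_image_of_mem _ ht)]
  exact ⟨T.image s, fun σ hσ σ' hσ' τ hτ τ' hτ' a b =>
    h _ (hs σ hσ) _ (hs σ' hσ') _ (hs τ hτ) _ (hs τ' hτ') (k _ _ a) (k _ _ b)⟩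

omit [IsAlgClosed Ω] in
theorem coc_cj {Y : Type} [AddCommGroup Y] {G G' : Subgroup (Au Ω)} {c : Au Ω → Au Ω → Y}
    (h : Coc G c) {s : Au Ω} (hs : ∀ σ ∈ G', s⁻¹ * σ * s ∈ G) :
    Coc G' fun σ τ => c (s⁻¹ * σ * s) (s⁻¹ * τ * s) := by
  intro σ hσ τ hτ ρ hρ
  have k : ∀ σ τ : Au Ω, s⁻¹ * (σ * τ) * s = s⁻¹ * σ * s * (s⁻¹ * τ * s) := fun σ τ => by group
  simp only [k]
  exact h _ (hs σ hσ) _ (hs τ hτ) _ (hs ρ hρ)

omit [IsAlgClosed Ω] in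
theorem a2_conj {A : Set Ω} (hA : Fix S ≤ St A) {τ h : Au Ω} (hτ : τ ∈ Fix S)
    (hh : h ∈ Fix S ⊓ Fix A) : τ⁻¹ * h * τ ∈ Fix S ⊓ Fix A :=
  ⟨(Fix S).mul_mem ((Fix S).mul_mem ((Fix S).inv_mem hτ) hh.1) hτ, fun x hx => by
    rw [au_mul, au_mul, hh.2 _ ((hA hτ x).2 hx), au_inv, τ.symm_apply_apply]⟩

/-- copy of `Fib.inf_cob` in `X/K2b.lean`: `smb`, `tsen_trans` -/
theorem inf_cob {k A : Subfield Ω} [IsAlgClosed k] [IsAlgClosed A] (kA : k ≤ A) (td : TD k A 1)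
    (hk : (k : Set Ω) ⊆ S) (hS : Acl S = Set.univ) (hA : Fix S ≤ St (A : Set Ω))
    (hN : (N : Ω) ≠ 0) (hs : Sm2 (Fix S) c) (hc : Coc (Fix S) c)
    (h1 : ∀ σ ∈ Fix S, ∀ h ∈ Fix S ⊓ Fix (A : Set Ω), c σ h = 0)
    (h2 : ∀ σ ∈ Fix S, ∀ h ∈ Fix S ⊓ Fix (A : Set Ω), c h σ = 0) : Cob (Fix S) c := by
  have hn : ∀ τ ∈ Fix S, ∀ h ∈ Fix S ⊓ Fix (A : Set Ω), τ⁻¹ * h * τ ∈ Fix S ⊓ Fix (A : Set Ω) :=
    fun τ hτ h hh => a2_conj hA hτ hh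
  have a1 : ∀ σ ∈ Fix S, ∀ τ ∈ Fix S, ∀ h ∈ Fix S ⊓ Fix (A : Set Ω), c σ (τ * h) = c σ τ := by
    intro σ hσ τ hτ h hh
    have e := hc σ hσ τ hτ h hh.1
    rwa [h1 τ hτ h hh, h1 _ (mul_mem hσ hτ) h hh, zero_add, zero_add] at e
  have a2 : ∀ σ ∈ Fix S, ∀ τ ∈ Fix S, ∀ h ∈ Fix S ⊓ Fix (A : Set Ω), c (σ * h) τ = c σ τ := by
    intro σ hσ τ hτ h hh
    have e := hc σ hσ h hh.1 τ hτ
    rw [h2 τ hτ h hh, h1 σ hσ h hh, zero_add, add_zero,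
      show h * τ = τ * (τ⁻¹ * h * τ) by group, a1 σ hσ τ hτ _ (hn τ hτ h hh)] at e
    exact e.symm
  have st : ∀ σ : Fix S, (σ : Au Ω) ∈ St (A : Set Ω) := fun σ => hA σ.2
  let ρ : Fix S →* Au A :=
    { toFun := fun σ =>
        { toFun := fun x => ⟨σ.1 x, (st σ x).2 x.2⟩
          invFun := fun x => ⟨σ.1.symm x, (st σ⁻¹ x).2 x.2⟩
          left_inv := fun x => Subtype.ext (σ.1.symm_apply_apply x)
          right_inv := fun x => Subtype.ext (σ.1.apply_symm_apply x)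
          map_mul' := fun x y => Subtype.ext (map_mul σ.1 _ _)
          map_add' := fun x y => Subtype.ext (map_add σ.1 _ _) }
      map_one' := rfl
      map_mul' := fun _ _ => rfl }
  let K : Subfield A := k.comap A.subtype
  let e : k ≃+* K :=
    { toFun := fun x => ⟨⟨x, kA x.2⟩, x.2⟩
      invFun := fun x => ⟨x.1, x.2⟩
      left_inv := fun _ => rfl
      right_inv := fun _ => rfl
      map_mul' := fun _ _ => rfl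
      map_add' := fun _ _ => rfl }
  have : IsAlgClosed K := IsAlgClosed.of_ringEquiv _ _ e
  refine tsen_trans K (fun x _ hx => ?_) ρ (fun x => ?_) (fun σ x hx => ?_) (fun h => hN ?_)
    (fun T' => ?_) hc ?_
  · exact td (fun i => (x i : Ω)) (fun i => (x i).2)
      (hx.ringHom_of_comp_eq (e.symm : K →+* k) A.subtype e.symm.surjective
        Subtype.val_injective rfl)
  · refine Set.Finite.of_finite_image ((fo_fix hS x).subset ?_) Subtype.val_injective.injOn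
    rintro _ ⟨y, ⟨_, ⟨σ, rfl⟩, rfl⟩, rfl⟩
    exact ⟨σ, σ.2, rfl⟩
  · exact Subtype.ext (σ.2 x (hk hx))
  · simpa using congrArg A.subtype h
  · refine ⟨T'.image Subtype.val, fun σ τ h x hx => Subtype.ext ?_⟩
    exact h x (Finset.mem_image_of_mem _ hx)
  · obtain ⟨T, hT⟩ := hs
    obtain ⟨T0, h0, hT0⟩ := smb hS hA T
    have key : ∀ σ σ' : Fix S, Ag (T0.subtype (· ∈ A)) (ρ σ) (ρ σ') →
        ∃ h ∈ Fix S ⊓ Fix (A : Set Ω), Ag T σ (σ' * h) := by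
      intro σ σ' hσ
      obtain ⟨h, hh, eh⟩ := hT0 (σ'⁻¹ * σ : Fix S) (σ'⁻¹ * σ).2 fun x hx => by
        have := congrArg Subtype.val (hσ ⟨x, h0 hx⟩ (Finset.mem_subtype.2 hx))
        exact σ'.1.symm_apply_eq.2 this
      exact ⟨h, hh, fun x hx => σ'.1.symm_apply_eq.1 (eh x hx)⟩
    refine ⟨T0.subtype (· ∈ A), fun σ σ' τ τ' e1 e2 => ?_⟩
    obtain ⟨h, hh, eh⟩ := key σ σ' e1
    obtain ⟨h', hh', eh'⟩ := key τ τ' e2
    rw [hT σ σ.2 _ (mul_mem σ'.2 hh.1) τ τ.2 _ (mul_mem τ'.2 hh'.1) eh eh',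
      a1 _ (mul_mem σ'.2 hh.1) _ τ'.2 h' hh', a2 _ σ'.2 _ τ'.2 h hh]

omit [IsAlgClosed Ω] in
/-- `exists_kum` on the open subgroup `G ⊓ Fix {ρ ^ N}`, `exists_gamma`; see `Fib.gamma` -/
theorem gamma (hζ : IsPrimitiveRoot ζ N) (hN : N ≠ 0) {G H : Subgroup (Au Ω)} (hG : FO G)
    (hH : H ≤ G) (hGζ : ∀ σ ∈ G, σ ζ = ζ) {ρ : Ω} (h0 : ρ ≠ 0) (hρ : ∀ h ∈ H, h (ρ ^ N) = ρ ^ N) :
    ∃ γ : Au Ω → ZMod N, Sm G Set.univ γ ∧ Kum ζ H ρ γ ∧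
      ∀ σ ∈ G, ∀ h ∈ H, γ (σ * h) = γ σ + γ h := by
  let T : Finset Ω := {ρ ^ N}
  have hW : H ≤ G ⊓ Fix (T : Set Ω) := fun h hh => ⟨hH hh, fun x hx => by
    obtain rfl : x = ρ ^ N := Finset.mem_singleton.1 hx
    exact hρ h hh⟩
  obtain ⟨χ, -, hχ⟩ := exists_kum (G := G ⊓ Fix (T : Set Ω)) hζ hN h0 fun σ hσ =>
    hσ.2 _ (Finset.mem_singleton_self _)
  obtain ⟨γ, s1, g1, g2⟩ := exists_gamma hG T (W := G ⊓ Fix (T : Set Ω)) inf_le_left le_rfl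
    (Kum.hom (G := G ⊓ Fix (T : Set Ω)) hζ hN (fun σ hσ => hGζ σ hσ.1) hχ)
    (hχ.sm hζ hN (Set.mem_univ ρ))
  have e : ∀ h ∈ H, γ h = χ h := fun h hh => by
    have := g2 1 (one_mem _) h (hW hh)
    rwa [one_mul, g1, zero_add] at this
  exact ⟨γ, s1, ⟨h0, fun h hh => by rw [e h hh, hχ.2 h (hW hh)]⟩,
    fun σ hσ h hh => by rw [e h hh, g2 σ hσ h (hW hh)]⟩

variable {F : Fam Ω} {ι : Type} [Fintype ι] {g : ι → Au Ω} {n : ι → ℤ}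

theorem a2_lg {M : Type} [CommGroupWithZero M] {a : ι → M} {b c d : M} (ha : ∀ i, a i ≠ 0)
    (hb : b ≠ 0) (hc : c ≠ 0) (hd : d ≠ 0) :
    lg ((∏ i, a i ^ n i) * b / (c * d)) = ∑ i, n i • lg (a i) + lg b - (lg c + lg d) := by
  have h : ∀ i ∈ Finset.univ, a i ^ n i ≠ 0 := fun i _ => zpow_ne_zero _ (ha i)
  have h' := Finset.prod_ne_zero_iff.2 h
  rw [lg_div (mul_ne_zero h' hb) (mul_ne_zero hc hd), lg_mul h' hb, lg_mul hc hd, lg_prod _ h]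
  simp only [lg_zpow (ha _)]

omit [IsAlgClosed Ω] [Fintype ι] in
theorem Fam.a2_W (hg : ∀ i, g i ∈ Fix (F.A : Set Ω))
    (hgG : ∀ i, ∀ σ ∈ Fix S, (g i)⁻¹ * σ * g i ∈ F.G) {h : Au Ω}
    (hh : h ∈ Fix S ⊓ Fix (F.A : Set Ω)) (i : ι) : (g i)⁻¹ * h * g i ∈ Fix (F.R : Set Ω) :=
  F.GAR ⟨hgG i h hh.1, (Fix _).mul_mem ((Fix _).mul_mem ((Fix _).inv_mem (hg i)) hh.2) (hg i)⟩

/-- Let `W = Fix S ⊓ Fix A`; `W` and its conjugates by the `g i` are in `Fix R` (`GAR`). Take `D₀` from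
`data`, `z₀` from `Kills.dv D₀`, `ρ ^ N = z₀`. For `τ ∈ Fix S` the element `u i = τ⁻¹ (g i)⁻¹ τ (g i)`
is in `G ⊓ Fix A ≤ Fix R`, so `c h' ((g i)⁻¹ τ (g i)) = c h' τ` (`norm_facts`) and
`lb (vc v (g i)) (ad τ D₀) = lb (vc (vc v τ) (g i)) D₀` (`lb_vc`, `ad_mul`, `ad_fix`, `vc_vc`). With
`f, r, E` from `data` and `z` from `Kills.dv E`, the element `x = ∏ (g i r) ^ n i * τ ρ / (ρ z)` has
`v (x ^ N) = 1` for all `v` trivial on `A` (`Kills.fn`), so `x ∈ A` (`mem_of_triv`, `root_mem`);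
apply `h`. -/
theorem Fam.ra1 (hζ : IsPrimitiveRoot ζ N) (hN : (N : Ω) ≠ 0) (hs : Sm2 F.G c) (hc : Coc F.G c)
    (hl : Loc F.k F.G c) (h1 : ∀ σ ∈ F.G, ∀ h ∈ Fix (F.R : Set Ω), c σ h = 0)
    (hg : ∀ i, g i ∈ Fix (F.A : Set Ω)) (hK : Kills F.R g n) (hG : Fix S ≤ F.G)
    (hgG : ∀ i, ∀ σ ∈ Fix S, (g i)⁻¹ * σ * g i ∈ F.G) :
    ∃ ρ : Ω, ρ ≠ 0 ∧ (∀ h ∈ Fix S ⊓ Fix (F.A : Set Ω), h (ρ ^ N) = ρ ^ N) ∧
      ∀ γ : Au Ω → ZMod N, Kum ζ (Fix S ⊓ Fix (F.A : Set Ω)) ρ γ → ∀ τ ∈ Fix S,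
        ∀ h ∈ Fix S ⊓ Fix (F.A : Set Ω),
          ∑ i, n i • c ((g i)⁻¹ * h * g i) ((g i)⁻¹ * τ * g i) = γ h - γ (τ⁻¹ * h * τ) := by
  have N0 : N ≠ 0 := by
    rintro rfl
    exact hN Nat.cast_zero
  have z0 := hζ.ne_zero N0
  have hζA : ζ ∈ F.A := root_mem F.A (Nat.pos_of_ne_zero N0) F.A.one_mem hζ.pow_eq_one
  have hζk : ζ ∈ F.k := root_mem F.k (Nat.pos_of_ne_zero N0) F.k.one_mem hζ.pow_eq_one
  have hW : ∀ h ∈ Fix S ⊓ Fix (F.A : Set Ω), h ∈ Fix (F.R : Set Ω) := fun h hh =>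
    F.GAR ⟨hG hh.1, hh.2⟩
  obtain ⟨D₀, hD⟩ := Fam.data hζ hN hs hc hl h1
  obtain ⟨z₀, a0, a1, a2⟩ := hK.dv D₀
  obtain ⟨ρ, hρ⟩ := IsAlgClosed.exists_pow_nat_eq z₀ (Nat.pos_of_ne_zero N0)
  have ρ0 : ρ ≠ 0 := by
    rintro rfl
    exact a0 (hρ.symm.trans (zero_pow N0))
  refine ⟨ρ, ρ0, fun h hh => by rw [hρ]; exact a1 h (hW h hh) (Fam.a2_W hg hgG hh),
    fun γ hγ τ hτ h hh => ?_⟩
  obtain ⟨f, r, E, f0, hr, hk, hE⟩ := hD τ (hG hτ)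
  obtain ⟨z, b0, b1, b2⟩ := hK.dv E
  have f0' : (f : Ω) ≠ 0 := fun e => f0 (Subtype.ext e)
  have hu : ∀ i, τ⁻¹ * ((g i)⁻¹ * τ * g i) ∈ Fix (F.R : Set Ω) := fun i =>
    F.GAR ⟨F.G.mul_mem (F.G.inv_mem (hG hτ)) (hgG i τ hτ), fun x hx => by
      rw [au_mul, au_mul, au_mul, hg i x hx, inv_mem (hg i) _ ((F.GA (hG hτ) x).2 hx), au_inv,
        τ.symm_apply_apply]⟩
  have gr : ∀ i, g i r ≠ 0 := fun i => (map_ne_zero _).2 hk.1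
  have tρ : τ ρ ≠ 0 := (map_ne_zero _).2 ρ0
  have hx : (∏ i, g i r ^ n i) * τ ρ / (ρ * z) ∈ F.A := by
    refine root_mem F.A (Nat.pos_of_ne_zero N0) (mem_of_triv fun O hO => ?_) rfl
    have tv := triv_of_sub hO
    have ne : ∀ x : Ω, x ≠ 0 → O.valuation x ≠ 0 := fun x => (Valuation.ne_zero_iff _).2
    have e1 : ((∏ i, g i r ^ n i) * τ ρ / (ρ * z)) ^ N =
        (∏ i, g i f ^ n i) * τ z₀ / (z₀ * z ^ N) := by
      rw [div_pow, mul_pow, mul_pow, ← map_pow, hρ, ← Finset.prod_pow, ← hr]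
      congr 2
      refine Finset.prod_congr rfl fun i _ => ?_
      rw [map_pow, ← zpow_natCast, ← zpow_natCast, zpow_comm]
    have g0 : ∀ i, O.valuation (g i f) ≠ 0 := fun i => ne _ ((map_ne_zero _).2 f0')
    have t0 := ne _ ((map_ne_zero τ).2 a0)
    have y0 := pow_ne_zero N (ne _ b0)
    have e2 : ∀ i, lb (vc (vc O.valuation τ) (g i)) D₀ = lb (vc O.valuation (g i)) (ad τ D₀) :=
      fun i => by
        have e := lb_vc (v := vc (vc O.valuation (g i)) τ) (fix_le_st _ (hu i)) D₀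
        rw [ad_fix (hu i), lb_vc (F.GR (hG hτ)), vc_vc, vc_vc, mul_inv_cancel_left, mul_assoc,
          mul_inv_cancel_left] at e
        rwa [vc_vc]
    rw [e1]
    simp only [map_div₀, map_mul, map_prod, map_zpow₀, map_pow]
    refine lg_inj (div_ne_zero (mul_ne_zero (Finset.prod_ne_zero_iff.2 fun i _ =>
      zpow_ne_zero _ (g0 i)) t0) (mul_ne_zero (ne _ a0) y0)) one_ne_zero ?_
    rw [a2_lg g0 t0 (ne _ a0) y0, lg_one, lg_pow (ne _ b0), hK.fn f f0 _ _ tv, a2 _ _ tv, b2 _ _ tv,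
      ← vc_apply, a2 _ _ (tv.vc (F.GA (hG hτ))), hE, Finset.smul_sum, ← Finset.sum_add_distrib,
      ← Finset.sum_add_distrib, ← Finset.sum_sub_distrib]
    refine Finset.sum_eq_zero fun i _ => ?_
    rw [e2, lb_add, lb_sub, lb_zsmul]
    module
  let e : ZMod N →+ Additive Ωˣ := AddMonoidHom.mk' (fun a => lg (ζ ^ a.val)) fun a b => by
    rw [pow_val_add hζ N0, lg_mul (pow_ne_zero _ z0) (pow_ne_zero _ z0)]
  have ee : ∀ a x, x ≠ 0 → lg (ζ ^ ZMod.val a * x) = e a + lg x := fun a x hx =>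
    lg_mul (pow_ne_zero _ z0) hx
  have tw : ∀ (s : Au Ω) (x : Ω) (a : ZMod N), s ζ = ζ → (s⁻¹ * h * s) x = ζ ^ a.val * x →
      h (s x) = ζ ^ a.val * s x := fun s x a hs e => by
    have e := congrArg s e
    rwa [map_mul, map_pow, hs, ← au_mul, ← mul_assoc, ← mul_assoc, mul_inv_cancel, one_mul] at e
  have k := congrArg lg (hh.2 _ hx)
  simp only [map_div₀, map_mul, map_prod, map_zpow₀,
    fun i => tw (g i) r _ (hg i ζ hζA) (hk.2 _ (Fam.a2_W hg hgG hh i)),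
    tw τ ρ _ (F.Gk (hG hτ) ζ hζk) (hγ.2 _ (a2_conj (hG.trans F.GA) hτ hh)), hγ.2 h hh,
    b1 h (hW h hh) (Fam.a2_W hg hgG hh)] at k
  rw [a2_lg (fun i => mul_ne_zero (pow_ne_zero _ z0) (gr i)) (mul_ne_zero (pow_ne_zero _ z0) tρ)
    (mul_ne_zero (pow_ne_zero _ z0) ρ0) b0, a2_lg gr tρ ρ0 b0] at k
  simp only [ee _ _ (gr _), ee _ _ tρ, ee _ _ ρ0, smul_add, Finset.sum_add_distrib] at k
  have e3 : ∀ i, c ((g i)⁻¹ * h * g i) ((g i)⁻¹ * τ * g i) = c ((g i)⁻¹ * h * g i) τ := fun i => by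
    rw [← (Fam.norm_facts hc h1).1 _ (hgG i h hh.1) τ (hG hτ) _ (hu i), mul_inv_cancel_left]
  refine pow_val_inj hζ N0 (lg_inj (pow_ne_zero _ z0) (pow_ne_zero _ z0) ?_)
  show e _ = e _
  simp only [e3, map_sum, map_zsmul, map_sub]
  linear_combination (norm := abel1) k

/-- `tsen` on `Fix R`, `hs_normal`, `ra1`, `gamma`, `inf_cob`; see `Fib.k1` in `X/K3b.lean` -/
theorem Fam.ra (hN : (N : Ω) ≠ 0) (hs : Sm2 F.G c) (hc : Coc F.G c) (hl : Loc F.k F.G c)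
    (hg : ∀ i, g i ∈ Fix (F.A : Set Ω)) (hK : Kills F.R g n) (hk : (F.k : Set Ω) ⊆ S)
    (hS : Acl S = Set.univ) (hG : Fix S ≤ F.G)
    (hgG : ∀ i, ∀ σ ∈ Fix S, (g i)⁻¹ * σ * g i ∈ F.G) :
    Cob (Fix S) fun σ τ => ∑ i, n i • c ((g i)⁻¹ * σ * g i) ((g i)⁻¹ * τ * g i) := by
  have : NeZero (N : Ω) := ⟨hN⟩
  have : NeZero N := NeZero.of_neZero_natCast Ω
  obtain ⟨ζ, hζ⟩ := HasEnoughRootsOfUnity.exists_primitiveRoot Ω N
  have N0 := NeZero.ne N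
  have hζk : ζ ∈ F.k := root_mem F.k (Nat.pos_of_ne_zero N0) F.k.one_mem hζ.pow_eq_one
  have hA := hG.trans F.GA
  have d2 : ∀ {G : Subgroup (Au Ω)}, FO G → ∀ β : Au Ω → ZMod N, Sm G Set.univ β →
      Sm2 G fun σ τ => β σ + β τ - β (σ * τ) := fun hG β hβ =>
    (hβ.sm2 hβ fun x y => x + y).map₂ (hβ.sm2_mul hG) fun x y => x - y
  obtain ⟨β, sβ, eβ⟩ := hs_normal F.fo F.RG (fun τ hτ h hh => F.conj hτ hh) hs hc
    (tsen F.A F.td1 (fo_fix F.alg) F.fix_le hN (hs.mono F.RG) (hc.mono F.RG))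
  have s1 := hs.map₂ (d2 F.fo β sβ) fun x y => x - y
  have c1 := hc.sub (coc_d β)
  have h1 : ∀ σ ∈ F.G, ∀ h ∈ Fix (F.R : Set Ω), c σ h - (β σ + β h - β (σ * h)) = 0 :=
    fun σ hσ h hh => by rw [eβ σ hσ h hh, sub_self]
  generalize hc' : (fun σ τ => c σ τ - (β σ + β τ - β (σ * τ))) = c' at s1 c1
  have ec : ∀ σ τ, c' σ τ = c σ τ - (β σ + β τ - β (σ * τ)) := fun σ τ => by rw [← hc']
  have bβ : Cob F.G fun σ τ => β σ + β τ - β (σ * τ) := ⟨β, sβ, fun _ _ _ _ => rfl⟩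
  obtain ⟨ρ, ρ0, hρ, hk'⟩ := Fam.ra1 hζ hN s1 c1 (fun O hO hO' =>
    ((hl O hO hO').sub (bβ.mono inf_le_left)).congr fun σ _ τ _ => (ec σ τ).symm)
    (fun σ hσ h hh => (ec σ h).trans (h1 σ hσ h hh)) hg hK hG hgG
  obtain ⟨γ, sγ, kγ, eγ⟩ := gamma hζ N0 (fo_fix hS) inf_le_left (fun σ hσ => hσ ζ (hk hζk)) ρ0 hρ
  have s2 : ∀ t : Finset ι, Sm2 (Fix S) fun σ τ =>
      ∑ i ∈ t, n i • c' ((g i)⁻¹ * σ * g i) ((g i)⁻¹ * τ * g i) := fun t => by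
    induction t using Finset.induction_on with
    | empty => exact ⟨∅, fun _ _ _ _ _ _ _ _ _ _ => rfl⟩
    | insert i t hi ih =>
      simp only [Finset.sum_insert hi]
      exact (sm2_cj s1 (hgG i)).map₂ ih fun x y => n i • x + y
  have c2 : Coc (Fix S) fun σ τ => ∑ i, n i • c' ((g i)⁻¹ * σ * g i) ((g i)⁻¹ * τ * g i) := by
    intro σ hσ τ hτ ρ hρ
    simp only [← Finset.sum_add_distrib, ← smul_add]
    exact Finset.sum_congr rfl fun i _ => congrArg _ (coc_cj c1 (hgG i) σ hσ τ hτ ρ hρ)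
  have k := inf_cob F.kA F.td hk hS hA hN
    ((s2 Finset.univ).map₂ (d2 (fo_fix hS) γ sγ) fun x y => x - y) (c2.sub (coc_d γ))
    (fun σ hσ h hh => by
      rw [eγ σ hσ h hh, sub_self, sub_zero]
      exact Finset.sum_eq_zero fun i _ => by
        rw [ec, h1 _ (hgG i σ hσ) _ (Fam.a2_W hg hgG hh i), smul_zero])
    (fun σ hσ h hh => by
      have e := eγ σ hσ _ (a2_conj hA hσ hh)
      rw [show σ * (σ⁻¹ * h * σ) = h * σ by group] at e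
      rw [hk' γ kγ σ hσ h hh, e]
      ring)
  refine ((k.add (⟨γ, sγ, fun _ _ _ _ => rfl⟩ :
    Cob (Fix S) fun σ τ => γ σ + γ τ - γ (σ * τ))).add (Cob.sum Finset.univ fun i _ =>
      (bβ.cj (hgG i)).map (DistribSMul.toAddMonoidHom _ (n i)))).congr fun σ _ τ _ => ?_
  simp only [sub_add_cancel, ← Finset.sum_add_distrib, ec, DistribSMul.toAddMonoidHom_apply,
    ← smul_add]

end Pool.Agent.P.MP_ee618e_ag.X.Y
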