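import Pool.Agent.P.MP_ee618e_ag.Y.C2
import Pool.Agent.P.MP_ee618e_ag.X.Ge1b

/-! C3: decomposable classes; corestriction to a product of E and a curve. -/

namespace Pool.Agent.P.MP_ee618e_ag.X.Y

open IsDedekindDomain
open scoped Classical

variable {Ω : Type} [Field Ω] {ℓ : ℕ} [Fact ℓ.Prime] {k : Subfield Ω} {Q Q' : Set (Ω × Ω)}
  {S : Set Ω} {V V' : Subgroup (Au Ω)} {c c' : Au Ω → Au Ω → ℤ_[ℓ]}

theorem cj_mul {Y : Type} (s s' : Au Ω) (χ : Au Ω → Y) : cj (s * s') χ = cj s (cj s' χ) := by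
  funext σ
  simp only [cj, mul_inv_rev, mul_assoc]

theorem Dec.mono (h : Dec ℓ k Q S V c) (hQ : Q ⊆ Q') (hV : V' ≤ V) : Dec ℓ k Q' S V' c := by
  obtain ⟨m, p, κ, ψ, h1, h2⟩ := h
  exact ⟨m, p, κ, ψ, fun i => ⟨hQ (h1 i).1, (h1 i).2⟩, h2.mono hV⟩

theorem Dec.congr (h : Dec ℓ k Q S V c) (e : ∀ σ ∈ V, ∀ τ ∈ V, c σ τ = c' σ τ) :
    Dec ℓ k Q S V c' := by
  obtain ⟨m, p, κ, ψ, h1, h2⟩ := h
  exact ⟨m, p, κ, ψ, h1, fun n => (h2 n).congr fun σ hσ τ hτ => by simp only [e σ hσ τ hτ]⟩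

theorem dec_of (h : CobL ℓ V c) : Dec ℓ k Q S V c := by
  exact ⟨0, Fin.elim0, Fin.elim0, Fin.elim0, fun i => i.elim0,
    fun n => (h n).congr fun σ _ τ _ => by simp⟩

/-- `Fin.append` or `Fintype.equivFin` for the sum type -/
theorem Dec.add (h : Dec ℓ k Q S V c) (h' : Dec ℓ k Q S V c') :
    Dec ℓ k Q S V fun σ τ => c σ τ + c' σ τ := by
  obtain ⟨m, p, κ, ψ, h1, h2⟩ := h
  obtain ⟨m', p', κ', ψ', h1', h2'⟩ := h'
  refine ⟨m + m', Fin.append p p', Fin.append κ κ', Fin.append ψ ψ', fun i => ?_,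
    fun n => ((h2 n).add (h2' n)).congr fun σ _ τ _ => ?_⟩
  · refine Fin.addCases (fun i => ?_) (fun i => ?_) i
    · simp only [Fin.append_left]
      exact h1 i
    · simp only [Fin.append_right]
      exact h1' i
  · beta_reduce
    rw [← map_add, Fin.sum_univ_add]
    simp only [Fin.append_left, Fin.append_right]
    congr 1
    ring

theorem Dec.mul (h : Dec ℓ k Q S V c) (a : ℤ_[ℓ]) : Dec ℓ k Q S V fun σ τ => a * c σ τ := by
  obtain ⟨m, p, κ, ψ, h1, h2⟩ := h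
  refine ⟨m, p, κ, fun i => a • ψ i, fun i => ⟨(h1 i).1, (h1 i).2.1, (h1 i).2.2.smul a⟩,
    fun n => ((h2 n).map (AddMonoidHom.mulLeft (PadicInt.toZModPow n a))).congr fun σ _ τ _ => ?_⟩
  rw [AddMonoidHom.coe_mulLeft]
  beta_reduce
  rw [← map_mul, mul_sub, Finset.mul_sum]
  congr 2
  exact Finset.sum_congr rfl fun i _ => by rw [Pi.smul_apply, smul_eq_mul]; ring

theorem Dec.sub (h : Dec ℓ k Q S V c) (h' : Dec ℓ k Q S V c') :
    Dec ℓ k Q S V fun σ τ => c σ τ - c' σ τ := by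
  exact (h.add (h'.mul (-1))).congr fun σ _ τ _ => by ring

theorem Dec.sum {ι : Type} (s : Finset ι) {c : ι → Au Ω → Au Ω → ℤ_[ℓ]}
    (h : ∀ i ∈ s, Dec ℓ k Q S V (c i)) : Dec ℓ k Q S V fun σ τ => ∑ i ∈ s, c i σ τ := by
  induction s using Finset.induction_on with
  | empty => exact dec_of fun n => cob_zero.congr fun _ _ _ _ => by simp
  | insert i s hi ih =>
    exact ((h i (Finset.mem_insert_self i s)).add
      (ih fun j hj => h j (Finset.mem_insert_of_mem hj))).congr fun σ _ τ _ => by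
        rw [Finset.sum_insert hi]

/-- `lat_img` for the first factors, `Ch.cj_self` and `padic_ext` for the second factors,
`Cob.cj` -/
theorem Dec.cj (h : Dec ℓ k Q S V c) (hk : (k : Set Ω) ⊆ S) {s : Au Ω} (hs : s ∈ Fix S)
    (hV : ∀ σ ∈ V', s⁻¹ * σ * s ∈ V) (hQ : ∀ p ∈ Q, (s p.1, s p.2) ∈ Q') :
    Dec ℓ k Q' S V' fun σ τ => c (s⁻¹ * σ * s) (s⁻¹ * τ * s) := by
  obtain ⟨m, p, κ, ψ, h1, h2⟩ := h
  have hsk : s ∈ Fix (k : Set Ω) := fix_anti hk hs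
  refine ⟨m, fun i => (s (p i).1, s (p i).2), fun i => X.cj s (κ i), ψ,
    fun i => ⟨hQ _ (h1 i).1, ?_, (h1 i).2.2⟩, fun n => ((h2 n).cj hV).congr fun σ _ τ _ => ?_⟩
  · have e : s '' ((k : Set Ω) ∪ {(p i).1, (p i).2}) = (k : Set Ω) ∪ {s (p i).1, s (p i).2} := by
      rw [Set.image_union, Set.image_pair, Set.EqOn.image_eq_self fun z hz => hsk z hz]
    rw [← e]
    exact lat_img (h1 i).2.1 hsk
  · have e : ∀ i, ψ i (s⁻¹ * τ * s) = ψ i τ := fun i =>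
      padic_ext ℓ fun n => congrFun (((h1 i).2.2 n).cj_self hs) τ
    simp only [e, X.cj]

/-- `AlgebraicIndependent.option_iff` or the matroid (`ft2_cl`); `acl_eq` -/
theorem indep_two [IsAlgClosed k] {x n : Ω} (hn : n ∉ k) (hx : x ∉ Acl ((k : Set Ω) ∪ {n})) :
    AlgebraicIndependent k ![x, n] := by
  have hn' : n ∉ (AlgebraicIndependent.matroid k Ω).closure ∅ := by
    rw [← ft2_cl, Set.union_empty, acl_eq]
    exact hn
  have hx' : x ∉ (AlgebraicIndependent.matroid k Ω).closure {n} := by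
    rw [← ft2_cl]
    exact hx
  have hne : x ≠ n := fun e => hx (subset_acl _ (Or.inr e))
  have i1 : (AlgebraicIndependent.matroid k Ω).Indep {n} := by
    have := ((AlgebraicIndependent.matroid k Ω).empty_indep.insert_indep_iff_of_notMem
      (Set.notMem_empty n)).2 ⟨Set.mem_univ n, hn'⟩
    simpa using this
  have i2 : (AlgebraicIndependent.matroid k Ω).Indep {x, n} :=
    (i1.insert_indep_iff_of_notMem hne).2 ⟨Set.mem_univ x, hx'⟩
  have hinj : Function.Injective ![x, n] := by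
    intro a b hab
    fin_cases a <;> fin_cases b
    · rfl
    · exact absurd hab hne
    · exact absurd hab hne.symm
    · rfl
  rw [← algebraicIndependent_subtype_range hinj]
  have e : Set.range ![x, n] = {x, n} := by simp [Set.pair_comm]
  rw [e]
  exact AlgebraicIndependent.matroid_indep_iff.1 i2

/-- `exists_fib` with `g = 1`, `H = 0`, `F = X ^ 3 + 1` (`1 = (y / 2) (2 y) + (x / 3) (-3 x ^ 2)`);
`GG S = Fix (S ∪ {x, y})` by `HF.closure`; `corl`, `k1_inf`, `HF.dvs`, `Lat.of_closure` -/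
theorem ej [IsAlgClosed Ω] [IsAlgClosed k] (h6 : (6 : Ω) ≠ 0) {x y n : Ω} (hxy : On x y)
    (hi : AlgebraicIndependent k ![x, n]) (ha : Acl ((k : Set Ω) ∪ {x, n}) = Set.univ)
    (hk : (k : Set Ω) ⊆ S) (hn : n ∈ S) (hS : S ⊆ Acl ((k : Set Ω) ∪ {n})) {T : Finset Ω}
    (hT : ∀ g ∈ Fix (S ∪ {x, y}), ∀ t ∈ T, g t ∈ T) {ι : Type} [Fintype ι] {s : ι → Au Ω}
    (hs : Rep (Fix (S ∪ {x, y})) T s) : ∃ M : ℕ, M ≠ 0 ∧
      ∀ (ℓ : ℕ) [Fact ℓ.Prime], ℓ ≠ 2 → (ℓ : Ω) ≠ 0 → ∀ (S₁ S₂ : Set Ω) (χ ψ : Au Ω → ℤ_[ℓ]),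
        Fix (S ∪ {x, y}) ⊓ Fix (T : Set Ω) ≤ Fix S₁ → Fix (S ∪ {x, y}) ⊓ Fix (T : Set Ω) ≤ Fix S₂ →
        Lat ℓ k S₁ χ → Lat ℓ k S₂ ψ →
        Dec ℓ k {(x, y)} S (Fix (S ∪ {x, y}) ⊓ Fix (T : Set Ω))
          fun σ τ => M * ∑ i, X.cj (s i) χ σ * X.cj (s i) ψ τ := by
  have h2 : (2 : Ω) ≠ 0 := fun e => h6 (by rw [show (6 : Ω) = 2 * 3 by norm_num, e, zero_mul])
  have h3 : (3 : Ω) ≠ 0 := fun e => h6 (by rw [show (6 : Ω) = 2 * 3 by norm_num, e, mul_zero])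
  have mx : x ∈ Algebra.adjoin k ({x, y} : Set Ω) := Algebra.subset_adjoin (by simp)
  have my : y ∈ Algebra.adjoin k ({x, y} : Set Ω) := Algebra.subset_adjoin (by simp)
  have mi : ∀ m : ℕ, (m : Ω)⁻¹ ∈ Algebra.adjoin k ({x, y} : Set Ω) := fun m =>
    (Algebra.adjoin k ({x, y} : Set Ω)).algebraMap_mem ⟨_, k.inv_mem (natCast_mem k m)⟩
  obtain ⟨C, hCk, hCA, hF⟩ := exists_fib k hi ha (g := 1) (H := 0) (F := Polynomial.X ^ 3 + 1)
    (y := y) (fun i => by simp) (fun i => by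
      rw [Polynomial.coeff_add, Polynomial.coeff_X_pow, Polynomial.coeff_one]
      refine k.add_mem ?_ ?_ <;> split_ifs <;> simp)
    (by rw [← Polynomial.C_1]; exact Polynomial.natDegree_X_pow_add_C) (by simp)
    (by simpa [On] using hxy) ⟨y * ((2 : ℕ) : Ω)⁻¹, mul_mem my (mi 2), x * ((3 : ℕ) : Ω)⁻¹,
      mul_mem mx (mi 3), by
        have e : y ^ 2 = x ^ 3 + 1 := hxy
        simp only [Polynomial.eval_zero, Polynomial.derivative_zero, Polynomial.derivative_add,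
          Polynomial.derivative_X_pow, Polynomial.derivative_one, Polynomial.eval_add,
          Polynomial.eval_mul, Polynomial.eval_C, Polynomial.eval_pow, Polynomial.eval_X]
        push_cast
        field_simp
        linear_combination 6 * e⟩
  subst hCk
  have hB : C.Base S := ⟨hk, hCA ▸ hS, by
    rw [hCA]
    exact acl_mono (Set.union_subset hk (Set.singleton_subset_iff.2 hn))⟩
  have hG : C.GG S = Fix (S ∪ {x, y}) := by
    rw [Fib.GG, ← fix_closure (C.R0 : Set Ω), hF.closure, fix_closure, ← fix_union]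
    congr 1
    rw [Set.union_comm _ S, ← Set.union_assoc, Set.union_eq_self_of_subset_right hk]
  have hU : Acl (S ∪ {x, y}) = Set.univ := by
    refine Set.eq_univ_of_univ_subset (ha ▸ acl_mono ?_)
    rintro z (hz | rfl | rfl)
    · exact Or.inl (hk hz)
    · exact Or.inr (Or.inl rfl)
    · exact Or.inl hn
  obtain ⟨M, hM, H⟩ := corl C.td2 hU (hk.trans Set.subset_union_left) hT hs
  refine ⟨M, hM, fun ℓ _ hl2 hl S₁ S₂ χ ψ g1 g2 hχ hψ => ?_⟩
  obtain ⟨c, hc, hc'⟩ := H ℓ hl S₁ S₂ χ ψ g1 g2 hχ hψ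
  rw [← hG] at hc
  obtain ⟨ρ, κ, φ, k1, k2⟩ := k1_inf hl
    (hF.dvs ((Fact.out : ℓ.Prime).odd_of_ne_two hl2) hl) hB hc
  rw [hG] at k2
  refine Dec.congr (c := c) ⟨ρ, fun _ => (x, y), κ, φ,
    fun i => ⟨rfl, (k1 i).1.of_closure hF.closure, (k1 i).2⟩, k2.mono inf_le_left⟩ hc'

end Pool.Agent.P.MP_ee618e_ag.X.Y
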