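import Pool.Agent.P.MP_ee618e_ag.Y.R1
import Pool.Agent.P.MP_ee618e_ag.X.H3

/-! R3: pull back and push forward of a point under a section. -/

namespace Pool.Agent.P.MP_ee618e_ag.X.Y

open IsDedekindDomain
open scoped Classical

set_option linter.unusedSectionVars false

variable {Ω : Type} [Field Ω] [IsAlgClosed Ω] {Γ : Type} [LinearOrderedCommGroupWithZero Γ]
  {v : Valuation Ω Γ} {s w : Ω}

omit [IsAlgClosed Ω] in
theorem r3_val {A : Subfield Ω} {x : Ω} (c : A) {O : ValuationSubring Ω} (h : (A : Set Ω) ⊆ O)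
    (e : x - c ∈ O.nonunits) {p : Polynomial A} (hp : p ≠ 0) :
    O.valuation (Polynomial.aeval x p) = O.valuation (x - c) ^ p.rootMultiplicity c := by
  have e1 : O.valuation (x - c) < 1 := (O.mem_nonunits_iff).1 e
  have hx : x ∈ O := by
    rw [← sub_add_cancel x c]
    exact add_mem (O.nonunits_subset e) (h c.2)
  obtain ⟨q, h1, h2⟩ := Polynomial.exists_eq_pow_rootMultiplicity_mul_and_not_dvd p hp c
  obtain ⟨q', h3⟩ : (Polynomial.X - Polynomial.C c) ∣ q - Polynomial.C (q.eval c) :=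
    Polynomial.X_sub_C_dvd_sub_C_eval
  have h4 : q.eval c ≠ 0 := fun e0 => h2 (Polynomial.dvd_iff_isRoot.2 e0)
  have h5 : O.valuation ((q.eval c : A) : Ω) = 1 :=
    triv_of_sub h _ (q.eval c).2 fun e0 => h4 (Subtype.ext e0)
  have h6 : O.valuation (Polynomial.aeval x q') ≤ 1 :=
    (O.valuation_le_one_iff _).2 (v2b_aeval_mem (fun r => h r.2) hx q')
  have h7 : Polynomial.aeval x q = ((q.eval c : A) : Ω) + Polynomial.aeval x q' * (x - c) := by
    have e2 := congrArg (Polynomial.aeval x) h3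
    simp only [map_sub, map_mul, Polynomial.aeval_X, Polynomial.aeval_C] at e2
    change _ - ((q.eval c : A) : Ω) = (x - (c : Ω)) * _ at e2
    linear_combination e2
  have h8 : O.valuation (Polynomial.aeval x q) = 1 := by
    rw [h7, O.valuation.map_add_eq_of_lt_left (by rw [h5]; exact L2.mul_lt h6 e1), h5]
  conv_lhs => rw [h1]
  simp only [map_mul, map_pow, map_sub, Polynomial.aeval_X, Polynomial.aeval_C, h8, mul_one]
  rfl

omit [IsAlgClosed Ω] in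
theorem r3_mem {A : Subfield Ω} {x : Ω} (hx : x ∉ A) (c : A) {O : ValuationSubring Ω}
    (h : (A : Set Ω) ⊆ O) (e : x - c ∈ O.nonunits) (p q : Polynomial A) :
    Polynomial.aeval x p / Polynomial.aeval x q ∈ O ↔
      p = 0 ∨ q = 0 ∨ q.rootMultiplicity c ≤ p.rootMultiplicity c := by
  by_cases hp : p = 0
  · simp [hp, O.zero_mem]
  by_cases hq : q = 0
  · simp [hq, O.zero_mem]
  have e1 : O.valuation (x - c) < 1 := (O.mem_nonunits_iff).1 e
  have e0 : 0 < O.valuation (x - c) :=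
    zero_lt_iff.2 ((Valuation.ne_zero_iff _).2 (sub_ne_zero.2 fun e2 => hx (e2 ▸ c.2)))
  rw [← O.valuation_le_one_iff, map_div₀, r3_val c h e hp, r3_val c h e hq,
    div_le_one₀ (pow_pos e0 _), pow_le_pow_iff_right_of_lt_one₀ e0 e1]
  simp [hp, hq]

omit [IsAlgClosed Ω] in
theorem r3_poly {A : Subfield Ω} {x a : Ω} (ha : a ∈ Subring.closure ((A : Set Ω) ∪ {x})) :
    ∃ p : Polynomial A, Polynomial.aeval x p = a := by
  refine (Subring.closure_le (t := (Polynomial.aeval x : Polynomial A →ₐ[A] Ω).range.toSubring)).2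
    ?_ ha
  rintro z (hz | rfl)
  · exact ⟨Polynomial.C ⟨z, hz⟩, Polynomial.aeval_C x _⟩
  · exact ⟨Polynomial.X, Polynomial.aeval_X z⟩

omit [IsAlgClosed Ω] in
theorem r3_lt {O : ValuationSubring Ω} {τ : Au Ω} (h : ∀ z, τ z ∈ v.valuationSubring ↔ z ∈ O)
    (z : Ω) : v (τ z) < 1 ↔ O.valuation z < 1 := by
  have e : (vc v τ).IsEquiv O.valuation :=
    Valuation.isEquiv_iff_val_le_one.2 fun {z} => (h z).trans (O.valuation_le_one_iff z).symm
  exact e.lt_one_iff_lt_one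

omit [IsAlgClosed Ω] in
/-- `mem_closure_alg`, `val_iff` for the principal ideal domain `Algebra.adjoin A {x}`; or directly:
a polynomial is `(X - C c) ^ k` times a polynomial which does not vanish at `c` -/
theorem agree_lin {A : Subfield Ω} [IsAlgClosed A] {x c : Ω} (hx : x ∉ A) (hc : c ∈ A)
    {O O' : ValuationSubring Ω} (h : (A : Set Ω) ⊆ O) (h' : (A : Set Ω) ⊆ O')
    (e : x - c ∈ O.nonunits) (e' : x - c ∈ O'.nonunits) :
    ∀ z ∈ Subfield.closure ((A : Set Ω) ∪ {x}), z ∈ O ↔ z ∈ O' := by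
  intro z hz
  obtain ⟨a, ha, b, hb, rfl⟩ := Subfield.mem_closure_iff.1 hz
  obtain ⟨p, rfl⟩ := r3_poly ha
  obtain ⟨q, rfl⟩ := r3_poly hb
  rw [r3_mem hx ⟨c, hc⟩ h e, r3_mem hx ⟨c, hc⟩ h' e']

/-- `move_one`, `flip` -/
theorem exists_theta {A : Subfield Ω} [IsAlgClosed A] {x y x' y' : Ω} (h : On x y) (h' : On x' y')
    (hx : x ∉ A) (hx' : x' ∉ A) : ∃ θ ∈ Fix (A : Set Ω), θ x = x' ∧ θ y = y' := by
  obtain ⟨σ, h1, h2⟩ := move_one (S := (A : Set Ω)) (x := x) (y := x') (by rwa [acl_eq])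
    (by rwa [acl_eq])
  have h3 : σ y ^ 2 = y' ^ 2 := by
    rw [← map_pow, h, h', map_add, map_pow, map_one, h2]
  rcases sq_eq_sq_iff_eq_or_eq_neg.1 h3 with h4 | h4
  · exact ⟨σ, h1, h2, h4⟩
  · obtain ⟨τ, t1, t2, t3⟩ := flip A (g := 1) (h := 0) (f := Polynomial.X ^ 3 + 1)
      (by rw [← Polynomial.C_1, Polynomial.natDegree_X_pow_add_C]) (by simp) (a := x') (b := y')
      (by rwa [acl_eq]) (by simpa [On] using h')
    refine ⟨τ * σ, mul_mem t1 h1, by rw [au_mul, h2, t2], ?_⟩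
    rw [au_mul, h4, map_neg, t3]
    simp

variable (C : Sx Ω)

/-- the exchange property (`ft2_cl`, or `move_one` and `acl_conj`) -/
theorem Sx.acl_exch {x : Ω} (hx : x ∉ C.A) : Acl ((C.A : Set Ω) ∪ {x}) = Set.univ := by
  obtain ⟨σ, h1, h2⟩ := move_one (S := (C.A : Set Ω)) (x := C.s) (y := x)
    (by rw [acl_eq]; exact C.tr) (by rwa [acl_eq])
  refine Set.eq_univ_of_forall fun z => ?_
  obtain ⟨z, rfl⟩ := σ.surjective z
  refine ft1_acl_map (S := (C.A : Set Ω) ∪ {C.s}) (fun y hy => ft1_map ?_ hy)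
    (C.alg ▸ Set.mem_univ z)
  rintro y (hy | rfl)
  · rw [h1 y hy]
    exact Subfield.subset_closure (Or.inl hy)
  · exact Subfield.subset_closure (Or.inr h2)

/-- `exists_small` for `C.s - s`, `exists_zeta`; replace `O` by its preimage under `σ ^ i` -/
theorem Sx.exists_val (h : C.Pt s w) : ∃ O : ValuationSubring Ω, (C.A : Set Ω) ⊆ O ∧
    O.valuation (C.s - s) < 1 ∧ O.valuation (C.w - w) < 1 := by
  obtain ⟨O, h1, h2⟩ := exists_small (A := C.A) (z := C.s - s)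
    fun e => C.tr (by simpa using add_mem e h.sA)
  have hA := triv_of_sub h1
  have c : ∀ i, n1C O.valuation (C.s - C.r i) (s - C.r i) := fun i =>
    ⟨hA.le (sub_mem h.sA (C.rA i)), by rwa [sub_sub_sub_cancel_right]⟩
  have e : O.valuation (C.w ^ 6 - w ^ 6) < 1 := by
    rw [C.eq, h.eq, Fin.prod_univ_four, Fin.prod_univ_four]
    exact ((((c 0).mul (c 1)).mul (c 2)).mul (c 3)).2
  obtain ⟨i, hi, -⟩ := exists_zeta C.hζ (hA.six C.h6) (hA w h.wA h.w0) e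
  obtain ⟨s1, s2, s3, -⟩ := C.σ_pow i
  have q := r3_lt (v := vc O.valuation (C.σ ^ (i : ℕ))) (τ := 1)
    (O := (vc O.valuation (C.σ ^ (i : ℕ))).valuationSubring) fun _ => Iff.rfl
  refine ⟨(vc O.valuation (C.σ ^ (i : ℕ))).valuationSubring,
    fun z hz => (hA.vc (fix_le_st _ s1)).le hz, (q _).1 ?_, (q _).1 ?_⟩
  · change O.valuation ((C.σ ^ (i : ℕ)) (C.s - s)) < 1
    rwa [map_sub, s2, s1 s h.sA]
  · change O.valuation ((C.σ ^ (i : ℕ)) (C.w - w)) < 1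
    rwa [map_sub, s3, s1 w h.wA]

variable {C} {S : Sec Ω}

/-- `exists_val`, `agree_lin`, `pc_conj` over `A ∪ {x}` give `h` which fixes `x`; `h y = ± y`, and
the sign is `+` because `y` and `h y` are both congruent to the unit `S.y s w` -/
theorem Sx.exists_lift (hS : S.Ok C.A C.r) (hp : C.Pt s w) (gd : S.Gd s) (hA : Triv C.A v)
    (h : S.ds v C.s C.w S s w < 1) : ∃ h ∈ Fix ((C.A : Set Ω) ∪ {S.x C.s C.w, S.y C.s C.w}),
      v (h C.s - s) < 1 ∧ v (h C.w - w) < 1 := by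
  obtain ⟨d1, d2⟩ := dst_lt.1 h
  obtain ⟨O, h1, h2, h3⟩ := C.exists_val hp
  have hO := triv_of_sub h1
  obtain ⟨u1, u2⟩ := hS.ud hO hp.sA hp.wA hp.w0 gd C.eq hp.eq h2 h3 (by simp) (by simp)
  obtain ⟨w0, nx, -⟩ := hS.not_mem C.tr C.eq
  obtain ⟨mx, my⟩ := hS.xy_mem le_rfl hp.sA hp.wA
  have q := r3_lt (v := v) (τ := 1) (O := v.valuationSubring) fun _ => Iff.rfl
  obtain ⟨τ, t1, t2⟩ := pc_conj (C.acl_exch nx) O v.valuationSubring
    (agree_lin nx mx h1 (fun z hz => hA.le hz) (O.mem_nonunits_iff.2 (u1.trans_lt h2))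
      (v.valuationSubring.mem_nonunits_iff.2 ((q _).1 d1)))
  have tA : ∀ z ∈ C.A, τ z = z := fun z hz => t1 z (Or.inl hz)
  have tx : τ (S.x C.s C.w) = S.x C.s C.w := t1 _ (Or.inr rfl)
  have on : S.y C.s C.w ^ 2 = S.x C.s C.w ^ 3 + 1 := hS.on w0 C.eq
  have ty : τ (S.y C.s C.w) = S.y C.s C.w := by
    have e : τ (S.y C.s C.w) ^ 2 = S.y C.s C.w ^ 2 := by
      rw [← map_pow, on, map_add, map_pow, map_one, tx]
    refine (sq_eq_sq_iff_eq_or_eq_neg.1 e).resolve_right fun e' => ?_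
    have e1 := (r3_lt t2 _).2 (u2.trans_lt h2)
    rw [map_sub, e', tA _ my] at e1
    have e2 := v.map_add_lt d2 e1
    rw [show S.y C.s C.w - S.y s w + (-S.y C.s C.w - S.y s w) = -(2 * S.y s w) by ring,
      Valuation.map_neg, map_mul, val_two (hA.six C.h6), one_mul,
      hA _ my (div_ne_zero gd.2.1 (pow_ne_zero 3 hp.w0))] at e2
    exact e2.false
  refine ⟨τ, ?_, ?_, ?_⟩
  · rintro z (hz | rfl | rfl)
    · exact tA z hz
    · exact tx
    · exact ty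
  · have e := (r3_lt t2 _).2 h2
    rwa [map_sub, tA _ hp.sA] at e
  · have e := (r3_lt t2 _).2 h3
    rwa [map_sub, tA _ hp.wA] at e

omit [IsAlgClosed Ω] in
theorem Sx.r3_conj (hS : S.Ok C.A C.r) {g : Au Ω}
    (hg : g ∈ Fix ((C.A : Set Ω) ∪ {S.x C.s C.w, S.y C.s C.w})) :
    g C.w ^ 6 = ∏ i, (g C.s - C.r i) ∧ S.x (g C.s) (g C.w) = S.x C.s C.w ∧
      S.y (g C.s) (g C.w) = S.y C.s C.w := by
  have gA : g ∈ Fix (C.A : Set Ω) := fun z hz => hg z (Or.inl hz)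
  obtain ⟨-, -, m1, m2⟩ := hS.map gA C.s C.w
  refine ⟨?_, m1.symm.trans (hg _ (Or.inr (Or.inl rfl))),
    m2.symm.trans (hg _ (Or.inr (Or.inr rfl)))⟩
  rw [← map_pow, C.eq, map_prod]
  exact Finset.prod_congr rfl fun i _ => by rw [map_sub, gA _ (C.rA i)]

omit [IsAlgClosed Ω] in
theorem Sx.r3_ds (hS : S.Ok C.A C.r) (hp : C.Pt s w) (gd : S.Gd s) (hA : Triv C.A v) {g : Au Ω}
    (hg : g ∈ Fix ((C.A : Set Ω) ∪ {S.x C.s C.w, S.y C.s C.w})) (h1 : v (g C.s - s) < 1)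
    (h2 : v (g C.w - w) < 1) : S.ds v C.s C.w S s w = v (g C.s - s) := by
  obtain ⟨e, ex, ey⟩ := C.r3_conj hS hg
  obtain ⟨u1, u2⟩ := hS.ud hA hp.sA hp.wA hp.w0 gd e hp.eq h1 h2 (by simp) (by simp)
  rw [ex] at u1
  rw [ey] at u2
  rw [Sec.ds, dst, u1, max_eq_left u2, min_eq_right h1.le]

omit [IsAlgClosed Ω] in
theorem Sx.r3_iff (hS : S.Ok C.A C.r) (hp : C.Pt s w) (gd : S.Gd s) (hA : Triv C.A v)
    {g₀ g : Au Ω} (hg₀ : g₀ ∈ Fix ((C.A : Set Ω) ∪ {S.x C.s C.w, S.y C.s C.w}))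
    (hg : g ∈ Fix ((C.A : Set Ω) ∪ {S.x C.s C.w, S.y C.s C.w})) (h1 : v (g₀ C.s - s) < 1)
    (h2 : v (g₀ C.w - w) < 1) : v (g C.s - s) < 1 ∧ v (g C.w - w) < 1 ↔ g₀⁻¹ * g ∈ C.H := by
  constructor
  · rintro ⟨h3, h4⟩
    obtain ⟨e₀, ex₀, -⟩ := C.r3_conj hS hg₀
    obtain ⟨e, ex, -⟩ := C.r3_conj hS hg
    obtain ⟨u, -⟩ := hS.ud hA hp.sA hp.wA hp.w0 gd e e₀ h3 h4 h1 h2
    rw [ex, ex₀, sub_self, map_zero] at u
    have es : g C.s = g₀ C.s := sub_eq_zero.1 ((Valuation.zero_iff v).1 u.symm)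
    have vw : v (g C.w) = 1 := val_congr (hA w hp.wA hp.w0) (by rwa [v.map_sub_swap])
    have lt : v (g C.w - g₀ C.w) < 1 := by
      rw [← sub_sub_sub_cancel_right _ _ w]
      exact v.map_sub_lt h4 h2
    have u' := val_root (hA.six C.h6) dvd_rfl vw lt
    rw [e, e₀, es, sub_self, map_zero] at u'
    have ew : g C.w = g₀ C.w := sub_eq_zero.1 ((Valuation.zero_iff v).1 u'.symm)
    rintro z (hz | rfl | rfl)
    · exact mul_mem (inv_mem hg₀) hg z (Or.inl hz)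
    · exact g₀.symm_apply_eq.2 es
    · exact g₀.symm_apply_eq.2 ew
  · intro e
    have es : g C.s = g₀ C.s := g₀.symm_apply_eq.1 (e _ (Or.inr (Or.inl rfl)))
    have ew : g C.w = g₀ C.w := g₀.symm_apply_eq.1 (e _ (Or.inr (Or.inr rfl)))
    rw [es, ew]
    exact ⟨h1, h2⟩

/-- Call `h` near if `v (h C.s - s) < 1` and `v (h C.w - w) < 1`. For near `h` the term is
`v (h C.s - s) = ds` (`Ok.ud` for the points `(h C.s, h C.w)` and `(s, w)`). If `h₀` is near, then `h`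
is near iff `h₀⁻¹ h ∈ H` (`Ok.ud` for the two conjugates, `val_root`). If `ds < 1` there is a near
`h₀` (`exists_lift`), otherwise there is none. -/
theorem Sx.nl (hS : S.Ok C.A C.r) (hp : C.Pt s w) (gd : S.Gd s) (hA : Triv C.A v) {ι : Type}
    [Fintype ι] {h : ι → Au Ω}
    (hh : ∀ i, h i ∈ Fix ((C.A : Set Ω) ∪ {S.x C.s C.w, S.y C.s C.w})) {m : ℕ}
    (hm : ∀ h₀ ∈ Fix ((C.A : Set Ω) ∪ {S.x C.s C.w, S.y C.s C.w}),
      (Finset.univ.filter fun i => h₀⁻¹ * h i ∈ C.H).card = m) :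
    ∑ i, lg (nr (vc v (h i)) (C.s - s) (C.w - w)) = m • lg (S.ds v C.s C.w S s w) := by
  have fA : ∀ g ∈ Fix ((C.A : Set Ω) ∪ {S.x C.s C.w, S.y C.s C.w}), g ∈ Fix (C.A : Set Ω) :=
    fun g hg z hz => hg z (Or.inl hz)
  have tm : ∀ i, nr (vc v (h i)) (C.s - s) (C.w - w) =
      if v (h i C.s - s) < 1 ∧ v (h i C.w - w) < 1 then v (h i C.s - s) else 1 := fun i => by
    rw [nr, vc_apply, vc_apply, map_sub (h i), map_sub (h i), fA _ (hh i) s hp.sA,
      fA _ (hh i) w hp.wA]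
  simp only [tm]
  by_cases hd : S.ds v C.s C.w S s w < 1
  · obtain ⟨h₀, g0, g1, g2⟩ := C.exists_lift hS hp gd hA hd
    rw [← hm h₀ g0, ← Finset.sum_const, Finset.sum_filter]
    refine Finset.sum_congr rfl fun i _ => ?_
    by_cases hn : v (h i C.s - s) < 1 ∧ v (h i C.w - w) < 1
    · rw [if_pos hn, if_pos ((C.r3_iff hS hp gd hA g0 (hh i) g1 g2).1 hn),
        C.r3_ds hS hp gd hA (hh i) hn.1 hn.2]
    · rw [if_neg hn, if_neg fun e => hn ((C.r3_iff hS hp gd hA g0 (hh i) g1 g2).2 e), lg_one]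
  · have e : S.ds v C.s C.w S s w = 1 := (dst_le v _ _ _ _).eq_of_not_lt hd
    rw [e, lg_one, smul_zero]
    refine Finset.sum_eq_zero fun i _ => ?_
    rw [if_neg fun hn => hd ((C.r3_ds hS hp gd hA (hh i) hn.1 hn.2).trans_lt hn.1), lg_one]

end Pool.Agent.P.MP_ee618e_ag.X.Y
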