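import Pool.Agent.P.MP_ee618e_ag.Y.A2
import Pool.Agent.P.MP_ee618e_ag.Y.C3
import Pool.Agent.P.MP_ee618e_ag.Y.R3

/-! A3: the operator applied to a corestricted cup product; choice of the base. -/

namespace Pool.Agent.P.MP_ee618e_ag.X.Y

open IsDedekindDomain
open scoped Classical

variable {Ω : Type} [Field Ω] [IsAlgClosed Ω]

/-- `corl`, then `Fam.ra` at every level; `cj_mul` -/
theorem ra_cores (F : Fam Ω) (htd : TD F.k Set.univ 2) {S₀ : Set Ω} (hG : F.G = Fix S₀)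
    (h0 : Acl S₀ = Set.univ) (hk0 : (F.k : Set Ω) ⊆ S₀) {T₀ : Finset Ω}
    (hT : ∀ g ∈ Fix S₀, ∀ t ∈ T₀, g t ∈ T₀) {ι : Type} [Fintype ι] {s : ι → Au Ω}
    (hs : Rep (Fix S₀) T₀ s) : ∃ M : ℕ, M ≠ 0 ∧
      ∀ (U : Type) [Fintype U] (g : U → Au Ω) (n : U → ℤ) (S : Set Ω),
        (∀ u, g u ∈ Fix (F.A : Set Ω)) → Kills F.R g n → (F.k : Set Ω) ⊆ S → Fix S ≤ Fix S₀ →
        Acl S = Set.univ → (∀ u, ∀ σ ∈ Fix S, (g u)⁻¹ * σ * g u ∈ Fix S₀ ⊓ Fix (T₀ : Set Ω)) →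
        ∀ (ℓ : ℕ) [Fact ℓ.Prime], (ℓ : Ω) ≠ 0 → ∀ (S₁ S₂ : Set Ω) (χ ψ : Au Ω → ℤ_[ℓ]),
          Fix S₀ ⊓ Fix (T₀ : Set Ω) ≤ Fix S₁ → Fix S₀ ⊓ Fix (T₀ : Set Ω) ≤ Fix S₂ →
          Lat ℓ F.k S₁ χ → Lat ℓ F.k S₂ ψ → CobL ℓ (Fix S) fun σ τ =>
            M * ∑ y, ∑ u, n u * (cj (g u * s y) χ σ * cj (g u * s y) ψ τ) := by
  obtain ⟨M, hM, H⟩ := corl htd h0 hk0 hT hs
  refine ⟨M, hM, fun U _ g n S hg hK hk hle hS hc ℓ _ hℓ S₁ S₂ χ ψ h1 h2 hχ hψ m => ?_⟩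
  obtain ⟨c, hu, e⟩ := H ℓ hℓ S₁ S₂ χ ψ h1 h2 hχ hψ
  obtain ⟨u1, u2, u3⟩ := hu m
  rw [← hG] at u1 u2 u3
  have hN : ((ℓ ^ m : ℕ) : Ω) ≠ 0 := by
    rw [Nat.cast_pow]
    exact pow_ne_zero m hℓ
  refine (Fam.ra hN u1 u2 u3 hg hK hk hS (hG ▸ hle) fun i σ hσ => hG ▸ (hc i σ hσ).1).congr
    fun σ hσ τ hτ => ?_
  have e' : ∑ u, (n u : ℤ_[ℓ]) * c ((g u)⁻¹ * σ * g u) ((g u)⁻¹ * τ * g u) =
      M * ∑ y, ∑ u, n u * (cj (g u * s y) χ σ * cj (g u * s y) ψ τ) := by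
    rw [Finset.sum_comm, Finset.mul_sum]
    refine Finset.sum_congr rfl fun u _ => ?_
    rw [e _ (hc u σ hσ) _ (hc u τ hτ), ← Finset.mul_sum, mul_left_comm]
    simp only [cj_mul]
    rfl
  beta_reduce
  rw [← e', map_sum]
  refine Finset.sum_congr rfl fun u _ => ?_
  rw [map_mul, map_intCast, zsmul_eq_mul]

omit [IsAlgClosed Ω] in
theorem a3_st {k A : Subfield Ω} {n : Ω} (hA : (A : Set Ω) = Acl ((k : Set Ω) ∪ {n})) {S : Set Ω}
    (kS : (k : Set Ω) ⊆ S) (hn : n ∈ S) : Fix S ≤ St (A : Set Ω) := fun _ hσ => by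
  rw [hA]
  exact st_acl (fix_le_st _ (fix_anti (Set.union_subset kS (Set.singleton_subset_iff.2 hn)) hσ))

omit [IsAlgClosed Ω] in
theorem a3_acl {k A : Subfield Ω} {n x : Ω} (hA : (A : Set Ω) = Acl ((k : Set Ω) ∪ {n}))
    (hx : Acl ((A : Set Ω) ∪ {x}) = Set.univ) {S : Set Ω} (kS : (k : Set Ω) ⊆ S) (hn : n ∈ S)
    (hxS : x ∈ S) : Acl S = Set.univ := by
  refine Set.eq_univ_of_univ_subset (hx ▸ acl_subset (Set.union_subset ?_ ?_))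
  · rw [hA]
    exact acl_mono (Set.union_subset kS (Set.singleton_subset_iff.2 hn))
  · exact Set.singleton_subset_iff.2 (subset_acl S hxS)

/-- Let `S j = k ∪ {n, x j, y j}`; `T j` from `exists_stable` for `Fix (S j)`, and `B` the union of
`{n}`, `F₀` and the finite sets given by `smb`. -/
theorem exists_base {k A : Subfield Ω} {n : Ω} (hA : (A : Set Ω) = Acl ((k : Set Ω) ∪ {n}))
    {K : Type} [Fintype K] (x y : K → Ω) (hx : ∀ j, Acl ((A : Set Ω) ∪ {x j}) = Set.univ)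
    (F₀ : Finset Ω) (hF : ↑F₀ ⊆ (A : Set Ω)) (T₁ : Finset Ω) :
    ∃ (B : Finset Ω) (T : K → Finset Ω), ↑B ⊆ (A : Set Ω) ∧ n ∈ B ∧ F₀ ⊆ B ∧ ∀ j, T₁ ⊆ T j ∧
      (∀ g ∈ Fix ((k : Set Ω) ∪ B ∪ {x j, y j}), ∀ t ∈ T j, g t ∈ T j) ∧
      ∀ g ∈ Fix ((k : Set Ω) ∪ B ∪ {x j, y j}), ∃ h ∈ Fix ((A : Set Ω) ∪ {x j, y j}),
        h⁻¹ * g ∈ Fix (T j : Set Ω) := by
  have hS : ∀ j, Acl ((k : Set Ω) ∪ {n, x j, y j}) = Set.univ := fun j =>
    a3_acl hA (hx j) Set.subset_union_left (by simp) (by simp)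
  choose T h1 _ h2 using fun j => exists_stable (G := Fix ((k : Set Ω) ∪ {n, x j, y j})) T₁
    fun t _ => fo_fix (hS j) t
  choose T0 h3 h4 using fun j =>
    smb (hS j) (a3_st hA Set.subset_union_left (by simp)) (T j)
  have hn : n ∈ (A : Set Ω) := by
    rw [hA]
    exact subset_acl _ (by simp)
  have hle : ∀ j, Fix ((k : Set Ω) ∪ ↑(insert n (F₀ ∪ Finset.univ.biUnion T0)) ∪ {x j, y j}) ≤
      Fix ((k : Set Ω) ∪ {n, x j, y j}) := fun j => fix_anti (by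
    rintro z (hz | rfl | hz)
    · exact Or.inl (Or.inl hz)
    · exact Or.inl (Or.inr (by simp))
    · exact Or.inr hz)
  refine ⟨insert n (F₀ ∪ Finset.univ.biUnion T0), T, fun z hz => ?_, Finset.mem_insert_self _ _,
    Finset.subset_union_left.trans (Finset.subset_insert _ _), fun j =>
      ⟨h1 j, fun g hg => h2 j g (hle j hg), fun g hg => ?_⟩⟩
  · rcases Finset.mem_insert.1 hz with rfl | hz
    · exact hn
    · rcases Finset.mem_union.1 hz with hz | hz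
      · exact hF hz
      · obtain ⟨j, -, hj⟩ := Finset.mem_biUnion.1 hz
        exact h3 j hj
  · obtain ⟨h, ⟨a1, a2⟩, a3⟩ := h4 j g (hle j hg) fun t ht => hg t (Or.inl (Or.inr
      (Finset.mem_insert_of_mem (Finset.mem_union_right _
        (Finset.mem_biUnion.2 ⟨j, Finset.mem_univ j, ht⟩)))))
    refine ⟨h, ?_, fun t ht => ?_⟩
    · rintro z (hz | hz)
      · exact a2 z hz
      · exact a1 z (Or.inr (Or.inr hz))
    · rw [au_mul, a3 t ht, au_inv, h.symm_apply_apply]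

/-- the sextic curve as the generic fibre of a surface (`td_of_acl`, `st_acl`, `st_R`, `fix_R`) -/
noncomputable def Sx.fam (C : Sx Ω) (k : Subfield Ω) [hk : IsAlgClosed k] {n : Ω}
    (hA : (C.A : Set Ω) = Acl ((k : Set Ω) ∪ {n})) {S : Set Ω} (kS : (k : Set Ω) ⊆ S) (hn : n ∈ S)
    (SA : S ⊆ C.A) : Fam Ω where
  k := k
  A := C.A
  R := C.R
  G := Fix (S ∪ {C.s, C.w})
  kA := kS.trans SA
  ack := hk
  acA := C.acA
  ded := C.ded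
  alg := C.algR
  td := td_of_acl k ![n] (by rw [hA]; simp)
  td1 := C.td
  fo := fo_fix (a3_acl hA C.alg (kS.trans Set.subset_union_left) (Or.inl hn) (by simp))
  Gk := fix_anti (kS.trans Set.subset_union_left)
  GA := a3_st hA (kS.trans Set.subset_union_left) (Or.inl hn)
  GR := fun σ hσ => C.st_R (a3_st hA (kS.trans Set.subset_union_left) (Or.inl hn) hσ)
    (hσ _ (by simp)) (one_mem _) (by rw [one_mul]; exact hσ _ (by simp))
  RG := by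
    rw [C.fix_R]
    exact fix_anti (Set.union_subset_union_left _ SA)
  GAR := by
    rw [C.fix_R]
    rintro σ ⟨h1, h2⟩ z (hz | hz)
    · exact h2 z hz
    · exact h1 z (Or.inr hz)

omit [IsAlgClosed Ω] in
theorem tw_split {U U' Y : Type} [Fintype U] [Fintype U'] [CommRing Y] (ρ : Au Ω) (g : U → Au Ω)
    (g' : U' → Au Ω) (n : U → ℤ) (n' : U' → ℤ) (F : Au Ω → Y) :
    ∑ u, twn (Sum.elim n n') u * F (twg ρ (Sum.elim g g') u) =
      ∑ u, twn n u * F (twg ρ g u) + ∑ u, twn n' u * F (twg ρ g' u) := by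
  rw [Fintype.sum_prod_type, Fintype.sum_sum_type, Fintype.sum_prod_type (α₁ := U),
    Fintype.sum_prod_type (α₁ := U')]
  rfl

omit [IsAlgClosed Ω] in
/-- For fixed `j`, `a`, `b` the sum over `i` is the conjugate under `ρ ^ a θ j` (`Dec.cj`) of the
class in `hE` for the characters `cj (ρ ^ b s) χ`, `cj (ρ ^ b s) ψ` (`lat_img`, `cj_mul`);
`Fintype.sum_prod_type`, `Fintype.sum_sigma`, `Dec.sum`, `Dec.mul`. -/
theorem epart {ℓ : ℕ} [Fact ℓ.Prime] {k : Subfield Ω} {S S₁ S₂ : Set Ω} (hk : (k : Set Ω) ⊆ S)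
    {K : Type} [Fintype K] {x y : K → Ω} {θ : K → Au Ω} {n : K → ℕ}
    {h : (j : K) → Fin (n j) → Au Ω} {M : K → ℕ} {V : K → Subgroup (Au Ω)}
    (hE : ∀ j, ∀ (S₁ S₂ : Set Ω) (χ ψ : Au Ω → ℤ_[ℓ]), V j ≤ Fix S₁ → V j ≤ Fix S₂ →
      Lat ℓ k S₁ χ → Lat ℓ k S₂ ψ → Dec ℓ k {(x j, y j)} S (V j)
        fun σ τ => M j * ∑ i, cj (h j i) χ σ * cj (h j i) ψ τ)
    {ρ s : Au Ω} (hρ : ρ ∈ Fix S) (hθ : ∀ j, θ j ∈ Fix S) (hs : s ∈ Fix (k : Set Ω))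
    {V' : Subgroup (Au Ω)} {Q : Set (Ω × Ω)}
    (hV : ∀ j, ∀ γ, γ = θ j ∨ γ = ρ * θ j →
      (γ (x j), γ (y j)) ∈ Q ∧ ∀ σ ∈ V', γ⁻¹ * σ * γ ∈ V j)
    (h₁ : ∀ j, ∀ γ, γ = s ∨ γ = ρ * s → V j ≤ Fix (γ '' S₁) ∧ V j ≤ Fix (γ '' S₂))
    {χ ψ : Au Ω → ℤ_[ℓ]} (hχ : Lat ℓ k S₁ χ) (hψ : Lat ℓ k S₂ ψ) (e : K → ℤ) :
    Dec ℓ k Q S V' fun σ τ => ∑ u, twn (fun u : Σ j, Fin (n j) => e u.1 * M u.1) u *
      (cj (twg ρ (fun u : Σ j, Fin (n j) => θ u.1 * h u.1 u.2) u * s) χ σ *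
        cj (twg ρ (fun u : Σ j, Fin (n j) => θ u.1 * h u.1 u.2) u * s) ψ τ) := by
  have key : ∀ (j : K) (p : Bool × Bool), Dec ℓ k Q S V' fun σ τ => ∑ i : Fin (n j),
      twn (fun u : Σ j, Fin (n j) => e u.1 * M u.1) (⟨j, i⟩, p) *
        (cj (twg ρ (fun u : Σ j, Fin (n j) => θ u.1 * h u.1 u.2) (⟨j, i⟩, p) * s) χ σ *
          cj (twg ρ (fun u : Σ j, Fin (n j) => θ u.1 * h u.1 u.2) (⟨j, i⟩, p) * s) ψ τ) := by
    rintro j ⟨a, b⟩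
    have hγ : (if a then ρ else 1) * θ j = θ j ∨ (if a then ρ else 1) * θ j = ρ * θ j := by
      cases a <;> simp
    have hδ : (if b then ρ else 1) * s = s ∨ (if b then ρ else 1) * s = ρ * s := by
      cases b <;> simp
    have hγ' : (if a then ρ else 1) * θ j ∈ Fix S := by
      rcases hγ with h | h <;> rw [h]
      exacts [hθ j, mul_mem hρ (hθ j)]
    have hδ' : (if b then ρ else 1) * s ∈ Fix (k : Set Ω) := by
      rcases hδ with h | h <;> rw [h]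
      exacts [hs, mul_mem (fix_anti hk hρ) hs]
    have h2 := ((hE j _ _ _ _ (h₁ j _ hδ).1 (h₁ j _ hδ).2 (lat_img hχ hδ') (lat_img hψ hδ')).cj hk
      hγ' (hV j _ hγ).2 (Q' := Q) (by rintro _ rfl; exact (hV j _ hγ).1)).mul
      ((((if a then -1 else 1) * e j * (if b then -1 else 1) : ℤ) : ℤ_[ℓ]))
    refine h2.congr fun σ _ τ _ => ?_
    rw [← mul_assoc, Finset.mul_sum]
    refine Finset.sum_congr rfl fun i _ => ?_
    have e1 : twg ρ (fun u : Σ j, Fin (n j) => θ u.1 * h u.1 u.2) (⟨j, i⟩, a, b) * s =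
        (if a then ρ else 1) * θ j * (h j i * ((if b then ρ else 1) * s)) := by
      simp only [twg, mul_assoc]
    rw [e1, cj_mul, cj_mul, cj_mul ((if a then ρ else 1) * θ j), cj_mul (h j i)]
    congr 1
    simp only [twn]
    push_cast
    ring
  refine (Dec.sum Finset.univ fun j _ => Dec.sum Finset.univ fun p _ => key j p).congr
    fun σ _ τ _ => ?_
  rw [Fintype.sum_prod_type (α₁ := Σ j, Fin (n j)), Fintype.sum_sigma]
  exact Finset.sum_congr rfl fun j _ => Finset.sum_comm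

end Pool.Agent.P.MP_ee618e_ag.X.Y
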