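import Pool.Agent.P.MP_ee618e_ag.Y.Defs
import Pool.Agent.P.MP_ee618e_ag.X.B

/-! Internal definitions: the curve `y ^ 2 = x ^ 3 + 1` and local heights, sections, lines,
values of divisors, operators which kill divisor classes. -/

namespace Pool.Agent.P.MP_ee618e_ag.X.Y

open IsDedekindDomain
open scoped Classical

variable {Ω : Type} [Field Ω] {Γ : Type} [LinearOrderedCommGroupWithZero Γ]

section Ell

variable (Ω) in
/-- the curve `y ^ 2 = x ^ 3 + 1` -/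
def EC : WeierstrassCurve.Affine Ω := ⟨0, 0, 0, 0, 1⟩

variable (Ω) in
/-- its group of points -/
abbrev EP : Type := (EC Ω).Point

/-- `(x, y)` is on the curve -/
def On (x y : Ω) : Prop := y ^ 2 = x ^ 3 + 1

/-- the point with coordinates `(x, y)` -/
noncomputable def pt (x y : Ω) : EP Ω :=
  if h : (EC Ω).Nonsingular x y then .some x y h else 0

/-- the local height (size of the parameter at the origin) -/
noncomputable def hgt (v : Valuation Ω Γ) : EP Ω → Γ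
  | .zero => 0
  | .some x y _ => if 1 < v x then v x / v y else 1

/-- the line `y = l x + k` meets the curve in the points with abscissae `x₁, x₂, x₃` -/
structure Col (l k x₁ x₂ x₃ : Ω) : Prop where
  e1 : x₁ + x₂ + x₃ = l ^ 2
  e2 : x₁ * x₂ + x₁ * x₃ + x₂ * x₃ = -(2 * l * k)
  e3 : x₁ * x₂ * x₃ = k ^ 2 - 1

/-- `m` is the slope of the chord (or tangent) through `(x, y)` and `(a, b)` on a curve
`y ^ 2 = x ^ 3 + c` -/
def Sl (m x y a b : Ω) : Prop :=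
  m * (x - a) = y - b ∧ m * (y + b) = x ^ 2 + x * a + a ^ 2

/-- truncated distance of two points -/
noncomputable def dst (v : Valuation Ω Γ) (x y a b : Ω) : Γ :=
  min 1 (max (v (x - a)) (v (y - b)))

/-- `v t` if `t` and `c` are small, `1` otherwise -/
noncomputable def nr (v : Valuation Ω Γ) (t c : Ω) : Γ := if v t < 1 ∧ v c < 1 then v t else 1

/-- `v` is trivial on `A` -/
def Triv (A : Subfield Ω) (v : Valuation Ω Γ) : Prop := ∀ c ∈ A, c ≠ 0 → v c = 1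

/-- the quadratic part of `(w sl(e, P) - w' sl(e, P')) (y + l x + k)` -/
def qd (w w' a b a' b' l z : Ω) : Ω :=
  (w - w') * z ^ 2 + (w * a - w' * a') * z + (w * a ^ 2 - w' * a' ^ 2 - l * (w * b - w' * b'))

variable (Ω) in
/-- the three zeros `(x i, y i)` of the function `e ↦ w sl(e, P) - w' sl(e, P')`, where
`P = (a, b)`, `P' = (a', b')` lie on the line `y = l x + k`, whose third point has abscissa `r` -/
structure Tri where
  (w w' a b a' b' l k r : Ω)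
  x : Fin 3 → Ω
  col : Col l k a a' r
  hb : b = l * a + k
  hb' : b' = l * a' + k
  c0 : w ≠ w'
  l0 : l ≠ 0
  fac : ∀ z, qd w w' a b a' b' l z ^ 2 - ((w - w') * l) ^ 2 * (z ^ 3 + 1) =
    (w - w') ^ 2 * ((z - r) * ∏ i, (z - x i))

/-- ordinates of the zeros -/
noncomputable def Tri.y (T : Tri Ω) (i : Fin 3) : Ω :=
  -qd T.w T.w' T.a T.b T.a' T.b' T.l (T.x i) / ((T.w - T.w') * T.l)

/-- the zeros -/
noncomputable def Tri.e (T : Tri Ω) (i : Fin 3) : EP Ω := pt (T.x i) (T.y i)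

/-- the size of the function -/
noncomputable def Tri.K (T : Tri Ω) (v : Valuation Ω Γ) : Γ :=
  v (T.w - T.w') / ∏ i, hgt v (T.e i)

end Ell

section Lines

variable (Ω) in
/-- a pair of polynomials `a = α s + γ`, `b = s ^ 2 + β₁ s + β₀` -/
structure Sec where
  (α γ β₁ β₀ : Ω)

namespace Sec

variable (S : Sec Ω)

def a (s : Ω) : Ω := S.α * s + S.γ

def b (s : Ω) : Ω := s ^ 2 + S.β₁ * s + S.β₀

/-- vanishes where `x` ramifies -/
def jac (s : Ω) : Ω := 3 * S.α * S.b s - 2 * S.a s * (2 * s + S.β₁)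

/-- the map to `E` -/
def x (s w : Ω) : Ω := S.a s / w ^ 2

def y (s w : Ω) : Ω := S.b s / w ^ 3

/-- `b ^ 2 - a ^ 3 = q`, where `q` has the four distinct roots `r i` -/
structure Ok (A : Subfield Ω) (r : Fin 4 → Ω) : Prop where
  h6 : (6 : Ω) ≠ 0
  rA : ∀ i, r i ∈ A
  inj : Function.Injective r
  αA : S.α ∈ A
  γA : S.γ ∈ A
  β₁A : S.β₁ ∈ A
  β₀A : S.β₀ ∈ A
  eq : ∀ s, S.b s ^ 2 - S.a s ^ 3 = ∏ i, (s - r i)

/-- good abscissae -/
def Gd (s : Ω) : Prop := S.a s ≠ 0 ∧ S.b s ≠ 0 ∧ S.jac s ≠ 0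

/-- distance of the images of two points under two sections -/
noncomputable def ds (v : Valuation Ω Γ) (s' w' : Ω) (T : Sec Ω) (s w : Ω) : Γ :=
  dst v (S.x s' w') (S.y s' w') (T.x s w) (T.y s w)

end Sec

variable (Ω) in
/-- two skew lines on the cubic surface -/
structure Ln where
  (S₀ S₁ : Sec Ω)
  (ω κ : Ω)

namespace Ln

variable (D : Ln Ω)

def d (s : Ω) : Ω := D.S₁.a s - D.S₀.a s

def θ (s : Ω) : Ω := (D.S₁.a s - D.ω ^ 2 * D.S₀.a s) / D.κ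

def β (s : Ω) : Ω := D.κ * (D.S₁.a s - D.ω * D.S₀.a s)

/-- the derivative of `θ` -/
def θ' : Ω := (D.S₁.α - D.ω ^ 2 * D.S₀.α) / D.κ

/-- the abscissa in terms of the two slopes -/
def xx (s m n : Ω) : Ω := -D.S₀.a s - D.S₁.a s - (m - n) * D.θ s + m * n

/-- the equation of the fibre over `s` in terms of the two slopes -/
def g (s m n : Ω) : Ω :=
  D.β s + (m - 2 * n) * D.S₁.a s + (2 * m - n) * D.S₀.a s + (m - n) ^ 2 * D.θ s - m * n * (m - n)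

/-- the derivative of `g` with respect to `s` -/
def gd (m n : Ω) : Ω :=
  D.κ * (D.S₁.α - D.ω * D.S₀.α) + (m - 2 * n) * D.S₁.α + (2 * m - n) * D.S₀.α + (m - n) ^ 2 * D.θ'

/-- base points of the pencil -/
def IsJ (A : Subfield Ω) (z : Ω × Ω) : Prop := z.1 ∈ A ∧ z.2 ∈ A ∧ ∀ s, D.g s z.1 z.2 = 0

/-- the line which belongs to a base point -/
def sec (z : Ω × Ω) : Sec Ω where
  α := -D.S₀.α - D.S₁.α - (z.1 - z.2) * D.θ'
  γ := D.xx 0 z.1 z.2
  β₁ := D.S₀.β₁ + z.1 * (-D.S₀.α - D.S₁.α - (z.1 - z.2) * D.θ' - D.S₀.α)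
  β₀ := D.S₀.β₀ + z.1 * (D.xx 0 z.1 z.2 - D.S₀.γ)

/-- the partial derivative of `g` with respect to `n` -/
def u (z : Ω × Ω) (s : Ω) : Ω := 2 * D.xx s z.1 z.2 + D.S₀.a s - z.1 ^ 2

/-- minus the partial derivative of `g` with respect to `m` -/
def u' (z : Ω × Ω) (s : Ω) : Ω := 2 * D.xx s z.1 z.2 + D.S₁.a s - z.2 ^ 2

/-- the Wronskian of `u` and `u'` -/
def W (z : Ω × Ω) : Ω :=
  D.u z 0 * (2 * (D.sec z).α + D.S₁.α) - D.u' z 0 * (2 * (D.sec z).α + D.S₀.α)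

structure Ok (A : Subfield Ω) (r : Fin 4 → Ω) : Prop where
  ok₀ : D.S₀.Ok A r
  ok₁ : D.S₁.Ok A r
  ωA : D.ω ∈ A
  κA : D.κ ∈ A
  hω : D.ω ^ 2 + D.ω + 1 = 0
  κ0 : D.κ ≠ 0
  hβ : ∀ s, D.S₁.b s - D.S₀.b s = D.β s
  hθ : ∀ s, D.S₁.b s + D.S₀.b s = D.d s * D.θ s
  lead : (D.S₁.α - D.S₀.α) * (D.S₁.α - D.ω ^ 2 * D.S₀.α) = 2 * D.κ
  ind : D.S₀.α * D.S₁.γ ≠ D.S₁.α * D.S₀.γ
  α0 : D.S₀.α ≠ 0

/-- good abscissae -/
structure Gd (J : Finset (Ω × Ω)) (s : Ω) : Prop where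
  g₀ : D.S₀.Gd s
  g₁ : D.S₁.Gd s
  gJ : ∀ z ∈ J, (D.sec z).Gd s ∧ D.u z s ≠ 0
  d0 : D.d s ≠ 0
  c0 : D.θ s ^ 2 - 2 * D.S₁.a s - D.S₀.a s ≠ 0

/-- the contribution of a base point -/
noncomputable def eps (v : Valuation Ω Γ) (s w s' w' x y : Ω) (z : Ω × Ω) : Γ :=
  if v (w ^ 2 * x - (D.sec z).a s) < 1 ∧ v (w ^ 3 * y - (D.sec z).b s) < 1 then
    dst v (w' ^ 2 * x) (w' ^ 3 * y) ((D.sec z).a s') ((D.sec z).b s') else 1

end Ln

/-- the two twists of the point `(x, y)` are congruent -/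
def Cc (v : Valuation Ω Γ) (w w' x y : Ω) : Prop :=
  v (w ^ 2 * x - w' ^ 2 * x) < 1 ∧ v (w ^ 3 * y - w' ^ 3 * y) < 1

/-- the situation at a common value `m` of the first slope -/
structure Ml (D : Ln Ω) (A : Subfield Ω) (r : Fin 4 → Ω) (J : Finset (Ω × Ω)) (v : Valuation Ω Γ)
    (s w s' w' x y m n n' : Ω) : Prop where
  ok : D.Ok A r
  hJ : ∀ z, z ∈ J ↔ D.IsJ A z
  triv : Triv A v
  res : ∀ z, v z ≤ 1 → ∃ c ∈ A, v (z - c) < 1
  sA : s ∈ A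
  wA : w ∈ A
  w0 : w ≠ 0
  eq : w ^ 6 = ∏ i, (s - r i)
  eq' : w' ^ 6 = ∏ i, (s' - r i)
  gd : D.Gd J s
  s1 : v s' ≤ 1
  w1 : v w' = 1
  t0 : s' ≠ s
  d0 : D.d s' ≠ 0
  on : On x y
  m₁ : Sl m (w ^ 2 * x) (w ^ 3 * y) (D.S₀.a s) (D.S₀.b s)
  m₂ : Sl m (w' ^ 2 * x) (w' ^ 3 * y) (D.S₀.a s') (D.S₀.b s')
  n₁ : Sl n (w ^ 2 * x) (w ^ 3 * y) (D.S₁.a s) (D.S₁.b s)
  n₂ : Sl n' (w' ^ 2 * x) (w' ^ 3 * y) (D.S₁.a s') (D.S₁.b s')

/-- the multiplicities at the six conjugates of a point -/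
def cc (J : ℕ) : Fin 6 → ℤ := ![4 - J, 0, 2, 3, 2, 0]

variable (Ω) in
/-- the generic point `(s, w)` of the curve `w ^ 6 = ∏ (s - r i)` over an algebraically closed
field `A`, and an automorphism `σ` with `σ w = ζ w` -/
structure Sx where
  A : Subfield Ω
  (ζ s w : Ω)
  r : Fin 4 → Ω
  σ : Au Ω
  acA : IsAlgClosed A
  h6 : (6 : Ω) ≠ 0
  hζ : IsPrimitiveRoot ζ 6
  rA : ∀ i, r i ∈ A
  inj : Function.Injective r
  eq : w ^ 6 = ∏ i, (s - r i)
  tr : s ∉ A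
  alg : Acl ((A : Set Ω) ∪ {s}) = Set.univ
  σA : σ ∈ Fix (A : Set Ω)
  σs : σ s = s
  σw : σ w = ζ * w

attribute [instance] Sx.acA

/-- the coordinate ring of the part where `w ≠ 0` -/
def Sx.R (C : Sx Ω) : Subalgebra C.A Ω := Algebra.adjoin C.A {C.s, C.w, C.w⁻¹}

/-- the Galois group of the function field -/
def Sx.H (C : Sx Ω) : Subgroup (Au Ω) := Fix ((C.A : Set Ω) ∪ {C.s, C.w})

/-- a point of the curve with coordinates in `A` and `w ≠ 0` -/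
structure Sx.Pt (C : Sx Ω) (s w : Ω) : Prop where
  sA : s ∈ C.A
  wA : w ∈ C.A
  w0 : w ≠ 0
  eq : w ^ 6 = ∏ i, (s - C.r i)

/-- a nontrivial valuation centred at a point with `w ≠ 0` -/
structure Sx.Ns (C : Sx Ω) (v : Valuation Ω Γ) : Prop where
  triv : Triv C.A v
  res : ∀ z, v z ≤ 1 → ∃ c ∈ C.A, v (z - c) < 1
  s1 : v C.s ≤ 1
  w1 : v C.w = 1

/-- The data which define the function attached to a good point `(s, w)`. -/
structure Su (C : Sx Ω) (D : Ln Ω) (J : Finset (Ω × Ω)) (s w : Ω) where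
  T : Tri Ω
  (m m' n n' : Fin 3 → Ω)
  (p p' o o' : Ω)
  ok : D.Ok C.A C.r
  hJ : ∀ z, z ∈ J ↔ D.IsJ C.A z
  hp : C.Pt s w
  gd : D.Gd J s
  Tw : T.w = w
  Tw' : T.w' = C.w
  Ta : T.a = D.S₀.x s w
  Tb : T.b = D.S₀.y s w
  Ta' : T.a' = D.S₀.x C.s C.w
  Tb' : T.b' = D.S₀.y C.s C.w
  hm : ∀ i, Sl (m i) (T.x i) (T.y i) T.a T.b
  hm' : ∀ i, Sl (m' i) (T.x i) (T.y i) T.a' T.b'
  hn : ∀ i, Sl (n i) (T.x i) (T.y i) (D.S₁.x s w) (D.S₁.y s w)
  hn' : ∀ i, Sl (n' i) (T.x i) (T.y i) (D.S₁.x C.s C.w) (D.S₁.y C.s C.w)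
  hp₁ : Sl p (D.S₁.x s w) (-D.S₁.y s w) T.a T.b
  hp₂ : Sl p' (D.S₁.x s w) (-D.S₁.y s w) T.a' T.b'
  ho₁ : Sl o (D.S₁.x C.s C.w) (-D.S₁.y C.s C.w) T.a T.b
  ho₂ : Sl o' (D.S₁.x C.s C.w) (-D.S₁.y C.s C.w) T.a' T.b'
  nd : ∀ i, T.y i + (T.l * T.x i + T.k) ≠ 0
  nd₁ : -D.S₁.y s w + (T.l * D.S₁.x s w + T.k) ≠ 0
  nd₂ : -D.S₁.y C.s C.w + (T.l * D.S₁.x C.s C.w + T.k) ≠ 0
  ndJ : ∀ z ∈ J, (D.sec z).y C.s C.w + (T.l * (D.sec z).x C.s C.w + T.k) ≠ 0

/-- the function -/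
noncomputable def Su.z {C : Sx Ω} {D : Ln Ω} {J : Finset (Ω × Ω)} {s w : Ω} (U : Su C D J s w) :
    Ω :=
  (∏ i, (w * U.n i - C.w * U.n' i)) * (w * U.p - C.w * U.p') * (w * U.o - C.w * U.o') / (w - C.w)

end Lines

section Div

/-- the valuation `v ∘ g` -/
def vc (v : Valuation Ω Γ) (g : Au Ω) : Valuation Ω Γ := v.comap (g : Ω →+* Ω)

/-- additive notation for nonzero elements -/
noncomputable def lg {M : Type} [CommGroupWithZero M] (x : M) : Additive Mˣ :=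
  if h : x = 0 then 0 else Additive.ofMul (Units.mk0 x h)

variable {A : Subfield Ω} {R : Subalgebra A Ω}

/-- restriction of an automorphism to `R` -/
def rs (σ : Au Ω) (h : σ ∈ St (R : Set Ω)) : R ≃+* R where
  toFun f := ⟨σ f, (h f).2 f.2⟩
  invFun f := ⟨σ.symm f, ((St (R : Set Ω)).inv_mem h f).2 f.2⟩
  left_inv f := Subtype.ext (σ.symm_apply_apply f)
  right_inv f := Subtype.ext (σ.apply_symm_apply f)
  map_mul' f g := Subtype.ext (map_mul σ _ _)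
  map_add' f g := Subtype.ext (map_add σ _ _)

variable [IsDedekindDomain R]

/-- action on points -/
noncomputable def ap (σ : Au Ω) (P : HeightOneSpectrum R) : HeightOneSpectrum R :=
  if h : σ ∈ St (R : Set Ω) then mp (rs σ h) P else P

/-- action on divisors -/
noncomputable def ad (σ : Au Ω) (D : Dv R) : Dv R :=
  if h : σ ∈ St (R : Set Ω) then md (rs σ h) D else D

/-- `v` is centred at `P` -/
def Ctr (v : Valuation Ω Γ) (P : HeightOneSpectrum R) : Prop :=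
  (∀ a : R, v a ≤ 1) ∧ ∀ a : R, v a < 1 ↔ a ∈ P.asIdeal

/-- the value of a local equation of the point `P` -/
noncomputable def pv (v : Valuation Ω Γ) (P : HeightOneSpectrum R) : Γ :=
  if Ctr v P then v (Classical.epsilon fun π : R => π ≠ 0 ∧ ord P π = 1 : R) else 1

/-- the value of a local equation of the divisor `D` -/
noncomputable def lb (v : Valuation Ω Γ) (D : Dv R) : Additive Γˣ :=
  D.sum fun P n => n • lg (pv v P)

variable (R) in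
/-- the operator `∑ n i • g i` maps the divisor of `f` to the divisor of the image of `f`, and all
divisors to principal divisors -/
structure Kills {ι : Type} [Fintype ι] (g : ι → Au Ω) (n : ι → ℤ) : Prop where
  fn : ∀ f : R, f ≠ 0 → ∀ (Γ : Type) [LinearOrderedCommGroupWithZero Γ] (v : Valuation Ω Γ),
    Triv A v → ∑ i, n i • lg (v (g i f)) = ∑ i, n i • lb (vc v (g i)) (dv f)
  dv : ∀ D : Dv R, ∃ z : Ω, z ≠ 0 ∧
    (∀ h ∈ Fix (R : Set Ω), (∀ i, (g i)⁻¹ * h * g i ∈ Fix (R : Set Ω)) → h z = z) ∧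
    ∀ (Γ : Type) [LinearOrderedCommGroupWithZero Γ] (v : Valuation Ω Γ), Triv A v →
      lg (v z) = ∑ i, n i • lb (vc v (g i)) D

/-- the terms of `(1 - ρ) (∑ n u • g u) (1 - ρ)` -/
def twg {U : Type} (ρ : Au Ω) (g : U → Au Ω) (i : U × Bool × Bool) : Au Ω :=
  (if i.2.1 then ρ else 1) * g i.1 * (if i.2.2 then ρ else 1)

/-- their coefficients -/
def twn {U : Type} (n : U → ℤ) (i : U × Bool × Bool) : ℤ :=
  (if i.2.1 then -1 else 1) * n i.1 * (if i.2.2 then -1 else 1)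

end Div

variable (Ω) in
/-- a surface over `k` fibred in curves, with geometric generic fibre `R` over `A` -/
structure Fam where
  k : Subfield Ω
  A : Subfield Ω
  R : Subalgebra A Ω
  G : Subgroup (Au Ω)
  kA : k ≤ A
  ack : IsAlgClosed k
  acA : IsAlgClosed A
  ded : IsDedekindDomain R
  alg : Acl (R : Set Ω) = Set.univ
  td : TD k A 1
  td1 : TD A Set.univ 1
  fo : FO G
  Gk : G ≤ Fix (k : Set Ω)
  GA : G ≤ St (A : Set Ω)
  GR : G ≤ St (R : Set Ω)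
  RG : Fix (R : Set Ω) ≤ G
  GAR : G ⊓ Fix (A : Set Ω) ≤ Fix (R : Set Ω)

attribute [instance] Fam.ack Fam.acA Fam.ded

/-- `c` is cohomologous on `V` to a sum of cup products of characters of `E` (along points in `Q`)
with characters of the base `S` -/
def Dec (ℓ : ℕ) [Fact ℓ.Prime] (k : Subfield Ω) (Q : Set (Ω × Ω)) (S : Set Ω) (V : Subgroup (Au Ω))
    (c : Au Ω → Au Ω → ℤ_[ℓ]) : Prop :=
  ∃ (m : ℕ) (p : Fin m → Ω × Ω) (κ ψ : Fin m → Au Ω → ℤ_[ℓ]),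
    (∀ i, p i ∈ Q ∧ Lat ℓ k ((k : Set Ω) ∪ {(p i).1, (p i).2}) (κ i) ∧ Lat ℓ k S (ψ i)) ∧
      CobL ℓ V fun σ τ => c σ τ - ∑ i, κ i σ * ψ i τ

end Pool.Agent.P.MP_ee618e_ag.X.Y
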