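import Pool.Agent.P.MP_ee618e_ag.Y.G0
import Pool.Agent.P.MP_ee618e_ag.X.A2

/-! BR: characters with values in a finite extension of `ℚ_ℓ`. -/

namespace Pool.Agent.P.MP_ee618e_ag.X.Y

open IsDedekindDomain Polynomial
open scoped Classical

variable {Ω : Type} [Field Ω] {Λ : Type} [NormedField Λ] {S S' : Set Ω}

theorem Cont.add {β β' : Au Ω → Λ} (h : Cont S β) (h' : Cont S β') : Cont S (β + β') := by
  intro ε hε
  obtain ⟨T, hT, e⟩ := h (ε / 2) (half_pos hε)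
  obtain ⟨T', hT', e'⟩ := h' (ε / 2) (half_pos hε)
  refine ⟨T ∪ T', fun t ht => (Finset.mem_union.1 ht).elim (hT t) (hT' t),
    fun σ hσ τ hτ hag => ?_⟩
  have h1 := e σ hσ τ hτ fun t ht => hag t (Finset.mem_union_left _ ht)
  have h2 := e' σ hσ τ hτ fun t ht => hag t (Finset.mem_union_right _ ht)
  have h3 : (β + β') σ - (β + β') τ = (β σ - β τ) + (β' σ - β' τ) := by
    simp only [Pi.add_apply]
    ring
  rw [h3]
  linarith [norm_add_le (β σ - β τ) (β' σ - β' τ)]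

theorem Cont.smul {β : Au Ω → Λ} (h : Cont S β) (a : Λ) : Cont S (a • β) := by
  intro ε hε
  have ha : 0 < ‖a‖ + 1 := by positivity
  obtain ⟨T, hT, e⟩ := h (ε / (‖a‖ + 1)) (div_pos hε ha)
  refine ⟨T, hT, fun σ hσ τ hτ hag => ?_⟩
  have h1 := e σ hσ τ hτ hag
  rw [lt_div_iff₀ ha] at h1
  simp only [Pi.smul_apply, smul_eq_mul]
  rw [← mul_sub, norm_mul]
  nlinarith [norm_nonneg (β σ - β τ)]

theorem cont_zero : Cont S (0 : Au Ω → Λ) := by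
  intro ε hε
  exact ⟨∅, by simp, fun σ _ τ _ _ => by simpa using hε⟩

theorem H1.add' {χ ψ : Au Ω → Λ} (h : H1 S χ) (h' : H1 S ψ) : H1 S (χ + ψ) := by
  refine ⟨h.cont.add h'.cont, fun σ hσ => ?_, fun σ hσ τ hτ => ?_, fun O hO σ hσ hi => ?_⟩
  · simp [h.out σ hσ, h'.out σ hσ]
  · simp only [Pi.add_apply, h.add σ hσ τ hτ, h'.add σ hσ τ hτ]
    ring
  · simp [h.unr O hO σ hσ hi, h'.unr O hO σ hσ hi]

theorem H1.smul {χ : Au Ω → Λ} (h : H1 S χ) (a : Λ) : H1 S (a • χ) := by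
  refine ⟨h.cont.smul a, fun σ hσ => ?_, fun σ hσ τ hτ => ?_, fun O hO σ hσ hi => ?_⟩
  · simp [h.out σ hσ]
  · simp only [Pi.smul_apply, smul_eq_mul, h.add σ hσ τ hτ]
    ring
  · simp [h.unr O hO σ hσ hi]

theorem h1_zero : H1 S (0 : Au Ω → Λ) := by
  exact ⟨cont_zero, fun _ _ => rfl, fun _ _ _ _ => by simp, fun _ _ _ _ _ => rfl⟩

variable (Λ S) in
/-- `H¹` as a submodule -/
def H1M : Submodule Λ (Au Ω → Λ) where
  carrier := {χ | H1 S χ}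
  add_mem' := H1.add'
  zero_mem' := h1_zero
  smul_mem' := fun a _ h => H1.smul h a

theorem Cont.cj {β : Au Ω → Λ} (h : Cont S β) {s : Au Ω}
    (hs : ∀ x, s x ∈ Subfield.closure (cst Ω ∪ S') ↔ x ∈ Subfield.closure (cst Ω ∪ S)) :
    Cont S' (cj s β) := by
  intro ε hε
  obtain ⟨T, hT, e⟩ := h ε hε
  refine ⟨T.image s, fun t ht => ?_, fun σ hσ τ hτ hag => ?_⟩
  · obtain ⟨t0, h0, rfl⟩ := Finset.mem_image.1 ht
    exact (acl_conj hs t0).2 (hT t0 h0)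
  · refine e _ ((fix_conj hs).2 hσ) _ ((fix_conj hs).2 hτ) fun t ht => ?_
    simp only [au_mul]
    rw [hag _ (Finset.mem_image_of_mem _ ht)]

theorem H1.cj {χ : Au Ω → Λ} (h : H1 S χ) {s : Au Ω} (hk : s ∈ St (cst Ω))
    (hs : ∀ x, s x ∈ Subfield.closure (cst Ω ∪ S') ↔ x ∈ Subfield.closure (cst Ω ∪ S)) :
    H1 S' (cj s χ) := by
  refine ⟨h.cont.cj hs, fun σ hσ => h.out _ fun h1 => hσ ((fix_conj hs).1 h1),
    fun σ hσ τ hτ => ?_, fun O hO σ hσ hi => ?_⟩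
  · have e : s⁻¹ * (σ * τ) * s = s⁻¹ * σ * s * (s⁻¹ * τ * s) := by group
    simp only [X.cj]
    rw [e]
    exact h.add _ ((fix_conj hs).2 hσ) _ ((fix_conj hs).2 hτ)
  · obtain ⟨O', hO', hi'⟩ := Ine.cj (O := O) (σ := σ) hi s
    exact h.unr O' (fun x hx => (hO' x).2 (hO ((hk x).2 hx))) _ ((fix_conj hs).2 hσ) hi'

theorem H1.cj_self {χ : Au Ω → Λ} (h : H1 S χ) {s : Au Ω} (hs : s ∈ Gal S) : X.cj s χ = χ := by
  funext σ
  have hs' : s ∈ Fix (cst Ω ∪ S) := hs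
  by_cases hσ : σ ∈ Fix (cst Ω ∪ S)
  · have h1 : Hom (Fix (cst Ω ∪ S)) χ := h.add
    exact h1.conj hσ hs'
  · have h2 : s⁻¹ * σ * s ∉ Fix (cst Ω ∪ S) := by
      intro h3
      apply hσ
      have e : σ = s * (s⁻¹ * σ * s) * s⁻¹ := by group
      rw [e]
      exact mul_mem (mul_mem hs' h3) (inv_mem hs')
    exact (h.out _ h2).trans (h.out _ hσ).symm

variable (S) in
/-- coboundaries of continuous cochains -/
def CobM : Submodule Λ (Au Ω → Au Ω → Λ) where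
  carrier := {c | ∃ β : Au Ω → Λ, Cont S β ∧
    ∀ σ ∈ Gal S, ∀ τ ∈ Gal S, c σ τ = β σ + β τ - β (σ * τ)}
  add_mem' := by
    rintro a b ⟨β, h, e⟩ ⟨β', h', e'⟩
    refine ⟨β + β', h.add h', fun σ hσ τ hτ => ?_⟩
    simp only [Pi.add_apply, e σ hσ τ hτ, e' σ hσ τ hτ]
    ring
  zero_mem' := ⟨0, cont_zero, by simp⟩
  smul_mem' := by
    rintro a b ⟨β, h, e⟩
    refine ⟨a • β, h.smul a, fun σ hσ τ hτ => ?_⟩
    simp only [Pi.smul_apply, smul_eq_mul, e σ hσ τ hτ]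
    ring

/-- the span of the products -/
def P2 (U V : Set (Au Ω → Λ)) : Submodule Λ (Au Ω → Au Ω → Λ) :=
  Submodule.span Λ {c | ∃ χ ∈ U, ∃ ψ ∈ V, c = fun σ τ => χ σ * ψ τ}

variable (Λ) in
/-- conjugation in both variables -/
def F2 (α : Au Ω) : (Au Ω → Au Ω → Λ) →ₗ[Λ] (Au Ω → Au Ω → Λ) where
  toFun c := fun σ τ => c (α * σ * α⁻¹) (α * τ * α⁻¹)
  map_add' _ _ := rfl
  map_smul' _ _ := rfl

theorem F2_pow (α : Au Ω) (m : ℕ) : F2 Λ α ^ m = F2 Λ (α ^ m) := by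
  induction m with
  | zero =>
    ext c σ τ
    simp [F2]
  | succ m ih =>
    rw [pow_succ, ih]
    ext c σ τ
    simp only [F2, Module.End.mul_apply, LinearMap.coe_mk, AddHom.coe_mk, pow_succ', mul_inv_rev,
      mul_assoc]

theorem cobM_F2 {c : Au Ω → Au Ω → Λ} (h : c ∈ CobM S) {α : Au Ω} (hα : α ∈ St (cst Ω ∪ S)) :
    F2 Λ α c ∈ CobM S := by
  obtain ⟨β, hβ, e⟩ := h
  have hs : ∀ x, α⁻¹ x ∈ Subfield.closure (cst Ω ∪ S) ↔ x ∈ Subfield.closure (cst Ω ∪ S) :=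
    st_closure (inv_mem hα)
  refine ⟨cj α⁻¹ β, hβ.cj hs, fun σ hσ τ hτ => ?_⟩
  have e1 : α⁻¹⁻¹ * (σ * τ) * α⁻¹ = α⁻¹⁻¹ * σ * α⁻¹ * (α⁻¹⁻¹ * τ * α⁻¹) := by group
  have e2 := e _ ((fix_conj hs).2 hσ) _ ((fix_conj hs).2 hτ)
  simp only [cj]
  rw [e1, ← e2, inv_inv]
  rfl
variable {ℓ : ℕ} [Fact ℓ.Prime] [NormedAlgebra ℚ_[ℓ] Λ]

variable (Λ) in
/-- the map `ℤ_ℓ → Λ` -/
noncomputable def up : ℤ_[ℓ] →+* Λ := (algebraMap ℚ_[ℓ] Λ).comp PadicInt.Coe.ringHom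

theorem norm_up (z : ℤ_[ℓ]) : ‖up Λ z‖ = ‖z‖ := by
  exact norm_algebraMap' Λ (z : ℚ_[ℓ])

include ℓ in
theorem charZero_of : CharZero Λ := by
  exact charZero_of_injective_algebraMap (algebraMap ℚ_[ℓ] Λ).injective

theorem toZModPow_eq_iff_norm (n : ℕ) (x y : ℤ_[ℓ]) :
    PadicInt.toZModPow n x = PadicInt.toZModPow n y ↔ ‖x - y‖ ≤ (ℓ : ℝ) ^ (-n : ℤ) := by
  rw [PadicInt.norm_le_pow_iff_mem_span_pow, ← PadicInt.ker_toZModPow, RingHom.mem_ker, map_sub,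
    sub_eq_zero]

theorem up_coe (z : ℤ_[ℓ]) : up Λ z = algebraMap ℚ_[ℓ] Λ z := rfl

theorem cont_up {β : Au Ω → ℤ_[ℓ]} (h : ∀ n, Sm (Fix (cst Ω ∪ S)) (Acl (cst Ω ∪ S))
    fun σ => PadicInt.toZModPow n (β σ)) : Cont S fun σ => up Λ (β σ) := by
  intro ε hε
  obtain ⟨n, hn⟩ := PadicInt.exists_pow_neg_lt ℓ hε
  obtain ⟨T, hT, hs⟩ := h n
  refine ⟨T, fun t ht => hT ht, fun σ hσ τ hτ hag => ?_⟩
  rw [← map_sub, norm_up]
  exact ((toZModPow_eq_iff_norm n _ _).1 (hs σ hσ τ hτ hag)).trans_lt hn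

variable [FiniteDimensional ℚ_[ℓ] Λ]

/-- Coordinates of a continuous function: linear forms on `Λ` are continuous
(`LinearMap.continuous_of_finiteDimensional`), `β` is bounded on `Gal S` (`orbit_finite`,
`exists_reps`). -/
theorem Cont.coord {β : Au Ω → Λ} (h : Cont S β) (f : Λ →ₗ[ℚ_[ℓ]] ℚ_[ℓ]) :
    ∃ (a : ℕ) (β' : Au Ω → ℤ_[ℓ]), (∀ σ ∉ Gal S, β' σ = 0) ∧
      (∀ σ ∈ Gal S, (β' σ : ℚ_[ℓ]) = (ℓ : ℚ_[ℓ]) ^ a * f (β σ)) ∧
      ∀ n, Sm (Fix (cst Ω ∪ S)) (Acl (cst Ω ∪ S)) fun σ => PadicInt.toZModPow n (β' σ) := by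
  obtain ⟨C, hC, hf⟩ := (LinearMap.toContinuousLinearMap f).bound
  replace hf : ∀ x, ‖f x‖ ≤ C * ‖x‖ := hf
  have hℓ : (1 : ℝ) < ℓ := by exact_mod_cast (Fact.out : ℓ.Prime).one_lt
  obtain ⟨T, hT, h1⟩ := h 1 one_pos
  obtain ⟨s, hs, hrep⟩ := exists_reps (G := Fix (cst Ω ∪ S)) T fun t ht => orbit_finite (hT t ht)
  have hB : ∀ σ ∈ Gal S, ‖β σ‖ ≤ 1 + ∑ τ ∈ s, ‖β τ‖ := by
    intro σ hσ
    obtain ⟨τ, hτ, hag⟩ := hrep σ hσ
    have h2 := h1 σ hσ τ (hs τ hτ) hag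
    have h3 := Finset.single_le_sum (f := fun τ => ‖β τ‖) (fun _ _ => norm_nonneg _) hτ
    have h4 := norm_sub_norm_le (β σ) (β τ)
    linarith
  obtain ⟨a, ha⟩ := pow_unbounded_of_one_lt (C * (1 + ∑ τ ∈ s, ‖β τ‖)) hℓ
  have hn : ‖(ℓ : ℚ_[ℓ]) ^ a‖ = ((ℓ : ℝ) ^ a)⁻¹ := by rw [norm_pow, Padic.norm_p, inv_pow]
  have hpos : (0 : ℝ) < (ℓ : ℝ) ^ a := by positivity
  have hint : ∀ σ ∈ Gal S, ‖(ℓ : ℚ_[ℓ]) ^ a * f (β σ)‖ ≤ 1 := by
    intro σ hσ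
    rw [norm_mul, hn, inv_mul_le_iff₀ hpos, mul_one]
    exact ((hf _).trans (mul_le_mul_of_nonneg_left (hB σ hσ) hC.le)).trans ha.le
  refine ⟨a, fun σ => if hσ : σ ∈ Gal S then ⟨_, hint σ hσ⟩ else 0, fun σ hσ => dif_neg hσ,
    fun σ hσ => by simp only [dif_pos hσ], fun n => ?_⟩
  obtain ⟨T', hT', h2⟩ := h ((ℓ : ℝ) ^ (-n : ℤ) / C) (by positivity)
  refine ⟨T', fun t ht => hT' t ht, fun σ hσ τ hτ hag => ?_⟩
  have hσ' : σ ∈ Gal S := hσ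
  have hτ' : τ ∈ Gal S := hτ
  have h3 := h2 σ hσ τ hτ hag
  simp only [dif_pos hσ', dif_pos hτ']
  rw [toZModPow_eq_iff_norm, PadicInt.norm_def, PadicInt.coe_sub]
  simp only
  rw [← mul_sub, ← map_sub, norm_mul, hn]
  rw [lt_div_iff₀' hC] at h3
  refine le_trans ?_ (((hf _).trans h3.le))
  exact mul_le_of_le_one_left (norm_nonneg _) (inv_le_one_of_one_le₀ (one_le_pow₀ hℓ.le))

variable (p : ℕ) [Fact p.Prime] [CharP Ω p]
include p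

omit [FiniteDimensional ℚ_[ℓ] Λ] in
theorem lat_h1 {χ : Au Ω → ℤ_[ℓ]} (h : Lat ℓ (kk Ω) (cst Ω ∪ S) χ) : H1 S fun σ => up Λ (χ σ) := by
  refine ⟨cont_up fun n => (h n).sm, fun σ hσ => ?_, fun σ hσ τ hτ => ?_, fun O hO σ hσ hi => ?_⟩
  · rw [PadicInt.ext_of_toZModPow.1 fun n => ((h n).out σ hσ).trans (map_zero _).symm, map_zero]
  · rw [h.hom σ hσ τ hτ, map_add]
  · rw [PadicInt.ext_of_toZModPow.1 fun n =>
      ((h n).unr O (by rwa [kk_eq p]) σ hσ hi).trans (map_zero _).symm, map_zero]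

theorem H1.span {χ : Au Ω → Λ} (h : H1 S χ) : χ ∈ Submodule.span Λ
    {ψ | ∃ χ' : Au Ω → ℤ_[ℓ], Lat ℓ (kk Ω) (cst Ω ∪ S) χ' ∧ ψ = fun σ => up Λ (χ' σ)} := by
  let b := Module.finBasis ℚ_[ℓ] Λ
  choose a β h0 h1 h2 using fun i => h.cont.coord (b.coord i)
  have hℓ : (ℓ : ℚ_[ℓ]) ≠ 0 := by exact_mod_cast (Fact.out : ℓ.Prime).ne_zero
  have e : χ = ∑ i, (algebraMap ℚ_[ℓ] Λ ((ℓ : ℚ_[ℓ]) ^ a i)⁻¹ * b i) •
      fun σ => up Λ (β i σ) := by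
    funext σ
    simp only [Finset.sum_apply, Pi.smul_apply, smul_eq_mul]
    by_cases hσ : σ ∈ Gal S
    · rw [← b.sum_repr (χ σ)]
      refine Finset.sum_congr rfl fun i _ => ?_
      rw [up_coe, h1 i σ hσ, mul_right_comm, ← map_mul, inv_mul_cancel_left₀ (pow_ne_zero _ hℓ),
        Algebra.smul_def]
      rfl
    · simp [h.out σ hσ, h0 _ σ hσ]
  rw [e]
  refine Submodule.sum_mem _ fun i _ => Submodule.smul_mem _ _ (Submodule.subset_span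
    ⟨β i, fun n => ⟨fun σ hσ τ hτ => ?_, h2 i n, fun σ hσ => ?_, fun O hO σ hσ hi => ?_⟩, rfl⟩)
  · have : β i (σ * τ) = β i σ + β i τ := by
      refine Subtype.ext ?_
      rw [PadicInt.coe_add, h1 i σ hσ, h1 i τ hτ, h1 i _ ((Fix (cst Ω ∪ S)).mul_mem hσ hτ),
        h.add σ hσ τ hτ, map_add, mul_add]
    simp only [this, map_add]
  · simp only [h0 i σ hσ, map_zero]
  · have : β i σ = 0 := by
      refine Subtype.ext ?_
      rw [h1 i σ hσ, h.unr O (by rwa [kk_eq p] at hO) σ hσ hi, map_zero, mul_zero, PadicInt.coe_zero]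
    simp only [this, map_zero]

omit [FiniteDimensional ℚ_[ℓ] Λ] in
theorem cobL_up [IsAlgClosed Ω] (hℓ : (ℓ : Ω) ≠ 0) (hS : Acl (cst Ω ∪ S) = Set.univ)
    {c : Au Ω → Au Ω → ℤ_[ℓ]} (h : CobL ℓ (Fix (cst Ω ∪ S)) c) :
    (fun σ τ => up Λ (c σ τ)) ∈ CobM S := by
  have hp : ℓ.Prime := Fact.out
  obtain ⟨ζ, hζ⟩ := exists_roots (Ω := Ω) ℓ hℓ
  have := kk_algClosed (Ω := Ω) p
  have hz : ∀ σ ∈ Fix (cst Ω ∪ S), ∀ n, σ (ζ n) = ζ n := by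
    intro σ hσ n
    refine hσ _ (Or.inl ?_)
    rw [← kk_eq p]
    exact root_mem (kk Ω) (pow_pos hp.pos n) (one_mem _) (hζ.prim n).pow_eq_one
  obtain ⟨β, hs, hβ⟩ := h.lim (fo_fix hS) hζ hz
  refine ⟨fun σ => up Λ (β σ), cont_up fun n => ?_, fun σ hσ τ hτ => ?_⟩
  · rw [hS]
    exact hs n
  · simp only [hβ σ hσ τ hτ, map_sub, map_add]

/-- a bilinear expression lies in a submodule as soon as it does so for integral characters -/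
theorem bil_ind {V : Type} [AddCommGroup V] [Module Λ V] (K : Submodule Λ V)
    (B : (Au Ω → Λ) →ₗ[Λ] (Au Ω → Λ) →ₗ[Λ] V)
    (h : ∀ χ ψ : Au Ω → ℤ_[ℓ], Lat ℓ (kk Ω) (cst Ω ∪ S) χ → Lat ℓ (kk Ω) (cst Ω ∪ S') ψ →
      B (fun σ => up Λ (χ σ)) (fun σ => up Λ (ψ σ)) ∈ K)
    {χ ψ : Au Ω → Λ} (hχ : H1 S χ) (hψ : H1 S' ψ) : B χ ψ ∈ K := by
  have h1 := hχ.span (ℓ := ℓ) p
  have h2 := hψ.span (ℓ := ℓ) p
  clear hχ hψ
  induction h1 using Submodule.span_induction with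
  | mem x hx =>
    obtain ⟨χ', h', rfl⟩ := hx
    induction h2 using Submodule.span_induction with
    | mem y hy =>
      obtain ⟨ψ', h'', rfl⟩ := hy
      exact h χ' ψ' h' h''
    | zero => simp
    | add x y _ _ hx hy => rw [map_add]; exact K.add_mem hx hy
    | smul a x _ hx => rw [map_smul]; exact K.smul_mem a hx
  | zero => simp
  | add x y _ _ hx hy => rw [map_add, LinearMap.add_apply]; exact K.add_mem hx hy
  | smul a x _ hx => rw [map_smul, LinearMap.smul_apply]; exact K.smul_mem a hx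

end Pool.Agent.P.MP_ee618e_ag.X.Y
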