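import Pool.Agent.P.MP_ee618e_ag.Y.B
import Pool.Agent.P.MP_ee618e_ag.X.A2
import Pool.Agent.P.MP_ee618e_ag.X.V3

/-! C1: representatives of cosets, corestriction of cup products. -/

namespace Pool.Agent.P.MP_ee618e_ag.X.Y

open IsDedekindDomain
open scoped Classical

variable {Ω : Type} [Field Ω] {G K : Subgroup (Au Ω)} {T : Finset Ω}

/-- `s` is a system of representatives of `G / (G ⊓ Fix T)` -/
def Rep (G : Subgroup (Au Ω)) (T : Finset Ω) {ι : Type} (s : ι → Au Ω) : Prop :=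
  (∀ x, s x ∈ G) ∧ ∀ g ∈ G, ∃! x, (s x)⁻¹ * g ∈ Fix (T : Set Ω)

/-- `relIndex_ne_zero`; see the beginning of the proof of `cores` in `X/G3.lean` -/
theorem exists_rep (hG : FO G) (T : Finset Ω) : ∃ (n : ℕ) (s : Fin n → Au Ω), Rep G T s := by
  have hi : ((Fix (T : Set Ω)).subgroupOf G).index ≠ 0 :=
    relIndex_ne_zero T (fun t _ => hG t) inf_le_right
  let _ := Subgroup.fintypeOfIndexNeZero hi
  set e := Fintype.equivFin (G ⧸ (Fix (T : Set Ω)).subgroupOf G)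
  refine ⟨_, fun x => ((e.symm x).out : G), fun x => ((e.symm x).out : G).2, fun g hg => ?_⟩
  have key : ∀ x, (((e.symm x).out : G) : Au Ω)⁻¹ * g ∈ Fix (T : Set Ω) ↔
      x = e (QuotientGroup.mk ⟨g, hg⟩) := fun x => by
    rw [← e.symm_apply_eq]
    conv_rhs => rw [← Quotient.out_eq (e.symm x)]
    refine Iff.symm (QuotientGroup.eq.trans ?_)
    rw [Subgroup.mem_subgroupOf]
    rfl
  exact ⟨_, (key _).2 rfl, fun y hy => (key y).1 hy⟩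

theorem Rep.up {ι : Type} {s : ι → Au Ω} (h : Rep K T s) (hK : K ≤ G)
    (sur : ∀ g ∈ G, ∃ h ∈ K, h⁻¹ * g ∈ Fix (T : Set Ω)) : Rep G T s := by
  refine ⟨fun x => hK (h.1 x), fun g hg => ?_⟩
  obtain ⟨g', hg', e⟩ := sur g hg
  refine (existsUnique_congr fun x => ?_).1 (h.2 g' hg')
  rw [← (Fix (T : Set Ω)).mul_mem_cancel_right e, mul_assoc, mul_inv_cancel_left]

/-- the action on the representatives -/
theorem Rep.act {ι : Type} [Finite ι] {s : ι → Au Ω} (h : Rep G T s) :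
    ∃ a : Au Ω → ι → ι,
      (∀ σ ∈ G, ∀ x y, a σ x = y ↔ (s x)⁻¹ * σ * s y ∈ Fix (T : Set Ω)) ∧
      ∀ σ ∈ G, Function.Bijective (a σ) := by
  have key : ∀ σ x, ∃ z, σ ∈ G → ∀ y, z = y ↔ (s x)⁻¹ * σ * s y ∈ Fix (T : Set Ω) := by
    intro σ x
    by_cases hσ : σ ∈ G
    · obtain ⟨z, hz, hu⟩ := h.2 (σ⁻¹ * s x) (G.mul_mem (G.inv_mem hσ) (h.1 x))
      refine ⟨z, fun _ y => ?_⟩
      rw [← (Fix (T : Set Ω)).inv_mem_iff,
        show ((s x)⁻¹ * σ * s y)⁻¹ = (s y)⁻¹ * (σ⁻¹ * s x) by group]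
      exact ⟨fun e => e ▸ hz, fun e => (hu y e).symm⟩
    · exact ⟨x, fun e => absurd e hσ⟩
  choose a ha using key
  refine ⟨a, fun σ hσ x y => ha σ x hσ y, fun σ hσ => Finite.injective_iff_bijective.1 ?_⟩
  intro x x' e
  have e1 := (ha σ x hσ _).1 e
  have e2 := (ha σ x' hσ _).1 rfl
  rw [mul_assoc] at e1 e2
  exact (h.2 _ (G.mul_mem hσ (h.1 _))).unique e1 e2

theorem c1_normal (hT : ∀ g ∈ G, ∀ t ∈ T, g t ∈ T) :
    ∀ τ ∈ G, ∀ v ∈ G ⊓ Fix (T : Set Ω), τ⁻¹ * v * τ ∈ G ⊓ Fix (T : Set Ω) := fun τ hτ v hv =>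
  ⟨G.mul_mem (G.mul_mem (G.inv_mem hτ) hv.1) hτ, fun t ht => by
    rw [au_mul, au_mul, au_inv, RingEquiv.symm_apply_eq]
    exact hv.2 _ (hT τ hτ t ht)⟩

theorem c1_closure (s : Au Ω) (S : Set Ω) (x : Ω) :
    s x ∈ Subfield.closure (s '' S) ↔ x ∈ Subfield.closure S := by
  have h1 := RingHom.map_field_closure (s : Ω →+* Ω) S
  rw [RingHom.coe_coe] at h1
  rw [← h1, Subfield.mem_map]
  exact ⟨fun ⟨y, hy, e⟩ => s.injective e ▸ hy, fun hx => ⟨x, hx, rfl⟩⟩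

/-- left multiplication by `h₀⁻¹` permutes the cosets -/
theorem Rep.card {ι : Type} [Fintype ι] {s : ι → Au Ω} (h : Rep K T s) {H : Subgroup (Au Ω)}
    (hH : H ≤ K) (hT : K ⊓ Fix (T : Set Ω) ≤ H) : ∃ m : ℕ, m ≠ 0 ∧
      ∀ h₀ ∈ K, (Finset.univ.filter fun i => h₀⁻¹ * s i ∈ H).card = m := by
  obtain ⟨a, ha, hb⟩ := h.act
  refine ⟨(Finset.univ.filter fun i => s i ∈ H).card, ?_, fun h₀ hh => ?_⟩
  · obtain ⟨x, hx, -⟩ := h.2 1 K.one_mem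
    rw [mul_one] at hx
    exact Finset.card_ne_zero.2 ⟨x, by
      simpa using H.inv_mem_iff.1 (hT ⟨K.inv_mem (h.1 x), hx⟩)⟩
  · refine Finset.card_bijective (a h₀) (hb h₀ hh) fun i => ?_
    have e : (s i)⁻¹ * h₀ * s (a h₀ i) ∈ H :=
      hT ⟨K.mul_mem (K.mul_mem (K.inv_mem (h.1 i)) hh) (h.1 _), (ha h₀ hh i _).1 rfl⟩
    simp only [Finset.mem_filter, Finset.mem_univ, true_and]
    rw [← H.mul_mem_cancel_right e, show h₀⁻¹ * s i * ((s i)⁻¹ * h₀ * s (a h₀ i)) = s (a h₀ i) by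
      group]

/-- copy of `cores` in `X/G3.lean` with given representatives: `a σ x` is the index with
`(s x)⁻¹ σ s (a σ x) ∈ Fix T`, and `h σ x` is this element -/
theorem Rep.cores {ι : Type} [Fintype ι] {s : ι → Au Ω} (h : Rep G T s)
    (hT : ∀ g ∈ G, ∀ t ∈ T, g t ∈ T) :
    ∃ (a : Au Ω → ι → ι) (h : Au Ω → ι → Au Ω),
      (∀ σ ∈ G ⊓ Fix (T : Set Ω), ∀ x, a σ x = x ∧ h σ x = (s x)⁻¹ * σ * s x) ∧
      ∀ (Y : Type) [CommRing Y] (χ ψ : Au Ω → Y), Hom (G ⊓ Fix (T : Set Ω)) χ →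
        Hom (G ⊓ Fix (T : Set Ω)) ψ → Sm (G ⊓ Fix (T : Set Ω)) Set.univ χ →
        Sm (G ⊓ Fix (T : Set Ω)) Set.univ ψ → Coc G (fun σ τ => ∑ x, χ (h σ x) * ψ (h τ (a σ x))) ∧
          Sm2 G fun σ τ => ∑ x, χ (h σ x) * ψ (h τ (a σ x)) := by
  obtain ⟨a, ha, hbij⟩ := h.act
  have hn := c1_normal hT
  set V := G ⊓ Fix (T : Set Ω) with hVd
  have hV : V ≤ G := inf_le_left
  have hsG := h.1
  have hiff : ∀ σ ∈ G, ∀ x y, a σ x = y ↔ (s x)⁻¹ * σ * s y ∈ V := fun σ hσ x y =>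
    (ha σ hσ x y).trans ⟨fun e => ⟨G.mul_mem (G.mul_mem (G.inv_mem (hsG x)) hσ) (hsG y), e⟩,
      fun e => e.2⟩
  have hV' : ∀ σ ∈ G, ∀ x, (s x)⁻¹ * σ * s (a σ x) ∈ V := fun σ hσ x => (hiff σ hσ x _).1 rfl
  have hfix : ∀ σ ∈ V, ∀ x, a σ x = x := fun σ hσ x =>
    (hiff σ (hV hσ) x x).2 (hn _ (hsG x) σ hσ)
  have hmul : ∀ σ ∈ G, ∀ τ ∈ G, ∀ x, a (σ * τ) x = a τ (a σ x) := fun σ hσ τ hτ x => by
    refine (hiff _ (G.mul_mem hσ hτ) x _).2 ?_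
    have := V.mul_mem (hV' σ hσ x) (hV' τ hτ (a σ x))
    rwa [show (s x)⁻¹ * σ * s (a σ x) * ((s (a σ x))⁻¹ * τ * s (a τ (a σ x))) =
      (s x)⁻¹ * (σ * τ) * s (a τ (a σ x)) by group] at this
  have hag : ∀ σ ∈ G, ∀ τ ∈ G, Ag T σ τ → a σ = a τ := fun σ hσ τ hτ h => funext fun x => by
    have h1 : σ⁻¹ * τ ∈ V := g3_mem hσ hτ h
    rw [← hfix _ h1 (a σ x), ← hmul σ hσ _ (hV h1), mul_inv_cancel_left]
  have hsm : ∀ (Y : Type) (χ : Au Ω → Y), Sm V Set.univ χ → ∀ x,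
      Sm G Set.univ fun σ => χ ((s x)⁻¹ * σ * s (a σ x)) := by
    rintro Y χ ⟨T1, -, hχ⟩ x
    refine ⟨T ∪ Finset.univ.biUnion fun y => T1.image (s y), Set.subset_univ _,
      fun σ hσ τ hτ h => hχ _ (hV' σ hσ x) _ (hV' τ hτ x) fun t ht => ?_⟩
    rw [hag σ hσ τ hτ (g3_left h)]
    exact congrArg (s x).symm (g3_right h _ (Finset.mem_biUnion.2
      ⟨a τ x, Finset.mem_univ _, Finset.mem_image_of_mem _ ht⟩))
  refine ⟨a, fun σ x => (s x)⁻¹ * σ * s (a σ x),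
    fun σ hσ x => ⟨hfix σ hσ x, by simp only [hfix σ hσ x]⟩, fun Y _ χ ψ hχ hψ sχ sψ => ⟨?_, ?_⟩⟩
  · intro σ hσ τ hτ ρ hρ
    have hh : ∀ (φ : Au Ω → Y), Hom V φ → ∀ σ ∈ G, ∀ τ ∈ G, ∀ x,
        φ ((s x)⁻¹ * (σ * τ) * s (a (σ * τ) x)) = φ ((s x)⁻¹ * σ * s (a σ x)) +
          φ ((s (a σ x))⁻¹ * τ * s (a τ (a σ x))) := fun φ hφ σ hσ τ hτ x => by
      rw [← hφ _ (hV' σ hσ x) _ (hV' τ hτ _), hmul σ hσ τ hτ]
      congr 1
      group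
    beta_reduce
    rw [← (hbij σ hσ).sum_comp fun y => χ ((s y)⁻¹ * τ * s (a τ y)) *
      ψ ((s (a τ y))⁻¹ * ρ * s (a ρ (a τ y))), ← Finset.sum_add_distrib, ← Finset.sum_add_distrib]
    refine Finset.sum_congr rfl fun x _ => ?_
    rw [hh ψ hψ τ hτ ρ hρ, hh χ hχ σ hσ τ hτ, hmul σ hσ τ hτ]
    ring
  · have h1 : Sm G Set.univ a := ⟨T, Set.subset_univ _, hag⟩
    exact ((Sm.pi (hsm Y χ sχ)).map₂ h1 Prod.mk).sm2 (Sm.pi (hsm Y ψ sψ))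
      fun p q => ∑ x, p.1 x * q (p.2 x)

/-- smooth, locally trivial cocycles at all levels -/
def Unr (ℓ : ℕ) [Fact ℓ.Prime] (k : Subfield Ω) (G : Subgroup (Au Ω)) (c : Au Ω → Au Ω → ℤ_[ℓ]) :
    Prop :=
  ∀ n, (Sm2 G fun σ τ => PadicInt.toZModPow n (c σ τ)) ∧
    (Coc G fun σ τ => PadicInt.toZModPow n (c σ τ)) ∧
    Loc k G fun σ τ => PadicInt.toZModPow n (c σ τ)

/-- conjugation of characters -/
theorem ch_img {Y : Type} [AddCommGroup Y] {k : Subfield Ω} {S : Set Ω} {χ : Au Ω → Y}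
    (h : Ch k S χ) {s : Au Ω} (hk : s ∈ Fix (k : Set Ω)) : Ch k (s '' S) (cj s χ) := by
  exact h.cj (fix_le_st _ hk) (c1_closure s S)

theorem lat_img {ℓ : ℕ} [Fact ℓ.Prime] {k : Subfield Ω} {S : Set Ω} {χ : Au Ω → ℤ_[ℓ]}
    (h : Lat ℓ k S χ) {s : Au Ω} (hk : s ∈ Fix (k : Set Ω)) : Lat ℓ k (s '' S) (cj s χ) := by
  exact fun n => ch_img (h n) hk

/-- `c = M ∑ χ (h σ x) ψ (h τ (a σ x))` with `M` the factorial of the index; `Rep.cores`, `loc_cup`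
for `S ∪ T` and the characters `cj (s x) χ`, `cj (s x) ψ` (`ch_img`), `res_fact`; see
`Geo.cores_loc` in `X/M2.lean` -/
theorem corl [IsAlgClosed Ω] {k : Subfield Ω} [IsAlgClosed k] (htd : TD k Set.univ 2) {S : Set Ω}
    (hS : Acl S = Set.univ) (hk : (k : Set Ω) ⊆ S) (hT : ∀ g ∈ Fix S, ∀ t ∈ T, g t ∈ T)
    {ι : Type} [Fintype ι] {s : ι → Au Ω} (hs : Rep (Fix S) T s) : ∃ M : ℕ, M ≠ 0 ∧
      ∀ (ℓ : ℕ) [Fact ℓ.Prime], (ℓ : Ω) ≠ 0 → ∀ (S₁ S₂ : Set Ω) (χ ψ : Au Ω → ℤ_[ℓ]),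
        Fix S ⊓ Fix (T : Set Ω) ≤ Fix S₁ → Fix S ⊓ Fix (T : Set Ω) ≤ Fix S₂ →
        Lat ℓ k S₁ χ → Lat ℓ k S₂ ψ → ∃ c, Unr ℓ k (Fix S) c ∧
          ∀ σ ∈ Fix S ⊓ Fix (T : Set Ω), ∀ τ ∈ Fix S ⊓ Fix (T : Set Ω),
            c σ τ = M * ∑ x, cj (s x) χ σ * cj (s x) ψ τ := by
  have hFO : FO (Fix S) := fo_fix hS
  have hn := c1_normal hT
  obtain ⟨a, h, hV, hc⟩ := hs.cores hT
  set V := Fix S ⊓ Fix (T : Set Ω) with hVd
  set M := (V.relIndex (Fix S)).factorial with hM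
  refine ⟨M, Nat.factorial_ne_zero _, fun ℓ _ hℓ S₁ S₂ χ ψ h1 h2 hχ hψ =>
    ⟨fun σ τ => M * ∑ x, χ (h σ x) * ψ (h τ (a σ x)), fun n => ?_, fun σ hσ τ hτ => ?_⟩⟩
  · obtain ⟨c1, c2⟩ := hc _ _ _ ((hχ n).hom.mono h1) ((hψ n).hom.mono h2)
      ((hχ n).sm.mono h1 (Set.subset_univ _)) ((hψ n).sm.mono h2 (Set.subset_univ _))
    have e : (fun σ τ => PadicInt.toZModPow n ((M : ℤ_[ℓ]) * ∑ x, χ (h σ x) * ψ (h τ (a σ x)))) =
        fun σ τ => M • ∑ x, PadicInt.toZModPow n (χ (h σ x)) *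
          PadicInt.toZModPow n (ψ (h τ (a σ x))) := by
      funext σ τ
      simp only [map_mul, map_natCast, map_sum, nsmul_eq_mul]
    rw [e]
    refine ⟨c2.map fun y => M • y, c1.map (nsmulAddMonoidHom M), fun O hO hO' => ?_⟩
    refine res_fact hFO inf_le_left T le_rfl (c2.mono inf_le_left) (c1.mono inf_le_left) ?_
    have hacl : Acl (S ∪ (T : Set Ω)) = Set.univ :=
      Set.eq_univ_of_univ_subset (hS ▸ acl_mono Set.subset_union_left)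
    have hN : ((ℓ ^ n : ℕ) : Ω) ≠ 0 := by
      rw [Nat.cast_pow]
      exact pow_ne_zero _ hℓ
    have him : ∀ (S' : Set Ω), V ≤ Fix S' → ∀ x, Fix (S ∪ (T : Set Ω)) ≤ Fix (s x '' S') :=
      fun S' h' x σ hσ => (fix_conj (c1_closure (s x) S')).1
        (h' (hn _ (hs.1 x) σ (by rwa [fix_union] at hσ)))
    have l1 := fun x => loc_cup htd hacl (hk.trans Set.subset_union_left) hN (him S₁ h1 x)
      (him S₂ h2 x) (ch_img (hχ n) (fix_anti hk (hs.1 x))) (ch_img (hψ n) (fix_anti hk (hs.1 x)))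
      O hO hO'
    refine ((Cob.sum Finset.univ fun x _ => l1 x).mono ?_).congr fun σ hσ τ hτ => ?_
    · rw [fix_union]
      exact le_inf inf_le_right (inf_le_left.trans inf_le_right)
    · refine Finset.sum_congr rfl fun x _ => ?_
      rw [(hV σ hσ.2 x).1, (hV σ hσ.2 x).2, (hV τ hτ.2 x).2]
      rfl
  · beta_reduce
    congr 1
    refine Finset.sum_congr rfl fun x _ => ?_
    rw [(hV σ hσ x).1, (hV σ hσ x).2, (hV τ hτ x).2]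
    rfl

end Pool.Agent.P.MP_ee618e_ag.X.Y
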