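import Pool.Agent.P.MP_ee618e_ag.Y.C1
import Pool.Agent.P.MP_ee618e_ag.X.A3

/-! C2: locally trivial integral classes on a product are sums of cup products. -/

namespace Pool.Agent.P.MP_ee618e_ag.X.Y

open IsDedekindDomain
open scoped Classical

variable {Ω : Type} [Field Ω] [IsAlgClosed Ω] {ℓ : ℕ} [Fact ℓ.Prime] {C : Fib Ω} {ζ : ℕ → Ω}
  {S : Set Ω} {c : Au Ω → Au Ω → ℤ_[ℓ]}

omit [IsAlgClosed Ω] [Fact ℓ.Prime] in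
theorem c2_dvs (hd : C.Dvs ℓ) (n : ℕ) : C.Dvs (ℓ ^ n) := by
  induction n with
  | zero => exact fun x => ⟨x, by rw [pow_zero, one_smul]⟩
  | succ n ih =>
    intro x
    obtain ⟨y, rfl⟩ := ih x
    obtain ⟨z, rfl⟩ := hd y
    exact ⟨z, by rw [smul_smul, pow_succ]⟩

/-- Take `t'` from `k1'` at level `n + 1`. By `kap_red` the class `cup (t - ℓ t')` is trivial at
level `n`, so `t - ℓ t' = x - ac τ x` (`ker`, `ch_fix`). Write `x = ℓ x'`; add the character of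
`ker_ch` for `x'` to `t'` (`ker'`); `ch_ext`. -/
theorem k1_step (hℓ : (ℓ : Ω) ≠ 0) (hζ : Roots ℓ ζ) (hd : C.Dvs ℓ) (hS : C.Base S)
    (hc : Unr ℓ C.k (C.GG S) c) {n : ℕ} {t : Au Ω → Cl C.R} (ht : Ch C.k S t)
    (h0 : ∀ τ, ℓ ^ n • t τ = 0)
    (hb : Cob (C.GG S) fun σ τ => PadicInt.toZModPow n (c σ τ) - C.cup (ℓ ^ n) (ζ n) t σ τ) :
    ∃ t' : Au Ω → Cl C.R, Ch C.k S t' ∧ (∀ τ, ℓ • t' τ = t τ) ∧
      Cob (C.GG S) fun σ τ =>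
        PadicInt.toZModPow (n + 1) (c σ τ) - C.cup (ℓ ^ (n + 1)) (ζ (n + 1)) t' σ τ := by
  have hN := pow_cast_ne hℓ
  obtain ⟨t₁, c1, z1, b1⟩ := Fib.k1' (hζ.prim (n + 1)) (hN _) hS (c2_dvs hd _) (hc (n + 1)).1
    (hc (n + 1)).2.1 (hc (n + 1)).2.2
  have z1' : ∀ τ, ℓ ^ n • ℓ • t₁ τ = 0 := fun τ => by rw [smul_smul, ← pow_succ, z1]
  have c1' : Ch C.k S fun τ => ℓ • t₁ τ := c1.map (nsmulAddMonoidHom ℓ)
  have cu : Ch C.k S fun τ => t τ - ℓ • t₁ τ := ht.sub c1'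
  have zu : ∀ τ, ℓ ^ n • (t τ - ℓ • t₁ τ) = 0 := fun τ => by rw [smul_sub, h0, z1', sub_zero]
  have bu : Cob (C.GG S) (C.cup (ℓ ^ n) (ζ n) fun τ => t τ - ℓ • t₁ τ) := by
    refine ((b1.map (red ℓ n).toAddMonoidHom).sub hb).congr fun σ _ τ _ => ?_
    simp only [RingHom.toAddMonoidHom_eq_coe, AddMonoidHom.coe_coe, Fib.cup]
    rw [map_sub, red_toZModPow, Fib.kap_red hℓ hζ (z1 τ), sub_eq_add_neg (t τ),
      Fib.kap_add (hζ.prim n) (hN n) (h0 τ) (by rw [smul_neg, z1', neg_zero]),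
      Fib.kap_neg (hζ.prim n) (hN n) (z1' τ)]
    ring
  obtain ⟨x, hx⟩ := Fib.ker (hζ.prim n) (hN n) hS (fun τ _ => zu τ)
    (fun h hh => Fib.ch_fix hS cu h fun z hz => hh z (C.R.algebraMap_mem ⟨z, hz⟩)) bu
  obtain ⟨y, rfl⟩ := hd x
  have hy : ∀ τ ∈ C.GG S, C.ac τ (ℓ ^ (n + 1) • y) = ℓ ^ (n + 1) • y := fun τ hτ => by
    have h1 := zu τ
    rw [hx τ hτ, smul_sub, ← Fib.ac_nsmul, smul_smul, ← pow_succ, sub_eq_zero] at h1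
    exact h1.symm
  obtain ⟨t₂, c2, z2, e2⟩ := Fib.ker_ch (hζ.prim (n + 1)) (hN _) hS hy
  refine ⟨fun τ => t₁ τ + t₂ τ, c1.add c2, fun τ => ?_, ?_⟩
  · refine sub_eq_zero.1 (Fib.ch_ext hS (((c1.add c2).map (nsmulAddMonoidHom ℓ)).sub ht)
      (fun σ hσ => ?_) τ)
    have h1 := hx σ hσ
    rw [Fib.ac_nsmul, ← smul_sub, ← e2 σ hσ] at h1
    rw [nsmulAddMonoidHom_apply, smul_add, ← h1]
    abel
  · refine (b1.sub (Fib.ker' (hζ.prim (n + 1)) (hN _) hS hy)).congr fun σ _ τ hτ => ?_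
    simp only [Fib.cup]
    rw [Fib.kap_add (hζ.prim (n + 1)) (hN _) (z1 τ) (z2 τ), e2 τ hτ]
    ring

/-- recursion with `k1_step`; `exists_bas`, `Bas.ch_co`, `PB.red`, `lat_lim`, `Bas.kap_eq`; see the
end of `Geo.main` in `X/M3.lean` -/
theorem k1_inf (hℓ : (ℓ : Ω) ≠ 0) (hd : C.Dvs ℓ) (hS : C.Base S) (hc : Unr ℓ C.k (C.GG S) c) :
    ∃ (ρ : ℕ) (κ ψ : Fin ρ → Au Ω → ℤ_[ℓ]),
      (∀ i, Lat ℓ C.k (C.R0 : Set Ω) (κ i) ∧ Lat ℓ C.k S (ψ i)) ∧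
      CobL ℓ (C.GG S) fun σ τ => c σ τ - ∑ i, κ i σ * ψ i τ := by
  obtain ⟨ζ, hζ⟩ := exists_roots (Ω := Ω) ℓ hℓ
  obtain ⟨B⟩ := exists_bas hℓ hζ hd
  let P : ℕ → (Au Ω → Cl C.R) → Prop := fun n t => Ch C.k S t ∧ (∀ τ, ℓ ^ n • t τ = 0) ∧
    Cob (C.GG S) fun σ τ => PadicInt.toZModPow n (c σ τ) - C.cup (ℓ ^ n) (ζ n) t σ τ
  have h0 : ∃ t, P 0 t := Fib.k1' (hζ.prim 0) (pow_cast_ne hℓ 0) hS (c2_dvs hd 0) (hc 0).1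
    (hc 0).2.1 (hc 0).2.2
  have hs : ∀ n (t : {t // P n t}), ∃ t' : {t // P (n + 1) t}, ∀ τ, ℓ • t'.1 τ = t.1 τ := by
    rintro n ⟨t, h1, h2, h3⟩
    obtain ⟨t', k1, k2, k3⟩ := k1_step hℓ hζ hd hS hc h1 h2 h3
    exact ⟨⟨t', k1, fun τ => by rw [pow_succ, mul_smul, k2, h2], k3⟩, k2⟩
  choose f hf using hs
  let T : (n : ℕ) → {t // P n t} := fun n => Nat.rec ⟨_, h0.choose_spec⟩ f n
  have hT : ∀ n τ, ℓ • (T (n + 1)).1 τ = (T n).1 τ := fun n => hf n (T n)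
  choose ψ l e using fun i => lat_lim (fun n τ => B.co n ((T n).1 τ) i)
    (fun n => B.ch_co (T n).2.1 (T n).2.2.1 i)
    fun n τ => by rw [← B.red n _ ((T (n + 1)).2.2.1 τ), hT]
  refine ⟨B.ρ, B.κ, ψ, fun i => ⟨B.lat hℓ hζ i, l i⟩, fun n => ?_⟩
  refine (T n).2.2.2.congr fun σ _ τ _ => ?_
  simp only [Fib.cup, B.kap_eq hℓ hζ ((T n).2.2.1 τ), map_sub, map_sum, map_mul, e]

end Pool.Agent.P.MP_ee618e_ag.X.Y
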