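import Pool.Agent.P.MP_ee618e_ag.Y.D1

/-! D2: from good points to all divisors. -/

namespace Pool.Agent.P.MP_ee618e_ag.X.Y

open IsDedekindDomain
open scoped Classical

variable {Ω : Type} [Field Ω] {A : Subfield Ω} {R : Subalgebra A Ω} [IsDedekindDomain R]

theorem d2_supp {p : Dv R → Prop} (h0 : p 0) (hadd : ∀ D D', p D → p D' → p (D + D'))
    (hneg : ∀ D, p D → p (-D)) (D : Dv R) (hP : ∀ P, D P ≠ 0 → p (Finsupp.single P 1)) : p D := by
  rw [← D.sum_single, Finsupp.sum]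
  refine Finset.sum_induction _ p hadd h0 fun P hm => ?_
  have h1 := hP P (Finsupp.mem_support_iff.1 hm)
  induction D P using Int.induction_on with
  | zero => rwa [Finsupp.single_zero]
  | succ i ih => rw [Finsupp.single_add]; exact hadd _ _ ih h1
  | pred i ih =>
    rw [Finsupp.single_sub, sub_eq_add_neg]
    exact hadd _ _ ih (hneg _ h1)

theorem d2_st {S : Set Ω} {σ : Au Ω} (h : σ ∈ Fix S) : σ ∈ St S := fun x =>
  ⟨fun hx => by rwa [σ.injective (h _ hx)] at hx, fun hx => by rwa [h x hx]⟩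

/-- For a bad point `P` choose `f ≡ π` modulo `P ^ 2` and `f ≡ 1` modulo the other bad points
(`IsDedekindDomain.exists_forall_sub_mem_ideal`); then `dv f - single P 1` is supported on good
points. -/
theorem moving {Bad : Set (HeightOneSpectrum R)} (fin : Bad.Finite) {p : Dv R → Prop} (h0 : p 0)
    (hadd : ∀ D D', p D → p D' → p (D + D')) (hneg : ∀ D, p D → p (-D))
    (hdv : ∀ f : R, f ≠ 0 → p (dv f)) (hP : ∀ P ∉ Bad, p (Finsupp.single P 1)) (D : Dv R) :
    p D := by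
  refine d2_supp h0 hadd hneg D fun P _ => ?_
  by_cases hb : P ∈ Bad
  swap
  · exact hP P hb
  obtain ⟨π, π0, π1⟩ := exists_unif P
  obtain ⟨f, hf⟩ := IsDedekindDomain.exists_forall_sub_mem_ideal (s := fin.toFinset)
    (fun Q => Q.asIdeal) (fun _ => 2) (fun Q _ => Q.prime)
    (fun Q _ Q' _ h e => h (HeightOneSpectrum.ext e)) fun Q => if Q.1 = P then π else 1
  have a := hf P (fin.mem_toFinset.2 hb)
  rw [if_pos rfl] at a
  have b : f ∉ P.asIdeal ^ 2 := fun c => by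
    have := (le_ord_iff π0).2 (by simpa using sub_mem c a : π ∈ P.asIdeal ^ 2)
    omega
  have f0 : f ≠ 0 := fun c => b (c ▸ zero_mem _)
  have c : f ∈ P.asIdeal ^ 1 := by
    simpa using add_mem (Ideal.pow_le_pow_right one_le_two a) ((le_ord_iff π0).1 π1.ge)
  rw [← le_ord_iff f0] at b c
  have e : Finsupp.single P (1 : ℤ) = dv f + -(dv f - Finsupp.single P 1) := by abel
  rw [e]
  refine hadd _ _ (hdv f f0) (hneg _ (d2_supp h0 hadd hneg _ fun Q hQ => hP Q fun hB => hQ ?_))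
  rw [Finsupp.sub_apply, dv_apply f0]
  by_cases hQP : Q = P
  · subst hQP
    rw [Finsupp.single_eq_same]
    omega
  · have d := hf Q (fin.mem_toFinset.2 hB)
    rw [if_neg hQP] at d
    rw [Finsupp.single_eq_of_ne hQP, (ord_eq_zero f0).2 fun m => Q.isPrime.ne_top ?_]
    · rfl
    · rw [Ideal.eq_top_iff_one]
      simpa using sub_mem m (Ideal.pow_le_self two_ne_zero d)

theorem sum_tw {U X : Type} [Fintype U] [AddCommGroup X] (ρ : Au Ω) (g : U → Au Ω) (n : U → ℤ)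
    (F : Au Ω → X) : ∑ i, twn n i • F (twg ρ g i) =
      ∑ u, n u • (F (g u) - F (g u * ρ) - (F (ρ * g u) - F (ρ * g u * ρ))) := by
  rw [Fintype.sum_prod_type]
  refine Finset.sum_congr rfl fun u _ => ?_
  simp only [Fintype.sum_prod_type, Fintype.sum_bool, twn, twg, if_true, Bool.false_eq_true,
    if_false, one_mul, mul_one, neg_mul, mul_neg, neg_neg, neg_smul, smul_sub]
  abel

/-- `fn`: for `v' = vc v γ` compare `F γ - F (γ ρ)` on both sides (`lb_dv`, or `sp` and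
`lb_special`). `dv`: `moving` with the bad set `Bad ∪ (ap ρ)⁻¹ Bad`; for `dv f` take
`z = ∏ (g i f) ^ n i`; for a good point `P` take `(z₁ / ρ z₁) / (z₂ / ρ z₂)` where `z₁`, `z₂` belong to
`P` and `ap ρ P` (`pv_vc`, `vc_vc`). -/
theorem kills_of {U : Type} [Fintype U] {ρ : Au Ω} {g : U → Au Ω} {n : U → ℤ}
    (hρ : ρ ∈ Fix (A : Set Ω)) (hρR : ρ ∈ St (R : Set Ω)) (hg : ∀ u, g u ∈ Fix (A : Set Ω))
    (sp : ∀ (Γ : Type) [LinearOrderedCommGroupWithZero Γ] (v : Valuation Ω Γ), Triv A v →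
      (¬ ∀ a : R, v a ≤ 1) → ∀ z, (∀ h ∈ Fix (R : Set Ω), h z = z) → v (ρ z) = v z)
    {Bad : Set (HeightOneSpectrum R)} (fin : Bad.Finite)
    (rel : ∀ P ∉ Bad, ∃ z : Ω, z ≠ 0 ∧ (∀ h ∈ Fix (R : Set Ω), h z = z) ∧
      ∀ (Γ : Type) [LinearOrderedCommGroupWithZero Γ] (v : Valuation Ω Γ), Triv A v →
        lg (v z) - lg (v (ρ z)) =
          ∑ u, n u • (lg (pv (vc v (g u)) P) - lg (pv (vc v (ρ * g u)) P))) :
    Kills R (twg ρ g) (twn n) := by
  have fn : ∀ f : R, f ≠ 0 → ∀ (Γ : Type) [LinearOrderedCommGroupWithZero Γ]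
      (v : Valuation Ω Γ), Triv A v → ∑ i, twn n i • lg (v (twg ρ g i f)) =
        ∑ i, twn n i • lb (vc v (twg ρ g i)) (dv f) := by
    intro f f0 Γ _ v hv
    have key : ∀ γ ∈ Fix (A : Set Ω), lg (v (γ f)) - lg (v ((γ * ρ) f)) =
        lb (vc v γ) (dv f) - lb (vc v (γ * ρ)) (dv f) := by
      intro γ hγ
      have r0 : rs ρ hρR f ≠ 0 := (map_ne_zero_iff _ (rs ρ hρR).injective).2 f0
      rw [← vc_vc, lb_vc hρR, ad_dv hρR (g := rs ρ hρR f) rfl]
      by_cases hb : ∀ a : R, vc v γ a ≤ 1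
      · rw [lb_dv hb f0, lb_dv hb r0]
        rfl
      · rw [lb_special hb, lb_special hb, sub_self, sub_eq_zero]
        exact congrArg lg (sp Γ _ (hv.vc (d2_st hγ)) hb f fun h hh => hh _ f.2).symm
    rw [sum_tw ρ g n fun γ => lg (v (γ f)), sum_tw ρ g n fun γ => lb (vc v γ) (dv f)]
    exact Finset.sum_congr rfl fun u _ => by rw [key _ (hg u), key _ (mul_mem hρ (hg u))]
  have inj : Function.Injective (ap (R := R) ρ) := fun P Q e => by
    have := congrArg (ap ρ⁻¹) e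
    rwa [← ap_mul (inv_mem hρR) hρR, ← ap_mul (inv_mem hρR) hρR, inv_mul_cancel,
      ap_fix (one_mem _), ap_fix (one_mem _)] at this
  refine ⟨fn, moving (fin.union (fin.preimage inj.injOn)) ?_ ?_ ?_ ?_ ?_⟩
  · exact ⟨1, one_ne_zero, fun h _ _ => map_one h, fun Γ _ v _ => by
      simp only [map_one, lg_one, lb_zero, smul_zero, Finset.sum_const_zero]⟩
  · rintro D D' ⟨z, z0, hz, e⟩ ⟨z', z0', hz', e'⟩
    refine ⟨z * z', mul_ne_zero z0 z0', fun h a b => by rw [map_mul, hz h a b, hz' h a b],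
      fun Γ _ v hv => ?_⟩
    rw [map_mul, lg_mul (v.ne_zero_iff.2 z0) (v.ne_zero_iff.2 z0'), e Γ v hv, e' Γ v hv,
      ← Finset.sum_add_distrib]
    simp only [lb_add, smul_add]
  · rintro D ⟨z, z0, hz, e⟩
    refine ⟨z⁻¹, inv_ne_zero z0, fun h a b => by rw [map_inv₀, hz h a b], fun Γ _ v hv => ?_⟩
    rw [map_inv₀, lg_inv, e Γ v hv, ← Finset.sum_neg_distrib]
    simp only [lb_neg, smul_neg]
  · intro f f0
    have a : ∀ i, twg ρ g i f ≠ 0 := fun i =>
      (map_ne_zero _).2 fun c => f0 (Subtype.ext c)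
    refine ⟨∏ i, twg ρ g i f ^ twn n i, Finset.prod_ne_zero_iff.2 fun i _ => zpow_ne_zero _ (a i),
      fun h _ b => ?_, fun Γ _ v hv => ?_⟩
    · rw [map_prod]
      refine Finset.prod_congr rfl fun i _ => ?_
      have c := congrArg (twg ρ g i) (b i f f.2)
      rw [map_zpow₀]
      congr 1
      exact ((twg ρ g i).apply_symm_apply _).symm.trans c
    · rw [← fn f f0 Γ v hv, map_prod, lg_prod _ fun i _ =>
        v.ne_zero_iff.2 (zpow_ne_zero _ (a i))]
      exact Finset.sum_congr rfl fun i _ => by rw [map_zpow₀, lg_zpow (v.ne_zero_iff.2 (a i))]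
  · intro P hP
    obtain ⟨z, z0, hz, e⟩ := rel P fun c => hP (Or.inl c)
    obtain ⟨z', z0', hz', e'⟩ := rel (ap ρ P) fun c => hP (Or.inr c)
    have r0 : ρ z ≠ 0 := (map_ne_zero _).2 z0
    have r0' : ρ z' ≠ 0 := (map_ne_zero _).2 z0'
    have cj : ∀ h ∈ Fix (R : Set Ω), ∀ y, (∀ h ∈ Fix (R : Set Ω), h y = y) → h (ρ y) = ρ y := by
      intro h hh y hy
      have c := hy (ρ⁻¹ * h * ρ) fun x hx => by
        show ρ.symm (h (ρ x)) = x
        rw [hh _ ((hρR x).2 hx), ρ.symm_apply_apply]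
      exact (ρ.apply_symm_apply _).symm.trans (congrArg ρ c)
    refine ⟨z / ρ z / (z' / ρ z'), div_ne_zero (div_ne_zero z0 r0) (div_ne_zero z0' r0'),
      fun h a _ => ?_, fun Γ _ v hv => ?_⟩
    · rw [map_div₀, map_div₀, map_div₀, hz h a, hz' h a, cj h a z hz, cj h a z' hz']
    · rw [map_div₀, lg_div (v.ne_zero_iff.2 (div_ne_zero z0 r0))
        (v.ne_zero_iff.2 (div_ne_zero z0' r0')), map_div₀, map_div₀,
        lg_div (v.ne_zero_iff.2 z0) (v.ne_zero_iff.2 r0),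
        lg_div (v.ne_zero_iff.2 z0') (v.ne_zero_iff.2 r0'), e Γ v hv, e' Γ v hv,
        sum_tw ρ g n fun γ => lb (vc v γ) (Finsupp.single P 1), ← Finset.sum_sub_distrib]
      refine Finset.sum_congr rfl fun u _ => ?_
      rw [← vc_vc v (g u) ρ, ← vc_vc v (ρ * g u) ρ]
      simp only [lb_single, one_smul, pv_vc hρR, smul_sub]
      abel

end Pool.Agent.P.MP_ee618e_ag.X.Y
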