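import Mathlib

/-!
Definitions used in the statement: tensors and the family `Alg`; cohomology in degrees one and two
through characters and cocycles of Galois groups; two generic points of a cyclic sextic curve.
-/

namespace Pool.Agent.P.MP_ee618e_ag.X.Y

section Tensors

variable {I Λ : Type} [Field Λ]

/-- elements of a tensor power (index set `J`) of the space of functions `I → Λ` -/
abbrev Ten (J I Λ : Type) : Type := (J → I) → Λ

/-- the span of the pure tensors `⊗ u j` with `u j ∈ U j` -/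
def tens {J : Type} [Fintype J] (U : J → Set (I → Λ)) : Submodule Λ (Ten J I Λ) :=
  Submodule.span Λ {t | ∃ u : J → I → Λ, (∀ j, u j ∈ U j) ∧ t = fun z => ∏ j, u j (z j)}

/-- the Frobenius `F` on tensors, induced by `φ` -/
def frob (φ : I → I) {J : Type} (t : Ten J I Λ) : Ten J I Λ := fun z => t (φ ∘ z)

/-- Tate classes of codimension `i` -/
def Tate (φ : I → I) (q : Λ) (i : ℕ) {J : Type} (t : Ten J I Λ) : Prop :=
  ∃ m, 0 < m ∧ frob φ^[m] t = q ^ (i * m) • t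

/-- tensor product -/
def tmul {J J' : Type} (t : Ten J I Λ) (t' : Ten J' I Λ) : Ten (J ⊕ J') I Λ :=
  fun z => t (z ∘ Sum.inl) * t' (z ∘ Sum.inr)

/-- The tensors obtained from the Tate classes of codimension one by sums, products,
permutations, contractions with Tate bilinear forms, and the rule `surf`. -/
inductive Alg (φ : I → I) (q : Λ) (U : Fin 4 → Set (I → Λ))
    (Coh : Ten (Fin 2) I Λ → Prop) : (J : Type) → Ten J I Λ → Prop
  | zero (J : Type) : Alg φ q U Coh J 0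
  | add {J : Type} {t t' : Ten J I Λ} :
      Alg φ q U Coh J t → Alg φ q U Coh J t' → Alg φ q U Coh J (t + t')
  | smul {J : Type} {t : Ten J I Λ} (c : Λ) : Alg φ q U Coh J t → Alg φ q U Coh J (c • t)
  | one : Alg φ q U Coh Empty 1
  | div {t : Ten (Fin 2) I Λ} :
      t ∈ tens (fun _ => ⋃ i, U i) → Tate φ q 1 t → Alg φ q U Coh (Fin 2) t
  | mul {J J' : Type} {t : Ten J I Λ} {t' : Ten J' I Λ} :
      Alg φ q U Coh J t → Alg φ q U Coh J' t' → Alg φ q U Coh (J ⊕ J') (tmul t t')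
  | perm {J J' : Type} {t : Ten J I Λ} (e : J ≃ J') :
      Alg φ q U Coh J t → Alg φ q U Coh J' fun z => t (z ∘ e)
  | contr {J : Type} {t : Ten (Fin 2 ⊕ J) I Λ} (L : Ten (Fin 2) I Λ →ₗ[Λ] Λ) (m : ℕ) : 0 < m →
      (∀ s ∈ tens (fun _ => ⋃ i, U i), L (frob φ^[m] s) = q ^ m * L s) →
      Alg φ q U Coh (Fin 2 ⊕ J) t → Alg φ q U Coh J fun z => L fun w => t (Sum.elim w z)
  | surf {a c : Ten (Fin 2) I Λ} (e : Λ) : e ^ 2 = q → a ∈ tens ![U 0, U 1] → Coh a →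
      c ∈ tens ![{u | u ∈ ⋃ i, U i ∧ ∀ z, u (φ z) = e * u z}, ⋃ i, U i] →
      Tate φ q 2 (tmul a c) → Alg φ q U Coh _ (tmul a c)

end Tensors

section Galois

variable {Ω Λ : Type} [Field Ω] [NormedField Λ]

variable (Ω) in
/-- the algebraic closure of `𝔽_p` -/
def cst : Set Ω := {c | ∃ n, 0 < n ∧ c ^ ringChar Ω ^ n = c}

/-- automorphisms of `Ω` over the field generated by the constants and `S` -/
def Gal (S : Set Ω) : Set (Ω ≃+* Ω) := {σ | ∀ x ∈ cst Ω ∪ S, σ x = x}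

/-- uniform continuity on `Gal S` for the Krull topology -/
def Cont (S : Set Ω) (β : (Ω ≃+* Ω) → Λ) : Prop :=
  ∀ ε > 0, ∃ T : Finset Ω, (∀ t ∈ T, IsAlgebraic (Subfield.closure (cst Ω ∪ S)) t) ∧
    ∀ σ ∈ Gal S, ∀ τ ∈ Gal S, (∀ t ∈ T, σ t = τ t) → ‖β σ - β τ‖ < ε

/-- `H¹(V, Λ)` for the smooth complete variety `V` with coordinates `S`: continuous characters of
the Galois group of the function field which are trivial on all inertia groups -/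
structure H1 (S : Set Ω) (χ : (Ω ≃+* Ω) → Λ) : Prop where
  cont : Cont S χ
  out : ∀ σ ∉ Gal S, χ σ = 0
  add : ∀ σ ∈ Gal S, ∀ τ ∈ Gal S, χ (σ * τ) = χ σ + χ τ
  unr : ∀ O : ValuationSubring Ω, cst Ω ⊆ O → ∀ σ ∈ Gal S,
    (∀ x ∈ O, σ x - x ∈ O.nonunits) → χ σ = 0

variable (Ω) in
/-- The generic point `(t 0, w 0), (t 1, w 1)` of `C × C` for the curve
`C : w ^ 6 = t ^ 3 (t - 1) ^ 2 ∏ (t - c j)` over `𝔽_q`, generic points `S₂`, `S₃` of two further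
varieties over `𝔽_q`, and a lift `α` of the arithmetic Frobenius to the algebraic closure `Ω` of
the function field of `C × C`. -/
structure Cfg (q : ℕ) where
  c : Fin 4 → Ω
  ζ : Ω
  t : Fin 2 → Ω
  w : Fin 2 → Ω
  S₂ : Finset Ω
  S₃ : Finset Ω
  α : Ω ≃+* Ω
  hc : ∀ j, c j ^ q = c j ∧ c j ≠ 0 ∧ c j ≠ 1
  inj : Function.Injective c
  hζ : IsPrimitiveRoot ζ 6
  hζq : ζ ^ q = ζ
  eq : ∀ i, w i ^ 6 = t i ^ 3 * (t i - 1) ^ 2 * ∏ j, (t i - c j)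
  gen : AlgebraicIndependent (Subfield.closure (cst Ω)) t
  alg : ∀ z : Ω, IsAlgebraic (Subfield.closure (cst Ω ∪ {t 0, t 1})) z
  frob : ∀ c ∈ cst Ω, α c = c ^ q
  fix : ∀ i, α (t i) = t i ∧ α (w i) = w i
  fix' : ∀ z, z ∈ S₂ ∨ z ∈ S₃ → α z = z

namespace Cfg

variable {q : ℕ} (D : Cfg Ω q)

/-- coordinates of the four varieties -/
def S : Fin 4 → Set Ω := ![{D.t 0, D.w 0}, {D.t 1, D.w 1}, D.S₂, D.S₃]

/-- eigenvectors of the geometric Frobenius in `H¹` of the variety number `i` -/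
def Eig (i : Fin 4) (π : Λ) : Set ((Ω ≃+* Ω) → Λ) :=
  {χ | H1 (D.S i) χ ∧ ∀ σ, χ (D.α * σ * D.α⁻¹) = π * χ σ}

/-- the part of `H¹(C)` (copy number `i`) on which `w ↦ ζ w` acts by `ξ` -/
def Part (i : Fin 2) (ξ : Λ) : Set ((Ω ≃+* Ω) → Λ) :=
  {χ | ∀ k : ℕ, ∀ δ ∈ Gal {D.t i}, δ (D.w i) = D.ζ ^ k * D.w i →
    ∀ σ, χ (δ⁻¹ * σ * δ) = ξ ^ k * χ σ}

/-- the geometric Frobenius on the index set -/
def φ (z : Fin 4 × (Ω ≃+* Ω)) : Fin 4 × (Ω ≃+* Ω) := (z.1, D.α * z.2 * D.α⁻¹)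

/-- eigenvectors with eigenvalues in `ev`, inside the direct sum of the four `H¹` -/
def U (ev : Set Λ) (i : Fin 4) : Set (Fin 4 × (Ω ≃+* Ω) → Λ) :=
  {u | ∃ π ∈ ev, ∃ χ ∈ D.Eig i π, u = fun z => if z.1 = i then χ z.2 else 0}

/-- In `H²` of the function field of a surface `Z` (coordinates `T`) which is generically finite
over `C × C`, the class `a ∈ H¹(C) ⊗ H¹(C)` equals a sum of cup products of classes `κ j` pulled
back from `E : y ^ 2 = x ^ 3 + 1` (along points `(x j, y j)`) with classes `ψ j` pulled back from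
a variety with coordinates `B`. -/
def Coh (a : Ten (Fin 2) (Fin 4 × (Ω ≃+* Ω)) Λ) : Prop :=
  ∃ (m : ℕ) (x y : Fin m → Ω) (B T : Set Ω) (κ ψ : Fin m → (Ω ≃+* Ω) → Λ) (β : (Ω ≃+* Ω) → Λ),
    T.Finite ∧ D.S 0 ⊆ T ∧ D.S 1 ⊆ T ∧ B ⊆ T ∧
    (∀ j, y j ^ 2 = x j ^ 3 + 1 ∧ {x j, y j} ⊆ T ∧ H1 {x j, y j} (κ j) ∧ H1 B (ψ j)) ∧
    Cont T β ∧ ∀ σ ∈ Gal T, ∀ τ ∈ Gal T,
      a ![(0, σ), (1, τ)] - ∑ j, κ j σ * ψ j τ = β σ + β τ - β (σ * τ)

end Cfg

/-- the nine eigenvalues on `S₁`, `S₂`, `E`; here `e ^ 2 = q` -/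
def evs (π₁ π₂ e : Λ) : Set Λ :=
  {ρ | ∃ i ∈ ({-1, 0, 1} : Set ℤ), ∃ j ∈ ({-1, 0, 1} : Set ℤ), ρ = e * (π₁ / e) ^ i * (π₂ / e) ^ j}

end Galois

end Pool.Agent.P.MP_ee618e_ag.X.Y
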