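import Pool.Agent.P.MP_ee618e_ag.Y.N1
import Pool.Agent.P.MP_ee618e_ag.X.TF

/-! N3: the pencil defined by two skew lines. -/

namespace Pool.Agent.P.MP_ee618e_ag.X.Y

open IsDedekindDomain
open scoped Classical

variable {Ω : Type} [Field Ω] {Γ : Type} [LinearOrderedCommGroupWithZero Γ] {v : Valuation Ω Γ}
  {A : Subfield Ω} {r : Fin 4 → Ω} {D : Ln Ω} {s s' x y m n : Ω} {z : Ω × Ω}

/-- the defect of the second equation of a slope -/
private def dfc (μ : Ω) (S T : Sec Ω) (s : Ω) : Ω :=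
  μ * (S.b s + T.b s) - (S.a s ^ 2 + S.a s * T.a s + T.a s ^ 2)

private theorem dfc_three (μ : Ω) (S T : Sec Ω) (s : Ω) :
    dfc μ S T s = 3 * dfc μ S T (s + 1) - 3 * dfc μ S T (s + 2) + dfc μ S T (s + 3) := by
  simp only [dfc, Sec.a, Sec.b]; ring

private theorem quad_fin {p q c : Ω} (h : ¬ (p = 0 ∧ q = 0 ∧ c = 0)) :
    {s | p * s ^ 2 + q * s + c = 0}.Finite := by
  have hP : (Polynomial.C p * Polynomial.X ^ 2 + Polynomial.C q * Polynomial.X + Polynomial.C c :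
      Polynomial Ω) ≠ 0 := fun e => h
    ⟨by simpa using congrArg (Polynomial.coeff · 2) e,
      by simpa using congrArg (Polynomial.coeff · 1) e,
      by simpa using congrArg (Polynomial.coeff · 0) e⟩
  refine (Polynomial.finite_setOfPred_isRoot hP).subset fun s hs => ?_
  have hs' : p * s ^ 2 + q * s + c = 0 := hs
  simpa [Polynomial.IsRoot] using hs'

/-- the shape of the polynomials `g` and `gd` -/
private noncomputable def qq (c₀ c₁ c₂ c₃ c₄ : Ω) : MvPolynomial (Fin 2) Ω :=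
  MvPolynomial.C c₀ + (MvPolynomial.X 0 - MvPolynomial.C 2 * MvPolynomial.X 1) * MvPolynomial.C c₁ +
    (MvPolynomial.C 2 * MvPolynomial.X 0 - MvPolynomial.X 1) * MvPolynomial.C c₂ +
    (MvPolynomial.X 0 - MvPolynomial.X 1) * (MvPolynomial.X 0 - MvPolynomial.X 1) *
      MvPolynomial.C c₃ -
    MvPolynomial.C c₄ * (MvPolynomial.X 0 * MvPolynomial.X 1 *
      (MvPolynomial.X 0 - MvPolynomial.X 1))

private theorem qq_eval (c₀ c₁ c₂ c₃ c₄ : Ω) (x : Fin 2 → Ω) :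
    MvPolynomial.aeval x (qq c₀ c₁ c₂ c₃ c₄) = c₀ + (x 0 - 2 * x 1) * c₁ + (2 * x 0 - x 1) * c₂ +
      (x 0 - x 1) ^ 2 * c₃ - c₄ * (x 0 * x 1 * (x 0 - x 1)) := by
  simp only [qq, map_add, map_sub, map_mul, MvPolynomial.aeval_X, MvPolynomial.aeval_C,
    Algebra.algebraMap_self, RingHom.id_apply]
  ring

private theorem qq_snd (c₀ c₁ c₂ c₃ c₄ : Ω) (x t : Fin 2 → Ω) :
    (MvPolynomial.aeval (fun i => (TrivSqZeroExt.inl (x i) + TrivSqZeroExt.inr (t i) :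
      DualNumber Ω)) (qq c₀ c₁ c₂ c₃ c₄)).snd = (t 0 - 2 * t 1) * c₁ + (2 * t 0 - t 1) * c₂ +
      2 * (x 0 - x 1) * (t 0 - t 1) * c₃ -
      c₄ * ((t 0 * x 1 + x 0 * t 1) * (x 0 - x 1) + x 0 * x 1 * (t 0 - t 1)) := by
  simp only [qq, map_add, map_sub, map_mul, MvPolynomial.aeval_X, MvPolynomial.aeval_C,
    TrivSqZeroExt.algebraMap_eq_inl, TrivSqZeroExt.snd_add, TrivSqZeroExt.snd_sub,
    DualNumber.snd_mul, TrivSqZeroExt.fst_add, TrivSqZeroExt.fst_sub, TrivSqZeroExt.fst_mul,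
    TrivSqZeroExt.fst_inl, TrivSqZeroExt.snd_inl, TrivSqZeroExt.fst_inr, TrivSqZeroExt.snd_inr]
  ring

/-- integral elements which are congruent up to `δ` -/
private def Cg (v : Valuation Ω Γ) (δ : Γ) (a b : Ω) : Prop := v a ≤ 1 ∧ v b ≤ 1 ∧ v (a - b) ≤ δ

section

variable {δ : Γ} {a b a' b' : Ω}

private theorem Cg.rf (h : v a ≤ 1) : Cg v δ a a := ⟨h, h, by simp⟩

private theorem Cg.neg (h : Cg v δ a b) : Cg v δ (-a) (-b) :=
  ⟨by simpa using h.1, by simpa using h.2.1, by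
    rw [show -a - -b = -(a - b) by ring, v.map_neg]; exact h.2.2⟩

private theorem Cg.add (h : Cg v δ a b) (h' : Cg v δ a' b') : Cg v δ (a + a') (b + b') :=
  ⟨v.map_add_le h.1 h'.1, v.map_add_le h.2.1 h'.2.1, by
    rw [show a + a' - (b + b') = (a - b) + (a' - b') by ring]; exact v.map_add_le h.2.2 h'.2.2⟩

private theorem Cg.sub (h : Cg v δ a b) (h' : Cg v δ a' b') : Cg v δ (a - a') (b - b') := by
  simpa only [sub_eq_add_neg] using h.add h'.neg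

private theorem Cg.mul (h : Cg v δ a b) (h' : Cg v δ a' b') : Cg v δ (a * a') (b * b') := by
  refine ⟨by rw [map_mul]; exact mul_le_one' h.1 h'.1,
    by rw [map_mul]; exact mul_le_one' h.2.1 h'.2.1, ?_⟩
  rw [show a * a' - b * b' = a * (a' - b') + b' * (a - b) by ring]
  refine v.map_add_le ?_ ?_ <;> rw [map_mul]
  · exact (mul_le_of_le_one_left' h.1).trans h'.2.2
  · exact (mul_le_of_le_one_left' h'.2.1).trans h.2.2

private theorem Cg.sq (h : Cg v δ a b) : Cg v δ (a ^ 2) (b ^ 2) := by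
  simpa only [pow_two] using h.mul h

private theorem ca {S : Sec Ω} (h : S.Ok A r) (hA : Triv A v) (e : Cg v δ a b) :
    Cg v δ (S.a a) (S.a b) :=
  ((Cg.rf (hA.le h.αA)).mul e).add (Cg.rf (hA.le h.γA))

end

namespace Ln

private theorem θ_lin (D : Ln Ω) (s : Ω) : D.θ s = D.θ 0 + D.θ' * s := by
  simp only [θ, θ', Sec.a]; ring

private theorem u_lin (D : Ln Ω) (z : Ω × Ω) (s : Ω) :
    D.u z s = D.u z 0 + (2 * (D.sec z).α + D.S₀.α) * s ∧
      D.u' z s = D.u' z 0 + (2 * (D.sec z).α + D.S₁.α) * s := by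
  constructor <;> simp only [u, u', xx, sec, θ, θ', Sec.a] <;> ring

theorem θ_sub (D : Ln Ω) (s s' : Ω) : D.θ s' - D.θ s = D.θ' * (s' - s) := by
  simp only [θ, θ', Sec.a]; ring

theorem g_sub (D : Ln Ω) (s s' m n : Ω) : D.g s' m n - D.g s m n = (s' - s) * D.gd m n := by
  simp only [g, gd, β, θ, θ', Sec.a]; ring

theorem g_sub' (D : Ln Ω) (s m n n' : Ω) : D.g s m n - D.g s m n' =
    (n - n') * (D.u (m, n) s - (D.θ s + m) * (n - n')) := by
  simp only [g, u, xx]; ring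

theorem g_taylor (D : Ln Ω) (s m n δ ε : Ω) : D.g s (m + δ) (n + ε) = D.g s m n -
    D.u' (m, n) s * δ + D.u (m, n) s * ε + (δ - ε) ^ 2 * D.θ s -
      (n * δ ^ 2 + 2 * (m - n) * δ * ε - m * ε ^ 2 + δ * ε * (δ - ε)) := by
  simp only [g, u, u', xx]; ring

theorem gd_taylor (D : Ln Ω) (m n δ ε : Ω) : D.gd (m + δ) (n + ε) = D.gd m n -
    (2 * (D.sec (m, n)).α + D.S₁.α) * δ + (2 * (D.sec (m, n)).α + D.S₀.α) * ε +
      (δ - ε) ^ 2 * D.θ' := by
  simp only [gd, sec]; ring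

theorem W_eq (D : Ln Ω) (z : Ω × Ω) (s : Ω) : D.W z =
    D.u z s * (2 * (D.sec z).α + D.S₁.α) - D.u' z s * (2 * (D.sec z).α + D.S₀.α) := by
  simp only [W, u, u', xx, sec, θ, θ', Sec.a]; ring

theorem sec_a (D : Ln Ω) (z : Ω × Ω) (s : Ω) : (D.sec z).a s = D.xx s z.1 z.2 ∧
    (D.sec z).b s = D.S₀.b s + z.1 * (D.xx s z.1 z.2 - D.S₀.a s) := by
  constructor
  · simp only [xx, sec, θ, θ', Sec.a]; ring
  · simp only [xx, sec, θ, θ', Sec.a, Sec.b]; ring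

theorem Ok.mem (h : D.Ok A r) : D.θ' ∈ A ∧ D.θ' ≠ 0 ∧ D.S₁.α ≠ D.S₀.α ∧
    ∀ s ∈ A, D.θ s ∈ A ∧ D.β s ∈ A ∧ D.d s ∈ A := by
  have h2 : (2 : Ω) ≠ 0 := fun e => h.ok₀.h6 (by linear_combination 3 * e)
  have hl : (D.S₁.α - D.S₀.α) * (D.S₁.α - D.ω ^ 2 * D.S₀.α) ≠ 0 := by
    rw [h.lead]; exact mul_ne_zero h2 h.κ0
  refine ⟨A.div_mem (A.sub_mem h.ok₁.αA (A.mul_mem (A.pow_mem h.ωA 2) h.ok₀.αA)) h.κA,
    div_ne_zero (right_ne_zero_of_mul hl) h.κ0, sub_ne_zero.1 (left_ne_zero_of_mul hl),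
    fun s hs => ?_⟩
  have a0 := (h.ok₀.a_mem hs).1
  have a1 := (h.ok₁.a_mem hs).1
  exact ⟨A.div_mem (A.sub_mem a1 (A.mul_mem (A.pow_mem h.ωA 2) a0)) h.κA,
    A.mul_mem h.κA (A.sub_mem a1 (A.mul_mem h.ωA a0)), A.sub_mem a1 a0⟩

theorem Ok.βθ (h : D.Ok A r) (s : Ω) :
    D.β s * D.θ s = D.S₁.a s ^ 2 + D.S₁.a s * D.S₀.a s + D.S₀.a s ^ 2 := by
  have e : D.β s * D.θ s =
      (D.S₁.a s - D.ω * D.S₀.a s) * (D.S₁.a s - D.ω ^ 2 * D.S₀.a s) := by
    have := h.κ0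
    simp only [β, θ]; field_simp
  rw [e]
  linear_combination (-(D.S₀.a s * D.S₁.a s) + (D.ω - 1) * D.S₀.a s ^ 2) * h.hω

/-- Subtract the second equations of the two slopes, using `y = b₁ + n (x - a₁)` in the first and
`y = b₀ + m (x - a₀)` in the second: `d (x - xx) = 0`. Then subtract the first equations. -/
theorem Ok.pt_eq (h : D.Ok A r) (h₀ : Sl m x y (D.S₀.a s) (D.S₀.b s))
    (h₁ : Sl n x y (D.S₁.a s) (D.S₁.b s)) (hd : D.d s ≠ 0) : x = D.xx s m n ∧ D.g s m n = 0 := by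
  have e : D.d s * (x - D.xx s m n) = 0 := by
    have hθ := h.hθ s
    simp only [d, xx] at hθ ⊢
    linear_combination h₀.2 - h₁.2 + m * h₁.1 - n * h₀.1 - (m - n) * hθ
  have hx : x = D.xx s m n := sub_eq_zero.1 ((mul_eq_zero.1 e).resolve_left hd)
  refine ⟨hx, ?_⟩
  have hβ := h.hβ s
  simp only [xx] at hx
  simp only [g]
  linear_combination -hβ - h₀.1 + h₁.1 + (m - n) * hx

/-- With `a = xx`, `b = b₀ + μ (a - a₀) = b₁ + ν (a - a₁)` (this is `g = 0`) the defects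
`D i = μ (b + b i) - (a ^ 2 + a a i + a i ^ 2)` are equal and
`b ^ 2 - a ^ 3 - q = (a - a₀) D₀ = (a - a₁) D₁`, so `d D₀ = 0`. `D₀` is a polynomial in `s` of degree
at most two which vanishes outside the root of `d`. -/
theorem Ok.sl [Infinite Ω] (h : D.Ok A r) (hz : ∀ s, D.g s z.1 z.2 = 0) (s : Ω) :
    Sl z.1 ((D.sec z).a s) ((D.sec z).b s) (D.S₀.a s) (D.S₀.b s) ∧
      Sl z.2 ((D.sec z).a s) ((D.sec z).b s) (D.S₁.a s) (D.S₁.b s) := by
  have E0 : ∀ s, z.1 * ((D.sec z).a s - D.S₀.a s) = (D.sec z).b s - D.S₀.b s := fun s => by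
    rw [(D.sec_a z s).1, (D.sec_a z s).2]; ring
  have E1 : ∀ s, z.2 * ((D.sec z).a s - D.S₁.a s) = (D.sec z).b s - D.S₁.b s := fun s => by
    have h1 := hz s
    have hβ := h.hβ s
    rw [(D.sec_a z s).1, (D.sec_a z s).2]
    simp only [g] at h1
    simp only [xx]
    linear_combination h1 + hβ
  have EE : ∀ s, dfc z.1 (D.sec z) D.S₀ s = dfc z.2 (D.sec z) D.S₁ s := fun s => by
    have hθ := h.hθ s
    have hx := (D.sec_a z s).1
    simp only [d, xx] at hθ hx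
    simp only [dfc]
    linear_combination -z.1 * E1 s + z.2 * E0 s + (z.1 - z.2) * hθ + (D.S₁.a s - D.S₀.a s) * hx
  have Ed : ∀ s, D.d s * dfc z.1 (D.sec z) D.S₀ s = 0 := fun s => by
    have q0 := h.ok₀.eq s
    have q1 := h.ok₁.eq s
    have e := EE s
    simp only [d]
    have f0 : ((D.sec z).a s - D.S₀.a s) * dfc z.1 (D.sec z) D.S₀ s =
        (D.sec z).b s ^ 2 - (D.sec z).a s ^ 3 - ∏ i, (s - r i) := by
      simp only [dfc]
      linear_combination ((D.sec z).b s + D.S₀.b s) * E0 s - q0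
    have f1 : ((D.sec z).a s - D.S₁.a s) * dfc z.2 (D.sec z) D.S₁ s =
        (D.sec z).b s ^ 2 - (D.sec z).a s ^ 3 - ∏ i, (s - r i) := by
      simp only [dfc]
      linear_combination ((D.sec z).b s + D.S₁.b s) * E1 s - q1
    linear_combination f0 - f1 - ((D.sec z).a s - D.S₁.a s) * e
  have E : dfc z.1 (D.sec z) D.S₀ s = 0 := by
    by_cases hd : D.d s = 0
    · have h6 := h.ok₀.h6
      have hα := sub_ne_zero.2 h.mem.2.2.1
      have key : ∀ k : Ω, k ≠ 0 → dfc z.1 (D.sec z) D.S₀ (s + k) = 0 := fun k hk => by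
        refine (mul_eq_zero.1 (Ed (s + k))).resolve_left fun e => ?_
        refine mul_ne_zero hk hα ?_
        simp only [d, Sec.a] at e hd
        linear_combination e - hd
      rw [dfc_three, key 1 one_ne_zero, key 2 fun e => h6 (by linear_combination 3 * e),
        key 3 fun e => h6 (by linear_combination 2 * e)]
      ring
    · exact (mul_eq_zero.1 (Ed s)).resolve_left hd
  have E' := (EE s).symm.trans E
  simp only [dfc] at E E'
  exact ⟨⟨E0 s, sub_eq_zero.1 E⟩, ⟨E1 s, sub_eq_zero.1 E'⟩⟩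

theorem Ok.sec_ok [Infinite Ω] (h : D.Ok A r) (hz : D.IsJ A z) : (D.sec z).Ok A r := by
  obtain ⟨h1, h2, h3⟩ := hz
  have hα : (D.sec z).α ∈ A :=
    A.sub_mem (A.sub_mem (A.neg_mem h.ok₀.αA) h.ok₁.αA) (A.mul_mem (A.sub_mem h1 h2) h.mem.1)
  have hγ : D.xx 0 z.1 z.2 ∈ A :=
    A.add_mem (A.sub_mem (A.sub_mem (A.neg_mem (h.ok₀.a_mem A.zero_mem).1)
      (h.ok₁.a_mem A.zero_mem).1) (A.mul_mem (A.sub_mem h1 h2) (h.mem.2.2.2 0 A.zero_mem).1))
      (A.mul_mem h1 h2)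
  refine ⟨h.ok₀.h6, h.ok₀.rA, h.ok₀.inj, hα, hγ,
    A.add_mem h.ok₀.β₁A (A.mul_mem h1 (A.sub_mem hα h.ok₀.αA)),
    A.add_mem h.ok₀.β₀A (A.mul_mem h1 (A.sub_mem hγ h.ok₀.γA)), fun s => ?_⟩
  obtain ⟨e1, e2⟩ := (h.sl h3 s).1
  linear_combination h.ok₀.eq s - ((D.sec z).b s + D.S₀.b s) * e1 +
    ((D.sec z).a s - D.S₀.a s) * e2

/-- `u (a - a₀) = 3 a ^ 2 - 2 μ b`, `u' (a - a₁) = 3 a ^ 2 - 2 ν b`. `μ ≠ ν`: otherwise `β = μ d`, which
contradicts `ind`. The derivatives `2 α + α₀`, `2 α + α₁` are not both zero; if `W = 0` then `u` and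
`u'` have a common root, where `a = b = 0`; `Sec.Ok.ne` for the field `⊤`. -/
theorem Ok.W_ne [Infinite Ω] (h : D.Ok A r) (hz : ∀ s, D.g s z.1 z.2 = 0) : D.W z ≠ 0 := by
  intro hW
  have h6 := h.ok₀.h6
  have h2 : (2 : Ω) ≠ 0 := fun e => h6 (by linear_combination 3 * e)
  have h3 : (3 : Ω) ≠ 0 := fun e => h6 (by linear_combination 2 * e)
  have ht : ∀ {S : Sec Ω}, S.Ok A r → S.Ok ⊤ r := fun hS =>
    ⟨hS.h6, fun _ => trivial, hS.inj, trivial, trivial, trivial, trivial, hS.eq⟩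
  have h' : D.Ok ⊤ r := ⟨ht h.ok₀, ht h.ok₁, trivial, trivial, h.hω, h.κ0, h.hβ, h.hθ, h.lead,
    h.ind, h.α0⟩
  have hs := h'.sec_ok (z := z) ⟨trivial, trivial, hz⟩
  have hμ : z.1 - z.2 ≠ 0 := fun e => by
    have e' : z.2 = z.1 := by linear_combination -e
    have g0 := hz 0
    have g1 := hz 1
    rw [e'] at g0 g1
    simp only [g, β, Sec.a] at g0 g1
    have hi := sub_ne_zero.2 h.ind
    have k1 : D.κ - z.1 = 0 := by
      refine (mul_eq_zero.1 ?_).resolve_right hi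
      linear_combination (D.S₀.α + D.S₀.γ) * g0 - D.S₀.γ * g1
    have k2 : D.κ * D.ω - z.1 = 0 := by
      refine (mul_eq_zero.1 ?_).resolve_right hi
      linear_combination (D.S₁.α + D.S₁.γ) * g0 - D.S₁.γ * g1
    have k3 : D.ω - 1 = 0 := by
      refine (mul_eq_zero.1 ?_).resolve_left h.κ0
      linear_combination k2 - k1
    exact h3 (by linear_combination h.hω - (D.ω + 2) * k3)
  obtain ⟨s, u0, u1⟩ : ∃ s, D.u z s = 0 ∧ D.u' z s = 0 := by
    by_cases p1 : 2 * (D.sec z).α + D.S₁.α = 0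
    · have p0 : 2 * (D.sec z).α + D.S₀.α ≠ 0 := fun e => h.mem.2.2.1 (by linear_combination p1 - e)
      have e : D.u z (-D.u z 0 / (2 * (D.sec z).α + D.S₀.α)) = 0 := by
        rw [(u_lin D z _).1]; field_simp; ring
      refine ⟨_, e, ?_⟩
      rw [D.W_eq z (-D.u z 0 / (2 * (D.sec z).α + D.S₀.α)), e, zero_mul, zero_sub,
        neg_eq_zero] at hW
      exact (mul_eq_zero.1 hW).resolve_right p0
    · have e : D.u' z (-D.u' z 0 / (2 * (D.sec z).α + D.S₁.α)) = 0 := by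
        rw [(u_lin D z _).2]; field_simp; ring
      refine ⟨_, ?_, e⟩
      rw [D.W_eq z (-D.u' z 0 / (2 * (D.sec z).α + D.S₁.α)), e, zero_mul, sub_zero] at hW
      exact (mul_eq_zero.1 hW).resolve_right p1
  obtain ⟨⟨e1, e2⟩, ⟨f1, f2⟩⟩ := h.sl hz s
  simp only [u, u', ← (D.sec_a z s).1] at u0 u1
  have c0 : 3 * (D.sec z).a s ^ 2 - 2 * z.1 * (D.sec z).b s = 0 := by
    linear_combination ((D.sec z).a s - D.S₀.a s) * u0 + z.1 * e1 - e2
  have c1 : 3 * (D.sec z).a s ^ 2 - 2 * z.2 * (D.sec z).b s = 0 := by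
    linear_combination ((D.sec z).a s - D.S₁.a s) * u1 + z.2 * f1 - f2
  have hb : (D.sec z).b s = 0 := by
    refine (mul_eq_zero.1 ?_).resolve_left (mul_ne_zero h2 hμ)
    linear_combination c1 - c0
  have ha : (D.sec z).a s = 0 := by
    refine pow_eq_zero_iff two_ne_zero |>.1 ((mul_eq_zero.1 ?_).resolve_left h3)
    linear_combination c0 + 2 * z.1 * hb
  exact hs.ne s ⟨ha, hb⟩

/-- `rigid_finite0` for the two polynomials `g 0` and `gd` in the variables `m`, `n`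
(`g_taylor`, `gd_taylor`, `W_ne`) -/
theorem Ok.exists_J [Infinite Ω] (h : D.Ok A r) :
    ∃ J : Finset (Ω × Ω), ∀ z, z ∈ J ↔ D.IsJ A z := by
  let P : Bool → MvPolynomial (Fin 2) Ω := fun j =>
    if j then qq (D.β 0) (D.S₁.a 0) (D.S₀.a 0) (D.θ 0) 1
    else qq (D.κ * (D.S₁.α - D.ω * D.S₀.α)) D.S₁.α D.S₀.α D.θ' 0
  have hfin : {z | D.IsJ A z}.Finite := by
    refine ((rigid_finite0 P).image fun x => (x 0, x 1)).subset ?_
    rintro ⟨m, n⟩ ⟨-, -, hz⟩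
    have g0 := hz 0
    have g1 : D.gd m n = 0 := by
      have := D.g_sub 0 1 m n
      rw [hz 0, hz 1] at this
      linear_combination -this
    have hW := h.W_ne (z := (m, n)) hz
    refine ⟨![m, n], ⟨fun j => ?_, fun t ht => ?_⟩, rfl⟩
    · cases j
      · simp only [P, Bool.false_eq_true, if_false, qq_eval, Matrix.cons_val_zero,
          Matrix.cons_val_one]
        simp only [gd] at g1
        linear_combination g1
      · simp only [P, if_true, qq_eval, Matrix.cons_val_zero, Matrix.cons_val_one]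
        simp only [g] at g0
        linear_combination g0
    · have t0 := congrArg TrivSqZeroExt.snd (ht false)
      have t1 := congrArg TrivSqZeroExt.snd (ht true)
      simp only [P, Bool.false_eq_true, if_false, if_true, qq_snd, Matrix.cons_val_zero,
        Matrix.cons_val_one, TrivSqZeroExt.snd_zero] at t0 t1
      have s1 : -D.u' (m, n) 0 * t 0 + D.u (m, n) 0 * t 1 = 0 := by
        simp only [u, u', xx]
        linear_combination t1
      have s0 : -(2 * (D.sec (m, n)).α + D.S₁.α) * t 0 +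
          (2 * (D.sec (m, n)).α + D.S₀.α) * t 1 = 0 := by
        simp only [sec]
        linear_combination t0
      funext i
      refine (mul_eq_zero.1 ?_).resolve_left hW
      fin_cases i
      · simp only [W, Fin.zero_eta]
        linear_combination (2 * (D.sec (m, n)).α + D.S₀.α) * s1 - D.u (m, n) 0 * s0
      · simp only [W, Fin.mk_one]
        linear_combination (2 * (D.sec (m, n)).α + D.S₁.α) * s1 - D.u' (m, n) 0 * s0
  exact ⟨hfin.toFinset, fun z => hfin.mem_toFinset⟩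

/-- `Sec.Ok.fin`; `u z` is not the zero polynomial by `W_ne`; `θ' ≠ 0` -/
theorem Ok.fin [IsAlgClosed Ω] (h : D.Ok A r) {J : Finset (Ω × Ω)}
    (hJ : ∀ z, z ∈ J ↔ D.IsJ A z) : {s | ¬ D.Gd J s}.Finite := by
  have f1 : ∀ z ∈ J, {s | ¬ (D.sec z).Gd s}.Finite := fun z hz => (h.sec_ok ((hJ z).1 hz)).fin
  have f2 : ∀ z ∈ J, {s | D.u z s = 0}.Finite := fun z hz => by
    refine (quad_fin (p := 0) (q := 2 * (D.sec z).α + D.S₀.α) (c := D.u z 0)
      fun e => h.W_ne ((hJ z).1 hz).2.2 ?_).subset fun s hs => ?_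
    · simp only [W, e.2.1, e.2.2]; ring
    · have hs' : D.u z s = 0 := hs
      rw [(u_lin D z s).1] at hs'
      show _ = _
      linear_combination hs'
  have f3 : {s | D.d s = 0}.Finite := by
    refine (quad_fin (p := 0) (q := D.S₁.α - D.S₀.α) (c := D.S₁.γ - D.S₀.γ)
      fun e => h.mem.2.2.1 (sub_eq_zero.1 e.2.1)).subset fun s hs => ?_
    have hs' : D.d s = 0 := hs
    simp only [d, Sec.a] at hs'
    show _ = _
    linear_combination hs'
  have f4 : {s | D.θ s ^ 2 - 2 * D.S₁.a s - D.S₀.a s = 0}.Finite := by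
    refine (quad_fin (p := D.θ' ^ 2) (q := 2 * D.θ 0 * D.θ' - 2 * D.S₁.α - D.S₀.α)
      (c := D.θ 0 ^ 2 - 2 * D.S₁.γ - D.S₀.γ)
      fun e => pow_ne_zero 2 h.mem.2.1 e.1).subset fun s hs => ?_
    have hs' : D.θ s ^ 2 - 2 * D.S₁.a s - D.S₀.a s = 0 := hs
    rw [θ_lin D s] at hs'
    simp only [Sec.a] at hs'
    show _ = _
    linear_combination hs'
  have f5 := J.finite_toSet.biUnion fun z hz => (f1 z hz).union (f2 z hz)
  refine ((((h.ok₀.fin.union h.ok₁.fin).union f5).union f3).union f4).subset fun s hs => ?_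
  by_contra hn
  simp only [Set.mem_union, Set.mem_ofPred_eq, not_or, not_not, Set.mem_iUnion, not_exists,
    Finset.mem_coe] at hn
  exact hs ⟨hn.1.1.1.1, hn.1.1.1.2, fun z hz => hn.1.1.2 z hz, hn.1.2, hn.2⟩

private theorem Ok.cθ (h : D.Ok A r) (hA : Triv A v) {δ : Γ} (e : Cg v δ s s') :
    Cg v δ (D.θ s) (D.θ s') := by
  rw [θ_lin D s, θ_lin D s']
  exact (Cg.rf (hA.le (h.mem.2.2.2 0 A.zero_mem).1)).add ((Cg.rf (hA.le h.mem.1)).mul e)

private theorem Ok.cgd (h : D.Ok A r) (hA : Triv A v) {δ : Γ} {m' n' : Ω} (cm : Cg v δ m m')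
    (cn : Cg v δ n n') : Cg v δ (D.gd m n) (D.gd m' n') := by
  have two : (2 : Ω) ∈ A := by simp
  have c2 : Cg v δ (2 : Ω) 2 := Cg.rf (hA.le two)
  have a0 : Cg v δ D.S₀.α D.S₀.α := Cg.rf (hA.le h.ok₀.αA)
  have a1 : Cg v δ D.S₁.α D.S₁.α := Cg.rf (hA.le h.ok₁.αA)
  exact ((((Cg.rf (hA.le h.κA)).mul (a1.sub ((Cg.rf (hA.le h.ωA)).mul a0))).add
    ((cm.sub (c2.mul cn)).mul a1)).add (((c2.mul cm).sub cn).mul a0)).add
      ((cm.sub cn).sq.mul (Cg.rf (hA.le h.mem.1)))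

theorem Ok.int (h : D.Ok A r) (hA : Triv A v) (hs : v s ≤ 1) :
    v (D.θ s) ≤ 1 ∧ v (D.β s) ≤ 1 ∧ v (D.d s) ≤ 1 ∧ v D.θ' = 1 ∧ v (D.S₁.α - D.S₀.α) = 1 := by
  have a0 := Cg.rf (δ := 1) (h.ok₀.int hA hs).1
  have a1 := Cg.rf (δ := 1) (h.ok₁.int hA hs).1
  refine ⟨(h.cθ hA (Cg.rf (δ := 1) hs)).1,
    ((Cg.rf (hA.le h.κA)).mul (a1.sub ((Cg.rf (hA.le h.ωA)).mul a0))).1, (a1.sub a0).1,
    hA _ h.mem.1 h.mem.2.1, hA _ (A.sub_mem h.ok₁.αA h.ok₀.αA) (sub_ne_zero.2 h.mem.2.2.1)⟩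

/-- if `d` and `β` are small then so are `a₀`, `a₁` and `α₁ a₀ - α₀ a₁` -/
theorem Ok.skew (h : D.Ok A r) (hA : Triv A v) (hs : v s ≤ 1) :
    ¬ (v (D.d s) < 1 ∧ v (D.β s) < 1) := by
  rintro ⟨h1, h2⟩
  have h3 : (3 : Ω) ≠ 0 := fun e => h.ok₀.h6 (by linear_combination 2 * e)
  have hω : 1 - D.ω ≠ 0 := fun e => h3 (by linear_combination h.hω + (D.ω + 2) * e)
  rw [β, map_mul, hA _ h.κA h.κ0, one_mul] at h2
  have a0 : v (D.S₀.a s) < 1 := by
    have := v.map_sub_lt h2 h1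
    rwa [show D.S₁.a s - D.ω * D.S₀.a s - D.d s = (1 - D.ω) * D.S₀.a s by simp only [d]; ring,
      map_mul, hA _ (A.sub_mem A.one_mem h.ωA) hω, one_mul] at this
  have a1 : v (D.S₁.a s) < 1 := by
    have := v.map_add_lt h1 a0
    rwa [d, sub_add_cancel] at this
  have b0 : v (D.S₁.α * D.S₀.a s) < 1 := by
    rw [map_mul]; exact lt_of_le_of_lt (mul_le_of_le_one_left' (hA.le h.ok₁.αA)) a0
  have b1 : v (D.S₀.α * D.S₁.a s) < 1 := by
    rw [map_mul]; exact lt_of_le_of_lt (mul_le_of_le_one_left' (hA.le h.ok₀.αA)) a1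
  have := v.map_sub_lt b1 b0
  rw [show D.S₀.α * D.S₁.a s - D.S₁.α * D.S₀.a s = D.S₀.α * D.S₁.γ - D.S₁.α * D.S₀.γ by
    simp only [Sec.a]; ring, hA _ (A.sub_mem (A.mul_mem h.ok₀.αA h.ok₁.γA)
      (A.mul_mem h.ok₁.αA h.ok₀.γA)) (sub_ne_zero.2 h.ind)] at this
  exact lt_irrefl _ this

/-- the residues of `m`, `n` are a common zero of `g s` and `gd` (`Triv.eq`, `g_sub`) -/
theorem Ok.res_J (h : D.Ok A r) (hA : Triv A v) (res : ∀ z, v z ≤ 1 → ∃ c ∈ A, v (z - c) < 1)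
    (hs : s ∈ A) (hm : v m ≤ 1) (hn : v n ≤ 1) (h1 : v (D.g s m n) < 1) (h2 : v (D.gd m n) < 1) :
    ∃ z, D.IsJ A z ∧ v (m - z.1) < 1 ∧ v (n - z.2) < 1 := by
  obtain ⟨c, hc, ec⟩ := res m hm
  obtain ⟨c', hc', ec'⟩ := res n hn
  have hδ : max (v (m - c)) (v (n - c')) < 1 := max_lt ec ec'
  have cm : Cg v (max (v (m - c)) (v (n - c'))) m c := ⟨hm, hA.le hc, le_max_left _ _⟩
  have cn : Cg v (max (v (m - c)) (v (n - c'))) n c' := ⟨hn, hA.le hc', le_max_right _ _⟩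
  have two : (2 : Ω) ∈ A := by simp
  have c2 : Cg v (max (v (m - c)) (v (n - c'))) (2 : Ω) 2 := Cg.rf (hA.le two)
  obtain ⟨mθ, mβ, -⟩ := h.mem.2.2.2 s hs
  have a0 := (h.ok₀.a_mem hs).1
  have a1 := (h.ok₁.a_mem hs).1
  have cg : Cg v (max (v (m - c)) (v (n - c'))) (D.g s m n) (D.g s c c') :=
    (((((Cg.rf (hA.le mβ)).add ((cm.sub (c2.mul cn)).mul (Cg.rf (hA.le a1)))).add
      (((c2.mul cm).sub cn).mul (Cg.rf (hA.le a0)))).add
        ((cm.sub cn).sq.mul (Cg.rf (hA.le mθ)))).sub ((cm.mul cn).mul (cm.sub cn)))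
  have mg : D.g s c c' ∈ A :=
    A.sub_mem (A.add_mem (A.add_mem (A.add_mem mβ (A.mul_mem (A.sub_mem hc (A.mul_mem two hc')) a1))
      (A.mul_mem (A.sub_mem (A.mul_mem two hc) hc') a0))
      (A.mul_mem (A.pow_mem (A.sub_mem hc hc') 2) mθ))
      (A.mul_mem (A.mul_mem hc hc') (A.sub_mem hc hc'))
  have mgd : D.gd c c' ∈ A :=
    A.add_mem (A.add_mem (A.add_mem
      (A.mul_mem h.κA (A.sub_mem h.ok₁.αA (A.mul_mem h.ωA h.ok₀.αA)))
      (A.mul_mem (A.sub_mem hc (A.mul_mem two hc')) h.ok₁.αA))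
      (A.mul_mem (A.sub_mem (A.mul_mem two hc) hc') h.ok₀.αA))
      (A.mul_mem (A.pow_mem (A.sub_mem hc hc') 2) h.mem.1)
  have z0 : ∀ {a b : Ω}, Cg v (max (v (m - c)) (v (n - c'))) a b → v a < 1 → b ∈ A → b = 0 :=
    fun {a b} e ha hb => by
      refine hA.eq hb A.zero_mem ?_
      have := v.map_sub_lt ha (e.2.2.trans_lt hδ)
      rwa [sub_sub_cancel, ← sub_zero b] at this
  have g0 := z0 cg h1 mg
  have g1 := z0 (h.cgd hA cm cn) h2 mgd
  refine ⟨(c, c'), ⟨hc, hc', fun t => ?_⟩, ec, ec'⟩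
  have := D.g_sub s t c c'
  rw [g0, g1] at this
  linear_combination this

theorem Ok.xx_lip (h : D.Ok A r) (hA : Triv A v) {m' n' : Ω} (hs : v s ≤ 1) (hs' : v s' ≤ 1)
    (hm : v m ≤ 1) (hn : v n ≤ 1) (hm' : v m' ≤ 1) (hn' : v n' ≤ 1) {δ : Γ}
    (e1 : v (s - s') ≤ δ) (e2 : v (m - m') ≤ δ) (e3 : v (n - n') ≤ δ) :
    v (D.xx s m n - D.xx s' m' n') ≤ δ ∧ v (D.gd m n - D.gd m' n') ≤ δ ∧
      v (D.u (m, n) s - D.u (m', n') s') ≤ δ := by
  have cs : Cg v δ s s' := ⟨hs, hs', e1⟩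
  have cm : Cg v δ m m' := ⟨hm, hm', e2⟩
  have cn : Cg v δ n n' := ⟨hn, hn', e3⟩
  have two : (2 : Ω) ∈ A := by simp
  have a0 := ca h.ok₀ hA cs
  have cx : Cg v δ (D.xx s m n) (D.xx s' m' n') :=
    ((a0.neg.sub (ca h.ok₁ hA cs)).sub ((cm.sub cn).mul (h.cθ hA cs))).add (cm.mul cn)
  exact ⟨cx.2.2, (h.cgd hA cm cn).2.2,
    ((((Cg.rf (hA.le two)).mul cx).add a0).sub cm.sq).2.2⟩

end Ln

end Pool.Agent.P.MP_ee618e_ag.X.Y
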