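import Pool.Agent.P.MP_ee618e_ag.Y.L7
import Pool.Agent.P.MP_ee618e_ag.Y.N3
import Pool.Agent.P.MP_ee618e_ag.Y.R3

/-! F1: the function attached to a good point: existence and invariance. -/

namespace Pool.Agent.P.MP_ee618e_ag.X.Y

open IsDedekindDomain
open scoped Classical

variable {Ω : Type} [Field Ω] [IsAlgClosed Ω] {Γ : Type} [LinearOrderedCommGroupWithZero Γ]
  {v : Valuation Ω Γ} {C : Sx Ω} {D : Ln Ω} {J : Finset (Ω × Ω)} {s w : Ω}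

/-- `exists_val`, `triv_of_sub`, `Sx.res` (the inverse of `C.s - s` is large) -/
theorem Sx.exists_ns (hp : C.Pt s w) : ∃ O : ValuationSubring Ω, C.Ns O.valuation ∧
    O.valuation (C.s - s) < 1 ∧ O.valuation (C.w - w) < 1 := by
  obtain ⟨O, hA, e1, e2⟩ := C.exists_val hp
  have tr := triv_of_sub hA
  have h0 : C.s - s ≠ 0 := fun e => C.tr (sub_eq_zero.1 e ▸ hp.sA)
  refine ⟨O, ⟨tr, C.res tr ⟨(C.s - s)⁻¹, ?_⟩, n1_le (tr.le hp.sA) e1,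
    val_congr (tr w hp.wA hp.w0) (by rwa [Valuation.map_sub_swap])⟩, e1, e2⟩
  rw [map_inv₀]
  exact one_lt_inv₀ (zero_lt_iff.2 ((Valuation.ne_zero_iff _).2 h0)) |>.2 e1

omit [IsAlgClosed Ω] in
/-- integrality of the coordinates at the generic point and at a constant point -/
theorem Sx.Ns.int (h : C.Ns v) {S : Sec Ω} (hS : S.Ok C.A C.r) (hp : C.Pt s w) :
    v 6 = 1 ∧ v s ≤ 1 ∧ v w = 1 ∧ v (S.x s w) ≤ 1 ∧ v (S.y s w) ≤ 1 ∧ v (S.x C.s C.w) ≤ 1 ∧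
      v (S.y C.s C.w) ≤ 1 := by
  have hs : v s ≤ 1 := h.triv.le hp.sA
  have hw : v w = 1 := h.triv w hp.wA hp.w0
  have k : ∀ s w : Ω, v s ≤ 1 → v w = 1 → v (S.x s w) ≤ 1 ∧ v (S.y s w) ≤ 1 := fun s w hs hw => by
    rw [Sec.x, Sec.y, map_div₀, map_div₀, map_pow, map_pow, hw, one_pow, one_pow, div_one, div_one]
    exact hS.int h.triv hs
  exact ⟨h.triv.six C.h6, hs, hw, (k s w hs hw).1, (k s w hs hw).2, k _ _ h.s1 h.w1⟩

/-- Let `v` be centred at `(s, -w)` (`exists_ns`). `exists_sl`, `exists_tri` (`w ≠ C.w` as `C.w ≡ -w`,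
`l ≠ 0` as `b' ∉ A`, `Sec.Ok.not_mem`). By `Tri.star` the ordinates `T.y i` are small and `T.r` is
large, while the ordinates of the four points of `S₀`, `S₁` are units (`Gd`, `Ok.lip'` for the point
`(s, -w)`) and all abscissae are integral. `d s ≠ 0`, and `d C.s ≠ 0` as `α₁ ≠ α₀`. For `nd*` use
`Tri.on_line`; for `ndJ` also `Ln.Ok.sl`, `Sl.not_opp`. -/
theorem exists_su (ok : D.Ok C.A C.r) (hJ : ∀ z, z ∈ J ↔ D.IsJ C.A z) (hp : C.Pt s w)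
    (gd : D.Gd J s) : Nonempty (Su C D J s w) := by
  have hp' : C.Pt s (-w) := ⟨hp.sA, neg_mem hp.wA, neg_ne_zero.2 hp.w0, by rw [← hp.eq]; ring⟩
  obtain ⟨O, ns, e1, e2⟩ := Sx.exists_ns hp'
  generalize O.valuation = v at ns e1 e2
  have h6 := C.h6
  have w0 := hp.w0
  have w0' := C.w0
  have key : ∀ S : Sec Ω, S.Ok C.A C.r → S.Gd s → On (S.x s w) (S.y s w) ∧
      On (S.x C.s C.w) (S.y C.s C.w) ∧ v (S.y s w) = 1 ∧ v (S.y C.s C.w) = 1 ∧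
      v (S.x s w - S.x C.s C.w) < 1 ∧ v (S.y s w + S.y C.s C.w) < 1 ∧ S.x s w ∈ C.A ∧
      S.y s w ∈ C.A := fun S hS g => by
    obtain ⟨-, hs, hw, -⟩ := ns.int hS hp'
    obtain ⟨-, l1, l2⟩ := hS.lip' ns.triv hs hw hp'.eq C.eq e1 e2
    obtain ⟨m1, m2⟩ := hS.xy_mem le_rfl hp.sA hp.wA
    have x1 : S.x s (-w) = S.x s w := by rw [Sec.x, Sec.x, neg_sq]
    have y1 : S.y s (-w) = -S.y s w := by
      rw [Sec.y, Sec.y, show (-w) ^ 3 = -w ^ 3 by ring, div_neg]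
    rw [x1, Valuation.map_sub_swap] at l1
    rw [y1, sub_neg_eq_add, add_comm] at l2
    have u1 : v (S.y s w) = 1 := ns.triv _ m2 (div_ne_zero g.2.1 (pow_ne_zero _ w0))
    refine ⟨hS.on w0 hp.eq, hS.on w0' C.eq, u1, ?_, l1.trans_lt e1, l2.trans_lt e1, m1, m2⟩
    have := val_congr (c' := -S.y C.s C.w) u1 (by rw [sub_neg_eq_add]; exact l2.trans_lt e1)
    rwa [Valuation.map_neg] at this
  obtain ⟨a1, a2, a3, a4, a5, a6, a7, a8⟩ := key _ ok.ok₀ gd.g₀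
  obtain ⟨b1, b2, b3, b4, -, -, b7, -⟩ := key _ ok.ok₁ gd.g₁
  obtain ⟨v6, -, vw, c1, -, c2, -⟩ := ns.int ok.ok₀ hp
  obtain ⟨-, -, -, d1, -, d2, -⟩ := ns.int ok.ok₁ hp
  obtain ⟨-, n1, n2⟩ := ok.ok₀.not_mem C.tr C.eq
  obtain ⟨-, n3, -⟩ := ok.ok₁.not_mem C.tr C.eq
  have sl : ∀ {x y a b : Ω}, On x y → On a b → ¬ (x = a ∧ y = -b) → ∃ m, Sl m x y a b :=
    fun h h' h0 => exists_sl (by unfold On at h h'; linear_combination h - h') h0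
  obtain ⟨l, hl⟩ := sl a1 a2 fun e => n1 (e.1 ▸ a7)
  have l0 : l ≠ 0 := fun e => n2 (by
    have := hl.1
    rw [e, zero_mul, eq_comm, sub_eq_zero] at this
    exact this ▸ a8)
  rw [sub_neg_eq_add, add_comm] at e2
  have ww : w ≠ C.w := fun e => by
    rw [← e, ← two_mul, map_mul, val_two v6, vw, one_mul] at e2
    exact lt_irrefl _ e2
  obtain ⟨T, t1, t2, t3, t4, t5, t6, -⟩ := exists_tri a2 hl ww l0
  obtain ⟨s1, s2⟩ := T.star v6 (t1 ▸ vw) (t3 ▸ c1) (t4 ▸ a3) (t1 ▸ t2 ▸ e2) (t3 ▸ t5 ▸ a5)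
    (t4 ▸ t6 ▸ a6)
  have ny : ∀ (i : Fin 3) {a b : Ω}, v b = 1 → ¬ (T.x i = a ∧ T.y i = -b) := fun i a b hb e => by
    have := (s2 i).2
    rw [e.2, Valuation.map_neg, hb] at this
    exact lt_irrefl _ this
  have nr : ∀ {x : Ω}, v x ≤ 1 → x ≠ T.r := fun hx e => (not_le.2 s1) (e ▸ hx)
  have dd : ∀ s w : Ω, w ≠ 0 → D.S₁.x s w = D.S₀.x s w → D.d s = 0 := fun s w hw e => by
    rw [Ln.d, ← (D.S₁.scale s hw).1, ← (D.S₀.scale s hw).1, e, sub_self]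
  have q1 : D.S₁.x s w ≠ T.a := fun e => gd.d0 (dd s w w0 (e.trans t3))
  have q2 : D.S₁.x s w ≠ T.a' := fun e => n1 (t5 ▸ e ▸ b7)
  have q3 : D.S₁.x C.s C.w ≠ T.a := fun e => n3 (e ▸ t3 ▸ a7)
  have q4 : D.S₁.x C.s C.w ≠ T.a' := fun e => C.tr (by
    have h1 := dd _ _ w0' (e.trans t5)
    have h2 : D.S₁.α - D.S₀.α ≠ 0 := sub_ne_zero.2 ok.mem.2.2.1
    have h3 : C.s = (D.S₀.γ - D.S₁.γ) / (D.S₁.α - D.S₀.α) := by
      rw [eq_div_iff h2]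
      unfold Ln.d Sec.a at h1
      linear_combination h1
    rw [h3]
    exact div_mem (sub_mem ok.ok₀.γA ok.ok₁.γA) (sub_mem ok.ok₁.αA ok.ok₀.αA))
  choose m hm using fun i => sl (T.on i) T.on_ab.1 (ny i (t4 ▸ a3))
  choose m' hm' using fun i => sl (T.on i) T.on_ab.2 (ny i (t6 ▸ a4))
  choose n hn using fun i => sl (T.on i) b1 (ny i b3)
  choose n' hn' using fun i => sl (T.on i) b2 (ny i b4)
  obtain ⟨p, hp₁⟩ := sl b1.neg T.on_ab.1 fun e => q1 e.1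
  obtain ⟨p', hp₂⟩ := sl b1.neg T.on_ab.2 fun e => q2 e.1
  obtain ⟨o, ho₁⟩ := sl b2.neg T.on_ab.1 fun e => q3 e.1
  obtain ⟨o', ho₂⟩ := sl b2.neg T.on_ab.2 fun e => q4 e.1
  refine ⟨⟨T, m, m', n, n', p, p', o, o', ok, hJ, hp, gd, t1, t2, t3, t4, t5, t6, hm, hm', hn, hn',
    hp₁, hp₂, ho₁, ho₂, fun i e => ?_, fun e => ?_, fun e => ?_, fun z hz e => ?_⟩⟩
  · rcases T.on_line (T.on i) e with e | e | e
    · exact ny i (t4 ▸ a3) e
    · exact ny i (t6 ▸ a4) e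
    · exact nr (s2 i).1 e
  · rcases T.on_line b1.neg e with e | e | e
    · exact q1 e.1
    · exact q2 e.1
    · exact nr d1 e
  · rcases T.on_line b2.neg e with e | e | e
    · exact q3 e.1
    · exact q4 e.1
    · exact nr d2 e
  · have iz := (hJ z).1 hz
    have so := ok.sec_ok iz
    rcases T.on_line (so.on w0' C.eq) e with e | e | e
    · exact (so.not_mem C.tr C.eq).2.1 (e.1 ▸ t3 ▸ a7)
    · refine (ok.sl iz.2.2 C.s).1.not_opp h6 ?_ ⟨?_, ?_⟩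
      · rw [ok.ok₀.eq, ← C.eq]
        exact pow_ne_zero _ w0'
      · rw [← ((D.sec z).scale C.s w0').1, ← (D.S₀.scale C.s w0').1, e.1, t5]
      · rw [← ((D.sec z).scale C.s w0').2, ← (D.S₀.scale C.s w0').2, e.2, t6, mul_neg]
    · exact nr (ns.int so hp).2.2.2.2.2.1 e

/-- `Tri.perm`, `Sl.map`, `Sl.unique`, `Sec.Ok.map`, `Equiv.prod_comp` -/
theorem Su.fix (U : Su C D J s w) {h : Au Ω} (hh : h ∈ C.H) : h U.z = U.z := by
  have hA : h ∈ Fix (C.A : Set Ω) := fun x hx => hh x (Or.inl hx)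
  have h1 : h s = s := hA s U.hp.sA
  have h2 : h w = w := hA w U.hp.wA
  have h3 : h C.s = C.s := hh _ (Or.inr (by simp))
  have h4 : h C.w = C.w := hh _ (Or.inr (by simp))
  have key : ∀ S : Sec Ω, S.Ok C.A C.r → h (S.x s w) = S.x s w ∧ h (S.y s w) = S.y s w ∧
      h (S.x C.s C.w) = S.x C.s C.w ∧ h (S.y C.s C.w) = S.y C.s C.w := fun S hS => by
    obtain ⟨-, -, e1, e2⟩ := hS.map hA s w
    obtain ⟨-, -, e3, e4⟩ := hS.map hA C.s C.w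
    rw [h1, h2] at e1 e2
    rw [h3, h4] at e3 e4
    exact ⟨e1, e2, e3, e4⟩
  obtain ⟨a1, a2, a3, a4⟩ := key _ U.ok.ok₀
  obtain ⟨b1, b2, b3, b4⟩ := key _ U.ok.ok₁
  rw [← U.Ta] at a1
  rw [← U.Tb] at a2
  rw [← U.Ta'] at a3
  rw [← U.Tb'] at a4
  obtain ⟨e, he⟩ := U.T.perm C.h6 (σ := h) (by rw [U.Tw, h2]) (by rw [U.Tw', h4]) a1 a2 a3 a4
  have un : ∀ {m m' x y x' y' a b : Ω}, Sl m x y a b → Sl m' x' y' a b → On a b → h x = x' →
      h y = y' → h a = a → h b = b → h m = m' := fun k k' o e1 e2 e3 e4 => by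
    have := k.map h
    rw [e1, e2, e3, e4] at this
    exact this.unique C.h6 k' (by unfold On at o; rw [o, add_sub_cancel_left]; exact one_ne_zero)
  have o1 := U.ok.ok₁.on U.hp.w0 U.hp.eq
  have o2 := U.ok.ok₁.on C.w0 C.eq
  have c1 : ∀ i, h (U.n i) = U.n (e i) := fun i =>
    un (U.hn i) (U.hn (e i)) o1 (he i).1 (he i).2 b1 b2
  have c2 : ∀ i, h (U.n' i) = U.n' (e i) := fun i =>
    un (U.hn' i) (U.hn' (e i)) o2 (he i).1 (he i).2 b3 b4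
  have c3 : h U.p = U.p := un U.hp₁ U.hp₁ U.T.on_ab.1 b1 (by rw [map_neg, b2]) a1 a2
  have c4 : h U.p' = U.p' := un U.hp₂ U.hp₂ U.T.on_ab.2 b1 (by rw [map_neg, b2]) a3 a4
  have c5 : h U.o = U.o := un U.ho₁ U.ho₁ U.T.on_ab.1 b3 (by rw [map_neg, b4]) a1 a2
  have c6 : h U.o' = U.o' := un U.ho₂ U.ho₂ U.T.on_ab.2 b3 (by rw [map_neg, b4]) a3 a4
  simp only [Su.z, map_div₀, map_mul, map_sub, map_prod, h2, h4, c1, c2, c3, c4, c5, c6]
  rw [Equiv.prod_comp e fun i => w * U.n i - C.w * U.n' i]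

end Pool.Agent.P.MP_ee618e_ag.X.Y
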