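import Pool.Agent.P.MP_ee618e_ag.Y.M1

/-! M2: the difference of the second slopes, integral slopes. -/

namespace Pool.Agent.P.MP_ee618e_ag.X.Y

open IsDedekindDomain
open scoped Classical

variable {Ω : Type} [Field Ω] [Infinite Ω] {Γ : Type} [LinearOrderedCommGroupWithZero Γ]
  {v : Valuation Ω Γ} {D : Ln Ω} {A : Subfield Ω} {r : Fin 4 → Ω} {J : Finset (Ω × Ω)}
  {s w s' w' x y m n n' : Ω}

namespace Ml

omit [Infinite Ω] in
private theorem vml {a b : Ω} {δ : Γ} (ha : v a ≤ 1) (hb : v b ≤ δ) : v (a * b) ≤ δ := by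
  rw [map_mul]
  calc v a * v b ≤ 1 * δ := mul_le_mul' ha hb
    _ = δ := one_mul δ

omit [Infinite Ω] in
private theorem vmr {a b : Ω} {δ : Γ} (ha : v a ≤ δ) (hb : v b ≤ 1) : v (a * b) ≤ δ := by
  rw [mul_comm]; exact vml hb ha

omit [Infinite Ω] in
private theorem vmm {a b : Ω} {δ : Γ} (ha : v a ≤ δ) (hb : v b ≤ δ) : v (a * b) ≤ δ * δ := by
  rw [map_mul]; exact mul_le_mul' ha hb

omit [Infinite Ω] in
private theorem vsw {a b : Ω} {δ : Γ} (h : v (a - b) ≤ δ) : v (b - a) ≤ δ := by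
  rwa [Valuation.map_sub_swap]

omit [Infinite Ω] in
private theorem vsw' {a b : Ω} {δ : Γ} (h : v (a - b) < δ) : v (b - a) < δ := by
  rwa [Valuation.map_sub_swap]

omit [Infinite Ω] in
private theorem vcg {a b : Ω} (hb : v b ≤ 1) (h : v (a - b) ≤ 1) : v a ≤ 1 := by
  have e : a = (a - b) + b := by ring
  rw [e]; exact v.map_add_le h hb

omit [Infinite Ω] in
private theorem vtr {a b c : Ω} (h1 : v (a - c) < 1) (h2 : v (b - c) < 1) : v (a - b) < 1 := by
  have e : a - b = (a - c) - (b - c) := by ring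
  rw [e]; exact v.map_sub_lt h1 h2

omit [Infinite Ω] in
private theorem v00 {a : Ω} {δ : Γ} : v (a - a) ≤ δ := by
  rw [sub_self, map_zero]; exact zero_le

omit [Infinite Ω] in
private theorem vpw {a : Ω} (ha : v a = 1) (k : ℕ) : v (a ^ k) = 1 := by
  rw [map_pow, ha, one_pow]

omit [Infinite Ω] in
/-- the ordinates follow the abscissae -/
private theorem ord_lip (h : Ml D A r J v s w s' w' x y m n n') (hm : v m ≤ 1) {δ : Γ}
    (ht : v (s' - s) ≤ δ) (hX : v (w ^ 2 * x - w' ^ 2 * x) ≤ δ) :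
    v (w ^ 3 * y - w' ^ 3 * y) ≤ δ := by
  obtain ⟨-, hs, -⟩ := h.basic
  obtain ⟨la, lb, -⟩ := h.ok.ok₀.lip h.triv hs h.s1
  have e : w ^ 3 * y - w' ^ 3 * y = m * ((w ^ 2 * x - w' ^ 2 * x) + (D.S₀.a s' - D.S₀.a s)) -
      (D.S₀.b s' - D.S₀.b s) := by
    linear_combination h.m₂.1 - h.m₁.1
  rw [e]
  exact v.map_sub_le (vml hm (v.map_add_le hX (la.trans ht))) (lb.trans ht)

omit [Infinite Ω] in
private theorem gd_J (h : Ml D A r J v s w s' w' x y m n n') {z : Ω × Ω} (hz : z ∈ J) :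
    D.gd z.1 z.2 = 0 := by
  have hz' := ((h.hJ z).1 hz).2.2
  have e := D.g_sub 0 1 z.1 z.2
  rw [hz', hz'] at e
  linear_combination -e

/-- slopes from a point congruent to the point of a section -/
private theorem sl_J (h : Ml D A r J v s w s' w' x y m n n') {z : Ω × Ω} (hz : z ∈ J)
    {σ X Y : Ω} (hσ : v σ ≤ 1) (hq : v (∏ i, (σ - r i)) = 1) {δ : Γ} (hδ : δ < 1)
    (e1 : v (X - (D.sec z).a σ) ≤ δ) (e2 : v (Y - (D.sec z).b σ) ≤ δ) :
    (∀ μ, Sl μ X Y (D.S₀.a σ) (D.S₀.b σ) → v (μ - z.1) ≤ δ) ∧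
      ∀ ν, Sl ν X Y (D.S₁.a σ) (D.S₁.b σ) → v (ν - z.2) ≤ δ := by
  obtain ⟨h6, -⟩ := h.basic
  have hz' := (h.hJ z).1 hz
  obtain ⟨s0, s1⟩ := h.ok.sl hz'.2.2 σ
  obtain ⟨ia, ib⟩ := (h.ok.sec_ok hz').int h.triv hσ
  obtain ⟨ia0, ib0⟩ := h.ok.ok₀.int h.triv hσ
  obtain ⟨ia1, ib1⟩ := h.ok.ok₁.int h.triv hσ
  refine ⟨fun μ hμ => vsw ?_, fun ν hν => vsw ?_⟩
  · exact Sl.lip h6 s0 hμ ia ib ia0 ib0 (by rw [h.ok.ok₀.eq, hq]) (h.triv.le hz'.1) hδ
      (vsw e1) (vsw e2) v00 v00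
  · exact Sl.lip h6 s1 hν ia ib ia1 ib1 (by rw [h.ok.ok₁.eq, hq]) (h.triv.le hz'.2.1) hδ
      (vsw e1) (vsw e2) v00 v00

/-- a point with slopes congruent to a base point is congruent to the point of the section -/
private theorem pt_J (h : Ml D A r J v s w s' w' x y m n n') {z : Ω × Ω} (hz : z ∈ J)
    {σ X Y ν : Ω} (hσ : v σ ≤ 1) {δ : Γ} (hδ : δ < 1) (hX : X = D.xx σ m ν)
    (hY : Sl m X Y (D.S₀.a σ) (D.S₀.b σ)) (e1 : v (m - z.1) ≤ δ) (e2 : v (ν - z.2) ≤ δ) :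
    v (X - (D.sec z).a σ) ≤ δ ∧ v (Y - (D.sec z).b σ) ≤ δ := by
  have hz' := (h.hJ z).1 hz
  have i1 := h.triv.le hz'.1
  have i2 := h.triv.le hz'.2.1
  obtain ⟨ia, -⟩ := (h.ok.sec_ok hz').int h.triv hσ
  obtain ⟨ia0, -⟩ := h.ok.ok₀.int h.triv hσ
  obtain ⟨ea, eb⟩ := D.sec_a z σ
  have a1 : v (X - (D.sec z).a σ) ≤ δ := by
    rw [hX, ea]
    exact (h.ok.xx_lip h.triv hσ hσ (vcg i1 (e1.trans hδ.le)) (vcg i2 (e2.trans hδ.le)) i1 i2
      v00 e1 e2).1
  refine ⟨a1, ?_⟩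
  have e : Y - (D.sec z).b σ = (m - z.1) * (X - D.S₀.a σ) + z.1 * (X - (D.sec z).a σ) := by
    rw [eb, ea]; linear_combination -hY.1
  rw [e]
  exact v.map_add_le (vmr e1 (v.map_sub_le (vcg ia (a1.trans hδ.le)) ia0)) (vml i1 a1)

omit [Infinite Ω] in
/-- If `x` is a unit then `w ^ 2 ≡ w' ^ 2`, so `v (w ^ 2 - w' ^ 2) ≤ v (s' - s)` (`val_root`, `Ok.lip`),
and the ordinates are `b₀ + m (X - a₀)`. If `x` is small then `y` is a unit, the same argument
applies to `w ^ 3`, and `m` is a unit as `a₀ s` is a unit (second equation of `m₁`: if `m` is small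
then `a₀ ^ 2` is small). Finally `Sl.lip`. -/
theorem close (h : Ml D A r J v s w s' w' x y m n n') (hx : v x ≤ 1) (hm : v m ≤ 1)
    (hn : v n ≤ 1) (hc : Cc v w w' x y) (ht : v (s' - s) < 1) : v (n - n') ≤ v (s' - s) := by
  obtain ⟨h6, hs, hw, -, hq, -⟩ := h.basic
  have hy := h.on.int hx
  obtain ⟨la, lb, lq⟩ := h.ok.ok₀.lip h.triv hs h.s1
  obtain ⟨la1, lb1, -⟩ := h.ok.ok₁.lip h.triv hs h.s1
  obtain ⟨ia0, ib0⟩ := h.ok.ok₀.int h.triv hs
  obtain ⟨ia1, ib1⟩ := h.ok.ok₁.int h.triv hs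
  have iX : v (w ^ 2 * x) ≤ 1 := vml (vpw hw 2).le hx
  have iY : v (w ^ 3 * y) ≤ 1 := vml (vpw hw 3).le hy
  have l6 : v (w ^ 6 - w' ^ 6) ≤ v (s' - s) := by rw [h.eq, h.eq']; exact vsw lq
  have hX : v (w ^ 2 * x - w' ^ 2 * x) ≤ v (s' - s) := by
    rcases hx.lt_or_eq with hx1 | hx1
    · have hy1 : v y = 1 := hy.eq_of_not_lt fun e => h.on.unit ⟨hx1, e⟩
      have c3 : v (w ^ 3 - w' ^ 3) < 1 := by
        have e := hc.2
        rwa [← sub_mul, map_mul, hy1, mul_one] at e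
      have r3 := val_root h6 (n := 2) (by norm_num) (vpw hw 3) c3
      rw [← pow_mul, ← pow_mul] at r3
      have hY : v (w ^ 3 * y - w' ^ 3 * y) ≤ v (s' - s) := by
        rw [← sub_mul]; exact vmr (r3 ▸ l6) hy
      have hm1 : v m = 1 := hm.eq_of_not_lt fun e => by
        have a1 : v (D.S₀.a s) = 1 := h.triv _ (h.ok.ok₀.a_mem h.sA).1 h.gd.g₀.1
        have sX : v (w ^ 2 * x) < 1 := by rwa [map_mul, vpw hw, one_mul]
        have e2 : D.S₀.a s ^ 2 = m * (w ^ 3 * y + D.S₀.b s) -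
            (w ^ 2 * x) * (w ^ 2 * x + D.S₀.a s) := by linear_combination -h.m₁.2
        have e3 : v (D.S₀.a s ^ 2) < 1 := by
          rw [e2]
          exact v.map_sub_lt ((vmr le_rfl (v.map_add_le iY ib0)).trans_lt e)
            ((vmr le_rfl (v.map_add_le iX ia0)).trans_lt sX)
        exact e3.ne (vpw a1 2)
      have e : m * (w ^ 2 * x - w' ^ 2 * x) = (w ^ 3 * y - w' ^ 3 * y) +
          (D.S₀.b s' - D.S₀.b s) - m * (D.S₀.a s' - D.S₀.a s) := by
        linear_combination h.m₁.1 - h.m₂.1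
      have e' : v (m * (w ^ 2 * x - w' ^ 2 * x)) ≤ v (s' - s) := by
        rw [e]; exact v.map_sub_le (v.map_add_le hY lb) (vml hm la)
      rwa [map_mul, hm1, one_mul] at e'
    · have c2 : v (w ^ 2 - w' ^ 2) < 1 := by
        have e := hc.1
        rwa [← sub_mul, map_mul, hx1, mul_one] at e
      have r2 := val_root h6 (n := 3) (by norm_num) (vpw hw 2) c2
      rw [← pow_mul, ← pow_mul] at r2
      rw [← sub_mul]; exact vmr (r2 ▸ l6) hx
  exact Sl.lip h6 h.n₁ h.n₂ iX iY ia1 ib1 (by rw [h.ok.ok₁.eq, hq]) hn ht hX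
    (ord_lip h hm le_rfl hX) (vsw la1) (vsw lb1)

omit [Infinite Ω] in
/-- `xx_lip` -/
theorem cc_of (h : Ml D A r J v s w s' w' x y m n n') (hm : v m ≤ 1) (hn : v n ≤ 1)
    (ht : v (s' - s) < 1) (hb : v (n - n') < 1) : Cc v w w' x y := by
  obtain ⟨-, hs, -⟩ := h.basic
  obtain ⟨k1, k2, -⟩ := h.key
  have hδ : max (v (s' - s)) (v (n - n')) < 1 := max_lt ht hb
  have hX : v (w ^ 2 * x - w' ^ 2 * x) ≤ max (v (s' - s)) (v (n - n')) := by
    rw [k1, k2]
    exact (h.ok.xx_lip h.triv hs h.s1 hm hn hm (vcg hn (vsw hb.le)) (vsw (le_max_left _ _)) v00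
      (le_max_right _ _)).1
  exact ⟨hX.trans_lt hδ, (ord_lip h hm (le_max_left _ _) hX).trans_lt hδ⟩

/-- `Sl.lip` with the slopes of `Ok.sl` -/
theorem of_eps (h : Ml D A r J v s w s' w' x y m n n') (hx : v x ≤ 1) {z : Ω × Ω} (hz : z ∈ J)
    (h1 : D.eps v s w s' w' x y z ≠ 1) : v (m - z.1) < 1 ∧ v (n - z.2) < 1 ∧ v (n' - z.2) < 1 := by
  obtain ⟨-, hs, -, -, hq, hq'⟩ := h.basic
  unfold Ln.eps at h1
  split_ifs at h1 with hc
  · have hc' := dst_lt.1 ((dst_le v _ _ _ _).lt_of_ne h1)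
    have d1 := max_lt hc.1 hc.2
    have d2 := max_lt hc'.1 hc'.2
    obtain ⟨p1, p2⟩ := sl_J h hz hs hq d1 (le_max_left _ _) (le_max_right _ _)
    obtain ⟨-, p3⟩ := sl_J h hz h.s1 hq' d2 (le_max_left _ _) (le_max_right _ _)
    exact ⟨(p1 m h.m₁).trans_lt d1, (p2 n h.n₁).trans_lt d1, (p3 n' h.n₂).trans_lt d2⟩
  · exact absurd rfl h1

/-- Let `δ = m - μ`, `ε = n' - ν`, `η = max (v δ) (v ε) < 1`. By `g_taylor` at `s'` and `gd_taylor`
the linear forms `-u' δ + u ε` and `gd m n' - (…)` are `O(η ^ 2)`, the determinant `W` is a unit,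
so `v (gd m n') = η`. The distance is at most `η` by `xx_lip` and at least `η` by `Sl.lip`. -/
theorem at_J (h : Ml D A r J v s w s' w' x y m n n') {z : Ω × Ω} (hz : z ∈ J)
    (h1 : v (m - z.1) < 1) (h2 : v (n - z.2) < 1) (h3 : v (n' - z.2) < 1) :
    v (D.gd m n') = D.eps v s w s' w' x y z ∧ v (D.u (m, n) s) = 1 := by
  obtain ⟨h6, hs, -, -, -, hq'⟩ := h.basic
  obtain ⟨k1, k2, -, k4, -⟩ := h.key
  have hz' := (h.hJ z).1 hz
  have i1 := h.triv.le hz'.1
  have i2 := h.triv.le hz'.2.1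
  have so := h.ok.sec_ok hz'
  have two : (2 : Ω) ∈ A := by exact_mod_cast natCast_mem A 2
  have uA : ∀ σ ∈ A, D.u z σ ∈ A ∧ D.u' z σ ∈ A := fun σ hσ => by
    have a := (so.a_mem hσ).1
    rw [(D.sec_a z σ).1] at a
    exact ⟨sub_mem (add_mem (mul_mem two a) (h.ok.ok₀.a_mem hσ).1) (pow_mem hz'.1 2),
      sub_mem (add_mem (mul_mem two a) (h.ok.ok₁.a_mem hσ).1) (pow_mem hz'.2.1 2)⟩
  have PA : 2 * (D.sec z).α + D.S₁.α ∈ A := add_mem (mul_mem two so.αA) h.ok.ok₁.αA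
  have QA : 2 * (D.sec z).α + D.S₀.α ∈ A := add_mem (mul_mem two so.αA) h.ok.ok₀.αA
  refine ⟨?_, ?_⟩
  · have d1 := max_lt h1 h2
    obtain ⟨c1, c2⟩ := pt_J h hz hs d1 k1 h.m₁ (le_max_left _ _) (le_max_right _ _)
    unfold Ln.eps
    rw [if_pos ⟨c1.trans_lt d1, c2.trans_lt d1⟩]
    have hη := max_lt h1 h3
    generalize hη' : max (v (m - z.1)) (v (n' - z.2)) = η at hη
    have eδ : v (m - z.1) ≤ η := hη' ▸ le_max_left _ _
    have eε : v (n' - z.2) ≤ η := hη' ▸ le_max_right _ _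
    obtain ⟨c3, c4⟩ := pt_J h hz h.s1 hη k2 h.m₂ eδ eε
    have d2 := (max_le c3 c4).trans_lt hη
    obtain ⟨p1, p2⟩ := sl_J h hz h.s1 hq' d2 (le_max_left _ _) (le_max_right _ _)
    have hd : dst v (w' ^ 2 * x) (w' ^ 3 * y) ((D.sec z).a s') ((D.sec z).b s') = η := by
      unfold dst
      rw [min_eq_right d2.le]
      exact le_antisymm (max_le c3 c4) (hη' ▸ max_le (p1 m h.m₂) (p2 n' h.n₂))
    rw [hd]
    have t1 := D.g_taylor s' z.1 z.2 (m - z.1) (n' - z.2)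
    have t2 := D.gd_taylor z.1 z.2 (m - z.1) (n' - z.2)
    rw [add_sub_cancel, add_sub_cancel] at t1 t2
    rw [k4, hz'.2.2] at t1
    rw [gd_J h hz] at t2
    have hW : v (D.W z) = 1 := h.triv _
      (sub_mem (mul_mem (uA 0 (zero_mem A)).1 PA) (mul_mem (uA 0 (zero_mem A)).2 QA))
      (h.ok.W_ne hz'.2.2)
    have eW := D.W_eq z s'
    obtain ⟨iθ, -, -, iθ', -⟩ := h.ok.int h.triv h.s1
    have iu : v (D.u z s') ≤ 1 ∧ v (D.u' z s') ≤ 1 := by
      have a := (so.int h.triv h.s1).1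
      rw [(D.sec_a z s').1] at a
      have a2 := vml (val_two h6).le a
      exact ⟨v.map_sub_le (v.map_add_le a2 (h.ok.ok₀.int h.triv h.s1).1)
          (by rw [sq]; exact vml i1 i1),
        v.map_sub_le (v.map_add_le a2 (h.ok.ok₁.int h.triv h.s1).1)
          (by rw [sq]; exact vml i2 i2)⟩
    have iP := h.triv.le PA
    have iQ := h.triv.le QA
    simp only [Prod.mk.eta] at t1 t2
    generalize m - z.1 = δ at *
    generalize n' - z.2 = ε at *
    generalize 2 * (D.sec z).α + D.S₁.α = P at *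
    generalize 2 * (D.sec z).α + D.S₀.α = Q at *
    generalize D.u z s' = U at *
    generalize D.u' z s' = U' at *
    generalize D.gd m n' = G at *
    have eδε : v (δ - ε) ≤ η := v.map_sub_le eδ eε
    have q0 : v ((δ - ε) * (δ - ε)) ≤ η * η := vmm eδε eδε
    have L1 : v (U * ε - U' * δ) ≤ η * η := by
      have e : U * ε - U' * δ = z.2 * (δ * δ) + 2 * (z.1 - z.2) * (δ * ε) - z.1 * (ε * ε) +
          (δ - ε) * (δ * ε) - (δ - ε) * (δ - ε) * D.θ s' := by linear_combination -t1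
      rw [e]
      exact v.map_sub_le (v.map_add_le (v.map_sub_le (v.map_add_le (vml i2 (vmm eδ eδ))
        (vml (vml (val_two h6).le (v.map_sub_le i1 i2)) (vmm eδ eε))) (vml i1 (vmm eε eε)))
        (vml (eδε.trans hη.le) (vmm eδ eε))) (vmr q0 iθ)
    have η2 : η * η ≤ η := mul_le_of_le_one_left' hη.le
    have L2 : v (G - (Q * ε - P * δ)) ≤ η * η := by
      have e : G - (Q * ε - P * δ) = (δ - ε) * (δ - ε) * D.θ' := by linear_combination t2
      rw [e]; exact vmr q0 iθ'.le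
    have up : v G ≤ η := by
      have e : G = (G - (Q * ε - P * δ)) + (Q * ε - P * δ) := by ring
      rw [e]
      exact v.map_add_le (L2.trans η2) (v.map_sub_le (vml iQ eε) (vml iP eδ))
    refine up.eq_of_not_lt fun lt => ?_
    have η0 : 0 < η := zero_le.trans_lt lt
    have η3 : η * η < η := mul_lt_of_lt_one_right η0 hη
    have m1 : max (η * η) (v G) < η := max_lt η3 lt
    have L3 : v (Q * ε - P * δ) ≤ max (η * η) (v G) := by
      have e : Q * ε - P * δ = G - (G - (Q * ε - P * δ)) := by ring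
      rw [e]
      exact v.map_sub_le (le_max_right _ _) (L2.trans (le_max_left _ _))
    have L4 : v (U * ε - U' * δ) ≤ max (η * η) (v G) := L1.trans (le_max_left _ _)
    have b1 : v (D.W z * δ) ≤ max (η * η) (v G) := by
      have e : D.W z * δ = Q * (U * ε - U' * δ) - U * (Q * ε - P * δ) := by rw [eW]; ring
      rw [e]; exact v.map_sub_le (vml iQ L4) (vml iu.1 L3)
    have b2 : v (D.W z * ε) ≤ max (η * η) (v G) := by
      have e : D.W z * ε = P * (U * ε - U' * δ) - U' * (Q * ε - P * δ) := by rw [eW]; ring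
      rw [e]; exact v.map_sub_le (vml iP L4) (vml iu.2 L3)
    rw [map_mul, hW, one_mul] at b1 b2
    exact ((max_le b1 b2).trans_lt m1).ne hη'
  · have u1 : v (D.u z s) = 1 := h.triv _ (uA s h.sA).1 (h.gd.gJ z hz).2
    have l := (h.ok.xx_lip h.triv hs hs (vcg i1 h1.le) (vcg i2 h2.le) i1 i2 v00
      (le_max_left _ _) (le_max_right (v (m - z.1)) _)).2.2
    exact val_congr u1 (vsw' (l.trans_lt (max_lt h1 h2)))

/-- Let `B = n - n'`, `G` the cofactor in `key`. (i) `gd m n'` a unit: all `eps` are `1` (`of_eps`,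
`gd z = 0`), `v B * v G = v t`; use `close`, `cc_of`. (ii) `gd m n'` small, `B` a unit: `of_eps`,
`close`. (iii) both small: `res_J` gives `z`, the other `eps` are `1`, `at_J`, `cc_of`. -/
theorem flat (h : Ml D A r J v s w s' w' x y m n n') (hx : v x ≤ 1) (hm : v m ≤ 1) (hn : v n ≤ 1)
    (hn' : v n' ≤ 1) : v (n - n') = (∏ z ∈ J, D.eps v s w s' w' x y z) *
      if Cc v w w' x y then v (s' - s) else 1 := by
  obtain ⟨h6, hs, -, ht, -⟩ := h.basic
  obtain ⟨k1, -, k3, -, k5⟩ := h.key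
  have k6 := congrArg v k5
  rw [map_mul, map_mul] at k6
  obtain ⟨iθ, -, -, iθ', -⟩ := h.ok.int h.triv hs
  have iB : v (n - n') ≤ 1 := v.map_sub_le hn hn'
  have gJ : ∀ z ∈ J, v (m - z.1) < 1 → v (n' - z.2) < 1 → v (D.gd m n') < 1 := fun z hz a b => by
    have hz' := (h.hJ z).1 hz
    have l := (h.ok.xx_lip h.triv hs hs hm hn' (h.triv.le hz'.1) (h.triv.le hz'.2.1) v00
      (le_max_left _ _) (le_max_right (v (m - z.1)) _)).2.1
    rw [gd_J h hz, sub_zero] at l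
    exact l.trans_lt (max_lt a b)
  by_cases hg : v (D.gd m n') < 1
  · by_cases hB : v (n - n') < 1
    · have l := (h.ok.xx_lip h.triv hs hs hm hn hm hn' v00 v00 le_rfl).2.1
      have g2 : v (D.gd m n) < 1 := by
        have e : D.gd m n = (D.gd m n - D.gd m n') + D.gd m n' := by ring
        rw [e]; exact v.map_add_lt (l.trans_lt hB) hg
      obtain ⟨z, hz', a1, a2⟩ := h.ok.res_J h.triv h.res h.sA hm hn
        (by rw [k3, map_zero]; exact zero_lt_one) g2
      have hz := (h.hJ z).2 hz'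
      have a3 : v (n' - z.2) < 1 := by
        have e : n' - z.2 = (n - z.2) - (n - n') := by ring
        rw [e]; exact v.map_sub_lt a2 hB
      obtain ⟨b1, b2⟩ := h.at_J hz a1 a2 a3
      have pr : ∏ z ∈ J, D.eps v s w s' w' x y z = D.eps v s w s' w' x y z :=
        Finset.prod_eq_single_of_mem z hz fun z' hz2 ne => by
          by_contra c
          obtain ⟨c1, c2, -⟩ := h.of_eps hx hz2 c
          have hz2' := (h.hJ z').1 hz2
          exact ne (Prod.ext (h.triv.eq hz2'.1 hz'.1 (vtr (vsw' c1) (vsw' a1)))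
            (h.triv.eq hz2'.2.1 hz'.2.1 (vtr (vsw' c2) (vsw' a2))))
      have G1 : v (D.u (m, n) s - (D.θ s + m) * (n - n')) = 1 := by
        rw [← b2]
        exact v.map_sub_eq_of_lt_left
          (b2 ▸ (vml (v.map_add_le iθ hm) le_rfl).trans_lt hB)
      rw [G1, mul_one, b1] at k6
      rw [pr, k6, mul_comm]
      split_ifs with c
      · rfl
      · rw [ht.eq_of_not_lt fun e => c (h.cc_of hm hn e hB)]
    · have pr : ∏ z ∈ J, D.eps v s w s' w' x y z = 1 := Finset.prod_eq_one fun z hz => by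
        by_contra c
        obtain ⟨-, c2, c3⟩ := h.of_eps hx hz c
        exact hB (vtr c2 c3)
      rw [pr, one_mul, iB.eq_of_not_lt hB]
      split_ifs with c
      · exact (ht.eq_of_not_lt fun e => hB ((h.close hx hm hn c e).trans_lt e)).symm
      · rfl
  · have pr : ∏ z ∈ J, D.eps v s w s' w' x y z = 1 := Finset.prod_eq_one fun z hz => by
      by_contra c
      obtain ⟨c1, -, c3⟩ := h.of_eps hx hz c
      exact hg (gJ z hz c1 c3)
    have iG : v (D.u (m, n) s - (D.θ s + m) * (n - n')) ≤ 1 := by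
      refine v.map_sub_le ?_ (vml (v.map_add_le iθ hm) iB)
      unfold Ln.u
      simp only
      rw [← k1]
      exact v.map_sub_le (v.map_add_le (vml (val_two h6).le (vml (vpw h.basic.2.2.1 2).le hx))
        (h.ok.ok₀.int h.triv hs).1) (by rw [sq]; exact vml hm hm)
    have l1 : v (s' - s) ≤ v (n - n') :=
      calc v (s' - s) ≤ v (s' - s) * v (D.gd m n') := le_mul_of_one_le_right' (not_lt.1 hg)
        _ = _ := k6.symm
        _ ≤ v (n - n') := mul_le_of_le_one_right' iG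
    rw [pr, one_mul]
    split_ifs with c
    · refine le_antisymm ?_ l1
      rcases ht.lt_or_eq with e | e
      · exact h.close hx hm hn c e
      · rw [e]; exact iB
    · exact iB.eq_of_not_lt fun e => c (h.cc_of hm hn (l1.trans_lt e) e)

theorem int (h : Ml D A r J v s w s' w' x y m n n') (hx : v x ≤ 1) :
    v (n - n') = max 1 (v n) * max 1 (v n') * (∏ z ∈ J, D.eps v s w s' w' x y z) *
      if Cc v w w' x y then v (s' - s) else 1 := by
  by_cases hn : 1 < v n ∨ 1 < v n'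
  · rw [h.eps_one hx (Or.inr hn), mul_one]
    exact h.steep_n hx hn
  · obtain ⟨h1, h2⟩ := not_or.1 hn
    rw [not_lt] at h1 h2
    rw [max_eq_left h1, max_eq_left h2, one_mul, one_mul]
    rcases le_or_gt (v m) 1 with hm | hm
    · exact h.flat hx hm h1 h2
    · rw [h.eps_one hx (Or.inl hm), one_mul]
      exact h.steep_m hx h1 h2 hm

end Ml

end Pool.Agent.P.MP_ee618e_ag.X.Y
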