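import Pool.Agent.P.MP_ee618e_ag.Y.F1
import Pool.Agent.P.MP_ee618e_ag.Y.M2

/-! F2: the values of the factors of the function. -/

namespace Pool.Agent.P.MP_ee618e_ag.X.Y

open IsDedekindDomain
open scoped Classical

variable {Ω : Type} [Field Ω] [IsAlgClosed Ω] {Γ : Type} [LinearOrderedCommGroupWithZero Γ]
  {v : Valuation Ω Γ} {C : Sx Ω} {D : Ln Ω} {J : Finset (Ω × Ω)} {s w : Ω}

omit [IsAlgClosed Ω] in
theorem f2_on (h : C.Ns v) {S : Sec Ω} (hS : S.Ok C.A C.r) (hp : C.Pt s w) :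
    On (S.x s w) (S.y s w) ∧ On (S.x C.s C.w) (S.y C.s C.w) ∧ hgt v (pt (S.x s w) (S.y s w)) = 1 ∧
      hgt v (pt (S.x C.s C.w) (S.y C.s C.w)) = 1 := by
  obtain ⟨h6, -, -, a, -, b, -⟩ := h.int hS hp
  have o := hS.on hp.w0 hp.eq
  have o' := hS.on (n1_ne h.w1) C.eq
  exact ⟨o, o', hgt_int h6 o a, hgt_int h6 o' b⟩

omit [IsAlgClosed Ω] in
theorem f2_one {x y a b : Ω} (h : ¬ (v (x - a) < 1 ∧ v (y - b) < 1)) : dst v x y a b = 1 :=
  (dst_le v x y a b).eq_of_not_lt fun c => h (dst_lt.1 c)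

omit [IsAlgClosed Ω] in
theorem f2_div {c t : Ω} (ht : v t = 1) (n : ℕ) : v (c / t ^ n) = v c := by
  rw [map_div₀, map_pow, ht, one_pow, div_one]

omit [IsAlgClosed Ω] in
theorem f2_sl {S T : Sec Ω} {m : Ω} (h : Sl m (S.a s) (S.b s) (T.a s) (T.b s)) :
    Sl (w⁻¹ * m) (S.x s w) (S.y s w) (T.x s w) (T.y s w) := by
  simpa only [Sec.x, Sec.y, inv_pow, div_eq_inv_mul] using h.scale w⁻¹

namespace Su

variable (U : Su C D J s w)

/-- `Tri.root`, `Sl.scale`, `Sec.scale` -/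
theorem ml (h : C.Ns v) (i : Fin 3) : Ml D C.A C.r J v s w C.s C.w (U.T.x i) (U.T.y i)
    (w * U.m i) (w * U.n i) (C.w * U.n' i) := by
  have w0 := n1_ne h.w1
  have r := U.T.root (U.hm i) (U.hm' i) (U.nd i)
  have a := (U.hm i).scale w
  have b := (U.hm' i).scale C.w
  have c := (U.hn i).scale w
  have d := (U.hn' i).scale C.w
  rw [U.Tw, U.Tw'] at r
  rw [U.Ta, U.Tb, (D.S₀.scale s U.hp.w0).1, (D.S₀.scale s U.hp.w0).2] at a
  rw [U.Ta', U.Tb', (D.S₀.scale _ w0).1, (D.S₀.scale _ w0).2, ← r] at b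
  rw [(D.S₁.scale s U.hp.w0).1, (D.S₁.scale s U.hp.w0).2] at c
  rw [(D.S₁.scale _ w0).1, (D.S₁.scale _ w0).2] at d
  refine ⟨U.ok, U.hJ, h.triv, h.res, U.hp.sA, U.hp.wA, U.hp.w0, U.hp.eq, C.eq, U.gd, h.s1, h.w1,
    fun e => C.tr (e ▸ U.hp.sA), fun e => C.tr ?_, U.T.on i, a, b, c, d⟩
  have n := sub_ne_zero.2 U.ok.mem.2.2.1
  have e' : C.s = (D.S₀.γ - D.S₁.γ) / (D.S₁.α - D.S₀.α) := by
    rw [eq_div_iff n]
    simp only [Ln.d, Sec.a] at e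
    linear_combination e
  rw [e']
  exact div_mem (sub_mem U.ok.ok₀.γA U.ok.ok₁.γA) (sub_mem U.ok.ok₁.αA U.ok.ok₀.αA)

/-- the contribution of the base point `z` at the root `i` -/
noncomputable def ep (v : Valuation Ω Γ) (z : Ω × Ω) (i : Fin 3) : Γ :=
  if v (U.T.x i) ≤ 1 then D.eps v s w C.s C.w (U.T.x i) (U.T.y i) z else 1

/-- roots which contribute `v (C.s - s)` -/
def Ct (v : Valuation Ω Γ) (i : Fin 3) : Prop :=
  1 < v (U.T.x i) ∨ Cc v w C.w (U.T.x i) (U.T.y i)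

/-- integral root: `Ml.int`, `hgt_add_sl`, `hgt_int`; otherwise `Ml.big`, `hgt_big`, `hgt_mixed` -/
theorem root_val (h : C.Ns v) (i : Fin 3) :
    v (w * U.n i - C.w * U.n' i) * (hgt v (U.T.e i + pt (D.S₁.x s w) (D.S₁.y s w)) *
      hgt v (U.T.e i + pt (D.S₁.x C.s C.w) (D.S₁.y C.s C.w))) =
      hgt v (U.T.e i) * (∏ z ∈ J, U.ep v z i) * if U.Ct v i then v (C.s - s) else 1 := by
  obtain ⟨h6, -, hw, a, -, b, -⟩ := h.int U.ok.ok₁ U.hp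
  obtain ⟨o, o', -, -⟩ := f2_on h U.ok.ok₁ U.hp
  have oe := U.T.on i
  rw [Tri.e]
  by_cases hx : v (U.T.x i) ≤ 1
  · have c := hgt_add_sl h6 (U.hn i) oe o hx a
    have d := hgt_add_sl h6 (U.hn' i) oe o' hx b
    have e : U.Ct v i ↔ Cc v w C.w (U.T.x i) (U.T.y i) := or_iff_right hx.not_gt
    rw [(U.ml h i).int hx, map_mul, map_mul, hw, h.w1, one_mul, one_mul, hgt_int h6 oe hx,
      one_mul, e]
    simp only [ep, if_pos hx]
    have k : ∀ a b p q c d : Γ, c * a = 1 → d * b = 1 → a * b * p * q * (c * d) = p * q :=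
      fun a b p q c d e e' => by
        rw [show a * b * p * q * (c * d) = c * a * (d * b) * (p * q) by ac_rfl, e, e', one_mul,
          one_mul]
    exact k _ _ _ _ _ _ c d
  · have hx' := not_le.1 hx
    obtain ⟨-, -, -, c, d⟩ := hgt_big h6 oe hx'
    have y0 : v (U.T.y i) ≠ 0 := right_ne_zero_of_mul_eq_one c
    rw [(hgt_mixed h6 oe o hx' a).2, (hgt_mixed h6 oe o' hx' b).2, if_pos (show U.Ct v i from Or.inl hx')]
    simp only [ep, if_neg hx, Finset.prod_const_one, mul_one]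
    refine mul_right_cancel₀ y0 ?_
    rw [(U.ml h i).big hx', ← d]
    ac_rfl

/-- `Tri.val` at `-P₁`; `neg_pt`, `hgt_neg`, `hgt_dst`; the constant points `P₀`, `P₁` have different
abscissae (`d s ≠ 0`) -/
theorem end₁ (h : C.Ns v) : v (w * U.p - C.w * U.p') * D.S₀.ds v C.s C.w D.S₁ s w =
    U.T.K v * ∏ i, hgt v (U.T.e i + pt (D.S₁.x s w) (D.S₁.y s w)) := by
  obtain ⟨h6, -, hw, a, -, b, -⟩ := h.int U.ok.ok₀ U.hp
  obtain ⟨-, -, -, a1, -, -, -⟩ := h.int U.ok.ok₁ U.hp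
  obtain ⟨o, o', g, g'⟩ := f2_on h U.ok.ok₀ U.hp
  obtain ⟨o1, -, g1, -⟩ := f2_on h U.ok.ok₁ U.hp
  have e := U.T.val h6 o1.neg U.hp₁ U.hp₂ U.nd₁
  have c : dst v (D.S₀.x s w) (D.S₀.y s w) (D.S₁.x s w) (D.S₁.y s w) = 1 := f2_one fun c => by
    have d := c.1
    rw [v.map_sub_swap, Sec.x, Sec.x, ← sub_div, f2_div hw] at d
    exact d.ne (h.triv _ (U.ok.mem.2.2.2 s U.hp.sA).2.2 U.gd.d0)
  rw [U.Tw, U.Tw', U.Ta, U.Tb, U.Ta', U.Tb', ← neg_pt, hgt_neg, neg_add_eq_sub, neg_add_eq_sub,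
    hgt_sub_int h6 o o1 a a1, hgt_sub_int h6 o' o1 b a1, c, g, g', g1] at e
  simp only [one_mul, mul_one, ← neg_add', hgt_neg] at e
  simpa only [add_comm, Sec.ds] using e

/-- `Tri.val` at `-P₁'`; the points `P₀'`, `P₁'` are not congruent (`Ln.Ok.skew` at `C.s`) -/
theorem end₂ (h : C.Ns v) : v (w * U.o - C.w * U.o') * D.S₁.ds v C.s C.w D.S₀ s w =
    U.T.K v * ∏ i, hgt v (U.T.e i + pt (D.S₁.x C.s C.w) (D.S₁.y C.s C.w)) := by
  obtain ⟨h6, -, hw, a, -, b, -⟩ := h.int U.ok.ok₀ U.hp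
  obtain ⟨-, -, -, -, -, a1, -⟩ := h.int U.ok.ok₁ U.hp
  obtain ⟨o, o', g, g'⟩ := f2_on h U.ok.ok₀ U.hp
  obtain ⟨-, o1, -, g1⟩ := f2_on h U.ok.ok₁ U.hp
  have e := U.T.val h6 o1.neg U.ho₁ U.ho₂ U.nd₂
  have c : dst v (D.S₀.x C.s C.w) (D.S₀.y C.s C.w) (D.S₁.x C.s C.w) (D.S₁.y C.s C.w) = 1 :=
    f2_one fun ⟨d, d'⟩ => by
      rw [v.map_sub_swap, Sec.x, Sec.x, ← sub_div, f2_div h.w1] at d
      rw [v.map_sub_swap, Sec.y, Sec.y, ← sub_div, f2_div h.w1, U.ok.hβ] at d'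
      exact U.ok.skew h.triv h.s1 ⟨d, d'⟩
  rw [U.Tw, U.Tw', U.Ta, U.Tb, U.Ta', U.Tb', ← neg_pt, hgt_neg, neg_add_eq_sub, neg_add_eq_sub,
    hgt_comm, hgt_sub_int h6 o1 o a1 a, hgt_sub_int h6 o' o1 b a1, c, g, g', g1] at e
  simp only [one_mul, mul_one, ← neg_add', hgt_neg] at e
  simpa only [add_comm, Sec.ds] using e

/-- Let `Q`, `Q'` be the points of `sec z` over `(s, w)`, `(C.s, C.w)`, congruent. By `Ln.Ok.sl` the
slope of `Q, P₀` is `z.1 / w` and that of `Q', P₀'` is `z.1 / C.w` (`Sl.scale`), so these sums have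
height one (`hgt_add_sl`). `Q' ≠ -P₀`; let `μ` be the slope of `Q', P₀`. `Tri.val` at `Q'` and
`hgt_slope` give `K ∏ hgt (Q' - e i) = hgt (Q' - Q) hgt (Q' + P₀ + Q)`. The constant point
`Q + P₀ + Q` is not zero because `u z s ≠ 0` (`Sl.add`: `Q + P₀` has abscissa
`(z.1 / w) ^ 2 - x Q - x P₀`), so the last height is one (`hgt_congr`, `hgt_sub_int`). -/
theorem near_prod (h : C.Ns v) {z : Ω × Ω} (hz : z ∈ J)
    (hd : (D.sec z).ds v C.s C.w (D.sec z) s w < 1) :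
    U.T.K v * ∏ i, hgt v (pt ((D.sec z).x C.s C.w) ((D.sec z).y C.s C.w) - U.T.e i) =
      (D.sec z).ds v C.s C.w (D.sec z) s w := by
  have zJ := (U.hJ z).1 hz
  have hS := U.ok.sec_ok zJ
  obtain ⟨h6, -, hw, a, a', b, -⟩ := h.int U.ok.ok₀ U.hp
  obtain ⟨-, -, -, a1, a1', b1, -⟩ := h.int hS U.hp
  obtain ⟨o, o', g, g'⟩ := f2_on h U.ok.ok₀ U.hp
  obtain ⟨o1, o1', g1, g1'⟩ := f2_on h hS U.hp
  have z1 := h.triv.le zJ.1
  have m := f2_sl (w := w) (U.ok.sl zJ.2.2 s).1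
  have m' := f2_sl (w := C.w) (U.ok.sl zJ.2.2 C.s).1
  have vm : v (w⁻¹ * z.1) ≤ 1 := by rwa [map_mul, map_inv₀, hw, inv_one, one_mul]
  have vm' : v (C.w⁻¹ * z.1) ≤ 1 := by rwa [map_mul, map_inv₀, h.w1, inv_one, one_mul]
  have p := hgt_add_sl h6 m o1 o a1 a
  have p' := hgt_add_sl h6 m' o1' o' b1 b
  rw [max_eq_left vm, mul_one] at p
  rw [max_eq_left vm', mul_one] at p'
  have q : D.S₀.y s w ^ 2 - D.S₀.x s w ^ 3 = 1 := sub_eq_iff_eq_add'.2 o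
  obtain ⟨μ, hμ⟩ := exists_sl ((sub_eq_iff_eq_add'.2 o1').trans q.symm) fun ⟨c, c'⟩ => by
    obtain ⟨d, d'⟩ := dst_lt.1 hd
    rw [c, v.map_sub_swap] at d
    rw [c', v.map_sub_swap, sub_neg_eq_add] at d'
    exact (m.far h6 a1 a1' a a' (by rw [q, map_one])).1 vm ⟨d, d'⟩
  have e := U.T.val h6 o1' (U.Ta ▸ U.Tb ▸ hμ) (U.Ta' ▸ U.Tb' ▸ m') (U.ndJ z hz)
  have f := hgt_slope h6 o1' o1 o hμ m
  have k : w * μ - C.w * (C.w⁻¹ * z.1) = w * (μ - w⁻¹ * z.1) := by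
    rw [mul_inv_cancel_left₀ (n1_ne h.w1), mul_sub, mul_inv_cancel_left₀ U.hp.w0]
  obtain ⟨o3, e3⟩ := m.add (six_ne h6) o
  have dq := hgt_sub_int h6 o1' o1 b1 a1
  have t : hgt v (pt ((D.sec z).x C.s C.w) ((D.sec z).y C.s C.w) + pt (D.S₀.x s w) (D.S₀.y s w) +
      pt ((D.sec z).x s w) ((D.sec z).y s w)) = 1 := by
    rw [add_assoc, add_comm (pt (D.S₀.x s w) _), e3, ← sub_neg_eq_add, neg_pt,
      hgt_congr h6 (dq.trans_lt hd), hgt_comm, hgt_dst h6 o3.neg o1 a1]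
    refine f2_one fun c => c.1.ne ?_
    have u : (w⁻¹ * z.1) ^ 2 - (D.sec z).x s w - D.S₀.x s w - (D.sec z).x s w =
        -D.u z s / w ^ 2 := by
      rw [Ln.u, ← (D.sec_a z s).1, Sec.x, Sec.x]
      ring
    rw [u, f2_div hw, v.map_neg]
    refine h.triv _ ?_ (U.gd.gJ z hz).2
    rw [Ln.u, ← (D.sec_a z s).1, two_mul]
    exact sub_mem (add_mem (add_mem (hS.a_mem U.hp.sA).1 (hS.a_mem U.hp.sA).1)
      (U.ok.ok₀.a_mem U.hp.sA).1) (pow_mem zJ.1 2)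
  rw [U.Tw, U.Tw', U.Ta, U.Tb, U.Ta', U.Tb', k, map_mul, hw, g, g', g1', p'] at e
  rw [g, g1, g1', p, t, dq] at f
  simp only [one_mul, mul_one] at e f
  exact e.symm.trans f

/-- If `ds < 1` then `ep i = hgt (Q' - e i)` (`hgt_dst`, `dst_scale`, `hgt_mixed`). Otherwise a root
congruent to `Q` is not congruent to `Q'`, so all `ep i` are one. -/
theorem eps_prod (h : C.Ns v) {z : Ω × Ω} (hz : z ∈ J) :
    (∏ i, U.ep v z i) * (if (D.sec z).ds v C.s C.w (D.sec z) s w < 1 then U.T.K v else 1) =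
      (D.sec z).ds v C.s C.w (D.sec z) s w := by
  have hS := U.ok.sec_ok ((U.hJ z).1 hz)
  obtain ⟨h6, -, hw, a, -, b, -⟩ := h.int hS U.hp
  obtain ⟨o, o', -, -⟩ := f2_on h hS U.hp
  have dq : hgt v _ = (D.sec z).ds v C.s C.w (D.sec z) s w := hgt_sub_int h6 o' o b a
  have key : ∀ i, U.ep v z i =
      if hgt v (U.T.e i - pt ((D.sec z).x s w) ((D.sec z).y s w)) < 1 then
        hgt v (U.T.e i - pt ((D.sec z).x C.s C.w) ((D.sec z).y C.s C.w)) else 1 := by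
    intro i
    rw [ep, Tri.e]
    by_cases hx : v (U.T.x i) ≤ 1
    · rw [if_pos hx, hgt_dst h6 (U.T.on i) o a, hgt_dst h6 (U.T.on i) o' b, Ln.eps,
        ← dst_scale (a := (D.sec z).x s w) hw, ← dst_scale (x := U.T.x i) (a := (D.sec z).x C.s C.w) h.w1,
        ((D.sec z).scale s U.hp.w0).1, ((D.sec z).scale s U.hp.w0).2,
        ((D.sec z).scale _ (n1_ne h.w1)).1, ((D.sec z).scale _ (n1_ne h.w1)).2]
      simp only [dst_lt]
    · rw [if_neg hx, (hgt_mixed h6 (U.T.on i) o (not_le.1 hx) a).1, if_neg (lt_irrefl _)]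
  by_cases hd : (D.sec z).ds v C.s C.w (D.sec z) s w < 1
  · rw [if_pos hd, mul_comm, ← U.near_prod h hz hd]
    congr 1
    refine Finset.prod_congr rfl fun i _ => ?_
    rw [key]
    split_ifs with c
    · exact hgt_comm ..
    · exact ((hgt_congr h6 (dq ▸ hd)).2
        ((hgt_comm ..).trans ((hgt_le ..).eq_of_not_lt c))).symm
  · have d := (dst_le ..).eq_of_not_lt hd
    rw [if_neg hd, mul_one, Sec.ds, d]
    refine Finset.prod_eq_one fun i _ => ?_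
    rw [key]
    split_ifs with c
    · exact (hgt_congr h6 c).2 ((hgt_comm ..).trans (dq.trans d))
    · rfl

end Su

end Pool.Agent.P.MP_ee618e_ag.X.Y
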