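import Pool.Agent.P.MP_ee618e_ag.Y.F2

/-! F3: the divisor of the function attached to a good point. -/

namespace Pool.Agent.P.MP_ee618e_ag.X.Y

open IsDedekindDomain
open scoped Classical

variable {Ω : Type} [Field Ω] [IsAlgClosed Ω] {Γ : Type} [LinearOrderedCommGroupWithZero Γ]
  {v : Valuation Ω Γ} {C : Sx Ω} {D : Ln Ω} {J : Finset (Ω × Ω)} {s w : Ω}

namespace F3

omit [IsAlgClosed Ω] in
theorem pw {x y : Ω} (h : n1C v x y) (n : ℕ) : n1C v (x ^ n) (y ^ n) := by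
  induction n with
  | zero => simpa using n1C.refl (v := v) (x := 1) (by simp)
  | succ n ih => rw [pow_succ, pow_succ]; exact ih.mul h

omit [IsAlgClosed Ω] in
theorem pw_lt {c x y : Ω} (hy : v y = 1) (e : v (c * x - y) < 1) {n : ℕ} (hn : c ^ n = 1) :
    v (y ^ n - x ^ n) < 1 := by
  have := (pw (⟨hy.le, e⟩ : n1C v (c * x) y) n).2
  rwa [mul_pow, hn, one_mul, v.map_sub_swap] at this

omit [IsAlgClosed Ω] in
theorem pw_eq {A : Subfield Ω} (hA : Triv A v) {c x y : Ω} (hc : c ∈ A) (hx : v x = 1)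
    (hy : v y = 1) (e : v (c * x - y) < 1) {n : ℕ} (hn : c ^ n ≠ 1) :
    v (y ^ n - x ^ n) = 1 := by
  have h1 := (pw (⟨hy.le, e⟩ : n1C v (c * x) y) n).2
  have h2 : v ((c ^ n - 1) * x ^ n) = 1 := by
    rw [map_mul, map_pow, hx, hA _ (sub_mem (pow_mem hc n) (one_mem _)) (sub_ne_zero.2 hn),
      one_pow, one_mul]
  refine val_congr h2 ?_
  rwa [show (c ^ n - 1) * x ^ n - (y ^ n - x ^ n) = (c * x) ^ n - y ^ n by ring]

omit [IsAlgClosed Ω] in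
theorem prod_one {f : Fin 3 → Γ} (hf : ∀ i, f i ≤ 1) (h : ∏ i, f i = 1) (i : Fin 3) :
    f i = 1 := by
  refine le_antisymm (hf i) ?_
  rw [← h, ← Finset.mul_prod_erase _ _ (Finset.mem_univ i)]
  exact mul_le_of_le_one_right' (Finset.prod_le_one' fun j _ => hf j)

omit [IsAlgClosed Ω] in
/-- the conjugate `ζ ^ i * C.w` -/
theorem conj (h : C.Ns v) {S : Sec Ω} (hS : S.Ok C.A C.r) (hp : C.Pt s w)
    (ht : v (C.s - s) < 1) {i : ℕ} (hi : v (C.ζ ^ i * C.w - w) < 1) :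
    v (S.x C.s C.w - C.ζ ^ (2 * i) * S.x s w) < 1 ∧
      v (S.y C.s C.w - C.ζ ^ (3 * i) * S.y s w) < 1 := by
  obtain ⟨-, h1, h2, -⟩ := h.int hS hp
  have hζ0 : C.ζ ≠ 0 := C.hζ.ne_zero (by norm_num)
  have hζ : v C.ζ = 1 := h.triv _ C.ζA hζ0
  have e' : (C.ζ ^ i * C.w) ^ 6 = ∏ i, (C.s - C.r i) := by
    rw [mul_pow, ← pow_mul, mul_comm i, pow_mul, C.hζ.pow_eq_one, one_pow, one_mul, C.eq]
  obtain ⟨-, k1, k2⟩ := hS.lip' h.triv h1 h2 hp.eq e' ht hi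
  have hw := C.w0
  constructor
  · have : S.x C.s C.w - C.ζ ^ (2 * i) * S.x s w =
        C.ζ ^ (2 * i) * (S.x C.s (C.ζ ^ i * C.w) - S.x s w) := by
      simp only [Sec.x]
      field_simp
      ring
    rw [this, map_mul, map_pow, hζ, one_pow, one_mul]
    exact k1.trans_lt ht
  · have : S.y C.s C.w - C.ζ ^ (3 * i) * S.y s w =
        C.ζ ^ (3 * i) * (S.y C.s (C.ζ ^ i * C.w) - S.y s w) := by
      simp only [Sec.y]
      field_simp
      ring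
    rw [this, map_mul, map_pow, hζ, one_pow, one_mul]
    exact k2.trans_lt ht

omit [IsAlgClosed Ω] in
theorem zeta (C : Sx Ω) : C.ζ ^ 6 = 1 ∧ C.ζ ^ 3 = -1 ∧ C.ζ ^ 2 - C.ζ + 1 = 0 ∧
    ∀ k, 0 < k → k < 6 → C.ζ ^ k ≠ 1 := by
  have h6 := C.hζ.pow_eq_one
  have hk : ∀ k, 0 < k → k < 6 → C.ζ ^ k ≠ 1 := fun k h1 h2 =>
    C.hζ.pow_ne_one_of_pos_of_lt h1.ne' h2
  have h3 : C.ζ ^ 3 = -1 := by
    have : (C.ζ ^ 3 - 1) * (C.ζ ^ 3 + 1) = 0 := by linear_combination h6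
    rcases mul_eq_zero.1 this with e | e
    · exact absurd (sub_eq_zero.1 e) (hk 3 (by norm_num) (by norm_num))
    · exact eq_neg_of_add_eq_zero_left e
  refine ⟨h6, h3, ?_, hk⟩
  have : (C.ζ + 1) * (C.ζ ^ 2 - C.ζ + 1) = 0 := by linear_combination h3
  rcases mul_eq_zero.1 this with e | e
  · refine absurd ?_ (hk 2 (by norm_num) (by norm_num))
    linear_combination (C.ζ - 1) * e
  · exact e

omit [IsAlgClosed Ω] in
theorem unit_xy (h : C.Ns v) {S : Sec Ω} (hS : S.Ok C.A C.r) (hp : C.Pt s w) (g : S.Gd s) :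
    v (S.x s w) = 1 ∧ v (S.y s w) = 1 := by
  obtain ⟨k1, k2⟩ := hS.xy_mem le_rfl hp.sA hp.wA
  exact ⟨h.triv _ k1 (div_ne_zero g.1 (pow_ne_zero _ hp.w0)),
    h.triv _ k2 (div_ne_zero g.2.1 (pow_ne_zero _ hp.w0))⟩

omit [IsAlgClosed Ω] in
theorem t_ne (hp : C.Pt s w) : C.s - s ≠ 0 := fun e => C.tr (sub_eq_zero.1 e ▸ hp.sA)

end F3

namespace Su

variable (U : Su C D J s w)

/-- `Tri.K_bounds`, `Sec.Ok.sep`, `Sec.Ok.lip'` -/
theorem K_val (h : C.Ns v) : U.T.K v = nr v (C.s - s) (C.w - w) := by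
  obtain ⟨h6, h1, h2, h3, h4, h5, h7⟩ := h.int U.ok.ok₀ U.hp
  obtain ⟨k1, k2, k3⟩ := U.T.K_bounds h6 h.triv (by rw [U.Tw]; exact h2)
    (by rw [U.Tw']; exact h.w1) (by rw [U.Ta]; exact h3) (by rw [U.Ta']; exact h5)
  rw [U.Tw, U.Tw'] at k1
  rw [U.Tw, U.Tw', U.Ta, U.Ta'] at k2
  rw [U.Tw, U.Tw', U.Ta, U.Ta', U.Tb, U.Tb'] at k3
  have k4 : v (C.s - s) ≤ U.T.K v :=
    (U.ok.ok₀.sep h.triv U.ok.α0 h1 h.s1 h2 h.w1).trans (max_le k1 k2)
  unfold nr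
  split_ifs with hc
  · obtain ⟨l1, l2, l3⟩ := U.ok.ok₀.lip' h.triv h1 h2 U.hp.eq C.eq hc.1 hc.2
    rw [v.map_sub_swap] at l1 l2 l3
    exact le_antisymm (k3.trans (max_le l1 (max_le l2 l3))) k4
  · refine le_antisymm (k3.trans (max_le (v.map_sub_le h2.le h.w1.le)
      (max_le (v.map_sub_le h3 h5) (v.map_sub_le h4 h7)))) ?_
    rcases not_and_or.1 hc with e | e
    · exact (not_lt.1 e).trans k4
    · rw [v.map_sub_swap] at e
      exact (not_lt.1 e).trans k1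

/-- `i = 0`: `Cc` holds for integral roots. `i = 3`: `Tri.star`. `i = 2, 4`: `Tri.eta` with
`η = ζ ^ (6 - i)`; `Cc` holds iff the abscissa is small. `i = 1, 5`: `K = 1`, so all roots are
integral (`K_mul`, `hgt_big`), and `Cc` contradicts `On.unit`. The numbers `ζ ^ k - 1` are
nonzero constants. -/
theorem count (h : C.Ns v) (ht : v (C.s - s) < 1) {i : Fin 6}
    (hi : v (C.ζ ^ (i : ℕ) * C.w - w) < 1) :
    (Finset.univ.filter fun k => U.Ct v k).card = ![3, 0, 2, 3, 2, 0] i := by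
  obtain ⟨h6, h1, h2, h3, h4, h5, h7⟩ := h.int U.ok.ok₀ U.hp
  obtain ⟨z6, z3, z2, zk⟩ := F3.zeta C
  obtain ⟨c1, c2⟩ := F3.conj h U.ok.ok₀ U.hp ht hi
  obtain ⟨u1, u2⟩ := F3.unit_xy h U.ok.ok₀ U.hp U.gd.g₀
  have hζ : v C.ζ = 1 := h.triv _ C.ζA (C.hζ.ne_zero (by norm_num))
  have hcA : C.ζ ^ (i : ℕ) ∈ C.A := pow_mem C.ζA _
  have lt {n : ℕ} (hn : (C.ζ ^ (i : ℕ)) ^ n = 1) := F3.pw_lt h2 hi hn
  have eq {n : ℕ} (hn : (C.ζ ^ (i : ℕ)) ^ n ≠ 1) := F3.pw_eq h.triv hcA h.w1 h2 hi hn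
  have cc (k : Fin 3) : Cc v w C.w (U.T.x k) (U.T.y k) ↔
      v (w ^ 2 - C.w ^ 2) * v (U.T.x k) < 1 ∧ v (w ^ 3 - C.w ^ 3) * v (U.T.y k) < 1 := by
    rw [Cc, ← sub_mul, ← sub_mul, map_mul, map_mul]
  have all (H : ∀ k, U.Ct v k) : (Finset.univ.filter fun k => U.Ct v k).card = 3 := by
    rw [Finset.filter_true_of_mem fun k _ => H k]; rfl
  have odd (e1 : (C.ζ ^ (i : ℕ)) ^ 1 ≠ 1) (e2 : (C.ζ ^ (i : ℕ)) ^ 2 ≠ 1)
      (e3 : (C.ζ ^ (i : ℕ)) ^ 3 ≠ 1) : (Finset.univ.filter fun k => U.Ct v k).card = 0 := by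
    have l1 := eq e1
    rw [pow_one, pow_one] at l1
    have hK : U.T.K v = 1 := by
      rw [U.K_val h, nr, if_neg]
      rw [v.map_sub_swap C.w, l1]
      exact fun e => lt_irrefl _ e.2
    have hm := (U.T.K_mul h6).1
    rw [hK, one_mul, U.Tw, U.Tw', l1] at hm
    rw [Finset.card_eq_zero, Finset.filter_eq_empty_iff]
    rintro k - (e | e)
    · have := (hgt_big h6 (U.T.on k) e).2.1
      exact this.ne (F3.prod_one (fun j => hgt_le v _) hm k)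
    · rw [cc, eq e2, eq e3, one_mul, one_mul] at e
      exact (U.T.on k).unit e
  have even {η : Ω} (hη : η ^ 2 + η + 1 = 0) (hv : v η = 1) (e1 : η * C.ζ ^ (i : ℕ) = 1)
      (e2 : C.ζ ^ (2 * (i : ℕ)) = η) (e3 : C.ζ ^ (3 * (i : ℕ)) = 1)
      (e4 : (C.ζ ^ (i : ℕ)) ^ 2 ≠ 1) : (Finset.univ.filter fun k => U.Ct v k).card = 2 := by
    rw [e2] at c1
    rw [e3, one_mul, v.map_sub_swap] at c2
    obtain ⟨l1, l2⟩ := U.T.eta h6 hη (by rw [U.Tw]; exact h2) (by rw [U.Ta]; exact u1)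
      (by
        rw [U.Tw, U.Tw', show C.w - η * w = η * (C.ζ ^ (i : ℕ) * C.w - w) by
          linear_combination (-C.w) * e1, map_mul, hv, one_mul]
        exact hi)
      (by rw [U.Ta, U.Ta']; exact c1) (by rw [U.Tb, U.Tb']; exact c2)
    rw [← l2]
    congr 1
    refine Finset.filter_congr fun k _ => ?_
    have l3 := lt (n := 3) (by rw [← pow_mul, mul_comm, e3])
    have l4 : v (w ^ 3 - C.w ^ 3) * v (U.T.y k) < 1 :=
      (mul_le_of_le_one_right' ((U.T.on k).int (l1 k))).trans_lt l3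
    rw [Ct, cc, eq e4, one_mul]
    exact ⟨fun e => e.elim (fun e => absurd (l1 k) (not_le.2 e)) fun e => e.1,
      fun e => Or.inr ⟨e, l4⟩⟩
  fin_cases i
  · refine all fun k => (lt_or_ge 1 (v (U.T.x k))).imp_right fun e => (cc k).2 ⟨?_, ?_⟩
    · exact (mul_le_of_le_one_right' e).trans_lt (lt (by simp))
    · exact (mul_le_of_le_one_right' ((U.T.on k).int e)).trans_lt (lt (by simp))
  · refine odd ?_ ?_ ?_ <;> rw [← pow_mul] <;> exact zk _ (by norm_num) (by norm_num)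
  · refine even (η := C.ζ ^ 4) ?_ (by rw [map_pow, hζ, one_pow]) ?_ rfl z6 ?_
    · linear_combination C.ζ ^ 2 * z6 + (C.ζ ^ 2 + C.ζ + 1) * z2
    · rw [← pow_add]; exact z6
    · rw [← pow_mul]; exact zk _ (by norm_num) (by norm_num)
  · have hi' : v (C.ζ ^ 3 * C.w - w) < 1 := hi
    have c1' : v (D.S₀.x C.s C.w - C.ζ ^ 6 * D.S₀.x s w) < 1 := c1
    have c2' : v (D.S₀.y C.s C.w - C.ζ ^ 9 * D.S₀.y s w) < 1 := c2
    rw [z6, one_mul, v.map_sub_swap] at c1'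
    rw [show D.S₀.y C.s C.w - C.ζ ^ 9 * D.S₀.y s w = D.S₀.y s w + D.S₀.y C.s C.w by
      linear_combination (-D.S₀.y s w) * C.ζ ^ 3 * z6 - D.S₀.y s w * z3] at c2'
    rw [show C.ζ ^ 3 * C.w - w = -(w + C.w) by linear_combination C.w * z3, v.map_neg] at hi'
    obtain ⟨-, l1⟩ := U.T.star h6 (by rw [U.Tw]; exact h2) (by rw [U.Ta]; exact h3)
      (by rw [U.Tb]; exact u2) (by rw [U.Tw, U.Tw']; exact hi') (by rw [U.Ta, U.Ta']; exact c1')
      (by rw [U.Tb, U.Tb']; exact c2')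
    refine all fun k => Or.inr ((cc k).2 ⟨?_, ?_⟩)
    · refine (mul_le_of_le_one_right' (l1 k).1).trans_lt (lt ?_)
      rw [← pow_mul]; exact z6
    · refine (mul_le_of_le_one_left' ?_).trans_lt (l1 k).2
      refine v.map_sub_le ?_ ?_
      · rw [map_pow, h2, one_pow]
      · rw [map_pow, h.w1, one_pow]
  · refine even (η := C.ζ ^ 2) ?_ (by rw [map_pow, hζ, one_pow]) ?_ ?_ ?_ ?_
    · linear_combination (C.ζ ^ 2 + C.ζ + 1) * z2
    · rw [← pow_add]; exact z6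
    · show C.ζ ^ 8 = _
      linear_combination C.ζ ^ 2 * z6
    · show C.ζ ^ 12 = _
      linear_combination (C.ζ ^ 6 + 1) * z6
    · show (C.ζ ^ 4) ^ 2 ≠ 1
      rw [show (C.ζ ^ 4) ^ 2 = C.ζ ^ 2 by linear_combination C.ζ ^ 2 * z6]
      exact zk _ (by norm_num) (by norm_num)
  · refine odd ?_ ?_ ?_
    · rw [← pow_mul]; exact zk _ (by norm_num) (by norm_num)
    · show (C.ζ ^ 5) ^ 2 ≠ 1
      rw [show (C.ζ ^ 5) ^ 2 = C.ζ ^ 4 by linear_combination C.ζ ^ 4 * z6]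
      exact zk _ (by norm_num) (by norm_num)
    · show (C.ζ ^ 5) ^ 3 ≠ 1
      rw [show (C.ζ ^ 5) ^ 3 = C.ζ ^ 3 by linear_combination C.ζ ^ 3 * (C.ζ ^ 6 + 1) * z6]
      exact zk _ (by norm_num) (by norm_num)

/-- multiply `root_val`, `end₁`, `end₂`, use `K_mul`; `Finset.prod_comm` -/
theorem raw (h : C.Ns v) :
    v U.z * D.S₀.ds v C.s C.w D.S₁ s w * D.S₁.ds v C.s C.w D.S₀ s w =
      U.T.K v * (∏ z ∈ J, ∏ i, U.ep v z i) *
        v (C.s - s) ^ (Finset.univ.filter fun k => U.Ct v k).card := by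
  obtain ⟨h6, -⟩ := h.int U.ok.ok₀ U.hp
  obtain ⟨k1, k2⟩ := U.T.K_mul h6
  have c0 := U.T.c0
  rw [U.Tw, U.Tw'] at k1 c0
  have c1 : v (w - C.w) ≠ 0 := (map_ne_zero v).2 (sub_ne_zero.2 c0)
  have r := Finset.prod_congr (rfl : (Finset.univ : Finset (Fin 3)) = _)
    fun i _ => U.root_val h i
  simp only [Finset.prod_mul_distrib] at r
  rw [Finset.prod_ite, Finset.prod_const, Finset.prod_const_one, mul_one, Finset.prod_comm] at r
  have e₁ := U.end₁ h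
  have e₂ := U.end₂ h
  refine mul_right_cancel₀ c1 ?_
  rw [z, map_div₀, map_mul, map_mul, map_prod]
  generalize (∏ i, v (w * U.n i - C.w * U.n' i)) = N at r ⊢
  generalize (∏ z ∈ J, ∏ i, U.ep v z i) = E at r ⊢
  generalize v (C.s - s) ^ (Finset.univ.filter fun k => U.Ct v k).card = t at r ⊢
  calc _ = N * (v (w * U.p - C.w * U.p') * D.S₀.ds v C.s C.w D.S₁ s w) *
        (v (w * U.o - C.w * U.o') * D.S₁.ds v C.s C.w D.S₀ s w) := by field_simp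
    _ = U.T.K v * U.T.K v * (N * ((∏ i, hgt v (U.T.e i + pt (D.S₁.x s w) (D.S₁.y s w))) *
        ∏ i, hgt v (U.T.e i + pt (D.S₁.x C.s C.w) (D.S₁.y C.s C.w)))) := by
      rw [e₁, e₂]; ac_rfl
    _ = _ := by rw [r, ← k1]; ac_rfl

/-- `raw`, `eps_prod`, `K_val`. If `v (C.s - s) = 1` all is trivial. Otherwise `exists_zeta` gives a
unique `i`; `count`. If `i = 0` all `ds` on the right are `< 1` (`Ok.lip'`), otherwise `K = 1`. -/
theorem formula (h : C.Ns v) :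
    v U.z * D.S₀.ds v C.s C.w D.S₁ s w * D.S₁.ds v C.s C.w D.S₀ s w =
      (∏ z ∈ J, (D.sec z).ds v C.s C.w (D.sec z) s w) *
        ∏ i : Fin 6, nr v (C.s - s) (C.ζ ^ (i : ℕ) * C.w - w) ^ cc J.card i := by
  obtain ⟨h6, h1, h2, -⟩ := h.int U.ok.ok₀ U.hp
  have one (hK : U.T.K v = 1) :
      ∏ z ∈ J, ∏ i, U.ep v z i = ∏ z ∈ J, (D.sec z).ds v C.s C.w (D.sec z) s w :=
    Finset.prod_congr rfl fun z hz => by
      have := U.eps_prod h hz
      rwa [hK, ite_self, mul_one] at this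
  rw [U.raw h]
  by_cases ht : v (C.s - s) < 1
  · obtain ⟨i, hi, hu⟩ := exists_zeta (w' := C.w) C.hζ h6 h2 (by
      rw [C.eq, U.hp.eq]
      exact (U.ok.ok₀.lip h.triv h1 h.s1).2.2.trans_lt ht)
    have t0 : v (C.s - s) ≠ 0 := (map_ne_zero v).2 (F3.t_ne U.hp)
    have hp : ∏ j : Fin 6, nr v (C.s - s) (C.ζ ^ (j : ℕ) * C.w - w) ^ cc J.card j =
        v (C.s - s) ^ cc J.card i := by
      rw [Finset.prod_eq_single i, nr, if_pos ⟨ht, hi⟩]
      · intro j _ hj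
        rw [nr, if_neg fun e => hj (hu j e.2), one_zpow]
      · exact fun e => absurd (Finset.mem_univ _) e
    rw [hp, U.count h ht hi]
    by_cases hi0 : i = 0
    · subst hi0
      have hw : v (C.w - w) < 1 := by simpa using hi
      have hK : U.T.K v = v (C.s - s) := by rw [U.K_val h, nr, if_pos ⟨ht, hw⟩]
      have : ∏ z ∈ J, (D.sec z).ds v C.s C.w (D.sec z) s w =
          (∏ z ∈ J, ∏ i, U.ep v z i) * v (C.s - s) ^ J.card := by
        rw [← Finset.prod_const, ← Finset.prod_mul_distrib]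
        refine Finset.prod_congr rfl fun z hz => ?_
        obtain ⟨-, l1, l2⟩ := (U.ok.sec_ok ((U.hJ z).1 hz)).lip' h.triv h1 h2 U.hp.eq C.eq ht hw
        have l3 : (D.sec z).ds v C.s C.w (D.sec z) s w < 1 :=
          dst_lt.2 ⟨l1.trans_lt ht, l2.trans_lt ht⟩
        rw [← U.eps_prod h hz, if_pos l3, hK]
      rw [this, hK, mul_assoc _ (_ ^ J.card), ← zpow_natCast _ J.card, ← zpow_add₀ t0]
      have : (J.card : ℤ) + cc J.card 0 = (4 : ℕ) := by simp [cc]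
      rw [this, zpow_natCast, pow_succ' _ 3]
      show _ * _ * _ ^ 3 = _
      ac_rfl
    · have hK : U.T.K v = 1 := by
        rw [U.K_val h, nr, if_neg]
        exact fun e => hi0 (hu 0 (by simpa using e.2)).symm
      rw [one hK, hK, one_mul, ← zpow_natCast]
      congr 2
      fin_cases i
      · exact absurd rfl hi0
      all_goals rfl
  · have t1 : v (C.s - s) = 1 := le_antisymm (v.map_sub_le h.s1 h1) (not_lt.1 ht)
    have hK : U.T.K v = 1 := by rw [U.K_val h, nr, if_neg fun e => ht e.1]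
    rw [one hK, hK, t1, one_pow, one_mul]
    congr 1
    exact (Finset.prod_eq_one fun j _ => by rw [nr, if_neg fun e => ht e.1, one_zpow]).symm

end Su

/-- `Sec.Ok.not_mem`, `dst_eq_zero` -/
theorem Sx.ds_ne {S S' : Sec Ω} (hS : S.Ok C.A C.r) (hS' : S'.Ok C.A C.r) (hp : C.Pt s w) :
    S.ds v C.s C.w S' s w ≠ 0 := fun e =>
  (hS.not_mem C.tr C.eq).2.1 ((dst_eq_zero.1 e).1 ▸ (hS'.xy_mem le_rfl hp.sA hp.wA).1)

/-- `exists_su`, `Su.fix`; `z ≠ 0` by `formula` for the valuation of `exists_ns`. If some element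
has `1 < v x` use `Sx.res` and `formula`. Otherwise all nonzero elements have value one. -/
theorem f1 (ok : D.Ok C.A C.r) (hJ : ∀ z, z ∈ J ↔ D.IsJ C.A z) (hp : C.Pt s w) (gd : D.Gd J s) :
    ∃ z : Ω, z ≠ 0 ∧ (∀ h ∈ C.H, h z = z) ∧
      ∀ (Γ : Type) [LinearOrderedCommGroupWithZero Γ] (v : Valuation Ω Γ), Triv C.A v →
        v C.s ≤ 1 → v C.w = 1 →
        v z * D.S₀.ds v C.s C.w D.S₁ s w * D.S₁.ds v C.s C.w D.S₀ s w =
          (∏ z ∈ J, (D.sec z).ds v C.s C.w (D.sec z) s w) *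
            ∏ i : Fin 6, nr v (C.s - s) (C.ζ ^ (i : ℕ) * C.w - w) ^ cc J.card i := by
  obtain ⟨U⟩ := exists_su ok hJ hp gd
  have z0 : U.z ≠ 0 := by
    obtain ⟨O, hO, -⟩ := Sx.exists_ns hp
    intro e
    have := U.formula hO
    rw [e, map_zero, zero_mul, zero_mul] at this
    refine mul_ne_zero (Finset.prod_ne_zero_iff.2 fun z hz => ?_)
      (Finset.prod_ne_zero_iff.2 fun i _ => zpow_ne_zero _ ?_) this.symm
    · exact Sx.ds_ne (ok.sec_ok ((hJ z).1 hz)) (ok.sec_ok ((hJ z).1 hz)) hp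
    · unfold nr
      split_ifs
      · exact (map_ne_zero _).2 (F3.t_ne hp)
      · exact one_ne_zero
  refine ⟨U.z, z0, fun h hh => U.fix hh, fun Γ _ v hA s1 w1 => ?_⟩
  by_cases hb : ∃ x, 1 < v x
  · exact U.formula ⟨hA, C.res hA hb, s1, w1⟩
  · push Not at hb
    have h1 : ∀ x, x ≠ 0 → v x = 1 := fun x hx => le_antisymm (hb x) (by
      have := hb x⁻¹
      rwa [map_inv₀, inv_le_one₀ (zero_lt_iff.2 ((map_ne_zero v).2 hx))] at this)
    have h2 : ∀ {S S' : Sec Ω}, S.Ok C.A C.r → S'.Ok C.A C.r → S.ds v C.s C.w S' s w = 1 := by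
      intro S S' hS hS'
      refine le_antisymm (dst_le _ _ _ _ _) (not_lt.1 fun e => ?_)
      have := (dst_lt.1 e).1
      have ne : S.x C.s C.w ≠ S'.x s w := fun e => (hS.not_mem C.tr C.eq).2.1
        (e ▸ (hS'.xy_mem le_rfl hp.sA hp.wA).1)
      rw [h1 _ (sub_ne_zero.2 ne)] at this
      exact lt_irrefl _ this
    rw [h1 _ z0, h2 ok.ok₀ ok.ok₁, h2 ok.ok₁ ok.ok₀, Finset.prod_eq_one fun z hz =>
      h2 (ok.sec_ok ((hJ z).1 hz)) (ok.sec_ok ((hJ z).1 hz)), Finset.prod_eq_one fun j _ => ?_]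
    · simp
    · rw [nr, if_neg, one_zpow]
      rw [h1 _ (F3.t_ne hp)]
      exact fun e => lt_irrefl _ e.1

end Pool.Agent.P.MP_ee618e_ag.X.Y
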