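import Pool.Agent.P.MP_ee618e_ag.Y.G0
import Pool.Agent.P.MP_ee618e_ag.X.V4

/-! G1: the sextic curve which fibres the quotient of C x C. -/

namespace Pool.Agent.P.MP_ee618e_ag.X.Y

open IsDedekindDomain
open scoped Classical

variable {Ω : Type} [Field Ω] [IsAlgClosed Ω] {p : ℕ} [Fact p.Prime] [CharP Ω p] {r : ℕ}
  (D : Cfg Ω (p ^ r))

omit [IsAlgClosed Ω] in
theorem g1_root {A : Subfield Ω} [IsAlgClosed A] {z : Ω} {N : ℕ} (hN : N ≠ 0) (h : z ^ N ∈ A) :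
    z ∈ A := by
  rw [← SetLike.mem_coe, ← acl_eq A]
  refine mem_acl_of_root (Polynomial.X ^ N - Polynomial.C (z ^ N))
    (Polynomial.X_pow_sub_C_ne_zero (Nat.pos_of_ne_zero hN) _) (fun i => ?_) (by simp)
  rw [acl_eq A, Polynomial.coeff_sub, Polynomial.coeff_X_pow, Polynomial.coeff_C]
  refine A.sub_mem ?_ ?_ <;> split_ifs
  exacts [A.one_mem, A.zero_mem, h, A.zero_mem]

/-- `ram` for the ring `A[t]` (isomorphic to a polynomial ring: `Polynomial.algEquivOfTranscendental`),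
the prime `(t - c)` (`dominate`) and `f = (t - c) g(t)`, which has order one -/
theorem exists_sigma {A : Subfield Ω} [IsAlgClosed A] {t c u ζ : Ω} (ht : t ∉ A)
    (ha : Acl ((A : Set Ω) ∪ {t}) = Set.univ) (hc : c ∈ A) (hζ : IsPrimitiveRoot ζ 6)
    (g : Polynomial A) (hg : Polynomial.aeval c g ≠ 0)
    (hu : u ^ 6 = (t - c) * Polynomial.aeval t g) :
    ∃ σ ∈ Fix (A : Set Ω), σ t = t ∧ σ u = ζ * u := by
  have htr : Transcendental A t := by
    intro h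
    apply ht
    rw [← SetLike.mem_coe, ← acl_eq A, Acl, Subfield.closure_eq]
    exact h
  let R : Subalgebra A Ω := Algebra.adjoin A {t}
  let e : Polynomial A ≃ₐ[A] R := Polynomial.algEquivOfTranscendental A t htr
  have he : ∀ f : Polynomial A, ((e f : R) : Ω) = Polynomial.aeval t f := fun f => by
    have := Polynomial.aeval_algHom_apply R.val ⟨t, Algebra.self_mem_adjoin_singleton A t⟩ f
    exact this.symm
  have : IsPrincipalIdealRing R := IsPrincipalIdealRing.of_surjective e.toRingHom e.surjective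
  have : IsDedekindDomain R := inferInstance
  let c' : A := ⟨c, hc⟩
  have hp : Prime (e (Polynomial.X - Polynomial.C c')) :=
    (MulEquiv.prime_iff e).2 (Polynomial.prime_X_sub_C c')
  let P : HeightOneSpectrum R := ⟨Ideal.span {e (Polynomial.X - Polynomial.C c')},
    (Ideal.span_singleton_prime hp.ne_zero).2 hp, by
      rw [Ne, Ideal.span_singleton_eq_bot]; exact hp.ne_zero⟩
  have h1 : ord P (e (Polynomial.X - Polynomial.C c')) = 1 := multiplicity_self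
  have hg0 : e g ∉ P.asIdeal := by
    intro h
    have h2 : Polynomial.X - Polynomial.C c' ∣ g :=
      (map_dvd_iff e).1 (Ideal.mem_span_singleton.1 h)
    obtain ⟨k, rfl⟩ := h2
    apply hg
    rw [map_mul, map_sub, Polynomial.aeval_X, Polynomial.aeval_C]
    exact mul_eq_zero_of_left (sub_self _) _
  have hg1 : e g ≠ 0 := fun h => hg0 (h ▸ P.asIdeal.zero_mem)
  have := P.isPrime
  obtain ⟨O, hO, hP⟩ := dominate (R.val : R →+* Ω) Subtype.val_injective P.asIdeal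
  have hAR : (A : Set Ω) ⊆ R := fun x hx => R.algebraMap_mem ⟨x, hx⟩
  have htR : t ∈ R := Algebra.self_mem_adjoin_singleton A t
  obtain ⟨σ, hσ, -, H⟩ := ram (R := R) (P := P) (O := O) (Set.eq_univ_of_univ_subset
    (ha ▸ acl_mono (Set.union_subset hAR (Set.singleton_subset_iff.2 htR)))) hO hP hζ
    (by norm_num) (g1_root (N := 6) (by norm_num) (by rw [hζ.pow_eq_one]; exact A.one_mem))
  refine ⟨σ, fix_anti hAR hσ, hσ t htR, ?_⟩
  have := H (e (Polynomial.X - Polynomial.C c') * e g) u (mul_ne_zero hp.ne_zero hg1) (by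
    rw [hu, MulMemClass.coe_mul, he, he, map_sub, Polynomial.aeval_X, Polynomial.aeval_C]
    rfl)
  rwa [ord_mul hp.ne_zero hg1, h1, (ord_eq_zero hg1).2 hg0, add_zero, pow_one] at this

namespace Cfg

/-- Otherwise `t 1 = n / t 0` is algebraic over `k(n)` too, against the independence
(`td_of_acl`, or `indep_of_acl`). -/
theorem n_facts : D.t 0 * D.t 1 ∉ kk Ω ∧ D.t 0 ∉ Acl ((kk Ω : Set Ω) ∪ {D.t 0 * D.t 1}) := by
  have h0 : D.t 0 ≠ 0 := fun h => D.t_not_mem 0 (h ▸ (kk Ω).zero_mem)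
  have e : D.t 1 = D.t 0 * D.t 1 / D.t 0 := by field_simp
  have key : ∀ x : Ω, D.t 0 ∈ Acl ((kk Ω : Set Ω) ∪ {x}) →
      D.t 0 * D.t 1 ∈ Acl ((kk Ω : Set Ω) ∪ {x}) → False := by
    intro x h1 h2
    refine td_of_acl (kk Ω) ![x] (A := Acl ((kk Ω : Set Ω) ∪ {x})) (by simp) D.t ?_ D.gen
    obtain ⟨K, hK⟩ := exists_aclF ((kk Ω : Set Ω) ∪ {x})
    rw [← hK] at h1 h2 ⊢
    refine Fin.forall_fin_two.2 ⟨h1, ?_⟩
    rw [e]
    exact K.div_mem h2 h1
  exact ⟨fun h => key (D.t 0) (subset_acl _ (Or.inr rfl)) (subset_acl _ (Or.inl h)),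
    fun h => key _ h (subset_acl _ (Or.inr rfl))⟩

/-- Let `n = t 0 * t 1`, `A = Acl (k ∪ {n})` (`exists_aclF`, `isAlgClosed_of_acl`),
`s = 1 / ((t 0 - 1) (t 1 - 1))`, `e j = (1 - c j) (n - c j)`, `r j = -c j / e j`,
`κ ^ 6 = n ^ 3 ∏ e j`, `w = w 0 * w 1 * s / κ`. Then `(t 0 - c j) (t 1 - c j) s = e j (s - r j)`.
The `r j` are distinct because `n` is transcendental (`c i e j = c j e i` is a linear equation for
`n` with leading coefficient `c i - c j`). `t 0` is a root of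
`Z ^ 2 - (n + 1 - 1 / s) Z + n`. For `σ` use `exists_sigma` with `t = t 0`, `c = c 0`,
`u = w 0 * w 1 * t 0`:
`u ^ 6 = n ^ 3 (t - 1) ^ 2 (n - t) ^ 2 ∏ (t - c j) ∏ (n - c j t)`. -/
theorem exists_sx (hr : 0 < r) : ∃ (C : Sx Ω) (κ : Ω),
    (C.A : Set Ω) = Acl ((kk Ω : Set Ω) ∪ {D.t 0 * D.t 1}) ∧ C.ζ = D.ζ ∧ κ ∈ C.A ∧ κ ≠ 0 ∧
      C.s * ((D.t 0 - 1) * (D.t 1 - 1)) = 1 ∧ C.w * κ = D.w 0 * D.w 1 * C.s ∧
      C.σ (D.t 0) = D.t 0 ∧ C.σ (D.t 1) = D.t 1 := by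
  obtain ⟨hn, ht⟩ := D.n_facts
  obtain ⟨A, hA⟩ := exists_aclF ((kk Ω : Set Ω) ∪ {D.t 0 * D.t 1})
  have hAc : IsAlgClosed A := isAlgClosed_of_acl (by
    rw [hA]; exact acl_subset subset_rfl)
  rw [← hA] at ht
  have hkA : ∀ x ∈ kk Ω, x ∈ A := fun x hx => by
    rw [← SetLike.mem_coe, hA]; exact subset_acl _ (Or.inl hx)
  have hnA : D.t 0 * D.t 1 ∈ A := by
    rw [← SetLike.mem_coe, hA]; exact subset_acl _ (Or.inr rfl)
  have hc := D.c_mem hr
  have hcA : ∀ j, D.c j ∈ A := fun j => hkA _ (hc j)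
  have h0 : D.t 0 ≠ 0 := fun h => D.t_not_mem 0 (h ▸ (kk Ω).zero_mem)
  have h1 : D.t 1 ≠ 0 := fun h => D.t_not_mem 1 (h ▸ (kk Ω).zero_mem)
  have h0' : D.t 0 - 1 ≠ 0 := fun h => D.t_not_mem 0 (sub_eq_zero.1 h ▸ (kk Ω).one_mem)
  have h1' : D.t 1 - 1 ≠ 0 := fun h => D.t_not_mem 1 (sub_eq_zero.1 h ▸ (kk Ω).one_mem)
  have hnk : ∀ x ∈ kk Ω, D.t 0 * D.t 1 - x ≠ 0 := fun x hx h => hn (sub_eq_zero.1 h ▸ hx)
  have hc1 : ∀ j, 1 - D.c j ≠ 0 := fun j h => (D.hc j).2.2 (sub_eq_zero.1 h).symm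
  have et : D.t 1 = D.t 0 * D.t 1 / D.t 0 := by field_simp
  -- every algebraically closed overfield containing `t 0` is everything
  have huniv : ∀ S : Set Ω, (A : Set Ω) ⊆ S → D.t 0 ∈ Acl S → Acl S = Set.univ := by
    intro S hS h
    refine Set.eq_univ_of_univ_subset (D.acl_t ▸ acl_subset ?_)
    obtain ⟨K, hK⟩ := exists_aclF S
    have hAK : ∀ x ∈ A, x ∈ Acl S := fun x hx => subset_acl _ (hS hx)
    rintro x (hx | rfl | rfl)
    · exact hAK x (hkA x hx)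
    · exact h
    · have h2 := hAK _ hnA
      rw [← hK] at h h2 ⊢
      rw [et]
      exact K.div_mem h2 h
  set s : Ω := ((D.t 0 - 1) * (D.t 1 - 1))⁻¹ with hs
  have hq : ∀ (S : Set Ω) (K : Subfield Ω), (K : Set Ω) = Acl S → D.t 0 * D.t 1 ∈ K → s ∈ K →
      D.t 0 ∈ K := fun S K hK a b =>
    acl_quad hK (K.neg_mem (K.sub_mem (K.add_mem a K.one_mem) (K.inv_mem b))) a (by
      rw [hs, inv_inv]; ring)
  obtain ⟨κ, hκ⟩ := IsAlgClosed.exists_pow_nat_eq
    ((D.t 0 * D.t 1) ^ 3 * ∏ j, ((1 - D.c j) * (D.t 0 * D.t 1 - D.c j))) (n := 6) (by norm_num)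
  have hκA : κ ∈ A := g1_root (N := 6) (by norm_num) (by
    rw [hκ]
    exact A.mul_mem (A.pow_mem hnA 3) (prod_mem fun j _ =>
      A.mul_mem (A.sub_mem A.one_mem (hcA j)) (A.sub_mem hnA (hcA j))))
  have he : ∀ j, (1 - D.c j) * (D.t 0 * D.t 1 - D.c j) ≠ 0 := fun j =>
    mul_ne_zero (hc1 j) (hnk _ (hc j))
  have hκ0 : κ ≠ 0 := by
    intro h
    rw [h, zero_pow (by norm_num)] at hκ
    exact mul_ne_zero (pow_ne_zero 3 (mul_ne_zero h0 h1))
      (Finset.prod_ne_zero_iff.2 fun j _ => he j) hκ.symm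
  let n' : A := ⟨_, hnA⟩
  let c' : Fin 4 → A := fun j => ⟨_, hcA j⟩
  have an : algebraMap A Ω n' = D.t 0 * D.t 1 := rfl
  have ac : ∀ j, algebraMap A Ω (c' j) = D.c j := fun _ => rfl
  obtain ⟨σ, hσ, σt, σu⟩ := exists_sigma (A := A) (u := D.w 0 * D.w 1 * D.t 0) ht
    (huniv _ Set.subset_union_left (subset_acl _ (Or.inr rfl))) (hcA 0) D.hζ
    (Polynomial.C n' ^ 3 * (Polynomial.X - 1) ^ 2 * (Polynomial.C n' - Polynomial.X) ^ 2 *
      ((Polynomial.X - Polynomial.C (c' 1)) * (Polynomial.X - Polynomial.C (c' 2)) *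
        (Polynomial.X - Polynomial.C (c' 3))) *
      ∏ j, (Polynomial.C n' - Polynomial.C (c' j) * Polynomial.X)) (by
      simp only [map_mul, map_pow, map_sub, map_prod, Polynomial.aeval_C, Polynomial.aeval_X,
        map_one, an, ac]
      have hd : ∀ j, j ≠ 0 → D.c 0 - D.c j ≠ 0 := fun j hj h =>
        hj (D.inj (sub_eq_zero.1 h)).symm
      refine mul_ne_zero (mul_ne_zero (mul_ne_zero (mul_ne_zero (pow_ne_zero 3 (mul_ne_zero h0 h1))
        (pow_ne_zero 2 (sub_ne_zero.2 (D.hc 0).2.2))) (pow_ne_zero 2 (hnk _ (hc 0))))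
        (mul_ne_zero (mul_ne_zero (hd 1 (by decide)) (hd 2 (by decide))) (hd 3 (by decide))))
        (Finset.prod_ne_zero_iff.2 fun j _ => hnk _ (mul_mem (hc j) (hc 0)))) (by
      simp only [map_mul, map_pow, map_sub, map_prod, Polynomial.aeval_C, Polynomial.aeval_X,
        map_one, an, ac]
      rw [mul_pow, mul_pow, D.eq, D.eq]
      simp only [Fin.prod_univ_four]
      ring)
  have σt1 : σ (D.t 1) = D.t 1 := by
    rw [et, map_div₀, hσ _ hnA, σt]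
  have σs : σ s = s := by
    rw [hs, map_inv₀, map_mul, map_sub, map_sub, map_one, σt, σt1]
  refine ⟨⟨A, D.ζ, s, D.w 0 * D.w 1 * s / κ,
    fun j => -D.c j / ((1 - D.c j) * (D.t 0 * D.t 1 - D.c j)), σ, hAc, by exact_mod_cast (D.hζ.neZero' (R := Ω)).out, D.hζ,
    fun j => A.div_mem (A.neg_mem (hcA j))
      (A.mul_mem (A.sub_mem A.one_mem (hcA j)) (A.sub_mem hnA (hcA j))), fun i j h => ?_, ?_,
    fun h => ht (hq _ A hA hnA h), ?_, hσ, σs, ?_⟩, κ, hA, rfl, hκA, hκ0,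
    inv_mul_cancel₀ (mul_ne_zero h0' h1'), div_mul_cancel₀ _ hκ0, σt, σt1⟩
  · have h2 := (div_eq_div_iff (he i) (he j)).1 h
    have h3 : (D.c i - D.c j) * (D.t 0 * D.t 1 - D.c i * D.c j) = 0 := by
      linear_combination (-1 : Ω) * h2
    exact D.inj (sub_eq_zero.1
      ((mul_eq_zero.1 h3).resolve_right (hnk _ (mul_mem (hc i) (hc j)))))
  · have e : ∀ j, s - -D.c j / ((1 - D.c j) * (D.t 0 * D.t 1 - D.c j)) =
        (D.t 0 - D.c j) * (D.t 1 - D.c j) * s / ((1 - D.c j) * (D.t 0 * D.t 1 - D.c j)) := by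
      intro j
      have := hc1 j
      have := hnk _ (hc j)
      rw [hs]
      field_simp
      ring
    have e2 : s ^ 2 * ((D.t 0 - 1) * (D.t 1 - 1)) ^ 2 = 1 := by
      rw [← mul_pow, hs, inv_mul_cancel₀ (mul_ne_zero h0' h1'), one_pow]
    simp only [e]
    rw [Finset.prod_div_distrib, div_pow, hκ, div_eq_div_iff (mul_ne_zero
      (pow_ne_zero 3 (mul_ne_zero h0 h1)) (Finset.prod_ne_zero_iff.2 fun j _ => he j))
      (Finset.prod_ne_zero_iff.2 fun j _ => he j), mul_pow, mul_pow, D.eq, D.eq,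
      Finset.prod_mul_distrib (f := fun j => (D.t 0 - D.c j) * (D.t 1 - D.c j)),
      Finset.prod_mul_distrib (f := fun j => D.t 0 - D.c j), Finset.prod_const, Finset.card_univ,
      Fintype.card_fin]
    generalize ∏ j, (D.t 0 - D.c j) = a
    generalize ∏ j, (D.t 1 - D.c j) = b
    generalize ∏ j, ((1 - D.c j) * (D.t 0 * D.t 1 - D.c j)) = c
    linear_combination (D.t 0 ^ 3 * D.t 1 ^ 3 * a * b * c * s ^ 4) * e2
  · obtain ⟨K, hK⟩ := exists_aclF ((A : Set Ω) ∪ {s})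
    refine huniv _ Set.subset_union_left ?_
    rw [← hK]
    refine hq _ K hK ?_ ?_ <;> rw [← SetLike.mem_coe, hK]
    · exact subset_acl _ (Or.inl hnA)
    · exact subset_acl _ (Or.inr rfl)
  · have e : σ (D.w 0 * D.w 1) = D.ζ * (D.w 0 * D.w 1) := by
      rw [map_mul, σt, ← mul_assoc] at σu
      exact mul_right_cancel₀ h0 σu
    rw [map_div₀, map_mul, e, σs, hσ _ hκA]
    ring

end Cfg

end Pool.Agent.P.MP_ee618e_ag.X.Y
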