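import Pool.Agent.P.MP_ee618e_ag.Y.N1

/-! N2: existence of two skew lines. -/

namespace Pool.Agent.P.MP_ee618e_ag.X.Y

open IsDedekindDomain
open scoped Classical

variable {Ω : Type} [Field Ω] [IsAlgClosed Ω] {A : Subfield Ω} [IsAlgClosed A] {r : Fin 4 → Ω}

namespace N2

theorem coef4 {K : Type} [Field K] (h6 : (6 : K) ≠ 0) {a₀ a₁ a₂ a₃ a₄ : K}
    (h : ∀ t, a₀ + a₁ * t + a₂ * t ^ 2 + a₃ * t ^ 3 + a₄ * t ^ 4 = 0) :
    a₀ = 0 ∧ a₁ = 0 ∧ a₂ = 0 ∧ a₃ = 0 ∧ a₄ = 0 := by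
  have h36 : (6 : K) * 6 * 6 ≠ 0 := mul_ne_zero (mul_ne_zero h6 h6) h6
  have e0 := h 0
  have e1 := h 1
  have e2 := h (-1)
  have e3 := h 2
  have e4 := h (-2)
  refine ⟨by linear_combination e0, mul_left_cancel₀ h36 ?_, mul_left_cancel₀ h36 ?_,
    mul_left_cancel₀ h36 ?_, mul_left_cancel₀ h36 ?_⟩
  · linear_combination 144 * e1 - 144 * e2 - 18 * e3 + 18 * e4
  · linear_combination 144 * e1 + 144 * e2 - 9 * e3 - 9 * e4 - 270 * e0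
  · linear_combination 18 * e3 - 18 * e4 - 36 * e1 + 36 * e2
  · linear_combination 9 * e3 + 9 * e4 - 36 * e1 - 36 * e2 + 54 * e0

theorem two_ne {K : Type} [Field K] (h6 : (6 : K) ≠ 0) : (2 : K) ≠ 0 := fun h =>
  h6 (by linear_combination 3 * h)

theorem three_ne {K : Type} [Field K] (h6 : (6 : K) ≠ 0) : (3 : K) ≠ 0 := fun h =>
  h6 (by linear_combination 2 * h)

theorem quad_root {K : Type} [Field K] [IsAlgClosed K] (p q : K) :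
    ∃ t, t ^ 2 + p * t + q = 0 := by
  obtain ⟨t, ht⟩ := IsAlgClosed.exists_root
    (Polynomial.C 1 * Polynomial.X ^ 2 + Polynomial.C p * Polynomial.X + Polynomial.C q)
    (by rw [Polynomial.degree_quadratic one_ne_zero]; norm_num)
  exact ⟨t, by simpa using ht⟩

open Polynomial in
theorem two_roots {K : Type} [Field K] [IsAlgClosed K] (n₀ n₁ n₂ n₃ n₄ n₅ n₆ n₈ n₉ : K)
    (h : ¬ (n₉ = 0 ∧ n₈ = 0)) :
    ∃ u : K, n₀ + n₁ * u + n₂ * u ^ 2 + n₃ * u ^ 3 + n₄ * u ^ 4 + n₅ * u ^ 5 + n₆ * u ^ 6 +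
        n₈ * u ^ 8 + n₉ * u ^ 9 = 0 ∧
      (n₁ + 2 * n₂ * u + 3 * n₃ * u ^ 2 + 4 * n₄ * u ^ 3 + 5 * n₅ * u ^ 4 + 6 * n₆ * u ^ 5 +
        8 * n₈ * u ^ 7 + 9 * n₉ * u ^ 8 = 0 ∨
      ∃ u' : K, u' ≠ u ∧ n₀ + n₁ * u' + n₂ * u' ^ 2 + n₃ * u' ^ 3 + n₄ * u' ^ 4 + n₅ * u' ^ 5 +
        n₆ * u' ^ 6 + n₈ * u' ^ 8 + n₉ * u' ^ 9 = 0) := by
  set N : K[X] := C n₀ + C n₁ * X + C n₂ * X ^ 2 + C n₃ * X ^ 3 + C n₄ * X ^ 4 + C n₅ * X ^ 5 +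
    C n₆ * X ^ 6 + C n₈ * X ^ 8 + C n₉ * X ^ 9 with hN
  have c9 : N.coeff 9 = n₉ := by simp [hN]
  have c8 : N.coeff 8 = n₈ := by simp [hN]
  have hd : 8 ≤ N.natDegree := by
    by_cases h9 : n₉ = 0
    · exact le_natDegree_of_ne_zero (by rw [c8]; exact fun h8 => h ⟨h9, h8⟩)
    · exact le_trans (by norm_num) (le_natDegree_of_ne_zero (n := 9) (by rw [c9]; exact h9))
  have ev : ∀ u, N.eval u = n₀ + n₁ * u + n₂ * u ^ 2 + n₃ * u ^ 3 + n₄ * u ^ 4 + n₅ * u ^ 5 +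
      n₆ * u ^ 6 + n₈ * u ^ 8 + n₉ * u ^ 9 := fun u => by simp [hN]
  have ev' : ∀ u, (derivative N).eval u = n₁ + 2 * n₂ * u + 3 * n₃ * u ^ 2 + 4 * n₄ * u ^ 3 +
      5 * n₅ * u ^ 4 + 6 * n₆ * u ^ 5 + 8 * n₈ * u ^ 7 + 9 * n₉ * u ^ 8 := fun u => by
    simp [hN]
    ring
  clear_value N
  have rt : ∀ P : K[X], 0 < P.natDegree → ∃ u, P.IsRoot u := fun P hP =>
    IsAlgClosed.exists_root P (natDegree_pos_iff_degree_pos.1 hP).ne'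
  obtain ⟨u, hu⟩ := rt N (by omega)
  obtain ⟨M, hM⟩ := dvd_iff_isRoot.2 hu
  have hdM : 0 < M.natDegree := by
    have h1 : N.natDegree ≤ (X - C u).natDegree + M.natDegree := hM ▸ natDegree_mul_le
    rw [natDegree_X_sub_C] at h1
    omega
  obtain ⟨u', hu'⟩ := rt M hdM
  refine ⟨u, (ev u).symm.trans hu, ?_⟩
  by_cases e : u' = u
  · left
    rw [← ev', hM]
    subst e
    simp [hu'.eq_zero]
  · right
    refine ⟨u', e, ?_⟩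
    rw [← ev, hM]
    simp [hu'.eq_zero]

theorem cube_ratio {K : Type} [Field K] {A : Subfield K} {x y : K} (hx : x ∈ A) (hy : y ∈ A)
    (h : x ^ 3 = y ^ 3) : ∃ η ∈ A, η ^ 3 = 1 ∧ x = η * y := by
  by_cases y0 : y = 0
  · refine ⟨1, one_mem _, one_pow _, ?_⟩
    rw [y0] at h ⊢
    simpa using h
  · refine ⟨x / y, div_mem hx hy, ?_, by field_simp⟩
    rw [div_pow, h, div_self (pow_ne_zero _ y0)]

theorem cancel {K : Type} [Field K] (h6 : (6 : K) ≠ 0) {l m f₀ f₁ f₂ : K} (h0 : ¬ (l = 0 ∧ m = 0))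
    (h : ∀ t, (l * t + m) * (f₀ + f₁ * t + f₂ * t ^ 2) = 0) : f₀ = 0 ∧ f₁ = 0 ∧ f₂ = 0 := by
  obtain ⟨e0, e1, e2, e3, -⟩ := coef4 h6 (a₀ := m * f₀) (a₁ := l * f₀ + m * f₁)
    (a₂ := l * f₁ + m * f₂) (a₃ := l * f₂) (a₄ := 0) fun t => by linear_combination h t
  by_cases l0 : l = 0
  · have m0 : m ≠ 0 := fun m0 => h0 ⟨l0, m0⟩
    exact ⟨mul_left_cancel₀ m0 (by linear_combination e0),
      mul_left_cancel₀ m0 (by linear_combination e1 - f₀ * l0),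
      mul_left_cancel₀ m0 (by linear_combination e2 - f₁ * l0)⟩
  · have g2 : f₂ = 0 := mul_left_cancel₀ l0 (by linear_combination e3)
    have g1 : f₁ = 0 := mul_left_cancel₀ l0 (by linear_combination e2 - m * g2)
    exact ⟨mul_left_cancel₀ l0 (by linear_combination e1 - m * g1), g1, g2⟩

omit [IsAlgClosed A] in
theorem not_sq {S : Sec Ω} (h : S.Ok A r) (h1 : S.α = 0) (h2 : S.γ = 0) : False := by
  obtain ⟨t, ht⟩ := quad_root S.β₁ S.β₀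
  exact h.ne t ⟨by simp [Sec.a, h1, h2], ht⟩

end N2

/-- Expand `∏ (s - r i) = q₀ + q₁ t + q₂ t ^ 2 + q₃ t ^ 3 + t ^ 4`, `t = s - s₀`. If
`(4 q₀ q₂ - q₁ ^ 2) ^ 2 = 64 q₀ ^ 3` then `q₀ ≠ 0` (else `q₀ = q₁ = 0`, a double root); put
`c₀ = (4 q₀ q₂ - q₁ ^ 2) / (8 q₀)`, `c₁ = q₁ / (2 c₀)`, `b = t ^ 2 + c₁ t + c₀`, `α ^ 3 = 2 c₁ - q₃`;
`α ≠ 0` by `Sec.Ok.ne` at a root of `b`. -/
theorem exists_sec (h6 : (6 : Ω) ≠ 0) (rA : ∀ i, r i ∈ A) (inj : Function.Injective r)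
    {s₀ q₀ q₁ q₂ q₃ : Ω} (hs : s₀ ∈ A)
    (hq : ∀ t, ∏ i, (s₀ + t - r i) = q₀ + q₁ * t + q₂ * t ^ 2 + q₃ * t ^ 3 + t ^ 4)
    (hN : (4 * q₀ * q₂ - q₁ ^ 2) ^ 2 = 64 * q₀ ^ 3) :
    ∃ S : Sec Ω, S.Ok A r ∧ S.α ≠ 0 ∧ S.a s₀ = 0 := by
  have h2 := N2.two_ne h6
  have hq' := hq
  simp only [Fin.prod_univ_four] at hq'
  obtain ⟨e0, e1, e2, e3, -⟩ := N2.coef4 h6
    (a₀ := q₀ - (s₀ - r 0) * (s₀ - r 1) * (s₀ - r 2) * (s₀ - r 3))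
    (a₁ := q₁ - ((s₀ - r 0) * (s₀ - r 1) * (s₀ - r 2) + (s₀ - r 0) * (s₀ - r 1) * (s₀ - r 3) +
      (s₀ - r 0) * (s₀ - r 2) * (s₀ - r 3) + (s₀ - r 1) * (s₀ - r 2) * (s₀ - r 3)))
    (a₂ := q₂ - ((s₀ - r 0) * (s₀ - r 1) + (s₀ - r 0) * (s₀ - r 2) + (s₀ - r 0) * (s₀ - r 3) +
      (s₀ - r 1) * (s₀ - r 2) + (s₀ - r 1) * (s₀ - r 3) + (s₀ - r 2) * (s₀ - r 3)))
    (a₃ := q₃ - ((s₀ - r 0) + (s₀ - r 1) + (s₀ - r 2) + (s₀ - r 3))) (a₄ := 0)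
    fun t => by linear_combination -hq' t
  rw [sub_eq_zero] at e0 e1 e2 e3
  have uA : ∀ i, s₀ - r i ∈ A := fun i => sub_mem hs (rA i)
  have q0A : q₀ ∈ A := e0 ▸ mul_mem (mul_mem (mul_mem (uA 0) (uA 1)) (uA 2)) (uA 3)
  have q1A : q₁ ∈ A := e1 ▸ add_mem (add_mem (add_mem (mul_mem (mul_mem (uA 0) (uA 1)) (uA 2))
    (mul_mem (mul_mem (uA 0) (uA 1)) (uA 3))) (mul_mem (mul_mem (uA 0) (uA 2)) (uA 3)))
    (mul_mem (mul_mem (uA 1) (uA 2)) (uA 3))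
  have q2A : q₂ ∈ A := e2 ▸ add_mem (add_mem (add_mem (add_mem (add_mem (mul_mem (uA 0) (uA 1))
    (mul_mem (uA 0) (uA 2))) (mul_mem (uA 0) (uA 3))) (mul_mem (uA 1) (uA 2)))
    (mul_mem (uA 1) (uA 3))) (mul_mem (uA 2) (uA 3))
  have q3A : q₃ ∈ A := e3 ▸ add_mem (add_mem (add_mem (uA 0) (uA 1)) (uA 2)) (uA 3)
  have two : ∀ i j, i ≠ j → s₀ - r i = 0 → s₀ - r j ≠ 0 := fun i j hij hi hj =>
    hij (inj (by linear_combination hj - hi))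
  have q0 : q₀ ≠ 0 := by
    intro q0
    have q1 : q₁ = 0 := by
      rw [q0] at hN
      exact pow_eq_zero_iff (n := 4) (by norm_num) |>.1 (by linear_combination hN)
    rw [q0] at e0
    rw [q1] at e1
    rcases mul_eq_zero.1 e0.symm with h | h
    · rcases mul_eq_zero.1 h with h | h
      · rcases mul_eq_zero.1 h with h | h
        · exact mul_ne_zero (mul_ne_zero (two 0 1 (by decide) h) (two 0 2 (by decide) h))
            (two 0 3 (by decide) h) (by rw [h] at e1; linear_combination -e1)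
        · exact mul_ne_zero (mul_ne_zero (two 1 0 (by decide) h) (two 1 2 (by decide) h))
            (two 1 3 (by decide) h) (by rw [h] at e1; linear_combination -e1)
      · exact mul_ne_zero (mul_ne_zero (two 2 0 (by decide) h) (two 2 1 (by decide) h))
          (two 2 3 (by decide) h) (by rw [h] at e1; linear_combination -e1)
    · exact mul_ne_zero (mul_ne_zero (two 3 0 (by decide) h) (two 3 1 (by decide) h))
        (two 3 2 (by decide) h) (by rw [h] at e1; linear_combination -e1)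
  have h8 : (8 : Ω) * q₀ ≠ 0 :=
    mul_ne_zero (by simpa [show (8 : Ω) = 2 ^ 3 by norm_num] using h2) q0
  obtain ⟨c₀, c0A, hc₀⟩ : ∃ c₀ ∈ A, 8 * q₀ * c₀ = 4 * q₀ * q₂ - q₁ ^ 2 :=
    ⟨(4 * q₀ * q₂ - q₁ ^ 2) / (8 * q₀), div_mem (sub_mem (mul_mem (mul_mem (ofNat_mem A 4) q0A) q2A)
      (pow_mem q1A 2)) (mul_mem (ofNat_mem A 8) q0A), mul_div_cancel₀ _ h8⟩
  have sq : c₀ ^ 2 = q₀ := mul_left_cancel₀ (mul_ne_zero h8 h8) (by
    linear_combination hN + (8 * q₀ * c₀ + (4 * q₀ * q₂ - q₁ ^ 2)) * hc₀)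
  have c0 : c₀ ≠ 0 := fun h => q0 (by rw [← sq, h]; ring)
  obtain ⟨c₁, c1A, hc₁⟩ : ∃ c₁ ∈ A, 2 * c₀ * c₁ = q₁ :=
    ⟨q₁ / (2 * c₀), div_mem q1A (mul_mem (ofNat_mem A 2) c0A), mul_div_cancel₀ _ (mul_ne_zero h2 c0)⟩
  have hc₂ : c₁ ^ 2 + 2 * c₀ = q₂ := mul_left_cancel₀ h8 (by
    linear_combination 2 * hc₀ + 2 * (2 * c₀ * c₁ + q₁) * hc₁ - 8 * c₁ ^ 2 * sq)
  obtain ⟨α, hα⟩ := IsAlgClosed.exists_pow_nat_eq
    (⟨2 * c₁ - q₃, sub_mem (mul_mem (ofNat_mem A 2) c1A) q3A⟩ : A) (n := 3) (by norm_num)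
  have hα' : (α : Ω) ^ 3 = 2 * c₁ - q₃ := by simpa using congrArg Subtype.val hα
  have ok : Sec.Ok (Ω := Ω) ⟨α, -(α * s₀), c₁ - 2 * s₀, s₀ ^ 2 - c₁ * s₀ + c₀⟩ A r := by
    refine ⟨h6, rA, inj, α.2, neg_mem (mul_mem α.2 hs), sub_mem c1A (mul_mem (ofNat_mem A 2) hs),
      add_mem (sub_mem (pow_mem hs 2) (mul_mem c1A hs)) c0A, fun s => ?_⟩
    have e := hq (s - s₀)
    rw [add_sub_cancel] at e
    rw [e]
    simp only [Sec.a, Sec.b]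
    linear_combination sq + (s - s₀) * hc₁ + (s - s₀) ^ 2 * hc₂ - (s - s₀) ^ 3 * hα'
  refine ⟨_, ok, fun h => N2.not_sq ok h ?_, by simp [Sec.a]⟩
  simp only at h ⊢
  rw [h]
  ring

/-- Let `N = (2 q q'' - q' ^ 2) ^ 2 - 64 q ^ 3` as a polynomial over `A` (or over `Ω`, roots are in
`A` by `mem_acl_of_root`). With `u = s - (∑ r i) / 4` and `q = u ^ 4 + p₂ u ^ 2 + p₃ u + p₄` one has
`N = 64 p₃ u ^ 9 + (192 p₄ - 48 p₂ ^ 2) u ^ 8 + …`; if both coefficients vanish `q` is a square, so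
the degree is `8` or `9`. At a root `s₀`, with `q = b ^ 2 - α ^ 3 t ^ 3` from `exists_sec`,
`N = t (-192 α ^ 3 c₀ ^ 5 + t (…))`, so the root is simple, and there is a second root. -/
theorem exists_two (h6 : (6 : Ω) ≠ 0) (rA : ∀ i, r i ∈ A) (inj : Function.Injective r) :
    ∃ S₀ S₁ : Sec Ω, S₀.Ok A r ∧ S₁.Ok A r ∧ S₀.α ≠ 0 ∧ S₁.α ≠ 0 ∧
      S₀.α * S₁.γ ≠ S₁.α * S₀.γ := by
  have h2 := N2.two_ne h6
  have h3 := N2.three_ne h6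
  have h4 : (4 : Ω) ≠ 0 := by simpa [show (4 : Ω) = 2 ^ 2 by norm_num] using h2
  obtain ⟨σ, σA, hσ⟩ : ∃ σ ∈ A, 4 * σ = r 0 + r 1 + r 2 + r 3 :=
    ⟨(r 0 + r 1 + r 2 + r 3) / 4, div_mem (add_mem (add_mem (add_mem (rA 0) (rA 1)) (rA 2)) (rA 3))
      (ofNat_mem A 4), mul_div_cancel₀ _ h4⟩
  have uA : ∀ i, σ - r i ∈ A := fun i => sub_mem σA (rA i)
  obtain ⟨a, b, c, hq⟩ : ∃ a b c : A, ∀ u : Ω,
      ∏ i, (σ + u - r i) = u ^ 4 + a * u ^ 2 + b * u + c := by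
    refine ⟨⟨_, add_mem (add_mem (add_mem (add_mem (add_mem (mul_mem (uA 0) (uA 1))
      (mul_mem (uA 0) (uA 2))) (mul_mem (uA 0) (uA 3))) (mul_mem (uA 1) (uA 2)))
      (mul_mem (uA 1) (uA 3))) (mul_mem (uA 2) (uA 3))⟩,
      ⟨_, add_mem (add_mem (add_mem (mul_mem (mul_mem (uA 0) (uA 1)) (uA 2))
      (mul_mem (mul_mem (uA 0) (uA 1)) (uA 3))) (mul_mem (mul_mem (uA 0) (uA 2)) (uA 3)))
      (mul_mem (mul_mem (uA 1) (uA 2)) (uA 3))⟩,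
      ⟨_, mul_mem (mul_mem (mul_mem (uA 0) (uA 1)) (uA 2)) (uA 3)⟩, fun u => ?_⟩
    simp only [Fin.prod_univ_four]
    linear_combination u ^ 3 * hσ
  have hq' : ∀ u t : Ω, ∏ i, (σ + u + t - r i) = (u ^ 4 + a * u ^ 2 + b * u + c) +
      (4 * u ^ 3 + 2 * a * u + b) * t + (6 * u ^ 2 + a) * t ^ 2 + (4 * u) * t ^ 3 + t ^ 4 := by
    intro u t
    rw [add_assoc σ u t, hq]
    ring
  have sec : ∀ u : A, (16 * a ^ 2 * c ^ 2 - 8 * a * b ^ 2 * c + b ^ 4 - 64 * c ^ 3) +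
      (-192 * b * c ^ 2) * u + (-240 * b ^ 2 * c) * u ^ 2 + (-256 * a * b * c - 96 * b ^ 3) * u ^ 3 +
      (-96 * a ^ 2 * c - 216 * a * b ^ 2 + 384 * c ^ 2) * u ^ 4 +
      (384 * b * c - 192 * a ^ 2 * b) * u ^ 5 + (256 * a * c + 48 * b ^ 2 - 64 * a ^ 3) * u ^ 6 +
      (192 * c - 48 * a ^ 2) * u ^ 8 + (64 * b) * u ^ 9 = 0 →
      ∃ S : Sec Ω, S.Ok A r ∧ S.α ≠ 0 ∧ S.a (σ + u) = 0 := by
    intro u hu
    refine exists_sec h6 rA inj (add_mem σA u.2) (hq' u) ?_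
    have e := congrArg A.subtype hu
    simp only [map_add, map_sub, map_mul, map_pow, map_neg, map_ofNat, map_zero,
      Subfield.coe_subtype] at e
    linear_combination e
  obtain ⟨u, hu, hu'⟩ := N2.two_roots
    (16 * a ^ 2 * c ^ 2 - 8 * a * b ^ 2 * c + b ^ 4 - 64 * c ^ 3) (-192 * b * c ^ 2)
    (-240 * b ^ 2 * c) (-256 * a * b * c - 96 * b ^ 3)
    (-96 * a ^ 2 * c - 216 * a * b ^ 2 + 384 * c ^ 2) (384 * b * c - 192 * a ^ 2 * b)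
    (256 * a * c + 48 * b ^ 2 - 64 * a ^ 3) (192 * c - 48 * a ^ 2) (64 * b) (by
      rintro ⟨e9, e8⟩
      have f9 := congrArg A.subtype e9
      have f8 := congrArg A.subtype e8
      simp only [map_sub, map_mul, map_pow, map_ofNat, map_zero, Subfield.coe_subtype] at f9 f8
      have b0 : (b : Ω) = 0 := mul_left_cancel₀ (pow_ne_zero 3 h4) (by linear_combination f9)
      have c0 : 4 * (c : Ω) = a ^ 2 := mul_left_cancel₀ (mul_ne_zero h3 (pow_ne_zero 2 h4))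
        (by linear_combination f8)
      refine N2.not_sq (S := ⟨0, 0, -(2 * σ), σ ^ 2 + a / 2⟩) (A := A) (r := r)
        ⟨h6, rA, inj, zero_mem _, zero_mem _, neg_mem (mul_mem (ofNat_mem A 2) σA),
          add_mem (pow_mem σA 2) (div_mem a.2 (ofNat_mem A 2)), fun s => ?_⟩ rfl rfl
      have e := hq (s - σ)
      rw [add_sub_cancel] at e
      rw [e, b0]
      simp only [Sec.a, Sec.b]
      field_simp
      linear_combination -c0)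
  obtain ⟨S₀, ok₀, α₀, z₀⟩ := sec u hu
  rcases hu' with hu' | ⟨u', ne, hu'⟩
  · exfalso
    have e := congrArg A.subtype hu'
    simp only [map_add, map_sub, map_mul, map_pow, map_neg, map_ofNat, map_zero,
      Subfield.coe_subtype] at e
    have c0 : S₀.b (σ + u) ≠ 0 := fun h => ok₀.ne _ ⟨z₀, h⟩
    obtain ⟨e0, e1, e2, e3, -⟩ := N2.coef4 h6
      (a₀ := (u ^ 4 + a * u ^ 2 + b * u + c) - S₀.b (σ + u) ^ 2)
      (a₁ := (4 * u ^ 3 + 2 * a * u + b) - 2 * S₀.b (σ + u) * (2 * (σ + u) + S₀.β₁))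
      (a₂ := (6 * u ^ 2 + a) - ((2 * (σ + u) + S₀.β₁) ^ 2 + 2 * S₀.b (σ + u)))
      (a₃ := 4 * u - (2 * (2 * (σ + u) + S₀.β₁) - S₀.α ^ 3)) (a₄ := 0) fun t => by
        have e1 := ok₀.eq (σ + u + t)
        rw [hq'] at e1
        have e2 : S₀.a (σ + u + t) = S₀.α * t := by
          simp only [Sec.a] at z₀ ⊢
          linear_combination z₀
        rw [e2] at e1
        simp only [Sec.b] at e1 ⊢
        linear_combination -e1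
    rw [sub_eq_zero] at e0 e1 e2 e3
    have e' : 24 * (4 * (u ^ 4 + a * u ^ 2 + b * u + c) * (6 * u ^ 2 + a) -
        (4 * u ^ 3 + 2 * a * u + b) ^ 2) * (u ^ 4 + a * u ^ 2 + b * u + c) * (4 * u) -
        192 * (u ^ 4 + a * u ^ 2 + b * u + c) ^ 2 * (4 * u ^ 3 + 2 * a * u + b) = (0 : Ω) := by
      linear_combination e
    rw [e0, e1, e2, e3] at e'
    exact mul_ne_zero (mul_ne_zero (mul_ne_zero h3 (pow_ne_zero 3 h4)) (pow_ne_zero 5 c0))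
      (pow_ne_zero 3 α₀) (by linear_combination -e')
  · obtain ⟨S₁, ok₁, α₁, z₁⟩ := sec u' hu'
    refine ⟨S₀, S₁, ok₀, ok₁, α₀, α₁, fun h => ne (Subtype.ext ?_)⟩
    simp only [Sec.a] at z₀ z₁
    exact mul_left_cancel₀ (mul_ne_zero α₀ α₁) (by linear_combination S₀.α * z₁ - S₁.α * z₀ - h)

/-- `(b₁ - b₀) (b₁ + b₀) = ∏ (a₁ - ω ^ k a₀)`. The difference `β = b₁ - b₀` has degree at most one
and is not zero. If it has a root, one of the factors has the same root; if it is constant then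
`α₁ ^ 3 = α₀ ^ 3` and one of the factors is constant. So `β = κ (a₁ - ω ^ k a₀)`; replace `a₁` by
`ω ^ (1 - k) a₁` and `κ` by `κ ω ^ (k - 1)`; cancel; `lead` is the leading coefficient of `hθ`. -/
theorem exists_ln (h6 : (6 : Ω) ≠ 0) (rA : ∀ i, r i ∈ A) (inj : Function.Injective r) :
    ∃ D : Ln Ω, D.Ok A r := by
  have h2 := N2.two_ne h6
  have h3 := N2.three_ne h6
  obtain ⟨S₀, S₁, ok₀, ok₁, α₀, α₁, ind⟩ := exists_two h6 rA inj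
  have id : ∀ s, S₁.b s ^ 2 - S₀.b s ^ 2 = S₁.a s ^ 3 - S₀.a s ^ 3 := fun s => by
    linear_combination ok₁.eq s - ok₀.eq s
  have nz : ∀ η : Ω, ¬ (S₁.α - η * S₀.α = 0 ∧ S₁.γ - η * S₀.γ = 0) := fun η h =>
    ind (by linear_combination S₀.α * h.2 - S₀.γ * h.1)
  obtain ⟨η, ηA, hη, κ, κA, κ0, hκ⟩ : ∃ η ∈ A, η ^ 3 = 1 ∧ ∃ κ ∈ A, κ ≠ 0 ∧
      ∀ s, S₁.b s - S₀.b s = κ * (S₁.a s - η * S₀.a s) := by
    by_cases d1 : S₁.β₁ - S₀.β₁ = 0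
    · obtain ⟨-, -, e2, e3, -⟩ := N2.coef4 h6
        (a₀ := S₁.γ ^ 3 - S₀.γ ^ 3 - (S₁.β₀ - S₀.β₀) * (S₁.β₀ + S₀.β₀))
        (a₁ := 3 * (S₁.α * S₁.γ ^ 2 - S₀.α * S₀.γ ^ 2) - (S₁.β₀ - S₀.β₀) * (2 * S₀.β₁))
        (a₂ := 3 * (S₁.α ^ 2 * S₁.γ - S₀.α ^ 2 * S₀.γ) - (S₁.β₀ - S₀.β₀) * 2)
        (a₃ := S₁.α ^ 3 - S₀.α ^ 3) (a₄ := 0) fun t => by
          have e := id t
          simp only [Sec.a, Sec.b] at e
          rw [sub_eq_zero.1 d1] at e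
          linear_combination -e
      have d0 : S₁.β₀ - S₀.β₀ ≠ 0 := fun d0 => ind
        (mul_left_cancel₀ (mul_ne_zero h3 (pow_ne_zero 3 α₀)) (by
          linear_combination S₀.α * S₁.α * e2 + 2 * S₀.α * S₁.α * d0 - 3 * S₀.α * S₁.γ * e3))
      obtain ⟨η, ηA, hη, e⟩ := N2.cube_ratio ok₁.αA ok₀.αA (sub_eq_zero.1 e3)
      have L0 : S₁.γ - η * S₀.γ ≠ 0 := fun h => nz η ⟨sub_eq_zero.2 e, h⟩
      refine ⟨η, ηA, hη, (S₁.β₀ - S₀.β₀) / (S₁.γ - η * S₀.γ),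
        div_mem (sub_mem ok₁.β₀A ok₀.β₀A) (sub_mem ok₁.γA (mul_mem ηA ok₀.γA)), div_ne_zero d0 L0,
        fun s => ?_⟩
      have e' : S₁.a s - η * S₀.a s = S₁.γ - η * S₀.γ := by
        simp only [Sec.a]
        linear_combination s * e
      rw [e', div_mul_cancel₀ _ L0]
      simp only [Sec.b]
      linear_combination s * d1
    · obtain ⟨z, zA, hz⟩ : ∃ z ∈ A, (S₁.β₁ - S₀.β₁) * z = -(S₁.β₀ - S₀.β₀) :=
        ⟨-(S₁.β₀ - S₀.β₀) / (S₁.β₁ - S₀.β₁), div_mem (neg_mem (sub_mem ok₁.β₀A ok₀.β₀A))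
          (sub_mem ok₁.β₁A ok₀.β₁A), mul_div_cancel₀ _ d1⟩
      have bz : S₁.b z = S₀.b z := by
        simp only [Sec.b]
        linear_combination hz
      obtain ⟨η, ηA, hη, e⟩ := N2.cube_ratio (ok₁.a_mem zA).1 (ok₀.a_mem zA).1 (by
        have e := id z
        rw [bz] at e
        linear_combination -e)
      simp only [Sec.a] at e
      have L0 : S₁.α - η * S₀.α ≠ 0 := fun h => nz η ⟨h, by linear_combination e - z * h⟩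
      refine ⟨η, ηA, hη, (S₁.β₁ - S₀.β₁) / (S₁.α - η * S₀.α),
        div_mem (sub_mem ok₁.β₁A ok₀.β₁A) (sub_mem ok₁.αA (mul_mem ηA ok₀.αA)), div_ne_zero d1 L0,
        fun s => ?_⟩
      have e' : S₁.a s - η * S₀.a s = (S₁.α - η * S₀.α) * (s - z) := by
        simp only [Sec.a]
        linear_combination e
      rw [e', ← mul_assoc, div_mul_cancel₀ _ L0]
      simp only [Sec.b]
      linear_combination hz
  obtain ⟨w, hw⟩ := N2.quad_root (1 : A) 1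
  obtain ⟨ω, ωA, hω⟩ : ∃ ω ∈ A, ω ^ 2 + ω + 1 = 0 :=
    ⟨w, w.2, by simpa using congrArg Subtype.val hw⟩
  have ω3 : ω ^ 3 = 1 := by linear_combination (ω - 1) * hω
  obtain ⟨ζ, ζA, ζ3, hζ⟩ : ∃ ζ ∈ A, ζ ^ 3 = 1 ∧ ζ * η = ω :=
    ⟨ω * η ^ 2, mul_mem ωA (pow_mem ηA 2), by linear_combination η ^ 6 * ω3 + (η ^ 3 + 1) * hη,
      by linear_combination ω * hη⟩
  have ζ0 : ζ ≠ 0 := fun h => by simp [h] at ζ3
  have k0 : κ * ζ ^ 2 ≠ 0 := mul_ne_zero κ0 (pow_ne_zero 2 ζ0)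
  obtain ⟨f0, f1, f2⟩ := N2.cancel h6 (nz η)
    (f₀ := κ * ζ ^ 2 * (S₁.β₀ + S₀.β₀) - (ζ * S₁.γ - S₀.γ) * (ζ * S₁.γ - ω ^ 2 * S₀.γ))
    (f₁ := κ * ζ ^ 2 * (S₁.β₁ + S₀.β₁) - ((ζ * S₁.α - S₀.α) * (ζ * S₁.γ - ω ^ 2 * S₀.γ) +
      (ζ * S₁.γ - S₀.γ) * (ζ * S₁.α - ω ^ 2 * S₀.α)))
    (f₂ := κ * ζ ^ 2 * 2 - (ζ * S₁.α - S₀.α) * (ζ * S₁.α - ω ^ 2 * S₀.α)) fun t => by
      have e1 : (S₁.a t - η * S₀.a t) * (κ * ζ ^ 2 * (S₁.b t + S₀.b t) -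
          (ζ * S₁.a t - S₀.a t) * (ζ * S₁.a t - ω ^ 2 * S₀.a t)) = 0 := by
        refine mul_left_cancel₀ ζ0 ?_
        have e2 := hκ t
        have e3 := id t
        generalize S₁.a t = x at *
        generalize S₀.a t = y at *
        generalize S₁.b t = p at *
        generalize S₀.b t = q at *
        have e4 : (ζ * x - y) * (ζ * x - ω * y) * (ζ * x - ω ^ 2 * y) = x ^ 3 - y ^ 3 := by
          linear_combination x ^ 3 * ζ3 - y ^ 3 * ω3 + (ζ * x * y ^ 2 * ω - ζ ^ 2 * x ^ 2 * y) * hω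
        linear_combination e3 - e4 - (p + q) * e2 + κ * (x - η * y) * (p + q) * ζ3 +
          y * (ζ * x - y) * (ζ * x - ω ^ 2 * y) * hζ
      simp only [Sec.a, Sec.b] at e1
      linear_combination e1
  refine ⟨⟨S₀, ⟨ζ * S₁.α, ζ * S₁.γ, S₁.β₁, S₁.β₀⟩, ω, κ * ζ ^ 2⟩, ok₀,
    ⟨h6, rA, inj, mul_mem ζA ok₁.αA, mul_mem ζA ok₁.γA, ok₁.β₁A, ok₁.β₀A, fun s => ?_⟩, ωA,
    mul_mem κA (pow_mem ζA 2), hω, k0, fun s => ?_, fun s => ?_, ?_, fun h => ind ?_, α₀⟩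
  · have e := ok₁.eq s
    simp only [Sec.a, Sec.b] at e ⊢
    linear_combination e - (S₁.α * s + S₁.γ) ^ 3 * ζ3
  · have e := hκ s
    simp only [Ln.β, Sec.a, Sec.b] at e ⊢
    linear_combination e - κ * ((S₁.α * s + S₁.γ) - η * (S₀.α * s + S₀.γ)) * ζ3 -
      κ * ζ ^ 2 * (S₀.α * s + S₀.γ) * hζ
  · simp only [Ln.d, Ln.θ, Sec.a, Sec.b]
    rw [← mul_div_assoc, eq_div_iff k0]
    linear_combination f0 + s * f1 + s ^ 2 * f2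
  · simp only
    linear_combination -f2
  · simp only at h
    exact mul_left_cancel₀ ζ0 (by linear_combination h)

end Pool.Agent.P.MP_ee618e_ag.X.Y
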