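import Pool.Agent.P.MP_ee618e_ag.Y.R1

/-! R2: the special places are invariant. -/

namespace Pool.Agent.P.MP_ee618e_ag.X.Y

open IsDedekindDomain
open scoped Classical

variable {Ω : Type} [Field Ω] {Γ : Type} [LinearOrderedCommGroupWithZero Γ]
  {v : Valuation Ω Γ} {A : Subfield Ω} {s : Ω}

namespace R2

theorem pw_mul {η x y : Γ} (hx : ∃ k : ℤ, x = η ^ k) (hy : ∃ k : ℤ, y = η ^ k) :
    ∃ k : ℤ, x * y = η ^ k := by
  obtain ⟨k, rfl⟩ := hx
  obtain ⟨l, rfl⟩ := hy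
  by_cases hη : η = 0
  · subst hη
    by_cases hk : k = 0
    · exact ⟨l, by rw [hk, zpow_zero, one_mul]⟩
    · exact ⟨k, by rw [zero_zpow k hk, zero_mul]⟩
  · exact ⟨k + l, (zpow_add₀ hη k l).symm⟩

theorem pw_inv {η x : Γ} (hx : ∃ k : ℤ, x = η ^ k) : ∃ k : ℤ, x⁻¹ = η ^ k := by
  obtain ⟨k, rfl⟩ := hx
  exact ⟨-k, (zpow_neg η k).symm⟩

theorem lin_ring [IsAlgClosed A] (hA : Triv A v) {η : Γ}
    (h : ∀ c ∈ A, ∃ k : ℤ, v (s - c) = η ^ k) {z : Ω}
    (hz : z ∈ Subring.closure ((A : Set Ω) ∪ {s})) (h0 : z ≠ 0) : ∃ k : ℤ, v z = η ^ k := by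
  have h1 : z ∈ Algebra.adjoin A {s} := by
    have h2 : Subring.closure ((A : Set Ω) ∪ {s}) ≤ (Algebra.adjoin A {s}).toSubring := by
      refine Subring.closure_le.2 ?_
      rintro x (hx | hx)
      · exact (Algebra.adjoin A {s}).algebraMap_mem ⟨x, hx⟩
      · exact Algebra.subset_adjoin hx
    exact h2 hz
  rw [Algebra.adjoin_singleton_eq_range_aeval] at h1
  obtain ⟨p, hp⟩ := h1
  have hp' : Polynomial.aeval s p = z := hp
  have h3 : ∀ m : Multiset A, ∃ k : ℤ,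
      v (Polynomial.aeval s (m.map fun c => Polynomial.X - Polynomial.C c).prod) = η ^ k := by
    intro m
    induction m using Multiset.induction_on with
    | empty => exact ⟨0, by simp⟩
    | cons c m ih =>
      rw [Multiset.map_cons, Multiset.prod_cons, map_mul, map_mul]
      refine pw_mul ?_ ih
      rw [map_sub, Polynomial.aeval_X, Polynomial.aeval_C]
      exact h c c.2
  have h4 := (IsAlgClosed.splits p).eq_prod_roots
  rw [h4, map_mul, Polynomial.aeval_C] at hp'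
  have h5 : (algebraMap A Ω p.leadingCoeff) ≠ 0 := by
    intro e
    rw [e, zero_mul] at hp'
    exact h0 hp'.symm
  have h6 : v (algebraMap A Ω p.leadingCoeff) = 1 := hA _ p.leadingCoeff.2 h5
  rw [← hp', map_mul, h6, one_mul]
  exact h3 _

theorem add_two {x y : Ω} (h : v x = v y → v x = 0) : v (x + y) = max (v x) (v y) := by
  by_cases e : v x = v y
  · have hx := h e
    have hy : v y = 0 := e ▸ hx
    rw [(Valuation.zero_iff v).1 hx, (Valuation.zero_iff v).1 hy]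
    simp
  · exact v.map_add_of_distinct_val e

theorem add_three {x y z : Ω} (h1 : v x = v y → v x = 0) (h2 : v x = v z → v x = 0)
    (h3 : v y = v z → v y = 0) : v (x + y + z) = max (max (v x) (v y)) (v z) := by
  have e := add_two h1
  rw [add_two, e]
  rw [e]
  rcases max_choice (v x) (v y) with h | h
  · rw [h]; exact h2
  · rw [h]; exact h3

end R2

/-- Elements of `closure (A ∪ {s})` are quotients of polynomials in `s`, which are products of
linear factors `s - c`. -/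
theorem val_lin [IsAlgClosed A] (hA : Triv A v) {η : Γ} (h : ∀ c ∈ A, ∃ k : ℤ, v (s - c) = η ^ k)
    {z : Ω} (hz : z ∈ Subfield.closure ((A : Set Ω) ∪ {s})) (h0 : z ≠ 0) :
    ∃ k : ℤ, v z = η ^ k := by
  obtain ⟨a, ha, b, hb, e⟩ := Subfield.mem_closure_iff.1 hz
  have ha0 : a ≠ 0 := by
    rintro rfl
    exact h0 (by rw [← e, zero_div])
  have hb0 : b ≠ 0 := by
    rintro rfl
    exact h0 (by rw [← e, div_zero])
  rw [← e, div_eq_mul_inv, map_mul, map_inv₀]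
  exact R2.pw_mul (R2.lin_ring hA h ha ha0) (R2.pw_inv (R2.lin_ring hA h hb hb0))

/-- `v (a + b u) * v (a - b u) = v (a ^ 2 - b ^ 2 u ^ 2)`, and the larger of the two factors is
`max (v a) (v (b u))` as `v 2 = 1` -/
theorem val_quad {K : Subfield Ω} (h2 : v 2 = 1) {η : Γ} (hη : η ≠ 0)
    (h : ∀ z ∈ K, z ≠ 0 → ∃ k : ℤ, v z = η ^ k) {u a b : Ω} (hu : u ^ 2 ∈ K)
    (hu' : ∃ k : ℤ, v u = η ^ k) (ha : a ∈ K) (hb : b ∈ K) (h0 : a + b * u ≠ 0) :
    ∃ k : ℤ, v (a + b * u) = η ^ k := by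
  have hv0 : v (a + b * u) ≠ 0 := (Valuation.ne_zero_iff v).2 h0
  have hbu : v (b * u) ≠ 0 → ∃ k : ℤ, v (b * u) = η ^ k := by
    intro e
    have hb0 : b ≠ 0 := by
      rintro rfl
      exact e (by simp)
    rw [map_mul]
    exact R2.pw_mul (h b hb hb0) hu'
  have haa : v a ≠ 0 → ∃ k : ℤ, v a = η ^ k := fun e => h a ha ((Valuation.ne_zero_iff v).1 e)
  by_cases e : v a = v (b * u)
  · have h3 : v (a + b * u) ≤ v a := v.map_add_le le_rfl e.ge
    have ha0 : v a ≠ 0 := by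
      intro e0
      rw [e0] at h3
      exact hv0 (le_zero_iff.1 h3)
    rcases h3.eq_or_lt with h4 | h4
    · rw [h4]; exact haa ha0
    · have h5 : v (a - b * u) = v a := by
        have h6 : a - b * u = 2 * a - (a + b * u) := by ring
        have h7 : v (2 * a) = v a := by rw [map_mul, h2, one_mul]
        rw [h6, v.map_sub_eq_of_lt_left (by rwa [h7]), h7]
      have h8 : (a + b * u) * (a - b * u) = a ^ 2 - b ^ 2 * u ^ 2 := by ring
      have h9 : a ^ 2 - b ^ 2 * u ^ 2 ∈ K :=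
        sub_mem (pow_mem ha 2) (mul_mem (pow_mem hb 2) hu)
      have h10 : a ^ 2 - b ^ 2 * u ^ 2 ≠ 0 := by
        rw [← h8]
        refine mul_ne_zero h0 ((Valuation.ne_zero_iff v).1 ?_)
        rwa [h5]
      have h11 := h _ h9 h10
      rw [← h8, map_mul, h5] at h11
      have h12 := R2.pw_mul h11 (R2.pw_inv (haa ha0))
      rwa [mul_inv_cancel_right₀ ha0] at h12
  · have h3 := v.map_add_of_distinct_val e
    rcases max_choice (v a) (v (b * u)) with h4 | h4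
    · rw [h4] at h3
      rw [h3] at hv0 ⊢
      exact haa hv0
    · rw [h4] at h3
      rw [h3] at hv0 ⊢
      exact hbu hv0

/-- the elements `∑_{i < 6} f i w ^ i` form a subring which is algebraic over `K`, hence a field
(or: `Algebra.adjoin`, `IntermediateField.adjoin_simple_toSubalgebra_of_isAlgebraic`,
reduction modulo `X ^ 6 - C c`) -/
theorem span_six {K : Subfield Ω} {w : Ω} (hw : w ^ 6 ∈ K) {z : Ω}
    (hz : z ∈ Subfield.closure ((K : Set Ω) ∪ {w})) : ∃ f : Fin 6 → Ω, (∀ i, f i ∈ K) ∧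
      z = (f 0 + f 3 * w ^ 3) + (f 1 + f 4 * w ^ 3) * w + (f 2 + f 5 * w ^ 3) * w ^ 2 := by
  have hi : IsIntegral K w := by
    refine IsIntegral.of_pow (n := 6) (by norm_num) ?_
    exact isIntegral_algebraMap (x := (⟨w ^ 6, hw⟩ : K))
  have h1 : z ∈ IntermediateField.adjoin K {w} := by
    have h2 : Subfield.closure ((K : Set Ω) ∪ {w}) ≤ (IntermediateField.adjoin K {w}).toSubfield := by
      refine Subfield.closure_le.2 ?_
      rintro x (hx | hx)
      · exact (IntermediateField.adjoin K {w}).algebraMap_mem ⟨x, hx⟩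
      · exact IntermediateField.subset_adjoin K _ hx
    exact h2 hz
  have h3 : z ∈ Algebra.adjoin K {w} := by
    rw [← IntermediateField.adjoin_simple_toSubalgebra_of_isAlgebraic hi.isAlgebraic]
    exact h1
  rw [Algebra.adjoin_singleton_eq_range_aeval] at h3
  obtain ⟨p, hp⟩ := h3
  have hp' : Polynomial.aeval w p = z := hp
  rw [← hp']
  clear hp hp' h1 hz
  induction p using Polynomial.induction_on with
  | C a =>
    refine ⟨![a, 0, 0, 0, 0, 0], fun i => ?_, ?_⟩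
    · fin_cases i
      · exact a.2
      all_goals exact zero_mem K
    · simp
      rfl
  | add p q hp hq =>
    obtain ⟨f, hf, e⟩ := hp
    obtain ⟨g, hg, e'⟩ := hq
    refine ⟨fun i => f i + g i, fun i => add_mem (hf i) (hg i), ?_⟩
    rw [map_add, e, e']
    ring
  | monomial n a ih =>
    obtain ⟨f, hf, e⟩ := ih
    refine ⟨![f 5 * w ^ 6, f 0, f 1, f 2, f 3, f 4], fun i => ?_, ?_⟩
    · fin_cases i
      · exact mul_mem (hf 5) hw
      all_goals exact hf _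
    · rw [pow_succ, ← mul_assoc, map_mul, e, Polynomial.aeval_X]
      simp
      ring

/-- three terms with distinct values -/
theorem val_three_terms {η : Γ} (h0 : η ≠ 0) (h1 : η ≠ 1) {j : ℤ} (hj : ¬ (3 : ℤ) ∣ j)
    {w ω g₀ g₁ g₂ : Ω} (hw : v w = η ^ j) (hω : v ω = 1)
    (h : ∀ g, g = g₀ ∨ g = g₁ ∨ g = g₂ → g ≠ 0 → ∃ k : ℤ, v g = (η ^ 3) ^ k) :
    v (g₀ + g₁ * (ω * w) + g₂ * (ω * w) ^ 2) = v (g₀ + g₁ * w + g₂ * w ^ 2) := by
  have hinj : Function.Injective fun k : ℤ => η ^ k :=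
    zpow_right_injective₀ (zero_lt_iff.2 h0) h1
  have key : ∀ (g g' : Ω) (a b : ℤ), (g ≠ 0 → ∃ k : ℤ, v g = (η ^ 3) ^ k) →
      (g' ≠ 0 → ∃ k : ℤ, v g' = (η ^ 3) ^ k) → ¬ (3 : ℤ) ∣ a - b →
      v g * η ^ a = v g' * η ^ b → v g * η ^ a = 0 := by
    intro g g' a b hg hg' hab e
    by_cases e0 : g = 0
    · simp [e0]
    by_cases e1 : g' = 0
    · rw [e, e1]; simp
    obtain ⟨k, hk⟩ := hg e0
    obtain ⟨l, hl⟩ := hg' e1
    rw [hk, hl, ← zpow_natCast, ← zpow_mul, ← zpow_mul, ← zpow_add₀ h0, ← zpow_add₀ h0] at e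
    have e2 := hinj e
    exact absurd ⟨l - k, by push_cast at e2; linarith⟩ hab
  have main : ∀ x : Ω, v x = η ^ j → v (g₀ + g₁ * x + g₂ * x ^ 2) =
      max (max (v g₀ * η ^ (0 : ℤ)) (v g₁ * η ^ j)) (v g₂ * η ^ (2 * j)) := by
    intro x hx
    have a0 : v g₀ = v g₀ * η ^ (0 : ℤ) := by rw [zpow_zero, mul_one]
    have a1 : v (g₁ * x) = v g₁ * η ^ j := by rw [map_mul, hx]
    have a2 : v (g₂ * x ^ 2) = v g₂ * η ^ (2 * j) := by
      rw [map_mul, map_pow, hx, two_mul, zpow_add₀ h0, sq]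
    rw [R2.add_three, a1, a2, ← a0]
    · rw [a0, a1]
      exact key _ _ _ _ (h _ (.inl rfl)) (h _ (.inr (.inl rfl))) (by omega)
    · rw [a0, a2]
      exact key _ _ _ _ (h _ (.inl rfl)) (h _ (.inr (.inr rfl))) (by omega)
    · rw [a1, a2]
      exact key _ _ _ _ (h _ (.inr (.inl rfl))) (h _ (.inr (.inr rfl))) (by omega)
  rw [main w hw, main (ω * w) (by rw [map_mul, hω, one_mul, hw])]

/-- If `1 < v s` put `η = v w ^ 2 / v s` (so `η ^ 3 = v s`, `η ^ 2 = v w`). Otherwise `v w < 1`, `s` is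
congruent to exactly one `r i`, put `η = v w` (so `v (s - r i) = η ^ 6`). A power `z ^ p ^ n` is in
`closure (A ∪ {s, w})` (`fixed_pow'`). -/
theorem Sx.sp [IsAlgClosed Ω] (C : Sx Ω) (hA : Triv C.A v) (hv : ¬ (v C.s ≤ 1 ∧ v C.w = 1)) {z : Ω}
    (hz : ∀ h ∈ C.H, h z = z) : v ((C.σ ^ 2) z) = v z := by
  have hle : ∀ c ∈ C.A, v c ≤ 1 := by
    intro c hc
    by_cases e : c = 0
    · rw [e, map_zero]; exact zero_le
    · exact (hA c hc e).le
  have hw0 : v C.w ≠ 0 := (Valuation.ne_zero_iff v).2 C.w0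
  have hprod : v C.w ^ 6 = ∏ i, v (C.s - C.r i) := by rw [← map_pow, C.eq, map_prod]
  obtain ⟨η, j, h0, h1, hj, hw, hu, hs⟩ : ∃ (η : Γ) (j : ℤ), η ≠ 0 ∧ η ≠ 1 ∧ ¬ (3 : ℤ) ∣ j ∧
      v C.w = η ^ j ∧ (∃ k : ℤ, v (C.w ^ 3) = (η ^ 3) ^ k) ∧
      ∀ c ∈ C.A, ∃ k : ℤ, v (C.s - c) = (η ^ 3) ^ k := by
    rcases lt_or_ge 1 (v C.s) with hs | hs
    · have hs0 : v C.s ≠ 0 := (zero_lt_one.trans hs).ne'
      have e1 : ∀ c ∈ C.A, v (C.s - c) = v C.s := fun c hc =>
        v.map_sub_eq_of_lt_left ((hle c hc).trans_lt hs)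
      have e2 : v C.w ^ 6 = v C.s ^ 4 := by
        rw [hprod, Finset.prod_congr rfl fun i _ => e1 _ (C.rA i)]
        simp
      have e3 : v C.w ^ 3 = v C.s ^ 2 := by
        refine (pow_left_inj₀ zero_le zero_le (two_ne_zero)).1 ?_
        rw [← pow_mul, ← pow_mul]
        exact e2
      have e4 : (v C.w ^ 2 / v C.s) ^ 3 = v C.s := by
        rw [div_pow, ← pow_mul, e2, div_eq_iff (pow_ne_zero _ hs0), ← pow_succ']
      have e5 : (v C.w ^ 2 / v C.s) ^ 2 = v C.w := by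
        rw [div_pow, ← pow_mul, ← e3, div_eq_iff (pow_ne_zero _ hw0), ← pow_succ']
      refine ⟨v C.w ^ 2 / v C.s, 2, div_ne_zero (pow_ne_zero _ hw0) hs0, fun e => ?_, by omega,
        ?_, ⟨2, ?_⟩, fun c hc => ⟨1, ?_⟩⟩
      · rw [e, one_pow] at e4
        exact hs.ne e4
      · rw [zpow_ofNat, e5]
      · rw [e4, map_pow, e3, zpow_ofNat]
      · rw [e4, zpow_one, e1 c hc]
    · have hw1 : v C.w ≠ 1 := fun e => hv ⟨hs, e⟩
      have e1 : ∀ c ∈ C.A, v (C.s - c) ≤ 1 := fun c hc => v.map_sub_le hs (hle c hc)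
      obtain ⟨i, hi⟩ : ∃ i, v (C.s - C.r i) < 1 := by
        by_contra hcon
        have e2 : ∀ i, v (C.s - C.r i) = 1 := fun i =>
          le_antisymm (e1 _ (C.rA i)) (not_lt.1 fun e => hcon ⟨i, e⟩)
        rw [Finset.prod_congr rfl fun i _ => e2 i, Finset.prod_const_one] at hprod
        exact hw1 ((pow_eq_one_iff_left (by norm_num)).1 hprod)
      have e3 : ∀ c ∈ C.A, c ≠ C.r i → v (C.s - c) = 1 := by
        intro c hc hne
        have e4 : v (C.r i - c) = 1 := hA _ (sub_mem (C.rA i) hc) (sub_ne_zero.2 hne.symm)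
        have e5 : C.s - c = (C.s - C.r i) + (C.r i - c) := by ring
        rw [e5, v.map_add_eq_of_lt_right (by rwa [e4]), e4]
      have e6 : v C.w ^ 6 = v (C.s - C.r i) := by
        rw [hprod]
        exact Finset.prod_eq_single i (fun k _ hk => e3 _ (C.rA k) fun e => hk (C.inj e))
          fun hi => absurd (Finset.mem_univ i) hi
      refine ⟨v C.w, 1, hw0, hw1, by omega, (zpow_one _).symm, ⟨1, ?_⟩, fun c hc => ?_⟩
      · rw [zpow_one, map_pow]
      · by_cases e : c = C.r i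
        · exact ⟨2, by rw [e, ← e6, zpow_ofNat, ← pow_mul]⟩
        · exact ⟨0, by rw [e3 c hc e, zpow_zero]⟩
  set K : Subfield Ω := Subfield.closure ((C.A : Set Ω) ∪ {C.s}) with hK
  have hAK : ∀ c ∈ C.A, c ∈ K := fun c hc => Subfield.subset_closure (Or.inl hc)
  have hsK : C.s ∈ K := Subfield.subset_closure (Or.inr rfl)
  have hw6 : C.w ^ 6 ∈ K := by
    rw [C.eq]
    exact prod_mem fun i _ => sub_mem hsK (hAK _ (C.rA i))
  have h2 : v 2 = 1 := by
    refine hA 2 (ofNat_mem C.A 2) fun e => C.h6 ?_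
    rw [show (6 : Ω) = 2 * 3 by norm_num, e, zero_mul]
  have hζ0 : C.ζ ≠ 0 := C.hζ.ne_zero (by norm_num)
  have hω : v (C.ζ ^ 2) = 1 := by rw [map_pow, hA _ C.ζA hζ0, one_pow]
  obtain ⟨σA, σs, σw, -⟩ := C.σ_pow 2
  have σK : ∀ x ∈ K, (C.σ ^ 2) x = x := by
    have e : C.σ ^ 2 ∈ Fix (K : Set Ω) := by
      rw [hK, fix_closure]
      rintro x (hx | hx)
      · exact σA x hx
      · rw [Set.mem_singleton_iff.1 hx]; exact σs
    exact e
  have σ3 : (C.σ ^ 2) (C.w ^ 3) = C.w ^ 3 := by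
    rw [map_pow, σw, mul_pow, ← pow_mul, C.hζ.pow_eq_one, one_mul]
  obtain ⟨n, hn⟩ := fixed_pow' (S := (C.A : Set Ω) ∪ {C.s, C.w}) hz
  have hq : ringExpChar Ω ^ n ≠ 0 := (expChar_pow_pos Ω (ringExpChar Ω) n).ne'
  generalize ringExpChar Ω ^ n = q at hn hq
  have hn' : z ^ q ∈ Subfield.closure ((K : Set Ω) ∪ {C.w}) := by
    refine Subfield.closure_mono ?_ hn
    rintro x (hx | hx | hx)
    · exact Or.inl (hAK x hx)
    · rw [hx]; exact Or.inl hsK
    · exact Or.inr hx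
  obtain ⟨f, hf, e⟩ := span_six hw6 hn'
  have hq3 : ∀ a ∈ K, ∀ b ∈ K, a + b * C.w ^ 3 ≠ 0 →
      ∃ k : ℤ, v (a + b * C.w ^ 3) = (η ^ 3) ^ k := fun a ha b hb hne =>
    val_quad (K := K) h2 (pow_ne_zero 3 h0) (fun x hx hx0 => val_lin hA hs hx hx0)
      (by rw [← pow_mul]; exact hw6) hu ha hb hne
  have σg : ∀ a ∈ K, ∀ b ∈ K, (C.σ ^ 2) (a + b * C.w ^ 3) = a + b * C.w ^ 3 := by
    intro a ha b hb
    rw [map_add, map_mul, σK a ha, σK b hb, σ3]
  refine (pow_left_inj₀ zero_le zero_le hq).1 ?_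
  rw [← map_pow, ← map_pow, ← map_pow, e, map_add (C.σ ^ 2), map_add (C.σ ^ 2),
    map_mul (C.σ ^ 2), map_mul (C.σ ^ 2), map_pow (C.σ ^ 2), σw, σg _ (hf 0) _ (hf 3),
    σg _ (hf 1) _ (hf 4), σg _ (hf 2) _ (hf 5)]
  refine val_three_terms h0 h1 hj hw hω ?_
  rintro g (rfl | rfl | rfl)
  · exact hq3 _ (hf 0) _ (hf 3)
  · exact hq3 _ (hf 1) _ (hf 4)
  · exact hq3 _ (hf 2) _ (hf 5)

end Pool.Agent.P.MP_ee618e_ag.X.Y
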