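import Pool.Agent.P.MP_ee618e_ag.Y.F3
import Pool.Agent.P.MP_ee618e_ag.Y.N2
import Pool.Agent.P.MP_ee618e_ag.Y.R2
import Pool.Agent.P.MP_ee618e_ag.Y.D2

/-! K1: the operator which kills the divisor classes of the sextic curve. -/

namespace Pool.Agent.P.MP_ee618e_ag.X.Y

open IsDedekindDomain
open scoped Classical

variable {Ω : Type} [Field Ω] [IsAlgClosed Ω] {Γ : Type} [LinearOrderedCommGroupWithZero Γ]
  {v : Valuation Ω Γ} {C : Sx Ω} {D : Ln Ω} {J : Finset (Ω × Ω)} {s w : Ω}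

namespace K1

omit [IsAlgClosed Ω] in
theorem ds_congr {u : Valuation Ω Γ} {S T S' : Sec Ω} {s' w' : Ω}
    (h1 : u (S.x s' w' - S'.x s w) = v (T.x s' w' - S'.x s w))
    (h2 : u (S.y s' w' - S'.y s w) = v (T.y s' w' - S'.y s w)) :
    S.ds u s' w' S' s w = T.ds v s' w' S' s w := by
  rw [Sec.ds, Sec.ds, dst, dst, h1, h2]

omit [IsAlgClosed Ω] in
theorem ds_theta {S T S' : Sec Ω} (hS' : S'.Ok C.A C.r) (hp : C.Pt s w) {θ : Au Ω}
    (hθ : θ ∈ Fix (C.A : Set Ω)) (h1 : θ (S.x C.s C.w) = T.x C.s C.w)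
    (h2 : θ (S.y C.s C.w) = T.y C.s C.w) :
    S.ds (vc v θ) C.s C.w S' s w = T.ds v C.s C.w S' s w := by
  obtain ⟨k1, k2⟩ := hS'.xy_mem le_rfl hp.sA hp.wA
  exact ds_congr (by rw [vc_apply, map_sub, h1, hθ _ k1]) (by rw [vc_apply, map_sub, h2, hθ _ k2])

omit [IsAlgClosed Ω] in
theorem triv_pow (hA : Triv C.A v) (i : ℕ) : Triv C.A (vc v (C.σ ^ i)) :=
  hA.vc (fix_le_st _ (C.σ_pow i).1)

omit [IsAlgClosed Ω] in
theorem val_zeta (hA : Triv C.A v) (i : ℕ) : v (C.ζ ^ i * C.w) = v C.w := by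
  rw [map_mul, map_pow, hA _ C.ζA (C.hζ.ne_zero (by norm_num)), one_pow, one_mul]

omit [IsAlgClosed Ω] in
theorem val_pow (hA : Triv C.A v) (i : ℕ) :
    vc v (C.σ ^ i) C.s = v C.s ∧ vc v (C.σ ^ i) C.w = v C.w := by
  rw [vc_apply, vc_apply, (C.σ_pow i).2.1, (C.σ_pow i).2.2.1, val_zeta hA]
  exact ⟨rfl, rfl⟩

omit [IsAlgClosed Ω] in
theorem nr_pow (hp : C.Pt s w) (i : ℕ) :
    nr (vc v (C.σ ^ i)) (C.s - s) (C.w - w) = nr v (C.s - s) (C.ζ ^ i * C.w - w) := by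
  obtain ⟨k1, k2, k3, -⟩ := C.σ_pow i
  rw [nr, nr, vc_apply, vc_apply, map_sub (C.σ ^ i), map_sub (C.σ ^ i), k2, k3, k1 _ hp.sA,
    k1 _ hp.wA]

omit [IsAlgClosed Ω] in
theorem nr_ne {t : Ω} (ht : t ≠ 0) (c : Ω) : nr v t c ≠ 0 := by
  rw [nr]
  split_ifs
  · exact (Valuation.ne_zero_iff v).2 ht
  · exact one_ne_zero

omit [IsAlgClosed Ω] in
theorem nr_one (hp : C.Pt s w) (hA : Triv C.A v) (hv : ¬ (v C.s ≤ 1 ∧ v C.w = 1)) :
    nr v (C.s - s) (C.w - w) = 1 := by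
  refine if_neg fun h => hv ⟨n1_le (hA.le hp.sA) h.1, ?_⟩
  have hw := hA _ hp.wA hp.w0
  rw [← sub_add_cancel C.w w, v.map_add_eq_of_lt_right (hw ▸ h.2), hw]

end K1

/-- `sp` for the differences of the coordinates, which are fixed by `H` -/
theorem Sx.ds_sp {S S' : Sec Ω} (hS : S.Ok C.A C.r) (hS' : S'.Ok C.A C.r) (hp : C.Pt s w)
    (hA : Triv C.A v) (hv : ¬ (v C.s ≤ 1 ∧ v C.w = 1)) :
    S.ds (vc v (C.σ ^ 2)) C.s C.w S' s w = S.ds v C.s C.w S' s w := by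
  have hH : ∀ h ∈ C.H, h ∈ Fix (C.A : Set Ω) ∧ h C.s = C.s ∧ h C.w = C.w := fun h hh =>
    ⟨fix_anti Set.subset_union_left hh, hh _ (Or.inr (Or.inl rfl)), hh _ (Or.inr (Or.inr rfl))⟩
  obtain ⟨k1, k2⟩ := hS'.xy_mem le_rfl hp.sA hp.wA
  refine K1.ds_congr (C.sp hA hv fun h hh => ?_) (C.sp hA hv fun h hh => ?_)
  · obtain ⟨e1, e2, e3⟩ := hH h hh
    rw [map_sub, (hS.map e1 _ _).2.2.1, e2, e3, e1 _ k1]
  · obtain ⟨e1, e2, e3⟩ := hH h hh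
    rw [map_sub, (hS.map e1 _ _).2.2.2, e2, e3, e1 _ k2]

/-- If `v C.s ≤ 1` and `v C.w = 1` apply `f1` to `v` and to `vc v (σ ^ 2)`, which has the same
property. Otherwise both differences vanish: `sp`, `ds_sp`, and all `nr` are one. -/
theorem rel0 (ok : D.Ok C.A C.r) (hJ : ∀ z, z ∈ J ↔ D.IsJ C.A z) (hp : C.Pt s w)
    (gd : D.Gd J s) : ∃ z : Ω, z ≠ 0 ∧ (∀ h ∈ C.H, h z = z) ∧
      ∀ (Γ : Type) [LinearOrderedCommGroupWithZero Γ] (v : Valuation Ω Γ), Triv C.A v →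
        ∀ Φ : Valuation Ω Γ → Additive Γˣ, (∀ u, Φ u =
          ∑ z ∈ J, lg ((D.sec z).ds u C.s C.w (D.sec z) s w) - lg (D.S₀.ds u C.s C.w D.S₁ s w) -
            lg (D.S₁.ds u C.s C.w D.S₀ s w) +
            ∑ i : Fin 6, cc J.card i • lg (nr (vc u (C.σ ^ (i : ℕ))) (C.s - s) (C.w - w))) →
        lg (v z) - lg (v ((C.σ ^ 2) z)) = Φ v - Φ (vc v (C.σ ^ 2)) := by
  obtain ⟨z, z0, zH, hz⟩ := f1 ok hJ hp gd
  have so : ∀ y ∈ J, (D.sec y).Ok C.A C.r := fun y hy => ok.sec_ok ((hJ y).1 hy)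
  have t0 : C.s - s ≠ 0 := sub_ne_zero.2 fun e => C.tr (e ▸ hp.sA)
  refine ⟨z, z0, zH, fun Γ _ v hA Φ hΦ => ?_⟩
  by_cases hv : v C.s ≤ 1 ∧ v C.w = 1
  · have key : ∀ u : Valuation Ω Γ, Triv C.A u → u C.s ≤ 1 → u C.w = 1 → lg (u z) = Φ u := by
      intro u hu h1 h2
      have a0 : u z ≠ 0 := (Valuation.ne_zero_iff u).2 z0
      have a1 := Sx.ds_ne (v := u) ok.ok₀ ok.ok₁ hp
      have a2 := Sx.ds_ne (v := u) ok.ok₁ ok.ok₀ hp
      have a3 : ∀ y ∈ J, (D.sec y).ds u C.s C.w (D.sec y) s w ≠ 0 := fun y hy =>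
        Sx.ds_ne (so y hy) (so y hy) hp
      have a4 : ∀ i ∈ (Finset.univ : Finset (Fin 6)),
          nr u (C.s - s) (C.ζ ^ (i : ℕ) * C.w - w) ^ cc J.card i ≠ 0 := fun i _ =>
        zpow_ne_zero _ (K1.nr_ne t0 _)
      have e := congrArg lg (hz Γ u hu h1 h2)
      rw [lg_mul (mul_ne_zero a0 a1) a2, lg_mul a0 a1,
        lg_mul (Finset.prod_ne_zero_iff.2 a3) (Finset.prod_ne_zero_iff.2 a4), lg_prod _ a3,
        lg_prod _ a4] at e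
      simp only [lg_zpow (K1.nr_ne t0 _)] at e
      simp only [hΦ, K1.nr_pow hp]
      rw [eq_sub_of_add_eq (eq_sub_of_add_eq e)]
      abel
    obtain ⟨e1, e2⟩ := K1.val_pow hA 2
    rw [← key v hA hv.1 hv.2, ← key _ (K1.triv_pow hA 2) (e1 ▸ hv.1) (e2 ▸ hv.2), vc_apply]
  · have one : ∀ u : Valuation Ω Γ, Triv C.A u → ¬ (u C.s ≤ 1 ∧ u C.w = 1) → ∀ i : ℕ,
        nr (vc u (C.σ ^ i)) (C.s - s) (C.w - w) = 1 := fun u hu h i =>
      K1.nr_one hp (K1.triv_pow hu i) (by rwa [(K1.val_pow hu i).1, (K1.val_pow hu i).2])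
    have hv' : ¬ (vc v (C.σ ^ 2) C.s ≤ 1 ∧ vc v (C.σ ^ 2) C.w = 1) := by
      rwa [(K1.val_pow hA 2).1, (K1.val_pow hA 2).2]
    rw [C.sp hA hv zH, sub_self, eq_comm, sub_eq_zero, hΦ, hΦ, Sx.ds_sp ok.ok₀ ok.ok₁ hp hA hv,
      Sx.ds_sp ok.ok₁ ok.ok₀ hp hA hv,
      Finset.sum_congr rfl fun y hy => congrArg lg (Sx.ds_sp (so y hy) (so y hy) hp hA hv)]
    simp only [one v hA hv, one _ (K1.triv_pow hA 2) hv']

/-- `K = J ⊕ Bool`. For `inl z` take the section `sec z`, `θ = 1`, `ε = 1`. For the two other indices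
take `S₁` with `θ` mapping the point of `S₁` to the point of `S₀` (`exists_theta`), and `S₀` with the
inverse, `ε = -1`; then `S₁.ds (vc v θ) C.s C.w S₁ s w = S₀.ds v C.s C.w S₁ s w`.
`exists_ln`, `exists_J`; `kills_of` with the bad set from `Ln.Ok.fin`, `fin_at`; for a good point
(`exists_at`) use `z ^ M` with `z` from `rel0`, `At.pv`, `nl`, `vc_vc`. -/
theorem Sx.kill (C : Sx Ω) : ∃ (K : Type) (_ : Fintype K) (x y : K → Ω) (θ : K → Au Ω) (ε : K → ℤ)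
    (J : ℕ), (∀ k, On (x k) (y k) ∧ x k ∉ C.A ∧ θ k ∈ Fix (C.A : Set Ω) ∧
      x k ∈ Subfield.closure ((C.A : Set Ω) ∪ {C.s, C.w}) ∧
      y k ∈ Subfield.closure ((C.A : Set Ω) ∪ {C.s, C.w})) ∧
    ∀ (n : K → ℕ) (h : (k : K) → Fin (n k) → Au Ω) (m M' : K → ℕ) (M : ℕ),
      (∀ k, m k * M' k = M) → (∀ k i, h k i ∈ Fix ((C.A : Set Ω) ∪ {x k, y k})) →
      (∀ k, ∀ h₀ ∈ Fix ((C.A : Set Ω) ∪ {x k, y k}),
        (Finset.univ.filter fun i => h₀⁻¹ * h k i ∈ C.H).card = m k) →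
      Kills C.R
        (twg (C.σ ^ 2) (Sum.elim (fun u : Σ k, Fin (n k) => θ u.1 * h u.1 u.2)
          fun i : Fin 6 => C.σ ^ (i : ℕ)))
        (twn (Sum.elim (fun u : Σ k, Fin (n k) => ε u.1 * M' u.1) fun i : Fin 6 => M * cc J i)) := by
  obtain ⟨D, ok⟩ := exists_ln C.h6 C.rA C.inj
  obtain ⟨J, hJ⟩ := ok.exists_J
  have on : ∀ {S : Sec Ω}, S.Ok C.A C.r → On (S.x C.s C.w) (S.y C.s C.w) := fun h =>
    h.on C.w0 C.eq
  have nm : ∀ {S : Sec Ω}, S.Ok C.A C.r → S.x C.s C.w ∉ C.A := fun h => (h.not_mem C.tr C.eq).2.1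
  obtain ⟨θ₀, t1, t2, t3⟩ := exists_theta (on ok.ok₁) (on ok.ok₀) (nm ok.ok₁) (nm ok.ok₀)
  obtain ⟨θ₁, u1, u2, u3⟩ := exists_theta (on ok.ok₀) (on ok.ok₁) (nm ok.ok₀) (nm ok.ok₁)
  obtain ⟨K, _, S, T, θ, ε, hk, hg, hs⟩ : ∃ (K : Type) (_ : Fintype K) (S T : K → Sec Ω)
      (θ : K → Au Ω) (ε : K → ℤ), (∀ k, (S k).Ok C.A C.r ∧ θ k ∈ Fix (C.A : Set Ω) ∧
        θ k ((S k).x C.s C.w) = (T k).x C.s C.w ∧ θ k ((S k).y C.s C.w) = (T k).y C.s C.w) ∧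
      (∀ s, D.Gd J s → ∀ k, (S k).Gd s) ∧
      ∀ (X : Type) [AddCommGroup X] (F : Sec Ω → Sec Ω → X), ∑ k, ε k • F (T k) (S k) =
        ∑ z ∈ J, F (D.sec z) (D.sec z) - F D.S₀ D.S₁ - F D.S₁ D.S₀ := by
    refine ⟨J ⊕ Bool, inferInstance, Sum.elim (fun z => D.sec z) fun b => cond b D.S₁ D.S₀,
      Sum.elim (fun z => D.sec z) fun b => cond b D.S₀ D.S₁,
      Sum.elim (fun _ => 1) fun b => cond b θ₀ θ₁, Sum.elim (fun _ => 1) fun _ => -1, ?_, ?_, ?_⟩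
    · rintro (z | _ | _)
      · exact ⟨ok.sec_ok ((hJ z).1 z.2), one_mem _, rfl, rfl⟩
      · exact ⟨ok.ok₀, u1, u2, u3⟩
      · exact ⟨ok.ok₁, t1, t2, t3⟩
    · rintro s gd (z | _ | _)
      · exact (gd.gJ z z.2).1
      · exact gd.g₀
      · exact gd.g₁
    · intro X _ F
      simp only [Fintype.sum_sum_type, Fintype.sum_bool, Sum.elim_inl, Sum.elim_inr, one_smul,
        neg_smul, cond_true, cond_false]
      rw [Finset.sum_coe_sort J fun z => F (D.sec z) (D.sec z)]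
      abel
  refine ⟨K, inferInstance, fun k => (S k).x C.s C.w, fun k => (S k).y C.s C.w, θ, ε, J.card,
    fun k => ⟨on (hk k).1, nm (hk k).1, (hk k).2.1, (hk k).1.xy_mem
      (fun c hc => Subfield.subset_closure (Or.inl hc))
      (Subfield.subset_closure (Or.inr (Or.inl rfl)))
      (Subfield.subset_closure (Or.inr (Or.inr rfl)))⟩, fun n h m M' M hM hh hm => ?_⟩
  have hA : ∀ k i, h k i ∈ Fix (C.A : Set Ω) := fun k i => fix_anti Set.subset_union_left (hh k i)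
  refine kills_of (C.σ_pow 2).1 (C.σ_pow 2).2.2.2 ?_
    (fun Γ _ v hv hn z hz => C.sp hv (by rwa [← C.int_iff hv]) (by rwa [← C.fix_R]))
    (Sx.fin_at (ok.fin hJ)) fun P hP => ?_
  · rintro (u | i)
    · exact mul_mem (hk u.1).2.1 (hA u.1 u.2)
    · exact (C.σ_pow i).1
  obtain ⟨s, w, hat⟩ := C.exists_at P.asIdeal P.ne_bot
  have gd : D.Gd J s := by_contra fun e => hP ⟨s, e, w, hat⟩
  obtain ⟨z, z0, zH, hz⟩ := rel0 ok hJ hat.1 gd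
  refine ⟨z ^ M, pow_ne_zero _ z0, fun g hg => by rw [map_pow, zH g (C.fix_R ▸ hg)],
    fun Γ _ v hv => ?_⟩
  obtain ⟨Φ, hΦ⟩ : ∃ Φ : Valuation Ω Γ → Additive Γˣ, ∀ u, Φ u =
      ∑ z ∈ J, lg ((D.sec z).ds u C.s C.w (D.sec z) s w) - lg (D.S₀.ds u C.s C.w D.S₁ s w) -
        lg (D.S₁.ds u C.s C.w D.S₀ s w) +
        ∑ i : Fin 6, cc J.card i • lg (nr (vc u (C.σ ^ (i : ℕ))) (C.s - s) (C.w - w)) :=
    ⟨_, fun _ => rfl⟩
  have key : ∀ u : Valuation Ω Γ, Triv C.A u →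
      ∑ j : (Σ k, Fin (n k)) ⊕ Fin 6,
        Sum.elim (fun u : Σ k, Fin (n k) => ε u.1 * M' u.1) (fun i : Fin 6 => M * cc J.card i) j •
          lg (pv (vc u (Sum.elim (fun u : Σ k, Fin (n k) => θ u.1 * h u.1 u.2)
            (fun i : Fin 6 => C.σ ^ (i : ℕ)) j)) P) = M • Φ u := by
    intro u hu
    rw [Fintype.sum_sum_type, Fintype.sum_sigma, hΦ,
      ← hs _ fun T S => lg (T.ds u C.s C.w S s w), smul_add, Finset.smul_sum, Finset.smul_sum]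
    simp only [Sum.elim_inl, Sum.elim_inr]
    congr 1
    · refine Finset.sum_congr rfl fun k _ => ?_
      have hu' : Triv C.A (vc u (θ k)) := hu.vc (fix_le_st _ (hk k).2.1)
      rw [← Finset.smul_sum, Finset.sum_congr rfl fun i _ => congrArg lg
        (by rw [← vc_vc, hat.pv (hu'.vc (fix_le_st _ (hA k i)))]),
        Sx.nl (hk k).1 hat.1 (hg s gd k) hu' (hh k) (hm k),
        K1.ds_theta (hk k).1 hat.1 (hk k).2.1 (hk k).2.2.1 (hk k).2.2.2, ← hM k,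
        ← natCast_zsmul, ← natCast_zsmul, smul_smul, smul_smul]
      congr 1
      push_cast
      ring
    · refine Finset.sum_congr rfl fun i _ => ?_
      rw [hat.pv (K1.triv_pow hu i), mul_smul, natCast_zsmul]
  have z1 : (C.σ ^ 2) z ≠ 0 := (map_ne_zero _).2 z0
  simp only [smul_sub, Finset.sum_sub_distrib, ← vc_vc]
  rw [key v hv, key _ (K1.triv_pow hv 2), ← smul_sub, ← hz Γ v hv Φ hΦ, map_pow, map_pow, map_pow,
    lg_pow ((Valuation.ne_zero_iff v).2 z0), lg_pow ((Valuation.ne_zero_iff v).2 z1), smul_sub]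

end Pool.Agent.P.MP_ee618e_ag.X.Y
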