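import Pool.Agent.P.MP_ee618e_ag.Y.A3
import Pool.Agent.P.MP_ee618e_ag.Y.K1

/-! MN1: the main statement for the sextic curve over the base. -/

namespace Pool.Agent.P.MP_ee618e_ag.X.Y

open IsDedekindDomain
open scoped Classical

variable {Ω : Type} [Field Ω] [IsAlgClosed Ω]

omit [IsAlgClosed Ω] in
theorem mn1_T {ι : Type} [Fintype ι] (g : ι → Au Ω) (X : ι → Finset Ω) :
    ∃ T : Finset Ω, ∀ i, ∀ t ∈ X i, g i t ∈ T :=
  ⟨Finset.univ.biUnion fun i => (X i).image (g i), fun i _ ht =>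
    Finset.mem_biUnion.2 ⟨i, Finset.mem_univ _, Finset.mem_image_of_mem _ ht⟩⟩

omit [IsAlgClosed Ω] in
theorem mn1_conj {k X T : Set Ω} {γ σ : Au Ω} (hγ : γ ∈ Fix k) (hσ : σ ∈ Fix (k ∪ T))
    (hX : ∀ t ∈ X, t ∈ k ∨ γ t ∈ T) : γ⁻¹ * σ * γ ∈ Fix X := by
  intro t ht
  have e : σ (γ t) = γ t := hσ _ ((hX t ht).imp_left fun h => by rwa [hγ t h])
  rw [au_mul, au_mul, e, au_inv, γ.symm_apply_apply]

omit [IsAlgClosed Ω] in
theorem mn1_on {x y : Ω} (h : On x y) (γ : Au Ω) : On (γ x) (γ y) := by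
  have e := congrArg γ h
  rwa [map_pow, map_add, map_pow, map_one] at e

omit [IsAlgClosed Ω] in
theorem mn1_twg {U : Type} {G : Subgroup (Au Ω)} {ρ : Au Ω} {g : U → Au Ω} (hρ : ρ ∈ G)
    (hg : ∀ u, g u ∈ G) (u : U × Bool × Bool) : twg ρ g u ∈ G := by
  have e : ∀ b : Bool, (if b then ρ else 1) ∈ G := fun b => by
    cases b
    · exact G.one_mem
    · exact hρ
  exact G.mul_mem (G.mul_mem (e _) (hg _)) (e _)

theorem mn1_twn {U : Type} (a : ℤ) (n : U → ℤ) (u : U × Bool × Bool) :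
    twn (fun i => a * n i) u = a * twn n u := by
  unfold twn
  ring

/-- Take `K, x, y, θ, ε, J` from `kill`, `B`, `T j` from `exists_base` (`acl_exch`) with
`T₁ = T₀ ∪ {C.s, C.w}`, `S = k ∪ B`. `exists_rep` for `Fix (A ∪ {x j, y j})` and `T j` gives `h j`;
`Rep.card` gives `m j` (`H ≤ Fix (A ∪ {x j, y j})` by `fix_closure`), `Rep.up` and `ej` (`indep_two`)
give `M j`. Put `M = ∏ m j * M j`, `M' j = M j * ∏_{i ≠ j} m i * M i`. `exists_rep` for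
`Fix (S ∪ {C.s, C.w})` and `T₀` gives `s`; `ra_cores` for `C.fam`. Let `Q` be the set of the points
`γ (x j, y j)`, `γ = θ j`, `σ ^ 2 θ j`, and `T` a finite set which contains `B`, `T₁`, the coordinates of
`Q`, the sets `g u (B ∪ T₁)` for all terms `g u` of the operator, and `γ (B ∪ {x j, y j} ∪ T j)`.
`tw_split`, `epart`, `dec_of`, `Dec.sub`. -/
theorem Sx.main (C : Sx Ω) {k : Subfield Ω} [IsAlgClosed k] {n : Ω} (hn : n ∉ k)
    (hA : (C.A : Set Ω) = Acl ((k : Set Ω) ∪ {n})) (F₀ : Finset Ω) (hF : ↑F₀ ⊆ (C.A : Set Ω))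
    (T₀ : Finset Ω) (hT : ∀ g ∈ Fix ((k : Set Ω) ∪ {n, C.s}), ∀ t ∈ T₀, g t ∈ T₀) :
    ∃ (m : ℕ) (s : Fin m → Au Ω) (M J : ℕ) (Q : Set (Ω × Ω)) (B T : Finset Ω), M ≠ 0 ∧
      (∀ i, s i ∈ Fix ((k : Set Ω) ∪ F₀ ∪ {n, C.s, C.w})) ∧ (∃ i, s i ∈ Fix (T₀ : Set Ω)) ∧
      (∀ p ∈ Q, On p.1 p.2 ∧ p.1 ∈ T ∧ p.2 ∈ T) ∧ B ⊆ T ∧ T₀ ⊆ T ∧
      ∀ (ℓ : ℕ) [Fact ℓ.Prime], ℓ ≠ 2 → (ℓ : Ω) ≠ 0 → ∀ (S₁ S₂ : Set Ω) (χ ψ : Au Ω → ℤ_[ℓ]),
        S₁ ⊆ (k : Set Ω) ∪ T₀ → S₂ ⊆ (k : Set Ω) ∪ T₀ → Lat ℓ k S₁ χ → Lat ℓ k S₂ ψ →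
        Dec ℓ k Q ((k : Set Ω) ∪ B) (Fix ((k : Set Ω) ∪ T)) fun σ τ =>
          M * ∑ i, ∑ u, twn (cc J) u *
            (cj (twg (C.σ ^ 2) (fun j : Fin 6 => C.σ ^ (j : ℕ)) u * s i) χ σ *
              cj (twg (C.σ ^ 2) (fun j : Fin 6 => C.σ ^ (j : ℕ)) u * s i) ψ τ) := by
  obtain ⟨K, _, x, y, θ, ε, J, hK, kill⟩ := C.kill
  have hx : ∀ j, Acl ((C.A : Set Ω) ∪ {x j}) = Set.univ := fun j => C.acl_exch (hK j).2.1
  obtain ⟨B, Tj, BA, nB, FB, hTj⟩ := exists_base hA x y hx F₀ hF (T₀ ∪ {C.s, C.w})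
  have kA : (k : Set Ω) ⊆ C.A := hA ▸ Set.subset_union_left.trans (subset_acl _)
  have SA : (k : Set Ω) ∪ B ⊆ C.A := Set.union_subset kA BA
  have kS : (k : Set Ω) ⊆ (k : Set Ω) ∪ B := Set.subset_union_left
  have nS : n ∈ (k : Set Ω) ∪ B := Or.inr nB
  have big : ∀ {z : Ω} {X : Set Ω}, Acl ((C.A : Set Ω) ∪ {z}) = Set.univ → (k : Set Ω) ⊆ X →
      n ∈ X → z ∈ X → Acl X = Set.univ := fun {z X} h h1 h2 h3 => by
    refine Set.eq_univ_of_univ_subset (h ▸ acl_subset (Set.union_subset ?_ ?_))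
    · rw [hA]
      exact acl_mono (Set.union_subset h1 (Set.singleton_subset_iff.2 h2))
    · exact Set.singleton_subset_iff.2 (subset_acl _ h3)
  choose nn h hrep using fun j => exists_rep (G := Fix ((C.A : Set Ω) ∪ {x j, y j}))
    (fo_fix (Set.eq_univ_of_univ_subset (hx j ▸ acl_mono (Set.union_subset_union_right _
      (by simp))))) (Tj j)
  have sT : ∀ j, C.s ∈ Tj j := fun j => (hTj j).1 (by simp)
  have wT : ∀ j, C.w ∈ Tj j := fun j => (hTj j).1 (by simp)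
  have oT : ∀ j, T₀ ⊆ Tj j := fun j => Finset.subset_union_left.trans (hTj j).1
  choose m m0 hm using fun j => (hrep j).card (H := C.H) (by
      rw [Sx.H, ← fix_closure]
      refine fix_anti (Set.union_subset (Set.subset_union_left.trans Subfield.subset_closure) ?_)
      rintro _ (rfl | rfl)
      · exact (hK j).2.2.2.1
      · exact (hK j).2.2.2.2) (by
      rintro σ ⟨h1, h2⟩ t (ht | rfl | rfl)
      · exact h1 t (Or.inl ht)
      · exact h2 _ (sT j)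
      · exact h2 _ (wT j))
  choose Mj Mj0 hE using fun j => ej (S := (k : Set Ω) ∪ B) C.h6 (hK j).1
    (indep_two hn (hA ▸ (hK j).2.1))
    (big (hx j) Set.subset_union_left (Or.inr (by simp)) (Or.inr (by simp))) kS nS (hA ▸ SA)
    (hTj j).2.1 ((hrep j).up (fix_anti (Set.union_subset_union_left _ SA)) (hTj j).2.2)
  have hKi := kill nn h m (fun j => (∏ i ∈ Finset.univ.erase j, m i * Mj i) * Mj j)
    (∏ i, m i * Mj i) (fun j => by
      rw [← Finset.mul_prod_erase _ _ (Finset.mem_univ j)]; ring) (fun j => (hrep j).1) hm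
  have h0 : Acl ((k : Set Ω) ∪ B ∪ {C.s, C.w}) = Set.univ :=
    big C.alg (kS.trans Set.subset_union_left) (Or.inl nS) (Or.inr (by simp))
  have sub0 : (k : Set Ω) ∪ {n, C.s} ⊆ (k : Set Ω) ∪ B ∪ {C.s, C.w} := by
    rintro t (ht | rfl | rfl)
    · exact Or.inl (Or.inl ht)
    · exact Or.inl nS
    · exact Or.inr (by simp)
  obtain ⟨mm, s, hs⟩ := exists_rep (fo_fix h0) T₀
  obtain ⟨M₁, M₁0, RA⟩ := ra_cores (C.fam k hA kS nS SA)
    (td_of_acl k ![C.s, n] (big C.alg Set.subset_union_left (Or.inr (Set.mem_range_self 1))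
      (Or.inr (Set.mem_range_self 0))).ge) rfl h0 (kS.trans Set.subset_union_left)
    (fun g hg => hT g (fix_anti sub0 hg)) hs
  have ρA : C.σ ^ 2 ∈ Fix (C.A : Set Ω) := (C.σ_pow 2).1
  have gA := mn1_twg (g := Sum.elim (fun u : Σ j, Fin (nn j) => θ u.1 * h u.1 u.2)
      fun i : Fin 6 => C.σ ^ (i : ℕ)) ρA (by
    rintro (u | i)
    · exact mul_mem (hK _).2.2.1 (fix_anti Set.subset_union_left ((hrep _).1 _))
    · exact (C.σ_pow i).1)
  obtain ⟨Ta, hTa⟩ := mn1_T (twg (C.σ ^ 2) (Sum.elim (fun u : Σ j, Fin (nn j) => θ u.1 * h u.1 u.2)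
      fun i : Fin 6 => C.σ ^ (i : ℕ))) fun _ => B ∪ (T₀ ∪ {C.s, C.w})
  obtain ⟨Tb, hTb⟩ := mn1_T θ fun j => B ∪ {x j, y j} ∪ Tj j
  obtain ⟨Tc, hTc⟩ := mn1_T (fun j => C.σ ^ 2 * θ j) fun j => B ∪ {x j, y j} ∪ Tj j
  obtain ⟨T, t1, t2, t3⟩ : ∃ T : Finset Ω, B ∪ (T₀ ∪ {C.s, C.w}) ⊆ T ∧ Ta ⊆ T ∧
      ∀ j γ, γ = θ j ∨ γ = C.σ ^ 2 * θ j → ∀ t ∈ B ∪ {x j, y j} ∪ Tj j, γ t ∈ T := by
    refine ⟨B ∪ (T₀ ∪ {C.s, C.w}) ∪ (Ta ∪ (Tb ∪ Tc)), Finset.subset_union_left,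
      Finset.subset_union_left.trans Finset.subset_union_right, ?_⟩
    rintro j _ (rfl | rfl) t ht
    · exact Finset.mem_union_right _ (Finset.mem_union_right _
        (Finset.mem_union_left _ (hTb j t ht)))
    · exact Finset.mem_union_right _ (Finset.mem_union_right _
        (Finset.mem_union_right _ (hTc j t ht)))
  have sub1 : (k : Set Ω) ∪ B ∪ {C.s, C.w} ⊆ (k : Set Ω) ∪ T := by
    rintro t ((ht | ht) | rfl | rfl)
    · exact Or.inl ht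
    · exact Or.inr (t1 (Finset.mem_union_left _ ht))
    · exact Or.inr (t1 (by simp))
    · exact Or.inr (t1 (by simp))
  refine ⟨mm, s, M₁ * ∏ i, m i * Mj i, J,
    {p | ∃ j γ, (γ = θ j ∨ γ = C.σ ^ 2 * θ j) ∧ p = (γ (x j), γ (y j))}, B, T,
    mul_ne_zero M₁0 (Finset.prod_ne_zero_iff.2 fun i _ => mul_ne_zero (m0 i) (Mj0 i)),
    fun i => fix_anti ?_ (hs.1 i), ?_, ?_, Finset.subset_union_left.trans t1,
    (Finset.subset_union_left.trans Finset.subset_union_right).trans t1, ?_⟩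
  · rintro t ((ht | ht) | rfl | ht)
    · exact Or.inl (Or.inl ht)
    · exact Or.inl (Or.inr (FB ht))
    · exact Or.inl nS
    · exact Or.inr ht
  · obtain ⟨i, hi, -⟩ := hs.2 1 (one_mem _)
    rw [mul_one] at hi
    exact ⟨i, inv_mem_iff.1 hi⟩
  · rintro _ ⟨j, γ, hγ, rfl⟩
    exact ⟨mn1_on (hK j).1 γ, t3 j γ hγ _ (by simp), t3 j γ hγ _ (by simp)⟩
  intro ℓ _ h2 hℓ S₁ S₂ χ ψ s1 s2 hχ hψ
  have fx : ∀ {G : Subgroup (Au Ω)} {X : Set Ω}, G ≤ Fix (k : Set Ω) → G ≤ Fix (T₀ : Set Ω) →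
      X ⊆ (k : Set Ω) ∪ T₀ → G ≤ Fix X := fun a b c =>
    (le_inf a b).trans ((fix_union _ _).ge.trans (fix_anti c))
  have k0 : Fix ((k : Set Ω) ∪ B ∪ {C.s, C.w}) ≤ Fix (k : Set Ω) :=
    fix_anti (kS.trans Set.subset_union_left)
  have ra := RA _ _ _ ((k : Set Ω) ∪ T) gA hKi Set.subset_union_left (fix_anti sub1)
    (Set.eq_univ_of_univ_subset (h0 ▸ acl_mono sub1)) (fun u σ hσ => by
      refine ⟨mn1_conj (fix_anti kA (gA u)) hσ ?_, mn1_conj (fix_anti kA (gA u)) hσ ?_⟩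
      · rintro t ((ht | ht) | rfl | rfl)
        · exact Or.inl ht
        · exact Or.inr (t2 (hTa u t (Finset.mem_union_left _ ht)))
        · exact Or.inr (t2 (hTa u _ (by simp)))
        · exact Or.inr (t2 (hTa u _ (by simp)))
      · exact fun t ht => Or.inr (t2 (hTa u t
          (Finset.mem_union_right _ (Finset.mem_union_left _ ht)))))
    ℓ hℓ S₁ S₂ χ ψ (fx (inf_le_left.trans k0) inf_le_right s1)
    (fx (inf_le_left.trans k0) inf_le_right s2) hχ hψ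
  have ep := fun i => epart (ℓ := ℓ) (S₁ := S₁) (S₂ := S₂) kS (θ := θ) (fun j => hE j ℓ h2 hℓ)
    (ρ := C.σ ^ 2) (s := s i) (fix_anti SA ρA) (fun j => fix_anti SA (hK j).2.2.1) (k0 (hs.1 i))
    (V' := Fix ((k : Set Ω) ∪ T))
    (Q := {p | ∃ j γ, (γ = θ j ∨ γ = C.σ ^ 2 * θ j) ∧ p = (γ (x j), γ (y j))})
    (fun j γ hγ => by
      have γk : γ ∈ Fix (k : Set Ω) := by
        refine fix_anti kA ?_
        rcases hγ with rfl | rfl
        · exact (hK j).2.2.1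
        · exact mul_mem ρA (hK j).2.2.1
      refine ⟨⟨j, γ, hγ, rfl⟩, fun σ hσ => ⟨mn1_conj γk hσ ?_, mn1_conj γk hσ ?_⟩⟩
      · rintro t ((ht | ht) | rfl | rfl)
        · exact Or.inl ht
        · exact Or.inr (t3 j γ hγ t (Finset.mem_union_left _ (Finset.mem_union_left _ ht)))
        · exact Or.inr (t3 j γ hγ _ (by simp))
        · exact Or.inr (t3 j γ hγ _ (by simp))
      · exact fun t ht => Or.inr (t3 j γ hγ t (Finset.mem_union_right _ ht)))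
    (fun j γ hγ => by
      have γk : γ ∈ Fix ((k : Set Ω) ∪ {n, C.s}) := by
        have e := fix_anti sub0 (hs.1 i)
        rcases hγ with rfl | rfl
        · exact e
        · refine mul_mem ?_ e
          rintro t (ht | rfl | rfl)
          · exact ρA t (kA ht)
          · exact ρA _ (SA nS)
          · exact (C.σ_pow 2).2.1
      have im : ∀ X ⊆ (k : Set Ω) ∪ T₀, γ '' X ⊆ (k : Set Ω) ∪ T₀ := by
        rintro X hX _ ⟨t, ht, rfl⟩
        rcases hX ht with e | e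
        · exact Or.inl (by rwa [γk t (Or.inl e)])
        · exact Or.inr (hT γ γk t e)
      have a1 : Fix ((k : Set Ω) ∪ B ∪ {x j, y j}) ⊓ Fix (Tj j : Set Ω) ≤ Fix (k : Set Ω) :=
        inf_le_left.trans (fix_anti (kS.trans Set.subset_union_left))
      have a2 : Fix ((k : Set Ω) ∪ B ∪ {x j, y j}) ⊓ Fix (Tj j : Set Ω) ≤ Fix (T₀ : Set Ω) :=
        inf_le_right.trans (fix_anti (Finset.coe_subset.2 (oT j)))
      exact ⟨fx a1 a2 (im _ s1), fx a1 a2 (im _ s2)⟩)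
    hχ hψ fun j => ε j * (∏ i ∈ Finset.univ.erase j, m i * Mj i : ℕ)
  refine ((dec_of ra).sub ((Dec.sum Finset.univ fun i _ => ep i).mul M₁)).congr fun σ _ τ _ => ?_
  rw [← mul_sub, ← Finset.sum_sub_distrib, Nat.cast_mul, mul_assoc]
  congr 1
  rw [Finset.mul_sum]
  refine Finset.sum_congr rfl fun i _ => ?_
  rw [tw_split (C.σ ^ 2) _ _ _ _ fun g => cj (g * s i) χ σ * cj (g * s i) ψ τ]
  simp only [Nat.cast_mul, mul_assoc, add_sub_cancel_left, mn1_twn, Finset.mul_sum, Int.cast_mul,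
    Int.cast_natCast]

end Pool.Agent.P.MP_ee618e_ag.X.Y
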