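import Pool.Agent.P.MP_ee618e_ag.Y.BR
import Pool.Agent.P.MP_ee618e_ag.Y.MN1
import Pool.Agent.P.MP_ee618e_ag.Y.G1

/-! FI1: the main statement with coefficients in a finite extension of Q_l. -/

namespace Pool.Agent.P.MP_ee618e_ag.X.Y

open IsDedekindDomain
open scoped Classical

variable {Ω : Type} [Field Ω] {Λ : Type} [NormedField Λ] {S S' T : Set Ω}

theorem Cont.mono {β : Au Ω → Λ} (h : Cont S β) (hS : S ⊆ T) : Cont T β := by
  intro ε hε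
  obtain ⟨F, hF, e⟩ := h ε hε
  have hu : cst Ω ∪ S ⊆ cst Ω ∪ T := Set.union_subset_union_right _ hS
  exact ⟨F, fun t ht => acl_mono hu (hF t ht),
    fun σ hσ τ hτ => e σ (fix_anti hu hσ) τ (fix_anti hu hτ)⟩

variable (Λ) in
/-- decomposable classes -/
def DecM (Q : Set (Ω × Ω)) (B T : Set Ω) : Submodule Λ (Au Ω → Au Ω → Λ) where
  carrier := {c | ∃ (m : ℕ) (p : Fin m → Ω × Ω) (κ ψ : Fin m → Au Ω → Λ),
    (∀ j, p j ∈ Q ∧ H1 {(p j).1, (p j).2} (κ j) ∧ H1 B (ψ j)) ∧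
      (fun σ τ => c σ τ - ∑ j, κ j σ * ψ j τ) ∈ CobM T}
  add_mem' := by
    rintro a b ⟨m, p, κ, ψ, h1, h2⟩ ⟨m', p', κ', ψ', h1', h2'⟩
    refine ⟨m + m', Fin.append p p', Fin.append κ κ', Fin.append ψ ψ', fun j => ?_, ?_⟩
    · induction j using Fin.addCases with
      | left j => simpa only [Fin.append_left] using h1 j
      | right j => simpa only [Fin.append_right] using h1' j
    · convert add_mem h2 h2' using 1
      funext σ τ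
      simp only [Fin.sum_univ_add, Fin.append_left, Fin.append_right, Pi.add_apply]
      ring
  zero_mem' := ⟨0, Fin.elim0, Fin.elim0, Fin.elim0, fun j => j.elim0, by
    convert zero_mem (CobM (Λ := Λ) T) using 1
    funext σ τ
    simp⟩
  smul_mem' := by
    rintro a b ⟨m, p, κ, ψ, h1, h2⟩
    refine ⟨m, p, fun j => a • κ j, ψ, fun j => ⟨(h1 j).1, (h1 j).2.1.smul a, (h1 j).2.2⟩, ?_⟩
    convert Submodule.smul_mem _ a h2 using 1
    funext σ τ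
    simp only [Pi.smul_apply, smul_eq_mul, mul_sub, Finset.mul_sum, mul_assoc]

theorem cobM_le (Q : Set (Ω × Ω)) (B T : Set Ω) : CobM T ≤ DecM Λ Q B T := by
  intro c hc
  refine ⟨0, Fin.elim0, Fin.elim0, Fin.elim0, fun j => j.elim0, ?_⟩
  convert hc using 1
  funext σ τ
  simp

variable [IsAlgClosed Ω] {p : ℕ} [Fact p.Prime] [CharP Ω p] {ℓ : ℕ} [Fact ℓ.Prime]
  [NormedAlgebra ℚ_[ℓ] Λ]

/-- `lat_h1`, `cobL_up`, `kk_eq` -/
theorem Dec.up (p : ℕ) [Fact p.Prime] [CharP Ω p] (hℓ : (ℓ : Ω) ≠ 0)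
    (hT : Acl (cst Ω ∪ T) = Set.univ) {Q : Set (Ω × Ω)} {B : Set Ω} {c : Au Ω → Au Ω → ℤ_[ℓ]}
    (h : Dec ℓ (kk Ω) Q ((kk Ω : Set Ω) ∪ B) (Fix ((kk Ω : Set Ω) ∪ T)) c) :
    (fun σ τ => up Λ (c σ τ)) ∈ DecM Λ Q B T := by
  obtain ⟨m, z, κ, ψ, h1, h2⟩ := h
  rw [kk_eq p] at h1 h2
  refine ⟨m, z, fun j σ => Y.up Λ (κ j σ), fun j σ => Y.up Λ (ψ j σ),
    fun j => ⟨(h1 j).1, lat_h1 p (h1 j).2.1, lat_h1 p (h1 j).2.2⟩, ?_⟩
  have h3 := cobL_up (Λ := Λ) p hℓ hT h2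
  simpa only [map_sub, map_sum, map_mul] using h3

variable [FiniteDimensional ℚ_[ℓ] Λ]

/-- `bil_ind` for the bilinear map `(χ, ψ) ↦ χ σ * ψ τ + ψ σ * χ τ` (`LinearMap.mk₂`), `cob_anti` at
every level, `cobL_up` -/
theorem cobM_anti (p : ℕ) [Fact p.Prime] [CharP Ω p] (hℓ : (ℓ : Ω) ≠ 0)
    (hT : Acl (cst Ω ∪ T) = Set.univ) (hS : S ⊆ T) (hS' : S' ⊆ T) {χ ψ : Au Ω → Λ} (hχ : H1 S χ)
    (hψ : H1 S' ψ) : (fun σ τ => χ σ * ψ τ + ψ σ * χ τ) ∈ CobM T := by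
  let Bl : (Au Ω → Λ) →ₗ[Λ] (Au Ω → Λ) →ₗ[Λ] (Au Ω → Au Ω → Λ) :=
    LinearMap.mk₂ Λ (fun χ ψ σ τ => χ σ * ψ τ + ψ σ * χ τ)
      (fun _ _ _ => by funext σ τ; simp only [Pi.add_apply]; ring)
      (fun _ _ _ => by funext σ τ; simp only [Pi.smul_apply, smul_eq_mul]; ring)
      (fun _ _ _ => by funext σ τ; simp only [Pi.add_apply]; ring)
      (fun _ _ _ => by funext σ τ; simp only [Pi.smul_apply, smul_eq_mul]; ring)
  refine bil_ind (ℓ := ℓ) p (CobM T) Bl (fun χ ψ h h' => ?_) hχ hψ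
  have u1 := fix_anti (Set.union_subset_union_right (cst Ω) hS)
  have u2 := fix_anti (Set.union_subset_union_right (cst Ω) hS')
  have h3 := cobL_up (Λ := Λ) p hℓ hT (c := fun σ τ => χ σ * ψ τ + ψ σ * χ τ) fun n => by
    simpa only [map_add, map_mul] using cob_anti ((h n).hom.mono u1) ((h' n).hom.mono u2)
      ((h n).sm.mono u1 subset_rfl) ((h' n).sm.mono u2 subset_rfl)
  simp only [map_add, map_mul] at h3
  exact h3

/-- the exponent of a term -/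
def FI1.ex (u : Fin 6 × Bool × Bool) : ℕ := (if u.2.1 then 2 else 0) + u.1 + if u.2.2 then 2 else 0

omit [IsAlgClosed Ω] in
theorem FI1.twg_eq (σ : Au Ω) (u : Fin 6 × Bool × Bool) :
    twg (σ ^ 2) (fun j : Fin 6 => σ ^ (j : ℕ)) u = σ ^ FI1.ex u := by
  obtain ⟨j, a, b⟩ := u
  cases a <;> cases b <;> simp [twg, FI1.ex, pow_add]

theorem FI1.sum_eq {R : Type} [Field R] {ξ : R} (hξ : IsPrimitiveRoot ξ 6) (J : ℕ) :
    ∑ u, (twn (cc J) u : R) * ξ ^ FI1.ex u = -((1 - ξ ^ 2) ^ 2 * (1 + J)) := by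
  have h3 : ξ ^ 3 = -1 := (hξ.pow (by norm_num) (show 6 = 3 * 2 by norm_num)).eq_neg_one_of_two_right
  have h2 : ξ ^ 2 - 1 ≠ 0 := sub_ne_zero.2 (hξ.pow_ne_one_of_pos_of_lt (by norm_num) (by norm_num))
  have h4 : ξ ^ 4 + ξ ^ 2 + 1 = 0 := by
    refine mul_left_cancel₀ h2 ?_
    linear_combination hξ.pow_eq_one
  simp [Fintype.sum_prod_type, Fin.sum_univ_six, twn, cc, FI1.ex]
  linear_combination (1 - ξ ^ 2) ^ 2 * (2 * h4 + 3 * h3)

omit [IsAlgClosed Ω] in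
theorem FI1.pow_app {σ : Au Ω} {c x : Ω} (hc : σ c = c) (hx : σ x = c * x) (n : ℕ) :
    (σ ^ n) x = c ^ n * x := by
  induction n with
  | zero => simp
  | succ n ih => rw [pow_succ', au_mul, ih, map_mul, map_pow, hc, hx, pow_succ, mul_assoc]

variable {r : ℕ} (D : Cfg Ω (p ^ r))

/-- `exists_sx`, `Sx.main` with `F₀ = {κ}`, `T₀ = D.T₀` (`T₀_st`, `n_facts`), `Dec.up`, `bil_ind`. The
index set is `Fin m × (Fin 6 × Bool × Bool)`, `γ = twg … u * s i`, `ν = twn (cc J) u`, and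
`e = j + 2 a + 2 b` for `u = (j, a, b)`: `s i` fixes `w 0 * w 1 = C.w κ / C.s`, and `σ` multiplies it
by `ζ`. The element `γ` fixes `t 0`, `t 1` iff `s i` does (`t_cases`). The last sum is
`n₁ (1 - ξ ^ 2) ^ 2 (4 - J + 2 ξ ^ 2 + 3 ξ ^ 3 + 2 ξ ^ 4) = -n₁ (1 - ξ ^ 2) ^ 2 (1 + J)`, where `n₁ > 0` is
the number of `i` such that `s i` fixes `t 0` (`ξ ^ 2 - ξ + 1 = 0`, `charZero_of`). -/
theorem Cfg.mainL (hr : 0 < r) (h2 : ℓ ≠ 2) (hℓ : ℓ ≠ p) {ξ : Λ} (hξ : IsPrimitiveRoot ξ 6) :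
    ∃ (ι : Type) (_ : Fintype ι) (γ : ι → Au Ω) (ν : ι → Λ) (e : ι → ℕ) (Q : Set (Ω × Ω))
      (B T : Finset Ω), (∀ z ∈ Q, On z.1 z.2 ∧ z.1 ∈ T ∧ z.2 ∈ T) ∧ B ⊆ T ∧ D.T₀ ⊆ T ∧
      (∀ i, γ i ∈ Fix (kk Ω : Set Ω) ∧
        (γ i (D.t 0) = D.t 0 ∧ γ i (D.t 1) = D.t 1 ∧
          γ i (D.w 0 * D.w 1) = D.ζ ^ e i * (D.w 0 * D.w 1) ∨
        γ i (D.t 0) = D.t 1 ∧ γ i (D.t 1) = D.t 0)) ∧
      (∑ i, if γ i (D.t 0) = D.t 0 then ν i * ξ ^ e i else 0) ≠ 0 ∧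
      ∀ χ ψ : Au Ω → Λ, H1 (D.S 0) χ → H1 (D.S 1) ψ →
        (fun σ τ => ∑ i, ν i * (cj (γ i) χ σ * cj (γ i) ψ τ)) ∈ DecM Λ Q B T := by
  obtain ⟨C, κ, hA, hζ, hκ, hκ0, hs, hw, t0, t1⟩ := D.exists_sx hr
  have := kk_algClosed (Ω := Ω) p
  have := charZero_of (Λ := Λ) (ℓ := ℓ)
  obtain ⟨m, s, M, J, Q, B, T, hM, h1, ⟨i0, h2'⟩, h3, h4, h5, h6⟩ := C.main D.n_facts.1 hA {κ}
    (by simpa using hκ) D.T₀ fun g hg => D.T₀_st hr hs hg
  have hℓ' : (ℓ : Ω) ≠ 0 := fun e => hℓ ((Nat.prime_dvd_prime_iff_eq Fact.out Fact.out).1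
    ((CharP.cast_eq_zero_iff Ω p ℓ).1 e)).symm
  have s0 : C.s ≠ 0 := left_ne_zero_of_mul_eq_one hs
  have hσk : C.σ ∈ Fix (kk Ω : Set Ω) := fun x hx =>
    C.σA x (by rw [hA]; exact subset_acl _ (Or.inl hx))
  have hσw : C.σ (D.w 0 * D.w 1) = D.ζ * (D.w 0 * D.w 1) := by
    have e := congrArg C.σ hw
    rw [map_mul, map_mul _ _ C.s, C.σw, C.σA κ hκ, C.σs, hζ, mul_assoc, hw, ← mul_assoc] at e
    exact (mul_right_cancel₀ s0 e).symm
  have hsw : ∀ i, s i (D.w 0 * D.w 1) = D.w 0 * D.w 1 := fun i => by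
    have e := congrArg (s i) hw
    rw [map_mul, map_mul _ _ C.s, h1 i C.w (by simp), h1 i κ (by simp), h1 i C.s (by simp), hw] at e
    exact (mul_right_cancel₀ s0 e).symm
  have hst : ∀ i, s i ∈ Fix ((kk Ω : Set Ω) ∪ {D.t 0 * D.t 1, C.s}) := fun i => by
    rintro x (hx | rfl | rfl)
    · exact h1 i x (Or.inl (Or.inl hx))
    · exact h1 i _ (by simp)
    · exact h1 i _ (by simp)
  have p0 : ∀ n : ℕ, (C.σ ^ n) (D.t 0) = D.t 0 := fun n => by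
    simpa using FI1.pow_app (map_one C.σ) (t0.trans (one_mul _).symm) n
  have p1 : ∀ n : ℕ, (C.σ ^ n) (D.t 1) = D.t 1 := fun n => by
    simpa using FI1.pow_app (map_one C.σ) (t1.trans (one_mul _).symm) n
  refine ⟨Fin m × (Fin 6 × Bool × Bool), inferInstance, fun z => C.σ ^ FI1.ex z.2 * s z.1,
    fun z => M * (twn (cc J) z.2 : Λ), fun z => FI1.ex z.2, Q, B, T, h3, h4, h5, fun z => ⟨?_, ?_⟩,
    ?_, fun χ ψ hχ hψ => ?_⟩
  · exact mul_mem (pow_mem hσk _) fun x hx => hst z.1 x (Or.inl hx)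
  · rcases D.t_cases hs (hst z.1) with e | e
    · refine Or.inl ⟨?_, ?_, ?_⟩
      · rw [au_mul, e.1, p0]
      · rw [au_mul, e.2, p1]
      · rw [au_mul, hsw, FI1.pow_app (hσk _ (D.ζ_mem hr)) hσw]
    · exact Or.inr ⟨by rw [au_mul, e.1, p1], by rw [au_mul, e.2, p0]⟩
  · have e : ∀ z : Fin m × (Fin 6 × Bool × Bool),
        (C.σ ^ FI1.ex z.2 * s z.1) (D.t 0) = D.t 0 ↔ s z.1 (D.t 0) = D.t 0 := fun z => by
      rw [au_mul]
      nth_rewrite 2 [← p0 (FI1.ex z.2)]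
      exact (C.σ ^ FI1.ex z.2).injective.eq_iff
    have e2 : ∀ i : Fin m, (∑ u, if s i (D.t 0) = D.t 0 then
        M * (twn (cc J) u : Λ) * ξ ^ FI1.ex u else 0) =
        (if s i (D.t 0) = D.t 0 then 1 else 0) * (M * -((1 - ξ ^ 2) ^ 2 * (1 + J))) := fun i => by
      split_ifs
      · rw [one_mul, ← FI1.sum_eq hξ, Finset.mul_sum]
        simp only [mul_assoc]
      · simp
    simp only [e]
    rw [Fintype.sum_prod_type]
    simp only [e2]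
    rw [← Finset.sum_mul, Finset.sum_boole]
    refine mul_ne_zero (Nat.cast_ne_zero.2 (Finset.card_ne_zero.2 ⟨i0, by
      simpa using h2' _ (D.sub_T₀ 0).1⟩)) (mul_ne_zero (Nat.cast_ne_zero.2 hM) (neg_ne_zero.2
        (mul_ne_zero (pow_ne_zero _ (sub_ne_zero.2 ?_)) ?_)))
    · exact (hξ.pow_ne_one_of_pos_of_lt (by norm_num) (by norm_num)).symm
    · exact_mod_cast (show 1 + J ≠ 0 by omega)
  · have hT : Acl (cst Ω ∪ (T : Set Ω)) = Set.univ := by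
      refine Set.eq_univ_of_univ_subset (D.acl_t.ge.trans (acl_mono ?_))
      rw [kk_eq p]
      refine Set.union_subset_union_right _ ?_
      rintro _ (rfl | rfl)
      exacts [h5 (D.sub_T₀ 0).1, h5 (D.sub_T₀ 1).1]
    have hS : ∀ i : Fin 2, cst Ω ∪ {D.t i, D.w i} ⊆ (kk Ω : Set Ω) ∪ D.T₀ := fun i => by
      rw [kk_eq p]
      refine Set.union_subset_union_right _ ?_
      rintro _ (rfl | rfl)
      exacts [(D.sub_T₀ i).1, (D.sub_T₀ i).2]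
    let Bl : (Au Ω → Λ) →ₗ[Λ] (Au Ω → Λ) →ₗ[Λ] (Au Ω → Au Ω → Λ) :=
      LinearMap.mk₂ Λ (fun χ ψ σ τ => ∑ z : Fin m × (Fin 6 × Bool × Bool),
        M * (twn (cc J) z.2 : Λ) * (cj (C.σ ^ FI1.ex z.2 * s z.1) χ σ *
          cj (C.σ ^ FI1.ex z.2 * s z.1) ψ τ))
      (fun _ _ _ => by
        funext σ τ
        simp only [Pi.add_apply, cj, add_mul, mul_add, Finset.sum_add_distrib])
      (fun _ _ _ => by
        funext σ τ
        simp only [Pi.smul_apply, cj, smul_eq_mul, Finset.mul_sum]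
        exact Finset.sum_congr rfl fun _ _ => by ring)
      (fun _ _ _ => by
        funext σ τ
        simp only [Pi.add_apply, cj, mul_add, Finset.sum_add_distrib])
      (fun _ _ _ => by
        funext σ τ
        simp only [Pi.smul_apply, cj, smul_eq_mul, Finset.mul_sum]
        exact Finset.sum_congr rfl fun _ _ => by ring)
    refine bil_ind (ℓ := ℓ) p (DecM Λ Q B T) Bl (fun χ ψ h h' => ?_) hχ hψ
    have h7 := Dec.up (Λ := Λ) p hℓ' hT (h6 ℓ h2 hℓ' _ _ χ ψ (hS 0) (hS 1) h h')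
    convert h7 using 1
    funext σ τ
    simp only [Bl, LinearMap.mk₂_apply, map_mul, map_sum, map_natCast, map_intCast, FI1.twg_eq,
      Finset.mul_sum, cj, mul_assoc]
    rw [Fintype.sum_prod_type]

end Pool.Agent.P.MP_ee618e_ag.X.Y
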