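import Pool.Agent.P.MP_ee618e_ag.Y.FI1

/-! FI2: the class on C x C is decomposable. -/

namespace Pool.Agent.P.MP_ee618e_ag.X.Y

open IsDedekindDomain
open scoped Classical

variable {Ω : Type} [Field Ω] {Λ : Type} [NormedField Λ] {p : ℕ} [Fact p.Prime] [CharP Ω p]
  {r : ℕ} (D : Cfg Ω (p ^ r))

namespace Cfg

/-- `w_map` twice; `ζ ^ (a + b) = ζ ^ e` gives `ξ ^ (a + b) = ξ ^ e` (`IsPrimitiveRoot.pow_inj`, or
`pow_eq_pow_iff_modEq` and `eq_orderOf`) -/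
theorem part (hr : 0 < r) {ξ : Λ} (hξ : IsPrimitiveRoot ξ 6) {χ ψ : Au Ω → Λ}
    (hχ : χ ∈ D.Part 0 ξ) (hψ : ψ ∈ D.Part 1 ξ) {γ : Au Ω} (hγ : γ ∈ Fix (kk Ω : Set Ω))
    (h0 : γ (D.t 0) = D.t 0) (h1 : γ (D.t 1) = D.t 1) {e : ℕ}
    (hw : γ (D.w 0 * D.w 1) = D.ζ ^ e * (D.w 0 * D.w 1)) (σ τ : Au Ω) :
    cj γ χ σ * cj γ ψ τ = ξ ^ e * (χ σ * ψ τ) := by
  obtain ⟨⟨a, ha⟩, -⟩ := D.w_map hr hγ h0
  obtain ⟨⟨b, hb⟩, -⟩ := D.w_map hr hγ h1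
  have g : ∀ i, γ (D.t i) = D.t i → γ ∈ Gal {D.t i} := fun i h => by
    rintro x (hx | rfl)
    · exact hγ x (by rwa [kk_eq p])
    · exact h
  have e1 : D.ζ ^ (a + b) = D.ζ ^ e := by
    refine mul_right_cancel₀ (mul_ne_zero (D.w_ne hr 0) (D.w_ne hr 1)) ?_
    rw [← hw, map_mul, ha, hb]
    ring
  have e2 : ξ ^ (a + b) = ξ ^ e := by
    have m : ∀ {R : Type} [Field R] {z : R}, IsPrimitiveRoot z 6 → ∀ k : ℕ, z ^ k = z ^ (k % 6) :=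
      fun hz k => by rw [← Nat.div_add_mod k 6, pow_add, pow_mul, hz.pow_eq_one, one_pow, one_mul,
        Nat.div_add_mod]
    rw [m D.hζ, m D.hζ e] at e1
    rw [m hξ, m hξ e, D.hζ.pow_inj (Nat.mod_lt _ (by norm_num)) (Nat.mod_lt _ (by norm_num)) e1]
  simp only [cj]
  rw [hχ a γ (g 0 h0) ha, hψ b γ (g 1 h1) hb, ← e2]
  ring

/-- `H1.cj`, `w_map`; `γ⁻¹ α⁻¹ γ α` fixes the constants and the coordinates, `H1.cj_self`; see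
`Geo.sw_eig` in `X/FIN1.lean` -/
theorem swap_eig (hr : 0 < r) {γ : Au Ω} (hγ : γ ∈ Fix (kk Ω : Set Ω)) (h0 : γ (D.t 0) = D.t 1)
    (h1 : γ (D.t 1) = D.t 0) {π : Λ} {χ : Au Ω → Λ} :
    (χ ∈ D.Eig 0 π → cj γ χ ∈ D.Eig 1 π) ∧ (χ ∈ D.Eig 1 π → cj γ χ ∈ D.Eig 0 π) := by
  have hk : γ ∈ St (cst Ω) := by
    rw [← kk_eq p]
    exact fix_le_st _ hγ
  have key : ∀ (i j : Fin 2) (i' j' : Fin 4), D.S i' = {D.t i, D.w i} → D.S j' = {D.t j, D.w j} →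
      γ (D.t i) = D.t j → χ ∈ D.Eig i' π → X.cj γ χ ∈ D.Eig j' π := by
    intro i j i' j' ei ej hij h
    obtain ⟨⟨a, ha⟩, hc⟩ := D.w_map hr hγ hij
    rw [← ei, ← ej] at hc
    refine ⟨h.1.cj hk hc, fun σ => ?_⟩
    have hS : ∀ x ∈ D.S i', D.α x = x ∧ D.α (γ x) = γ x := by
      rw [ei]
      rintro x (rfl | rfl)
      · exact ⟨(D.fix i).1, by rw [hij, (D.fix j).1]⟩
      · refine ⟨(D.fix i).2, ?_⟩
        rw [ha, map_mul, map_pow, (D.fix j).2, D.frob _ (by rw [← kk_eq p]; exact D.ζ_mem hr),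
          D.hζq]
    have hg : D.α * γ⁻¹ * D.α⁻¹ * γ ∈ Gal (D.S i') := by
      rintro x (hx | hx)
      · rw [← kk_eq p] at hx
        have h1 : D.α⁻¹ x ∈ (kk Ω : Set Ω) := ((St _).inv_mem D.α_st x).2 hx
        simp only [au_mul]
        rw [hγ x hx, (Fix _).inv_mem hγ _ h1, au_inv, RingEquiv.apply_symm_apply]
      · have h1 : D.α⁻¹ (γ x) = γ x := D.α.symm_apply_eq.2 (hS x hx).2.symm
        simp only [au_mul]
        rw [h1, au_inv, RingEquiv.symm_apply_apply, (hS x hx).1]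
    have h2 := congrFun (h.1.cj_self hg) (D.α * (γ⁻¹ * σ * γ) * D.α⁻¹)
    rw [h.2] at h2
    simp only [X.cj] at h2 ⊢
    rw [← h2]
    congr 1
    group
  exact ⟨key 0 1 0 1 rfl rfl h0, key 1 0 1 0 rfl rfl h1⟩

/-- `mainL`; for the indices which fix `t 0` use `part`, for the others `swap_eig` and `cobM_anti`
(`t 0 ≠ t 1`); unfold `DecM` -/
theorem coh [IsAlgClosed Ω] {ℓ : ℕ} [Fact ℓ.Prime] [NormedAlgebra ℚ_[ℓ] Λ]
    [FiniteDimensional ℚ_[ℓ] Λ] (hr : 0 < r) (h2 : ℓ ≠ 2) (hℓ : ℓ ≠ p) {ξ : Λ}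
    (hξ : IsPrimitiveRoot ξ 6) {l n : Λ} {χ ψ : Au Ω → Λ} (hχ : χ ∈ D.Part 0 ξ ∩ D.Eig 0 l)
    (hψ : ψ ∈ D.Part 1 ξ ∩ D.Eig 1 n) : ∃ c : Λ, c ≠ 0 ∧ ∃ a ∈ P2 (D.Eig 0 n) (D.Eig 1 l),
      ∀ b : Ten (Fin 2) (Fin 4 × Au Ω) Λ,
        (∀ σ τ, b ![(0, σ), (1, τ)] = c * (χ σ * ψ τ) + a σ τ) → D.Coh b := by
  obtain ⟨ι, _, γ, ν, e, Q, B, T, hQ, hB, hT0, hγ, hc, hm⟩ := D.mainL (Λ := Λ) hr h2 hℓ hξ
  have hℓ' : (ℓ : Ω) ≠ 0 := fun e => hℓ ((Nat.prime_dvd_prime_iff_eq Fact.out Fact.out).1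
    ((CharP.cast_eq_zero_iff Ω p ℓ).1 e)).symm
  have hS : ∀ i : Fin 2, ({D.t i, D.w i} : Set Ω) ⊆ T := by
    rintro i _ (rfl | rfl)
    exacts [hT0 (D.sub_T₀ i).1, hT0 (D.sub_T₀ i).2]
  have hT : Acl (cst Ω ∪ (T : Set Ω)) = Set.univ := by
    refine Set.eq_univ_of_univ_subset (D.acl_t.ge.trans (acl_mono ?_))
    rw [kk_eq p]
    refine Set.union_subset_union_right _ ?_
    rintro _ (rfl | rfl)
    exacts [hS 0 (by simp), hS 1 (by simp)]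
  have sw : ∀ i, γ i (D.t 0) ≠ D.t 0 →
      cj (γ i) χ ∈ D.Eig 1 l ∧ cj (γ i) ψ ∈ D.Eig 0 n := fun i h => by
    obtain ⟨g0, g1⟩ := (hγ i).2.resolve_left fun g => h g.1
    exact ⟨(D.swap_eig hr (hγ i).1 g0 g1).1 hχ.2, (D.swap_eig hr (hγ i).1 g0 g1).2 hψ.2⟩
  refine ⟨_, hc, ∑ i, if γ i (D.t 0) = D.t 0 then 0 else
    -ν i • fun σ τ => cj (γ i) ψ σ * cj (γ i) χ τ, Submodule.sum_mem _ fun i _ => ?_,
    fun b hb => ?_⟩
  · split_ifs with h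
    · exact zero_mem _
    · exact Submodule.smul_mem _ _ (Submodule.subset_span ⟨_, (sw i h).2, _, (sw i h).1, rfl⟩)
  · have h3 : (∑ i, if γ i (D.t 0) = D.t 0 then 0 else ν i • fun σ τ =>
        cj (γ i) χ σ * cj (γ i) ψ τ + cj (γ i) ψ σ * cj (γ i) χ τ) ∈ DecM Λ Q B T := by
      refine cobM_le Q B T (Submodule.sum_mem _ fun i _ => ?_)
      split_ifs with h
      · exact zero_mem _
      · exact Submodule.smul_mem _ _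
          (cobM_anti (ℓ := ℓ) p hℓ' hT (hS 1) (hS 0) (sw i h).1.1 (sw i h).2.1)
    obtain ⟨m, z, κ, ψ', h4, β, h5, h6⟩ := sub_mem (hm χ ψ hχ.2.1 hψ.2.1) h3
    refine ⟨m, fun j => (z j).1, fun j => (z j).2, B, T, κ, ψ', β, T.finite_toSet, hS 0, hS 1, hB,
      fun j => ⟨(hQ _ (h4 j).1).1, ?_, (h4 j).2.1, (h4 j).2.2⟩, h5, fun σ hσ τ hτ => ?_⟩
    · rintro _ (rfl | rfl)
      exacts [(hQ _ (h4 j).1).2.1, (hQ _ (h4 j).1).2.2]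
    · rw [← h6 σ hσ τ hτ, hb]
      congr 1
      simp only [Pi.sub_apply, Finset.sum_apply, Finset.sum_mul, ← Finset.sum_add_distrib,
        ← Finset.sum_sub_distrib]
      refine Finset.sum_congr rfl fun i _ => ?_
      split_ifs with h
      · rcases (hγ i).2 with g | g
        · rw [D.part hr hξ hχ.1 hψ.1 (hγ i).1 g.1 g.2.1 g.2.2]
          simp only [Pi.zero_apply]
          ring
        · have := D.gen.injective (h.symm.trans g.1)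
          simp at this
      · simp only [Pi.smul_apply, smul_eq_mul]
        ring

end Cfg

end Pool.Agent.P.MP_ee618e_ag.X.Y
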