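import Pool.Agent.P.MP_ee618e_ag.Y.FI2
import Pool.Agent.P.MP_ee618e_ag.Y.LA2

/-! FI3: the main theorem. -/

namespace Pool.Agent.P.MP_ee618e_ag.X.Y

open IsDedekindDomain Polynomial
open scoped Classical

section

variable {Ω : Type} [Field Ω] {Λ : Type} [NormedField Λ]

/-- the embedding of the summand number `i` -/
def emb (i : Fin 4) (χ : Au Ω → Λ) : Fin 4 × Au Ω → Λ := fun z => if z.1 = i then χ z.2 else 0

/-- functions of two variables as tensors -/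
def emb2 (i j : Fin 4) : (Au Ω → Au Ω → Λ) →ₗ[Λ] Ten (Fin 2) (Fin 4 × Au Ω) Λ where
  toFun c := fun z => if (z 0).1 = i ∧ (z 1).1 = j then c (z 0).2 (z 1).2 else 0
  map_add' a b := by
    funext z
    by_cases h : (z 0).1 = i ∧ (z 1).1 = j <;> simp [h]
  map_smul' a b := by
    funext z
    by_cases h : (z 0).1 = i ∧ (z 1).1 = j <;> simp [h]

theorem emb2_mem {i j : Fin 4} {U V : Set (Au Ω → Λ)} {U' V' : Set (Fin 4 × Au Ω → Λ)}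
    (hU : ∀ χ ∈ U, emb i χ ∈ U') (hV : ∀ χ ∈ V, emb j χ ∈ V') {c : Au Ω → Au Ω → Λ}
    (hc : c ∈ P2 U V) : emb2 i j c ∈ tens ![U', V'] := by
  have : P2 U V ≤ (tens ![U', V']).comap (emb2 i j) := by
    refine Submodule.span_le.2 ?_
    rintro _ ⟨χ, hχ, ψ, hψ, rfl⟩
    refine Submodule.subset_span ⟨![emb i χ, emb j ψ], ?_, ?_⟩
    · intro k
      fin_cases k
      · exact hU χ hχ
      · exact hV ψ hψ
    · funext z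
      by_cases h0 : (z 0).1 = i <;> by_cases h1 : (z 1).1 = j <;> simp [emb2, emb, h0, h1]
  exact this hc

theorem emb2_apply (i j : Fin 4) (c : Au Ω → Au Ω → Λ) (σ τ : Au Ω) :
    emb2 i j c ![(i, σ), (j, τ)] = c σ τ := by
  simp [emb2]

theorem emb2_ne {i j : Fin 4} {c : Au Ω → Au Ω → Λ} (h : c ≠ 0) : emb2 i j c ≠ 0 := by
  intro h0
  apply h
  funext σ τ
  rw [← emb2_apply i j c σ τ, h0]
  rfl

theorem emb_ne {i : Fin 4} {χ : Au Ω → Λ} (h : χ ≠ 0) : emb i χ ≠ 0 := by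
  intro h0
  apply h
  funext σ
  simpa [emb] using congrFun h0 (i, σ)

variable {q : ℕ} (D : Cfg Ω q)

theorem emb_U {ev : Set Λ} {i : Fin 4} {π : Λ} (hπ : π ∈ ev) {χ : Au Ω → Λ}
    (h : χ ∈ D.Eig i π) : emb i χ ∈ D.U ev i := ⟨π, hπ, χ, h, rfl⟩

theorem emb_eig {i : Fin 4} {π : Λ} {χ : Au Ω → Λ} (h : χ ∈ D.Eig i π) (z : Fin 4 × Au Ω) :
    emb i χ (D.φ z) = π * emb i χ z := by
  by_cases hz : z.1 = i
  · simp [emb, Cfg.φ, hz, h.2]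
  · simp [emb, Cfg.φ, hz]

theorem emb_Ev {ev : Set Λ} {i : Fin 4} {π : Λ} (hπ : π ∈ ev) {χ : Au Ω → Λ}
    (h : χ ∈ D.Eig i π) : emb i χ ∈ Ev D.φ (D.U ev) π :=
  ⟨Set.mem_iUnion.2 ⟨i, emb_U D hπ h⟩, emb_eig D h⟩

end


section

variable {Λ : Type} [Field Λ] {π₁ π₂ e : Λ}

theorem lab_p0 (he : e ≠ 0) : lab e (π₁ / e) (π₂ / e) (1, 0) = π₁ := by
  simp [lab]; field_simp

theorem lab_m0 (he : e ≠ 0) : lab e (π₁ / e) (π₂ / e) (-1, 0) = e ^ 2 / π₁ := by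
  simp [lab]; field_simp

theorem lab_0p (he : e ≠ 0) : lab e (π₁ / e) (π₂ / e) (0, 1) = π₂ := by
  simp [lab]; field_simp

theorem lab_0m (he : e ≠ 0) : lab e (π₁ / e) (π₂ / e) (0, -1) = e ^ 2 / π₂ := by
  simp [lab]; field_simp

theorem lab_00 {A B : Λ} : lab e A B (0, 0) = e := by
  simp [lab]

theorem lab_mul (he : e ≠ 0) {A B : Λ} (i j : SignType) :
    lab e A B (i, j) = lab e A B (i, 0) * lab e A B (0, j) / e := by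
  simp [lab]; field_simp

end

variable {Ω : Type} [Field Ω] [IsAlgClosed Ω] {p : ℕ} [Fact p.Prime] [CharP Ω p] {r : ℕ}
  {Λ : Type} [NormedField Λ] {ℓ : ℕ} [Fact ℓ.Prime] [NormedAlgebra ℚ_[ℓ] Λ]
  [FiniteDimensional ℚ_[ℓ] Λ]

/-- `A = π₁ / e`, `B = π₂ / e`; `evs` is the set of all `lab e A B x`; eigenvalues of nonzero
eigenvectors are nonzero; `tate_alg`, `good_base` with `c • pure ![emb 0 χ, emb 1 ψ] + emb2 0 1 a`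
(`Cfg.coh`, `emb2_mem`, `emb2_apply`); see `main` in `X/FIN2.lean` -/
theorem main (h2 : ℓ ≠ 2) (hℓ : ℓ ≠ p) (hr : 0 < r) (D : Cfg Ω (p ^ r)) {ξ π₁ π₂ e : Λ}
    (hξ : IsPrimitiveRoot ξ 6) (he : e ≠ 0)
    (ind : ∀ i j : ℤ, (π₁ / e) ^ i * (π₂ / e) ^ j = 1 → i = 0 ∧ j = 0)
    (hex : ∀ π ∈ evs π₁ π₂ e, ∃ i, ∃ χ ∈ D.Eig i π, χ ≠ 0)
    (h₀ : ∀ π ∈ ({π₁, e ^ 2 / π₁} : Set Λ), ∃ χ ∈ D.Part 0 ξ ∩ D.Eig 0 π, χ ≠ 0)
    (h₁ : ∀ π ∈ ({π₂, e ^ 2 / π₂} : Set Λ), ∃ χ ∈ D.Part 1 ξ ∩ D.Eig 1 π, χ ≠ 0)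
    (n : ℕ) (t : Ten (Fin (2 * n)) (Fin 4 × (Ω ≃+* Ω)) Λ)
    (ht : t ∈ tens fun _ => ⋃ i, D.U (evs π₁ π₂ e) i) (h : Tate D.φ (e ^ 2) n t) :
    Alg D.φ (e ^ 2) (D.U (evs π₁ π₂ e)) D.Coh _ t := by
  have ne0 : ∀ {i : Fin 4} {π : Λ} {χ : Au Ω → Λ}, χ ∈ D.Eig i π → χ ≠ 0 → π ≠ 0 := by
    intro i π χ hχ hne h0
    apply hne
    funext σ
    have := hχ.2 (D.α⁻¹ * σ * D.α)
    simpa [h0, mul_assoc] using this
  have p1 : π₁ ≠ 0 := by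
    obtain ⟨χ, hχ, h0⟩ := h₀ π₁ (Or.inl rfl)
    exact ne0 hχ.2 h0
  have p2 : π₂ ≠ 0 := by
    obtain ⟨χ, hχ, h0⟩ := h₁ π₂ (Or.inl rfl)
    exact ne0 hχ.2 h0
  have A0 : π₁ / e ≠ 0 := div_ne_zero p1 he
  have B0 : π₂ / e ≠ 0 := div_ne_zero p2 he
  have sg : ∀ i ∈ ({-1, 0, 1} : Set ℤ), ∃ x : SignType, (x : ℤ) = i := by
    rintro _ (rfl | rfl | rfl)
    exacts [⟨-1, rfl⟩, ⟨0, rfl⟩, ⟨1, rfl⟩]
  have sg' : ∀ x : SignType, (x : ℤ) ∈ ({-1, 0, 1} : Set ℤ) := by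
    rintro (_ | _ | _)
    exacts [Or.inr (Or.inl rfl), Or.inl rfl, Or.inr (Or.inr rfl)]
  have mem : ∀ x, lab e (π₁ / e) (π₂ / e) x ∈ evs π₁ π₂ e := fun x => ⟨_, sg' x.1, _, sg' x.2, rfl⟩
  have mem0 : ∀ i : SignType, i ≠ 0 →
      lab e (π₁ / e) (π₂ / e) (-i, 0) ∈ ({π₁, e ^ 2 / π₁} : Set Λ) := by
    rintro (_ | _ | _) hi
    exacts [absurd rfl hi, Or.inl (lab_p0 he), Or.inr (lab_m0 he)]
  have mem1 : ∀ i : SignType, i ≠ 0 →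
      lab e (π₁ / e) (π₂ / e) (0, -i) ∈ ({π₂, e ^ 2 / π₂} : Set Λ) := by
    rintro (_ | _ | _) hi
    exacts [absurd rfl hi, Or.inl (lab_0p he), Or.inr (lab_0m he)]
  have hU : ∀ u ∈ ⋃ i, D.U (evs π₁ π₂ e) i,
      ∃ x, ∀ z, u (D.φ z) = lab e (π₁ / e) (π₂ / e) x * u z := by
    intro u hu
    obtain ⟨k, _, ⟨i, hi, j, hj, rfl⟩, χ, hχ, rfl⟩ := Set.mem_iUnion.1 hu
    obtain ⟨i, rfl⟩ := sg i hi
    obtain ⟨j, rfl⟩ := sg j hj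
    exact ⟨(i, j), emb_eig D hχ⟩
  have hx : ∀ x, ∃ u ∈ Ev D.φ (D.U (evs π₁ π₂ e)) (lab e (π₁ / e) (π₂ / e) x), u ≠ 0 := by
    intro x
    obtain ⟨k, χ, hχ, h0⟩ := hex _ (mem x)
    exact ⟨_, emb_Ev D (mem x) hχ, emb_ne h0⟩
  refine tate_alg he A0 B0 ind hU hx (fun i j hi hj => ?_) n t ht h
  obtain ⟨χ, hχ, χ0⟩ := h₀ _ (mem0 i hi)
  obtain ⟨ψ, hψ, ψ0⟩ := h₁ _ (mem1 j hj)
  obtain ⟨c, c0, a, ha, hc⟩ := D.coh hr h2 hℓ hξ hχ hψ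
  refine good_base A0 B0 hU hx (fun k => ?_) (emb_Ev D (mem _) hχ.2) (emb_Ev D (mem _) hψ.2)
    (emb_ne χ0) (emb_ne ψ0) c0
    (emb2_mem (fun χ h => emb_Ev D (mem _) h) (fun χ h => emb_Ev D (mem _) h) ha)
    (Submodule.add_mem _ (Submodule.smul_mem _ _ (la2_pure fun k => ?_))
      (emb2_mem (fun χ h => emb_U D (mem _) h) (fun χ h => emb_U D (mem _) h) ha))
    (hc _ fun σ τ => ?_)
  · simp only [lab, SignType.coe_zero, zpow_zero, mul_one] at k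
    have := (ind ((-i : SignType) : ℤ) (-((-j : SignType) : ℤ)) (by
      rw [mul_left_cancel₀ he k, zpow_neg, mul_inv_cancel₀ (zpow_ne_zero _ B0)])).1
    revert hi this
    rcases i with _ | _ | _ <;> decide
  · fin_cases k
    · exact emb_U D (mem _) hχ.2
    · exact emb_U D (mem _) hψ.2
  · rw [Pi.add_apply, emb2_apply, Pi.smul_apply, smul_eq_mul]
    simp [pure, emb]

end Pool.Agent.P.MP_ee618e_ag.X.Y
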