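import Pool.Agent.P.MP_ee618e_ag.Y.B
import Pool.Agent.P.MP_ee618e_ag.X.Ge0

/-! G0: the constants and the coordinates of the configuration. -/

namespace Pool.Agent.P.MP_ee618e_ag.X.Y

open IsDedekindDomain
open scoped Classical

set_option linter.unusedSectionVars false

variable {Ω : Type} [Field Ω]

variable (Ω) in
/-- the field of constants -/
def kk : Subfield Ω := Subfield.closure (cst Ω)

theorem gal_eq (S : Set Ω) : Gal S = Fix (cst Ω ∪ S) := rfl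

theorem pow_iter {c : Ω} {p n : ℕ} (h : c ^ p ^ n = c) (k : ℕ) : c ^ p ^ (n * k) = c := by
  induction k with
  | zero => simp
  | succ k ih => rw [Nat.mul_succ, pow_add, pow_mul, ih, h]

variable (p : ℕ) [Fact p.Prime] [CharP Ω p]
include p

theorem kk_eq : (kk Ω : Set Ω) = cst Ω := by
  have hp : ringChar Ω = p := ringChar.eq Ω p
  let K : Subfield Ω :=
    { carrier := cst Ω
      mul_mem' := by
        rintro a b ⟨n, hn, ha⟩ ⟨m, hm, hb⟩
        refine ⟨n * m, Nat.mul_pos hn hm, ?_⟩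
        rw [mul_pow, pow_iter ha, mul_comm n m, pow_iter hb]
      one_mem' := ⟨1, one_pos, one_pow _⟩
      add_mem' := by
        rintro a b ⟨n, hn, ha⟩ ⟨m, hm, hb⟩
        refine ⟨n * m, Nat.mul_pos hn hm, ?_⟩
        rw [hp] at ha hb ⊢
        rw [add_pow_char_pow, pow_iter ha, mul_comm n m, pow_iter hb]
      zero_mem' := ⟨1, one_pos, zero_pow (by rw [hp, pow_one]; exact (Fact.out : p.Prime).ne_zero)⟩
      neg_mem' := by
        rintro a ⟨n, hn, ha⟩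
        refine ⟨n, hn, ?_⟩
        rw [hp] at ha ⊢
        rw [neg_pow, ha, neg_one_pow_char_pow, neg_one_mul]
      inv_mem' := by
        rintro a ⟨n, hn, ha⟩
        exact ⟨n, hn, by rw [inv_pow, ha]⟩ }
  exact congrArg SetLike.coe (Subfield.closure_eq K)

theorem kk_algClosed [IsAlgClosed Ω] : IsAlgClosed (kk Ω) := by
  have hp : ∀ (m : ℕ) (x : Ω), ((frobeniusEquiv Ω p : Au Ω) ^ m) x = x ^ p ^ m := by
    intro m x
    induction m with
    | zero => simp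
    | succ m ih => rw [pow_succ', au_mul, ih, frobeniusEquiv_def, ← pow_mul, ← pow_succ]
  refine isAlgClosed_of_acl fun z hz => ?_
  obtain ⟨m, hm, h⟩ := alpha_orbit (frobeniusEquiv Ω p) (fun x hx => by
    rw [kk_eq p] at hx
    obtain ⟨n, hn, h⟩ := hx
    exact ⟨n, hn, by rw [hp, ← ringChar.eq Ω p, h]⟩) hz
  rw [kk_eq p]
  exact ⟨m, hm, by rwa [hp, ← ringChar.eq Ω p] at h⟩

variable {p} {r : ℕ} (D : Cfg Ω (p ^ r))

namespace Cfg

theorem c_mem (hr : 0 < r) (j : Fin 4) : D.c j ∈ kk Ω := by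
  exact Subfield.subset_closure ⟨r, hr, by rw [ringChar.eq Ω p]; exact (D.hc j).1⟩

theorem ζ_mem (hr : 0 < r) : D.ζ ∈ kk Ω := by
  exact Subfield.subset_closure ⟨r, hr, by rw [ringChar.eq Ω p]; exact D.hζq⟩

/-- see `Surf.α_st` in `X/Ge0.lean` -/
theorem α_st : D.α ∈ St (kk Ω : Set Ω) := by
  intro x
  constructor
  · rw [kk_eq p]
    rintro ⟨n, hn, h⟩
    exact ⟨n, hn, D.α.injective (by rwa [map_pow])⟩
  · intro hx
    rw [D.frob x (kk_eq (Ω := Ω) p ▸ hx)]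
    exact pow_mem hx _

include D in
/-- a primitive sixth root of unity exists only if `6 ≠ 0` (`IsPrimitiveRoot.neZero'`) -/
theorem six : (6 : Ω) ≠ 0 := by
  have h := D.hζ.neZero'.out
  exact_mod_cast h

theorem t_not_mem (i : Fin 2) : D.t i ∉ kk Ω := by
  exact fun h => D.gen.transcendental i (isAlgebraic_algebraMap (⟨D.t i, h⟩ : kk Ω))

theorem w_ne (hr : 0 < r) (i : Fin 2) : D.w i ≠ 0 := by
  intro h
  have e := D.eq i
  rw [h, zero_pow (by norm_num)] at e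
  refine D.t_not_mem i ?_
  rcases mul_eq_zero.1 e.symm with e | e
  · rcases mul_eq_zero.1 e with e | e
    · rw [pow_eq_zero_iff (by norm_num)] at e
      exact e ▸ zero_mem _
    · rw [pow_eq_zero_iff (by norm_num), sub_eq_zero] at e
      exact e ▸ one_mem _
  · obtain ⟨j, -, e⟩ := Finset.prod_eq_zero_iff.1 e
    rw [sub_eq_zero] at e
    exact e ▸ D.c_mem hr j

theorem acl_t : Acl ((kk Ω : Set Ω) ∪ {D.t 0, D.t 1}) = Set.univ := by
  rw [kk_eq p]
  exact Set.eq_univ_of_forall D.alg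

/-- `γ (w i) / w j` is a sixth root of unity (`IsPrimitiveRoot.eq_pow_of_pow_eq_one`) -/
theorem w_map (hr : 0 < r) {γ : Au Ω} (hγ : γ ∈ Fix (kk Ω : Set Ω)) {i j : Fin 2}
    (h : γ (D.t i) = D.t j) : (∃ a : ℕ, γ (D.w i) = D.ζ ^ a * D.w j) ∧
      ∀ x, γ x ∈ Subfield.closure (cst Ω ∪ {D.t j, D.w j}) ↔
        x ∈ Subfield.closure (cst Ω ∪ {D.t i, D.w i}) := by
  have one : ∀ {γ : Au Ω}, γ ∈ Fix (kk Ω : Set Ω) → ∀ {i j : Fin 2}, γ (D.t i) = D.t j →
      ∃ a : ℕ, γ (D.w i) = D.ζ ^ a * D.w j := fun {γ} hγ {i j} h => by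
    have e : (γ (D.w i) / D.w j) ^ 6 = 1 := by
      rw [div_pow, div_eq_one_iff_eq (pow_ne_zero 6 (D.w_ne hr j)), ← map_pow, D.eq, D.eq]
      simp only [map_mul, map_pow, map_sub, map_one, map_prod, h, hγ _ (D.c_mem hr _)]
    obtain ⟨a, -, ha⟩ := D.hζ.eq_pow_of_pow_eq_one e
    exact ⟨a, by rw [ha, div_mul_cancel₀ _ (D.w_ne hr j)]⟩
  have two : ∀ {γ : Au Ω}, γ ∈ Fix (kk Ω : Set Ω) → ∀ {i j : Fin 2}, γ (D.t i) = D.t j → ∀ x,
      x ∈ Subfield.closure (cst Ω ∪ {D.t i, D.w i}) →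
        γ x ∈ Subfield.closure (cst Ω ∪ {D.t j, D.w j}) := fun {γ} hγ {i j} h x hx => by
    have hk : kk Ω ≤ Subfield.closure (cst Ω ∪ {D.t j, D.w j}) :=
      Subfield.closure_mono Set.subset_union_left
    refine (Subfield.closure_le (t := (Subfield.closure (cst Ω ∪ {D.t j, D.w j})).comap
      (γ : Ω →+* Ω))).2 ?_ hx
    rintro y (hy | rfl | rfl) <;> rw [SetLike.mem_coe, Subfield.mem_comap, RingHom.coe_coe]
    · rw [hγ y (Subfield.subset_closure hy)]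
      exact Subfield.subset_closure (Or.inl hy)
    · rw [h]
      exact Subfield.subset_closure (Or.inr (Or.inl rfl))
    · obtain ⟨a, ha⟩ := one hγ h
      rw [ha]
      exact mul_mem (pow_mem (hk (D.ζ_mem hr)) a) (Subfield.subset_closure (Or.inr (Or.inr rfl)))
  refine ⟨one hγ h, fun x => ⟨fun hx => ?_, two hγ h x⟩⟩
  have e := two ((Fix (kk Ω : Set Ω)).inv_mem hγ) (γ.symm_apply_eq.2 h.symm) _ hx
  rwa [au_inv, γ.symm_apply_apply] at e

/-- `t 0`, `t 1` are the roots of a quadratic polynomial whose coefficients are fixed -/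
theorem t_cases {g : Au Ω} {s : Ω} (hs : s * ((D.t 0 - 1) * (D.t 1 - 1)) = 1)
    (hg : g ∈ Fix ((kk Ω : Set Ω) ∪ {D.t 0 * D.t 1, s})) :
    g (D.t 0) = D.t 0 ∧ g (D.t 1) = D.t 1 ∨ g (D.t 0) = D.t 1 ∧ g (D.t 1) = D.t 0 := by
  have h1 := hg (D.t 0 * D.t 1) (by simp)
  have h2 := hg s (by simp)
  have h3 := congrArg g hs
  simp only [map_mul, map_sub, map_one, h2] at h1 h3
  have s0 : s ≠ 0 := left_ne_zero_of_mul_eq_one hs
  have h4 : g (D.t 0) + g (D.t 1) = D.t 0 + D.t 1 := by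
    have := mul_left_cancel₀ s0 (h3.trans hs.symm)
    linear_combination h1 - this
  have h5 : (g (D.t 0) - D.t 0) * (g (D.t 0) - D.t 1) = 0 := by
    linear_combination g (D.t 0) * h4 - h1
  rcases mul_eq_zero.1 h5 with e | e
  · exact Or.inl ⟨sub_eq_zero.1 e, by linear_combination h4 - e⟩
  · exact Or.inr ⟨sub_eq_zero.1 e, by linear_combination h4 - e⟩

omit [Fact p.Prime] [CharP Ω p] in
/-- the coordinates of the two points and their conjugates -/
noncomputable def T₀ : Finset Ω :=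
  {D.t 0, D.t 1} ∪ Finset.univ.image fun z : Fin 6 × Fin 2 => D.ζ ^ (z.1 : ℕ) * D.w z.2

/-- `t_cases`, `w_map` -/
theorem T₀_st (hr : 0 < r) {g : Au Ω} {s : Ω} (hs : s * ((D.t 0 - 1) * (D.t 1 - 1)) = 1)
    (hg : g ∈ Fix ((kk Ω : Set Ω) ∪ {D.t 0 * D.t 1, s})) : ∀ x ∈ D.T₀, g x ∈ D.T₀ := by
  have hk : g ∈ Fix (kk Ω : Set Ω) := fun x hx => hg x (Or.inl hx)
  have ht : ∀ i, ∃ j, g (D.t i) = D.t j := by
    rw [Fin.forall_fin_two]
    rcases D.t_cases hs hg with e | e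
    · exact ⟨⟨0, e.1⟩, 1, e.2⟩
    · exact ⟨⟨1, e.1⟩, 0, e.2⟩
  have hm : ∀ j, D.t j ∈ D.T₀ := by
    rw [Fin.forall_fin_two]
    simp [T₀]
  intro x hx
  rcases Finset.mem_union.1 hx with hx | hx
  · obtain ⟨i, rfl⟩ : ∃ i, x = D.t i := by
      rcases Finset.mem_insert.1 hx with e | e
      · exact ⟨0, e⟩
      · exact ⟨1, Finset.mem_singleton.1 e⟩
    obtain ⟨j, e⟩ := ht i
    exact e ▸ hm j
  · obtain ⟨⟨k, i⟩, -, rfl⟩ := Finset.mem_image.1 hx
    obtain ⟨j, e⟩ := ht i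
    obtain ⟨a, ha⟩ := (D.w_map hr hk e).1
    refine Finset.mem_union_right _ (Finset.mem_image.2
      ⟨(⟨(k + a) % 6, Nat.mod_lt _ (by norm_num)⟩, j), Finset.mem_univ _, ?_⟩)
    simp only [map_mul, map_pow, ha, hk _ (D.ζ_mem hr)]
    rw [← pow_eq_pow_mod _ D.hζ.pow_eq_one, pow_add, mul_assoc]

theorem sub_T₀ (i : Fin 2) : D.t i ∈ D.T₀ ∧ D.w i ∈ D.T₀ := by
  refine ⟨?_, Finset.mem_union_right _ (Finset.mem_image.2 ⟨(0, i), Finset.mem_univ _, by simp⟩)⟩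
  revert i
  rw [Fin.forall_fin_two]
  simp [T₀]

end Cfg

end Pool.Agent.P.MP_ee618e_ag.X.Y
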