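import Pool.Agent.P.MP_ee618e_ag.Y.B

/-! L1: the group law on `y ^ 2 = x ^ 3 + 1` in coordinates. -/

namespace Pool.Agent.P.MP_ee618e_ag.X.Y

open IsDedekindDomain
open scoped Classical

variable {Ω : Type} [Field Ω] {l k x y a b x₁ x₂ x₃ m m' : Ω}

theorem two_ne (h6 : (6 : Ω) ≠ 0) : (2 : Ω) ≠ 0 := by
  intro h
  exact h6 (by linear_combination 3 * h)

theorem three_ne (h6 : (6 : Ω) ≠ 0) : (3 : Ω) ≠ 0 := by
  intro h
  exact h6 (by linear_combination 2 * h)

theorem eqn_iff : (EC Ω).Equation x y ↔ On x y := by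
  rw [WeierstrassCurve.Affine.equation_iff, On]
  simp [EC]

theorem negY_eq (x y : Ω) : (EC Ω).negY x y = -y := by
  simp [EC]

theorem pt_eq (h : (EC Ω).Nonsingular x y) : pt x y = .some x y h := dif_pos h

/-- `WeierstrassCurve.Affine.nonsingular_iff`: `3 x ^ 2 = 0 = 2 y` is impossible -/
theorem nonsing_iff (h6 : (6 : Ω) ≠ 0) : (EC Ω).Nonsingular x y ↔ On x y := by
  rw [WeierstrassCurve.Affine.nonsingular_iff, eqn_iff]
  refine ⟨fun h => h.1, fun h => ⟨h, ?_⟩⟩
  by_contra hc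
  rw [not_or, not_not, not_not] at hc
  obtain ⟨h1, h2⟩ := hc
  simp only [EC] at h1 h2
  have hx : x ^ 2 = 0 := (mul_eq_zero.1 (show 3 * x ^ 2 = 0 by linear_combination -h1)).resolve_left
    (three_ne h6)
  have hy : y = 0 := (mul_eq_zero.1 (show 2 * y = 0 by linear_combination h2)).resolve_left
    (two_ne h6)
  unfold On at h
  exact one_ne_zero (α := Ω) (by linear_combination -h - x * hx + y * hy)

theorem On.neg (h : On x y) : On x (-y) := by
  unfold On at h ⊢
  linear_combination h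

theorem pt_ne_zero (h6 : (6 : Ω) ≠ 0) (h : On x y) : pt x y ≠ 0 := by
  rw [pt_eq ((nonsing_iff h6).2 h)]
  exact WeierstrassCurve.Affine.Point.some_ne_zero _

theorem pt_inj (h6 : (6 : Ω) ≠ 0) (h : On x y) (h' : On a b) :
    pt x y = pt a b ↔ x = a ∧ y = b := by
  rw [pt_eq ((nonsing_iff h6).2 h), pt_eq ((nonsing_iff h6).2 h')]
  exact ⟨fun e => by simpa using e, fun e => by obtain ⟨rfl, rfl⟩ := e; rfl⟩

theorem neg_pt (x y : Ω) : -pt x y = pt x (-y) := by
  by_cases h : (EC Ω).Nonsingular x y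
  · have h' : (EC Ω).Nonsingular x (-y) := by
      rw [← negY_eq x y]
      exact (WeierstrassCurve.Affine.nonsingular_neg ..).2 h
    rw [pt_eq h, pt_eq h', WeierstrassCurve.Affine.Point.neg_some]
    simp only [negY_eq]
  · have h' : ¬ (EC Ω).Nonsingular x (-y) := by
      rw [← negY_eq x y, WeierstrassCurve.Affine.nonsingular_neg]
      exact h
    rw [pt, pt, dif_neg h, dif_neg h', neg_zero]

theorem pt_cases (P : EP Ω) : P = 0 ∨ ∃ x y, On x y ∧ P = pt x y := by
  obtain _ | ⟨x, y, h⟩ := P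
  · exact Or.inl rfl
  · exact Or.inr ⟨x, y, eqn_iff.1 h.1, (pt_eq h).symm⟩

theorem add_eq_zero_iff (h6 : (6 : Ω) ≠ 0) (h : On x y) (h' : On a b) :
    pt x y + pt a b = 0 ↔ x = a ∧ y = -b := by
  rw [_root_.add_eq_zero_iff_eq_neg, neg_pt, pt_inj h6 h h'.neg]

theorem Col.swap₁₂ (h : Col l k x₁ x₂ x₃) : Col l k x₂ x₁ x₃ := by
  exact ⟨by linear_combination h.e1, by linear_combination h.e2, by linear_combination h.e3⟩

theorem Col.swap₂₃ (h : Col l k x₁ x₂ x₃) : Col l k x₁ x₃ x₂ := by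
  exact ⟨by linear_combination h.e1, by linear_combination h.e2, by linear_combination h.e3⟩

theorem Col.swap₁₃ (h : Col l k x₁ x₂ x₃) : Col l k x₃ x₂ x₁ := by
  exact ⟨by linear_combination h.e1, by linear_combination h.e2, by linear_combination h.e3⟩

theorem Col.neg (h : Col l k x₁ x₂ x₃) : Col (-l) (-k) x₁ x₂ x₃ := by
  exact ⟨by linear_combination h.e1, by linear_combination h.e2, by linear_combination h.e3⟩

theorem Col.fac (h : Col l k x₁ x₂ x₃) (z : Ω) :
    (l * z + k) ^ 2 - z ^ 3 - 1 = -((z - x₁) * (z - x₂) * (z - x₃)) := by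
  linear_combination -z ^ 2 * h.e1 + z * h.e2 - h.e3

theorem Col.on (h : Col l k x₁ x₂ x₃) :
    On x₁ (l * x₁ + k) ∧ On x₂ (l * x₂ + k) ∧ On x₃ (l * x₃ + k) := by
  unfold On
  exact ⟨by linear_combination h.fac x₁, by linear_combination h.fac x₂,
    by linear_combination h.fac x₃⟩

theorem Col.sl (h : Col l k x₁ x₂ x₃) : Sl l x₁ (l * x₁ + k) x₂ (l * x₂ + k) := by
  exact ⟨by ring, by linear_combination -(x₁ + x₂) * h.e1 + h.e2⟩

/-- `∏ (l x i + k) = k ^ 3 - l ^ 3` -/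
theorem Col.prod (h : Col l k x₁ x₂ x₃) :
    (l * x₁ + k) * (l * x₂ + k) * (l * x₃ + k) = k ^ 3 - l ^ 3 := by
  linear_combination l ^ 3 * h.e3 + l ^ 2 * k * h.e2 + l * k ^ 2 * h.e1

/-- the equation in the chart at the origin -/
theorem Col.chart (h : Col l k x₁ x₂ x₃) (z : Ω) :
    (z * (l * x₁ + k) - x₁) * (z * (l * x₂ + k) - x₂) * (z * (l * x₃ + k) - x₃) =
      k ^ 3 * z ^ 3 + (1 - l * z) ^ 3 - k ^ 2 * (1 - l * z) := by
  linear_combination (z * l - 1) ^ 3 * h.e3 + (z * l - 1) ^ 2 * (z * k) * h.e2 +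
    (z * l - 1) * (z * k) ^ 2 * h.e1

/-- the converse of `Col.fac`; compare the values at `0, 1, -1` -/
theorem col_of_fac (h6 : (6 : Ω) ≠ 0)
    (h : ∀ z, (l * z + k) ^ 2 - z ^ 3 - 1 = -((z - x₁) * (z - x₂) * (z - x₃))) :
    Col l k x₁ x₂ x₃ := by
  refine ⟨mul_left_cancel₀ (two_ne h6) ?_, mul_left_cancel₀ (two_ne h6) ?_, ?_⟩
  · linear_combination 2 * h 0 - h 1 - h (-1)
  · linear_combination h 1 - h (-1)
  · linear_combination -h 0

theorem Sl.symm (h : Sl m x y a b) : Sl m a b x y := by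
  exact ⟨by linear_combination -h.1, by linear_combination h.2⟩

theorem Sl.neg (h : Sl m x y a b) : Sl (-m) x (-y) a (-b) := by
  exact ⟨by linear_combination -h.1, by linear_combination h.2⟩

theorem Sl.scale (h : Sl m x y a b) (w : Ω) :
    Sl (w * m) (w ^ 2 * x) (w ^ 3 * y) (w ^ 2 * a) (w ^ 3 * b) := by
  exact ⟨by linear_combination w ^ 3 * h.1, by linear_combination w ^ 4 * h.2⟩

theorem Sl.map (h : Sl m x y a b) (σ : Au Ω) : Sl (σ m) (σ x) (σ y) (σ a) (σ b) := by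
  have h1 := congrArg σ h.1
  have h2 := congrArg σ h.2
  simp only [map_mul, map_sub, map_add, map_pow] at h1 h2
  exact ⟨h1, h2⟩

/-- otherwise `2 b = 0 = 3 a ^ 2` -/
theorem Sl.not_opp (h6 : (6 : Ω) ≠ 0) (h : Sl m x y a b) (h0 : b ^ 2 - a ^ 3 ≠ 0) :
    ¬ (x = a ∧ y = -b) := by
  rintro ⟨rfl, rfl⟩
  have hb : b = 0 := (mul_eq_zero.1 (show 2 * b = 0 by linear_combination h.1)).resolve_left
    (two_ne h6)
  have hx : x ^ 2 = 0 := (mul_eq_zero.1 (show 3 * x ^ 2 = 0 by linear_combination -h.2)).resolve_left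
    (three_ne h6)
  exact h0 (by linear_combination b * hb - x * hx)

theorem Sl.unique (h6 : (6 : Ω) ≠ 0) (h : Sl m x y a b) (h' : Sl m' x y a b)
    (h0 : b ^ 2 - a ^ 3 ≠ 0) : m = m' := by
  by_contra hne
  have hne' := sub_ne_zero.2 hne
  refine h.not_opp h6 h0 ⟨mul_left_cancel₀ hne' ?_, mul_left_cancel₀ hne' ?_⟩
  · linear_combination h.1 - h'.1
  · linear_combination h.2 - h'.2

/-- `(y - b) / (x - a)` or `(x ^ 2 + x a + a ^ 2) / (y + b)` -/
theorem exists_sl (h : y ^ 2 - x ^ 3 = b ^ 2 - a ^ 3) (h0 : ¬ (x = a ∧ y = -b)) :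
    ∃ m, Sl m x y a b := by
  by_cases hx : x = a
  · subst hx
    have hy : y + b ≠ 0 := fun e => h0 ⟨rfl, by linear_combination e⟩
    refine ⟨(x ^ 2 + x * x + x ^ 2) / (y + b), ?_, div_mul_cancel₀ _ hy⟩
    refine mul_left_cancel₀ hy ?_
    rw [sub_self, mul_zero, mul_zero]
    linear_combination -h
  · have hx' := sub_ne_zero.2 hx
    have e : (y - b) / (x - a) * (x - a) = y - b := div_mul_cancel₀ _ hx'
    refine ⟨(y - b) / (x - a), e, mul_left_cancel₀ hx' ?_⟩
    linear_combination (y + b) * e + h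

theorem Sl.col (h : Sl l x y a b) (hb : On a b) :
    Col l (b - l * a) x a (l ^ 2 - x - a) ∧ y = l * x + (b - l * a) := by
  have e2 : x * a + x * (l ^ 2 - x - a) + a * (l ^ 2 - x - a) = -(2 * l * (b - l * a)) := by
    linear_combination l * h.1 + h.2
  unfold On at hb
  exact ⟨⟨by ring, e2, by linear_combination a * e2 - hb⟩, by linear_combination -h.1⟩

theorem add_core (h6 : (6 : Ω) ≠ 0) (h : Sl l x y a b) (hb : On a b) :
    pt x y + pt a b = pt (l ^ 2 - x - a) (-(l * (l ^ 2 - x - a - a) + b)) := by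
  have hc := h.col hb
  have hx : On x y := by rw [hc.2]; exact hc.1.on.1
  have h0 : b ^ 2 - a ^ 3 ≠ 0 := by
    unfold On at hb
    rw [hb, add_sub_cancel_left]
    exact one_ne_zero
  have hn : ¬ (x = a ∧ y = (EC Ω).negY a b) := by
    rw [negY_eq]
    exact h.not_opp h6 h0
  have hs : (EC Ω).slope x a y b = l := by
    by_cases e : x = a
    · have hy : y ≠ (EC Ω).negY a b := fun e' => hn ⟨e, e'⟩
      rw [WeierstrassCurve.Affine.slope_of_Y_ne e hy, negY_eq]
      rw [negY_eq] at hy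
      subst e
      have e1 : y = b := by linear_combination -h.1
      subst e1
      rw [div_eq_iff (sub_ne_zero.2 hy)]
      simp only [EC]
      linear_combination -h.2
    · rw [WeierstrassCurve.Affine.slope_of_X_ne e, div_eq_iff (sub_ne_zero.2 e)]
      exact h.1.symm
  have h1 := (nonsing_iff h6).2 hx
  have h2 := (nonsing_iff h6).2 hb
  rw [pt_eq h1, pt_eq h2, WeierstrassCurve.Affine.Point.add_some hn, ← pt_eq, hs]
  congr 1
  · simp [EC]
  · simp only [WeierstrassCurve.Affine.addY, negY_eq, WeierstrassCurve.Affine.negAddY,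
      WeierstrassCurve.Affine.addX]
    simp only [EC]
    linear_combination h.1

/-- `Point.add_of_X_ne`, `Point.add_self_of_Y_ne`, `slope_of_X_ne`, `slope_of_Y_ne` -/
theorem Col.sum (h6 : (6 : Ω) ≠ 0) (h : Col l k x₁ x₂ x₃) :
    pt x₁ (l * x₁ + k) + pt x₂ (l * x₂ + k) + pt x₃ (l * x₃ + k) = 0 := by
  rw [add_core h6 h.sl h.on.2.1, add_eq_zero_iff h6 _ h.on.2.2]
  · exact ⟨by linear_combination -h.e1, by linear_combination l * h.e1⟩
  · have e : l ^ 2 - x₁ - x₂ = x₃ := by linear_combination -h.e1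
    have := h.on.2.2
    unfold On at this ⊢
    rw [e]
    linear_combination this

theorem Sl.add (h6 : (6 : Ω) ≠ 0) (h : Sl l x y a b) (hb : On a b) :
    On (l ^ 2 - x - a) (-(l * (l ^ 2 - x - a - a) + b)) ∧
      pt x y + pt a b = pt (l ^ 2 - x - a) (-(l * (l ^ 2 - x - a - a) + b)) := by
  refine ⟨?_, add_core h6 h hb⟩
  have := (h.col hb).1.on.2.2
  unfold On at this ⊢
  linear_combination this

end Pool.Agent.P.MP_ee618e_ag.X.Y
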