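import Pool.Agent.P.MP_ee618e_ag.Y.L1

/-! L2: slopes and valuations; heights of integral points. -/

namespace Pool.Agent.P.MP_ee618e_ag.X.Y

open IsDedekindDomain
open scoped Classical

variable {Ω : Type} [Field Ω] {Γ : Type} [LinearOrderedCommGroupWithZero Γ] {v : Valuation Ω Γ}
  {l x y a b x' y' a' b' m m' : Ω} {A : Subfield Ω}

theorem L2.mul_le {c d : Ω} {δ : Γ} (hc : v c ≤ 1) (hd : v d ≤ δ) : v (c * d) ≤ δ := by
  rw [map_mul]
  calc v c * v d ≤ 1 * δ := mul_le_mul' hc hd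
    _ = δ := one_mul _

theorem L2.mul_lt {c d : Ω} (hc : v c ≤ 1) (hd : v d < 1) : v (c * d) < 1 :=
  lt_of_le_of_lt (L2.mul_le hc le_rfl) hd

theorem L2.sig_le (hx : v x ≤ 1) (ha : v a ≤ 1) : v (x ^ 2 + x * a + a ^ 2) ≤ 1 :=
  v.map_add_le (v.map_add_le (by rw [map_pow]; exact pow_le_one' hx 2) (L2.mul_le hx ha))
    (by rw [map_pow]; exact pow_le_one' ha 2)

theorem L2.on_of (h : (EC Ω).Nonsingular x y) : On x y := by
  have := (WeierstrassCurve.Affine.equation_iff x y).mp h.1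
  simpa [EC, On] using this

theorem six_ne (h6 : v 6 = 1) : (6 : Ω) ≠ 0 := by
  intro h
  rw [h, map_zero] at h6
  exact zero_ne_one h6

theorem val_nat (v : Valuation Ω Γ) (n : ℕ) : v n ≤ 1 := by
  induction n with
  | zero => simp
  | succ n ih =>
    push_cast
    exact v.map_add_le ih (by simp)

theorem val_two (h6 : v 6 = 1) : v 2 = 1 := by
  have h2 : v 2 ≤ 1 := by simpa using val_nat v 2
  have h3 : v 3 ≤ 1 := by simpa using val_nat v 3
  refine le_antisymm h2 (not_lt.mp fun h => ?_)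
  have e : (6 : Ω) = 3 * 2 := by norm_num
  have := L2.mul_lt h3 h
  rw [← e, h6] at this
  exact lt_irrefl _ this

theorem val_three (h6 : v 6 = 1) : v 3 = 1 := by
  have h2 : v 2 ≤ 1 := by simpa using val_nat v 2
  have h3 : v 3 ≤ 1 := by simpa using val_nat v 3
  refine le_antisymm h3 (not_lt.mp fun h => ?_)
  have e : (6 : Ω) = 2 * 3 := by norm_num
  have := L2.mul_lt h2 h
  rw [← e, h6] at this
  exact lt_irrefl _ this

theorem Triv.six (h : Triv A v) (h6 : (6 : Ω) ≠ 0) : v 6 = 1 := by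
  refine h 6 ?_ h6
  exact_mod_cast natCast_mem A 6

theorem Triv.le (h : Triv A v) {c : Ω} (hc : c ∈ A) : v c ≤ 1 := by
  by_cases h0 : c = 0
  · simp [h0]
  · exact (h c hc h0).le

theorem Triv.eq (h : Triv A v) {c c' : Ω} (hc : c ∈ A) (hc' : c' ∈ A) (e : v (c - c') < 1) :
    c = c' := by
  by_contra hne
  rw [h _ (sub_mem hc hc') (sub_ne_zero.mpr hne)] at e
  exact lt_irrefl _ e

/-- congruent elements have the same value -/
theorem val_congr {c c' : Ω} (h : v c = 1) (e : v (c - c') < 1) : v c' = 1 := by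
  have e1 : c' = c - (c - c') := by ring
  rw [e1, v.map_sub_eq_of_lt_left (by rw [h]; exact e), h]

/-- if `w ^ n ≡ w' ^ n` to order `δ`, `n ∣ 6`, and `w ≡ w'`, then `w ≡ w'` to order `δ`: the cofactor
is congruent to the unit `n w ^ (n - 1)` -/
theorem val_root (h6 : v 6 = 1) {n : ℕ} (hn : n ∣ 6) {w w' : Ω} (hw : v w = 1)
    (e : v (w - w') < 1) : v (w ^ n - w' ^ n) = v (w - w') := by
  have h2 : ∀ {u u' : Ω}, v u = 1 → v (u - u') < 1 → v (u ^ 2 - u' ^ 2) = v (u - u') := by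
    intro u u' hu eu
    have e1 : u ^ 2 - u' ^ 2 = (u - u') * (2 * u - (u - u')) := by ring
    have e2 : v (2 * u) = 1 := by rw [map_mul, val_two h6, hu, mul_one]
    rw [e1, map_mul, v.map_sub_eq_of_lt_left (x := 2 * u) (by rw [e2]; exact eu), e2, mul_one]
  have h3 : v (w ^ 3 - w' ^ 3) = v (w - w') := by
    have e1 : w ^ 3 - w' ^ 3 = (w - w') * (3 * w ^ 2 - (3 * w - (w - w')) * (w - w')) := by ring
    have e2 : v (3 * w ^ 2) = 1 := by rw [map_mul, val_three h6, map_pow, hw, one_pow, mul_one]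
    have e3 : v (3 * w - (w - w')) ≤ 1 :=
      v.map_sub_le (by rw [map_mul, val_three h6, hw, mul_one]) e.le
    rw [e1, map_mul, v.map_sub_eq_of_lt_left (x := 3 * w ^ 2) (by rw [e2]; exact L2.mul_lt e3 e),
      e2, mul_one]
  have hle : n ≤ 6 := Nat.le_of_dvd (by norm_num) hn
  interval_cases n
  · omega
  · simp
  · exact h2 hw e
  · exact h3
  · omega
  · omega
  · have e1 : w ^ 6 - w' ^ 6 = (w ^ 3) ^ 2 - (w' ^ 3) ^ 2 := by ring
    rw [e1, h2 (by rw [map_pow, hw, one_pow]) (by rw [h3]; exact e), h3]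

theorem dst_le (v : Valuation Ω Γ) (x y a b : Ω) : dst v x y a b ≤ 1 := by
  exact min_le_left _ _

theorem dst_lt : dst v x y a b < 1 ↔ v (x - a) < 1 ∧ v (y - b) < 1 := by
  unfold dst
  rw [min_lt_iff, max_lt_iff]
  simp

theorem dst_eq_zero : dst v x y a b = 0 ↔ x = a ∧ y = b := by
  unfold dst
  constructor
  · intro h
    rcases min_eq_iff.mp h with h1 | h1
    · exact absurd h1.1 one_ne_zero
    · have e1 : v (x - a) = 0 := le_antisymm (h1.1 ▸ le_max_left _ _) zero_le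
      have e2 : v (y - b) = 0 := le_antisymm (h1.1 ▸ le_max_right _ _) zero_le
      rw [Valuation.zero_iff, sub_eq_zero] at e1 e2
      exact ⟨e1, e2⟩
  · rintro ⟨rfl, rfl⟩
    simp

theorem dst_scale {w : Ω} (hw : v w = 1) :
    dst v (w ^ 2 * x) (w ^ 3 * y) (w ^ 2 * a) (w ^ 3 * b) = dst v x y a b := by
  unfold dst
  rw [← mul_sub, ← mul_sub, map_mul, map_mul, map_pow, map_pow, hw, one_pow, one_pow, one_mul,
    one_mul]

theorem L2.core (h6 : v 6 = 1) (hx : v x ≤ 1) (ha : v a ≤ 1) (hb : v b ≤ 1)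
    (h0 : v (b ^ 2 - a ^ 3) = 1) (h1 : v (x - a) < 1) (h2 : v (y + b) < 1) (h3 : v (y - b) < 1)
    (h4 : v (x ^ 2 + x * a + a ^ 2) < 1) : False := by
  have eb : v b < 1 := by
    have e : 2 * b = (y + b) - (y - b) := by ring
    have := v.map_sub_lt h2 h3
    rwa [← e, map_mul, val_two h6, one_mul] at this
  have ea : v (a ^ 2) < 1 := by
    have e : 3 * a ^ 2 = (x ^ 2 + x * a + a ^ 2) - (x + a + a) * (x - a) := by ring
    have := v.map_sub_lt h4 (L2.mul_lt (v.map_add_le (v.map_add_le hx ha) ha) h1)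
    rwa [← e, map_mul, val_three h6, one_mul] at this
  have e : b ^ 2 - a ^ 3 = b * b - a * a ^ 2 := by ring
  have := v.map_sub_lt (L2.mul_lt hb eb) (L2.mul_lt ha ea)
  rw [← e, h0] at this
  exact lt_irrefl _ this

/-- If one of `x - a`, `y + b` is a unit use the corresponding equation. If both are small and
`m` is integral then `b` and `a` are small. -/
theorem Sl.far (h6 : v 6 = 1) (h : Sl m x y a b) (hx : v x ≤ 1) (hy : v y ≤ 1) (ha : v a ≤ 1)
    (hb : v b ≤ 1) (h0 : v (b ^ 2 - a ^ 3) = 1) :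
    v m ≤ 1 ↔ ¬ (v (x - a) < 1 ∧ v (y + b) < 1) := by
  constructor
  · rintro hm ⟨h1, h2⟩
    refine L2.core h6 hx ha hb h0 h1 h2 ?_ ?_
    · rw [← h.1]; exact L2.mul_lt hm h1
    · rw [← h.2]; exact L2.mul_lt hm h2
  · intro hn
    rcases not_and_or.mp hn with h1 | h1
    · have e : v (x - a) = 1 := le_antisymm (v.map_sub_le hx ha) (not_lt.mp h1)
      have := congrArg v h.1
      rw [map_mul, e, mul_one] at this
      rw [this]; exact v.map_sub_le hy hb
    · have e : v (y + b) = 1 := le_antisymm (v.map_add_le hy hb) (not_lt.mp h1)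
      have := congrArg v h.2
      rw [map_mul, e, mul_one] at this
      rw [this]; exact L2.sig_le hx ha

/-- If both are small: either `b` is a unit, then so is `y - b`, and `y + b = (x - a) Σ / (y - b)`;
or `a` is a unit, then so is `Σ = x ^ 2 + x a + a ^ 2`, and `x - a = (y + b) (y - b) / Σ`. -/
theorem Sl.near (h6 : v 6 = 1) (h : Sl m x y a b) (hx : v x ≤ 1) (hy : v y ≤ 1) (ha : v a ≤ 1)
    (hb : v b ≤ 1) (h0 : v (b ^ 2 - a ^ 3) = 1) :
    dst v x y a (-b) * max 1 (v m) = 1 := by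
  have hf := h.far h6 hx hy ha hb h0
  by_cases hm : v m ≤ 1
  · have h1 : ¬ dst v x y a (-b) < 1 := by
      rw [dst_lt, sub_neg_eq_add]; exact hf.mp hm
    rw [le_antisymm (dst_le v x y a (-b)) (not_lt.mp h1), max_eq_left hm, mul_one]
  · obtain ⟨h1, h2⟩ := not_not.mp (fun hn => hm (hf.mpr hn))
    have e1 : v (x - a) * v m = v (y - b) := by rw [← h.1, map_mul, mul_comm]
    have e2 : v (y + b) * v m = v (x ^ 2 + x * a + a ^ 2) := by rw [← h.2, map_mul, mul_comm]
    unfold dst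
    rw [sub_neg_eq_add, min_eq_right (max_lt h1 h2).le, max_eq_right (not_le.mp hm).le,
      ← max_mul_mul_right, e1, e2]
    refine le_antisymm (max_le (v.map_sub_le hy hb) (L2.sig_le hx ha)) (not_lt.mp fun hl => ?_)
    exact L2.core h6 hx ha hb h0 h1 h2 (lt_of_le_of_lt (le_max_left _ _) hl)
      (lt_of_le_of_lt (le_max_right _ _) hl)

/-- slopes are Lipschitz functions of the two points -/
theorem Sl.lip (h6 : v 6 = 1) (h : Sl m x y a b) (h' : Sl m' x' y' a' b') (hx : v x ≤ 1)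
    (hy : v y ≤ 1) (ha : v a ≤ 1) (hb : v b ≤ 1) (h0 : v (b ^ 2 - a ^ 3) = 1) (hm : v m ≤ 1)
    {δ : Γ} (hδ : δ < 1) (e1 : v (x - x') ≤ δ) (e2 : v (y - y') ≤ δ) (e3 : v (a - a') ≤ δ)
    (e4 : v (b - b') ≤ δ) : v (m - m') ≤ δ := by
  have hn := (h.far h6 hx hy ha hb h0).mp hm
  have hx' : v x' ≤ 1 := by
    have e : x' = x - (x - x') := by ring
    rw [e]; exact v.map_sub_le hx (e1.trans hδ.le)
  have ha' : v a' ≤ 1 := by
    have e : a' = a - (a - a') := by ring
    rw [e]; exact v.map_sub_le ha (e3.trans hδ.le)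
  rcases not_and_or.mp hn with h1 | h1
  · have e : v (x - a) = 1 := le_antisymm (v.map_sub_le hx ha) (not_lt.mp h1)
    have d1 : v ((x - a) - (x' - a')) ≤ δ := by
      have : (x - a) - (x' - a') = (x - x') - (a - a') := by ring
      rw [this]; exact v.map_sub_le e1 e3
    have e' : v (x' - a') = 1 := val_congr e (lt_of_le_of_lt d1 hδ)
    have k : (m - m') * (x' - a') = ((y - y') - (b - b')) - m * ((x - a) - (x' - a')) := by
      linear_combination h.1 - h'.1
    have := congrArg v k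
    rw [map_mul, e', mul_one] at this
    rw [this]
    exact v.map_sub_le (v.map_sub_le e2 e4) (L2.mul_le hm d1)
  · have e : v (y + b) = 1 := le_antisymm (v.map_add_le hy hb) (not_lt.mp h1)
    have d1 : v ((y + b) - (y' + b')) ≤ δ := by
      have : (y + b) - (y' + b') = (y - y') + (b - b') := by ring
      rw [this]; exact v.map_add_le e2 e4
    have e' : v (y' + b') = 1 := val_congr e (lt_of_le_of_lt d1 hδ)
    have k : (m - m') * (y' + b') = ((x + x' + a) * (x - x') + (x' + a + a') * (a - a')) -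
        m * ((y + b) - (y' + b')) := by
      linear_combination h.2 - h'.2
    have := congrArg v k
    rw [map_mul, e', mul_one] at this
    rw [this]
    exact v.map_sub_le (v.map_add_le (L2.mul_le (v.map_add_le (v.map_add_le hx hx') ha) e1)
      (L2.mul_le (v.map_add_le (v.map_add_le hx' ha) ha') e3)) (L2.mul_le hm d1)

theorem On.int (h : On x y) (hx : v x ≤ 1) : v y ≤ 1 := by
  have e : v y ^ 2 ≤ 1 := by
    rw [← map_pow, h]
    exact v.map_add_le (by rw [map_pow]; exact pow_le_one' hx 3) (by simp)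
  exact (pow_le_one_iff (by norm_num)).mp e

theorem On.big (h : On x y) (hx : 1 < v x) : v y ^ 2 = v x ^ 3 ∧ v x < v y := by
  have h3 : v 1 < v (x ^ 3) := by
    rw [map_one, map_pow]; exact one_lt_pow' hx (by norm_num)
  have e : v y ^ 2 = v x ^ 3 := by
    rw [← map_pow, h, v.map_add_eq_of_lt_left h3, map_pow]
  refine ⟨e, not_le.mp fun hl => ?_⟩
  have h1 : v y ^ 2 ≤ v x ^ 2 := pow_le_pow_left' hl 2
  have h2 : v x ^ 2 < v x ^ 3 := pow_lt_pow_right₀ hx (by norm_num)
  exact absurd (lt_of_le_of_lt h1 h2) (by rw [e]; exact lt_irrefl _)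

/-- one of the coordinates is not small -/
theorem On.unit (h : On x y) : ¬ (v x < 1 ∧ v y < 1) := by
  rintro ⟨h1, h2⟩
  have e : (1 : Ω) = y * y - x ^ 2 * x := by
    unfold On at h; linear_combination -h
  have : v (1 : Ω) < 1 := by
    rw [e]
    exact v.map_sub_lt (L2.mul_lt h2.le h2)
      (L2.mul_lt (by rw [map_pow]; exact pow_le_one' h1.le 2) h1)
  simp at this

theorem L2.hgt_pt (h6 : v 6 = 1) (h : On x y) :
    hgt v (pt x y) = if 1 < v x then v x / v y else 1 := by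
  unfold pt
  rw [dif_pos ((nonsing_iff (six_ne h6)).mpr h)]
  rfl

theorem hgt_zero (v : Valuation Ω Γ) : hgt v (0 : EP Ω) = 0 := by
  rfl

theorem hgt_int (h6 : v 6 = 1) (h : On x y) (hx : v x ≤ 1) : hgt v (pt x y) = 1 := by
  rw [L2.hgt_pt h6 h, if_neg (not_lt.mpr hx)]

theorem hgt_big (h6 : v 6 = 1) (h : On x y) (hx : 1 < v x) :
    hgt v (pt x y) = v (x / y) ∧ hgt v (pt x y) < 1 ∧ hgt v (pt x y) ^ 2 * v x = 1 ∧
      hgt v (pt x y) ^ 3 * v y = 1 ∧ hgt v (pt x y) * v y = v x := by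
  obtain ⟨e, hl⟩ := h.big hx
  have hy : v y ≠ 0 := (lt_of_le_of_lt zero_le hl).ne'
  rw [L2.hgt_pt h6 h, if_pos hx]
  refine ⟨(map_div₀ v x y).symm, (div_lt_one₀ (zero_lt_iff.mpr hy)).mpr hl, ?_, ?_, ?_⟩
  · rw [div_pow, div_mul_eq_mul_div, ← pow_succ, ← e, div_self (pow_ne_zero _ hy)]
  · rw [div_pow, div_mul_eq_mul_div, ← e, ← pow_succ, div_self (pow_ne_zero _ hy)]
  · exact div_mul_cancel₀ _ hy

theorem hgt_le (v : Valuation Ω Γ) (P : EP Ω) : hgt v P ≤ 1 := by
  rcases P with _ | ⟨x, y, h⟩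
  · exact zero_le
  · change (if 1 < v x then v x / v y else 1) ≤ 1
    split_ifs with hx
    · have hl := ((L2.on_of h).big hx).2
      exact ((div_lt_one₀ (lt_of_le_of_lt zero_le hl)).mpr hl).le
    · exact le_rfl

theorem hgt_eq_zero {P : EP Ω} : hgt v P = 0 ↔ P = 0 := by
  constructor
  · intro h0
    rcases P with _ | ⟨x, y, h⟩
    · rfl
    · exfalso
      change (if 1 < v x then v x / v y else 1) = 0 at h0
      split_ifs at h0 with hx
      · have hl := ((L2.on_of h).big hx).2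
        exact div_ne_zero (lt_of_le_of_lt zero_le hx).ne' (lt_of_le_of_lt zero_le hl).ne' h0
      · exact one_ne_zero h0
  · rintro rfl
    rfl

theorem hgt_neg (v : Valuation Ω Γ) (P : EP Ω) : hgt v (-P) = hgt v P := by
  rcases P with _ | ⟨x, y, h⟩
  · rfl
  · rw [WeierstrassCurve.Affine.Point.neg_some]
    change (if 1 < v x then v x / v ((EC Ω).negY x y) else 1) = (if 1 < v x then v x / v y else 1)
    have e : (EC Ω).negY x y = -y := by simp [WeierstrassCurve.Affine.negY, EC]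
    rw [e, Valuation.map_neg]

theorem hgt_comm (v : Valuation Ω Γ) (P Q : EP Ω) : hgt v (P - Q) = hgt v (Q - P) := by
  rw [← neg_sub, hgt_neg]

/-- `Sl.add`: the abscissa of the sum is `l ^ 2 - x - a` -/
theorem hgt_add_sl (h6 : v 6 = 1) (h : Sl l x y a b) (hxy : On x y) (hab : On a b) (hx : v x ≤ 1)
    (ha : v a ≤ 1) : hgt v (pt x y + pt a b) * max 1 (v l) = 1 := by
  obtain ⟨ho, e⟩ := h.add (six_ne h6) hab
  rw [e]
  by_cases hl : v l ≤ 1
  · rw [max_eq_left hl, mul_one]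
    refine hgt_int h6 ho (v.map_sub_le (v.map_sub_le ?_ hx) ha)
    rw [map_pow]; exact pow_le_one' hl 2
  · have hl' : 1 < v l := not_le.mp hl
    have h2 : 1 < v (l ^ 2) := by rw [map_pow]; exact one_lt_pow' hl' (by norm_num)
    have e1 : v (l ^ 2 - x - a) = v l ^ 2 := by
      rw [sub_sub, v.map_sub_eq_of_lt_left (lt_of_le_of_lt (v.map_add_le hx ha) h2), map_pow]
    have k := (hgt_big h6 ho (by rw [e1, ← map_pow]; exact h2)).2.2.1
    rw [e1, ← mul_pow] at k
    rw [max_eq_right hl'.le]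
    refine le_antisymm ((pow_le_one_iff (by norm_num)).mp k.le) (not_lt.mp fun hh => ?_)
    exact absurd k (pow_lt_one' hh (by norm_num)).ne

/-- `exists_sl` for `(x, y)`, `(a, -b)`; `hgt_add_sl`, `Sl.near` -/
theorem hgt_sub_int (h6 : v 6 = 1) (hxy : On x y) (hab : On a b) (hx : v x ≤ 1) (ha : v a ≤ 1) :
    hgt v (pt x y - pt a b) = dst v x y a b := by
  by_cases hc : x = a ∧ y = b
  · obtain ⟨rfl, rfl⟩ := hc
    rw [sub_self, hgt_zero, dst_eq_zero.mpr ⟨rfl, rfl⟩]
  · have e0 : (-b) ^ 2 - a ^ 3 = 1 := by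
      unfold On at hab; linear_combination hab
    obtain ⟨m, hm⟩ := exists_sl (x := x) (y := y) (a := a) (b := -b)
      (by unfold On at hxy; linear_combination hxy - e0) (by rwa [neg_neg])
    have k1 := hgt_add_sl h6 hm hxy hab.neg hx ha
    have k2 := hm.near h6 hx (hxy.int hx) ha (by rw [Valuation.map_neg]; exact hab.int ha)
      (by rw [e0, map_one])
    rw [neg_neg] at k2
    rw [sub_eq_add_neg, neg_pt]
    have hne : max 1 (v m) ≠ 0 := (lt_of_lt_of_le zero_lt_one (le_max_left _ _)).ne'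
    exact mul_right_cancel₀ hne (k1.trans k2.symm)

end Pool.Agent.P.MP_ee618e_ag.X.Y
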