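import Pool.Agent.P.MP_ee618e_ag.Y.L2

/-! L3: heights near the origin, the ultrametric inequality, the parallelogram law. -/

namespace Pool.Agent.P.MP_ee618e_ag.X.Y

open IsDedekindDomain
open scoped Classical

variable {Ω : Type} [Field Ω] {Γ : Type} [LinearOrderedCommGroupWithZero Γ] {v : Valuation Ω Γ}
  {l k x y a b x₁ x₂ x₃ : Ω} {P Q : EP Ω}

theorem L3.root_int (h : On x (l * x + k)) (hl : v l ≤ 1) (hk : v k ≤ 1) : v x ≤ 1 := by
  by_contra hx
  rw [not_le] at hx
  refine (h.big hx).2.not_ge (v.map_add_le ?_ (hk.trans hx.le))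
  rw [map_mul]
  exact mul_le_of_le_one_left' hl

theorem L3.root_steep (h : On x (l * x + k)) (hl : 1 < v l) (hk : v k ≤ v l) :
    v x ≤ 1 ∨ v x = v l ^ 2 := by
  refine (le_or_gt _ _).imp_right fun hx => ?_
  have l0 : 0 < v l := zero_lt_one.trans hl
  have x0 : v x ≠ 0 := (zero_lt_one.trans hx).ne'
  have e : v (l * x + k) = v l * v x := by
    rw [v.map_add_eq_of_lt_left, map_mul]
    rw [map_mul]
    exact hk.trans_lt (lt_mul_of_one_lt_right l0 hx)
  have e2 := (h.big hx).1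
  rw [e, mul_pow, pow_succ' (v x) 2] at e2
  exact (mul_right_cancel₀ (pow_ne_zero 2 x0) e2).symm

theorem L3.two_big (h : Col l k x₁ x₂ x₃) (hl : 1 < v l) (hk : v k ≤ v l) (h1 : v x₁ = v l ^ 2)
    (h2 : v x₂ = v l ^ 2) : False := by
  have l0 : 0 < v l := zero_lt_one.trans hl
  have l2 : 1 < v l ^ 2 := one_lt_pow' hl two_ne_zero
  have l3 : v l ^ 2 < v l ^ 2 * v l ^ 2 := lt_mul_of_one_lt_right (pow_pos l0 2) l2
  rcases L3.root_steep h.on.2.2 hl hk with h3 | h3
  · have e : x₁ * x₂ = -(2 * l * k) - x₁ * x₃ - x₂ * x₃ := by linear_combination h.e2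
    have a : v (x₁ * x₂) ≤ v l ^ 2 := by
      rw [e]
      refine v.map_sub_le (v.map_sub_le ?_ ?_) ?_
      · rw [v.map_neg, map_mul, map_mul, pow_two]
        exact mul_le_mul' (mul_le_of_le_one_left' (by exact_mod_cast val_nat v 2)) hk
      · rw [map_mul, h1]
        exact mul_le_of_le_one_right' h3
      · rw [map_mul, h2]
        exact mul_le_of_le_one_right' h3
    rw [map_mul, h1, h2] at a
    exact l3.not_ge a
  · have a : v (x₁ * x₂ * x₃) ≤ v l ^ 2 := by
      rw [h.e3]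
      refine v.map_sub_le ?_ (by rw [map_one]; exact l2.le)
      rw [map_pow]
      exact pow_le_pow_left' hk 2
    rw [map_mul, map_mul, h1, h2, h3] at a
    exact (l3.trans_le (le_mul_of_one_le_right' l2.le)).not_ge a

/-- an integral line: the `x i` are roots of a monic cubic with integral coefficients -/
theorem Col.int (h : Col l k x₁ x₂ x₃) (hl : v l ≤ 1) (hk : v k ≤ 1) :
    v x₁ ≤ 1 ∧ v x₂ ≤ 1 ∧ v x₃ ≤ 1 :=
  ⟨L3.root_int h.on.1 hl hk, L3.root_int h.on.2.1 hl hk, L3.root_int h.on.2.2 hl hk⟩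

/-- A steep line has exactly one non-integral point. If `x` is a non-integral root then
`v (l x + k) = v l * v x`, so `On.big` gives `v x = v l ^ 2`; by `e1` there is such a root; two
such roots contradict `e2`, three contradict `e3`. -/
theorem Col.steep (h : Col l k x₁ x₂ x₃) (hl : 1 < v l) (hk : v k ≤ v l) :
    (v x₁ ≤ 1 ∧ v x₂ ≤ 1 ∧ v x₃ = v l ^ 2) ∨ (v x₁ ≤ 1 ∧ v x₃ ≤ 1 ∧ v x₂ = v l ^ 2) ∨
      (v x₂ ≤ 1 ∧ v x₃ ≤ 1 ∧ v x₁ = v l ^ 2) := by
  rcases L3.root_steep h.on.1 hl hk with h1 | h1 <;>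
    rcases L3.root_steep h.on.2.1 hl hk with h2 | h2 <;>
    rcases L3.root_steep h.on.2.2 hl hk with h3 | h3
  · have a := v.map_add_le (v.map_add_le h1 h2) h3
    rw [h.e1, map_pow] at a
    exact absurd a (one_lt_pow' hl two_ne_zero).not_ge
  · exact Or.inl ⟨h1, h2, h3⟩
  · exact Or.inr (Or.inl ⟨h1, h3, h2⟩)
  · exact (L3.two_big h.swap₁₃ hl hk h3 h2).elim
  · exact Or.inr (Or.inr ⟨h2, h3, h1⟩)
  · exact (L3.two_big h.swap₂₃ hl hk h1 h3).elim
  · exact (L3.two_big h hl hk h1 h2).elim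
  · exact (L3.two_big h hl hk h1 h2).elim

theorem L3.root_far (h : On x (l * x + k)) (hk : 1 < v k) (hl : v l < v k) : 1 < v x := by
  by_contra hx
  rw [not_lt] at hx
  have a := h.int hx
  rw [v.map_add_eq_of_lt_right (by
    rw [map_mul]
    exact (mul_le_of_le_one_right' hx).trans_lt hl)] at a
  exact hk.not_ge a

/-- A far line has no integral point. With `z i = x i / y i`: the product has value `v k⁻¹`
(`e3`, `Col.prod`), the sum is `-3 l ^ 2 / (k ^ 3 - l ^ 3)` (expand `Col.chart`, or directly). -/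
theorem Col.far (h : Col l k x₁ x₂ x₃) (hk : 1 < v k) (hl : v l < v k) :
    1 < v x₁ ∧ 1 < v x₂ ∧ 1 < v x₃ ∧
      v (x₁ / (l * x₁ + k) * (x₂ / (l * x₂ + k)) * (x₃ / (l * x₃ + k))) * v k = 1 ∧
      v (x₁ / (l * x₁ + k) + x₂ / (l * x₂ + k) + x₃ / (l * x₃ + k)) * v k < 1 := by
  have k0 : 0 < v k := zero_lt_one.trans hk
  have e : v (k ^ 3 - l ^ 3) = v k ^ 3 := by
    rw [v.map_sub_eq_of_lt_left, map_pow]
    rw [map_pow, map_pow]
    exact pow_lt_pow_left₀ hl zero_le three_ne_zero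
  have n : (l * x₁ + k) * (l * x₂ + k) * (l * x₃ + k) ≠ 0 := by
    rw [h.prod, ← v.ne_zero_iff, e]
    exact (pow_pos k0 3).ne'
  have n1 := left_ne_zero_of_mul (left_ne_zero_of_mul n)
  have n2 := right_ne_zero_of_mul (left_ne_zero_of_mul n)
  have n3 := right_ne_zero_of_mul n
  refine ⟨L3.root_far h.on.1 hk hl, L3.root_far h.on.2.1 hk hl, L3.root_far h.on.2.2 hk hl, ?_, ?_⟩
  · rw [div_mul_div_comm, div_mul_div_comm, h.prod, h.e3, map_div₀, e, v.map_sub_eq_of_lt_left,
      map_pow, div_mul_eq_mul_div, ← pow_succ, div_self (pow_pos k0 3).ne']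
    rw [map_pow, map_one]
    exact one_lt_pow' hk two_ne_zero
  · have a : x₁ / (l * x₁ + k) + x₂ / (l * x₂ + k) + x₃ / (l * x₃ + k) =
        -(3 * l ^ 2) / (k ^ 3 - l ^ 3) := by
      rw [← h.prod, div_add_div _ _ n1 n2, div_add_div _ _ (mul_ne_zero n1 n2) n3]
      congr 1
      linear_combination k ^ 2 * h.e1 + 2 * l * k * h.e2 + 3 * l ^ 2 * h.e3
    rw [a, map_div₀, e, v.map_neg, map_mul, map_pow, div_mul_eq_mul_div, div_lt_one₀ (pow_pos k0 3),
      pow_succ _ 2]
    refine mul_lt_mul_of_pos_right (lt_of_le_of_lt (mul_le_of_le_one_left' ?_)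
      (pow_lt_pow_left₀ hl zero_le two_ne_zero)) k0
    exact_mod_cast val_nat v 3

/-- The line through `(x, y)` and `(a, -b)` has two non-integral points, so it is far; the sum of
the three parameters is smaller than their product, hence smaller than the third one. -/
theorem hgt_sub_big (h6 : v 6 = 1) (hxy : On x y) (hab : On a b) (hx : 1 < v x) (ha : 1 < v a) :
    hgt v (pt x y - pt a b) = v (x / y - a / b) := by
  by_cases e : x = a ∧ y = b
  · rw [e.1, e.2, sub_self, sub_self, hgt_zero, map_zero]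
  obtain ⟨l, hs⟩ := exists_sl (x := x) (y := y) (a := a) (b := -b)
    (by rw [On] at hxy hab; linear_combination hxy - hab) (by rwa [neg_neg])
  obtain ⟨hc, hy⟩ := hs.col hab.neg
  obtain ⟨h3, h4⟩ := hs.add (six_ne h6) hab.neg
  generalize hk : -b - l * a = k at hc hy
  have hb : l * a + k = -b := by rw [← hk]; ring
  have e3 : l * (l ^ 2 - x - a - a) + -b = l * (l ^ 2 - x - a) + k := by rw [← hk]; ring
  rw [e3] at h3 h4
  generalize l ^ 2 - x - a = c at hc h3 h4
  have st : 1 < v l → v k ≤ v l → False := fun h1 h2 => by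
    rcases hc.steep h1 h2 with h | h | h
    exacts [hx.not_ge h.1, hx.not_ge h.1, ha.not_ge h.1]
  have hk1 : 1 < v k := by
    by_contra h
    rw [not_lt] at h
    rcases le_or_gt (v l) 1 with h' | h'
    exacts [hx.not_ge (hc.int h' h).1, st h' (h.trans h'.le)]
  have hl : v l < v k := by
    by_contra h
    rw [not_lt] at h
    exact st (hk1.trans_le h) h
  obtain ⟨-, -, hc3, f1, f2⟩ := hc.far hk1 hl
  rw [← hy, hb] at f1 f2
  rw [sub_eq_add_neg, neg_pt, h4, (hgt_big h6 h3 hc3).1, div_neg, v.map_neg]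
  have z1 := (hgt_big h6 hxy hx).2.1
  have z2 := (hgt_big h6 hab.neg ha).2.1
  rw [(hgt_big h6 hxy hx).1] at z1
  rw [(hgt_big h6 hab.neg ha).1] at z2
  have f3 : v (x / y + a / -b + c / (l * c + k)) < v (c / (l * c + k)) := by
    rw [← f1] at f2
    refine (lt_of_mul_lt_mul_right f2 zero_le).trans_le ?_
    rw [map_mul, map_mul]
    exact mul_le_of_le_one_left' (mul_le_one' z1.le z2.le)
  rw [← v.map_sub_eq_of_lt_right f3, add_sub_cancel_right, div_neg, sub_eq_add_neg]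

theorem hgt_add_le (h6 : v 6 = 1) (P Q : EP Ω) : hgt v (P + Q) ≤ max (hgt v P) (hgt v Q) := by
  rcases pt_cases P with rfl | ⟨x, y, hxy, rfl⟩
  · rw [zero_add]
    exact le_max_right _ _
  rcases pt_cases Q with rfl | ⟨a, b, hab, rfl⟩
  · rw [add_zero]
    exact le_max_left _ _
  rcases le_or_gt (v x) 1 with hx | hx
  · exact le_max_of_le_left ((hgt_le _ _).trans (hgt_int h6 hxy hx).ge)
  rcases le_or_gt (v a) 1 with ha | ha
  · exact le_max_of_le_right ((hgt_le _ _).trans (hgt_int h6 hab ha).ge)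
  rw [← sub_neg_eq_add, neg_pt, hgt_sub_big h6 hxy hab.neg hx ha, (hgt_big h6 hxy hx).1,
    (hgt_big h6 hab ha).1, div_neg, sub_neg_eq_add]
  exact v.map_add _ _

theorem hgt_sub_le (h6 : v 6 = 1) (P Q : EP Ω) : hgt v (P - Q) ≤ max (hgt v P) (hgt v Q) := by
  rw [sub_eq_add_neg, ← hgt_neg v Q]
  exact hgt_add_le h6 _ _

theorem hgt_add_eq (h6 : v 6 = 1) (h : hgt v Q < hgt v P) : hgt v (P + Q) = hgt v P := by
  refine le_antisymm ((hgt_add_le h6 P Q).trans (max_le le_rfl h.le)) ?_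
  have a := hgt_sub_le h6 (P + Q) Q
  rw [add_sub_cancel_right] at a
  exact (le_max_iff.1 a).resolve_right h.not_ge

theorem hgt_sub_eq (h6 : v 6 = 1) (h : hgt v Q < hgt v P) : hgt v (P - Q) = hgt v P := by
  rw [sub_eq_add_neg]
  exact hgt_add_eq h6 (by rwa [hgt_neg])

/-- congruent points -/
theorem hgt_congr (h6 : v 6 = 1) {P P' Q : EP Ω} (h : hgt v (P - P') < 1) :
    hgt v (P - Q) = 1 ↔ hgt v (P' - Q) = 1 := by
  constructor
  · intro e
    rw [show P' - Q = (P - Q) - (P - P') by abel, hgt_sub_eq h6 (h.trans_eq e.symm), e]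
  · intro e
    rw [show P - Q = (P' - Q) + (P - P') by abel, hgt_add_eq h6 (h.trans_eq e.symm), e]

theorem hgt_mixed (h6 : v 6 = 1) (hxy : On x y) (hab : On a b) (hx : 1 < v x) (ha : v a ≤ 1) :
    hgt v (pt x y - pt a b) = 1 ∧ hgt v (pt x y + pt a b) = 1 := by
  have e := hgt_int h6 hab ha
  have h := (hgt_big h6 hxy hx).2.1.trans_eq e.symm
  exact ⟨by rw [hgt_comm, hgt_sub_eq h6 h, e], by rw [add_comm, hgt_add_eq h6 h, e]⟩

theorem hgt_dst (h6 : v 6 = 1) (hxy : On x y) (hab : On a b) (ha : v a ≤ 1) :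
    hgt v (pt x y - pt a b) = dst v x y a b := by
  rcases le_or_gt (v x) 1 with hx | hx
  · exact hgt_sub_int h6 hxy hab hx ha
  · rw [(hgt_mixed h6 hxy hab hx ha).1, dst, v.map_sub_eq_of_lt_left (ha.trans_lt hx),
      min_eq_left (le_max_of_le_left hx.le)]

theorem L3.par_aux {d e f s : Γ} (hs : s ≤ 1) (h : e * f = d * s) (hf : f = 1) (hd : d ≤ 1) :
    d = max d e * max d f := by
  rw [hf, mul_one] at h
  rw [hf, max_eq_right hd, mul_one, h, max_eq_left (mul_le_of_le_one_right' hs)]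

theorem L3.par_int (h6 : v 6 = 1) (hxy : On x y) (hab : On a b) (hx : v x ≤ 1) (ha : v a ≤ 1) :
    v (x - a) = dst v x y a b * dst v x y a (-b) := by
  have hy := hxy.int hx
  have hb := hab.int ha
  have d1 := v.map_sub_le hx ha
  have e1 := v.map_sub_le hy hb
  have f1 := v.map_add_le hy hb
  have s1 : v (x ^ 2 + x * a + a ^ 2) ≤ 1 := by
    refine v.map_add_le (v.map_add_le ?_ ?_) ?_
    · rw [map_pow]
      exact pow_le_one' hx 2
    · rw [map_mul]
      exact mul_le_one' hx ha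
    · rw [map_pow]
      exact pow_le_one' ha 2
  have e : v (y - b) * v (y + b) = v (x - a) * v (x ^ 2 + x * a + a ^ 2) := by
    rw [← map_mul, ← map_mul]
    congr 1
    rw [On] at hxy hab
    linear_combination hxy - hab
  rw [dst, dst, sub_neg_eq_add, min_eq_right (max_le d1 e1), min_eq_right (max_le d1 f1)]
  rcases f1.eq_or_lt with f2 | f2
  · exact L3.par_aux s1 e f2 d1
  rcases e1.eq_or_lt with e2 | e2
  · rw [mul_comm] at e ⊢
    exact L3.par_aux s1 e e2 d1
  rcases d1.eq_or_lt with d2 | d2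
  · rw [d2, max_eq_left e1, max_eq_left f1, mul_one]
  have y1 : v y < 1 := by
    have := (v.map_add (y - b) (y + b)).trans_lt (max_lt e2 f2)
    rwa [show y - b + (y + b) = 2 * y by ring, map_mul, val_two h6, one_mul] at this
  have x1 : v x = 1 := hx.eq_or_lt.resolve_right fun h => hxy.unit ⟨h, y1⟩
  have s2 : v (x ^ 2 + x * a + a ^ 2) = 1 := by
    refine val_congr (c := 3 * x ^ 2) (by rw [map_mul, map_pow, val_three h6, x1, one_pow, mul_one]) ?_
    rw [show 3 * x ^ 2 - (x ^ 2 + x * a + a ^ 2) = (x - a) * (x + x + a) by ring, map_mul]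
    exact (mul_le_of_le_one_right' (v.map_add_le (v.map_add_le hx hx) ha)).trans_lt d2
  rw [s2, mul_one] at e
  rw [max_eq_right (e.ge.trans (mul_le_of_le_one_right' f1)),
    max_eq_right (e.ge.trans (mul_le_of_le_one_left' e1)), e]

/-- Both integral: `(y - b) (y + b) = (x - a) Σ`; if `x ≡ a` then either `y` is a unit and one of
`y ± b` is a unit, or `Σ` is a unit. Both non-integral:
`(x / y) ^ 2 - (a / b) ^ 2 = (x - a) (x + a - x ^ 2 a ^ 2) / (y b) ^ 2`. -/
theorem hgt_par (h6 : v 6 = 1) (hxy : On x y) (hab : On a b) :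
    v (x - a) * hgt v (pt x y) ^ 2 * hgt v (pt a b) ^ 2 =
      hgt v (pt x y - pt a b) * hgt v (pt x y + pt a b) := by
  rcases le_or_gt (v x) 1 with hx | hx <;> rcases le_or_gt (v a) 1 with ha | ha
  · rw [hgt_int h6 hxy hx, hgt_int h6 hab ha, one_pow, mul_one, mul_one, ← sub_neg_eq_add, neg_pt,
      hgt_sub_int h6 hxy hab hx ha, hgt_sub_int h6 hxy hab.neg hx ha]
    exact L3.par_int h6 hxy hab hx ha
  · obtain ⟨e1, e2⟩ := hgt_mixed h6 hab hxy ha hx
    rw [hgt_int h6 hxy hx, one_pow, mul_one, hgt_comm, add_comm, e1, e2, mul_one,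
      v.map_sub_eq_of_lt_right (hx.trans_lt ha), mul_comm, (hgt_big h6 hab ha).2.2.1]
  · obtain ⟨e1, e2⟩ := hgt_mixed h6 hxy hab hx ha
    rw [hgt_int h6 hab ha, one_pow, mul_one, e1, e2, mul_one,
      v.map_sub_eq_of_lt_left (ha.trans_lt hx), mul_comm, (hgt_big h6 hxy hx).2.2.1]
  · have y0 : y ≠ 0 := v.pos_iff.1 (zero_le.trans_lt (hxy.big hx).2)
    have b0 : b ≠ 0 := v.pos_iff.1 (zero_le.trans_lt (hab.big ha).2)
    have x1 : v x ≤ v x ^ 2 := le_self_pow₀ hx.le two_ne_zero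
    have a1 : v a ≤ v a ^ 2 := le_self_pow₀ ha.le two_ne_zero
    have x2 : 1 < v x ^ 2 := hx.trans_le x1
    have a2 : 1 < v a ^ 2 := ha.trans_le a1
    have e : v (x + a - x ^ 2 * a ^ 2) = v x ^ 2 * v a ^ 2 := by
      have e' : v (x ^ 2 * a ^ 2) = v x ^ 2 * v a ^ 2 := by rw [map_mul, map_pow, map_pow]
      rw [v.map_sub_eq_of_lt_right, e']
      rw [e']
      exact (v.map_add _ _).trans_lt (max_lt
        (x1.trans_lt (lt_mul_of_one_lt_right (zero_lt_one.trans x2) a2))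
        (a1.trans_lt (lt_mul_of_one_lt_left (zero_lt_one.trans a2) x2)))
    have e2 : (x / y - a / b) * (x / y - a / -b) =
        (x - a) * (x + a - x ^ 2 * a ^ 2) / (y ^ 2 * b ^ 2) := by
      rw [On] at hxy hab
      field_simp
      linear_combination x ^ 2 * hab - a ^ 2 * hxy
    rw [← sub_neg_eq_add, neg_pt, hgt_sub_big h6 hxy hab hx ha, hgt_sub_big h6 hxy hab.neg hx ha,
      ← map_mul, e2, (hgt_big h6 hxy hx).1, (hgt_big h6 hab ha).1, map_div₀, map_div₀, map_div₀,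
      map_mul, map_mul, e, map_pow, map_pow, div_pow, div_pow, mul_assoc, div_mul_div_comm,
      ← mul_div_assoc]

end Pool.Agent.P.MP_ee618e_ag.X.Y
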