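import Pool.Agent.P.MP_ee618e_ag.Y.L3

/-! L4: the value of a linear function, integral and far lines. -/

namespace Pool.Agent.P.MP_ee618e_ag.X.Y

open IsDedekindDomain
open scoped Classical

variable {Ω : Type} [Field Ω] {Γ : Type} [LinearOrderedCommGroupWithZero Γ] {v : Valuation Ω Γ}
  {l k x y x₁ x₂ x₃ : Ω}

private theorem l4_max {δ δ' a b c : Γ} (h1 : δ ≤ 1) (h2 : δ' ≤ 1) (ha : a ≤ 1) (hb : b ≤ 1)
    (hc : c ≤ 1) (e : δ * δ' = a * b * c)
    (h : δ = 1 ∨ δ' = 1 ∨ (b = 1 ∧ c = 1) ∨ (a = 1 ∧ c = 1) ∨ (a = 1 ∧ b = 1)) :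
    δ = max a δ * max b δ * max c δ := by
  have m : δ * δ' ≤ δ := mul_le_of_le_one_right' h2
  rcases h with h | h | ⟨p, q⟩ | ⟨p, q⟩ | ⟨p, q⟩
  · subst h
    rw [max_eq_right ha, max_eq_right hb, max_eq_right hc, one_mul, one_mul]
  · subst h
    rw [mul_one] at e
    have p1 : δ ≤ a := by
      rw [e, mul_assoc]
      exact mul_le_of_le_one_right' (mul_le_one' hb hc)
    have p2 : δ ≤ b := by
      rw [e, mul_comm a b, mul_assoc]
      exact mul_le_of_le_one_right' (mul_le_one' ha hc)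
    have p3 : δ ≤ c := by
      rw [e]
      exact mul_le_of_le_one_left' (mul_le_one' ha hb)
    rw [max_eq_left p1, max_eq_left p2, max_eq_left p3]
    exact e
  · subst p q
    rw [e, mul_one, mul_one] at m
    rw [max_eq_right m, max_eq_left h1, mul_one, mul_one]
  · subst p q
    rw [e, one_mul, mul_one] at m
    rw [max_eq_right m, max_eq_left h1, one_mul, mul_one]
  · subst p q
    rw [e, one_mul, one_mul] at m
    rw [max_eq_right m, max_eq_left h1, one_mul, one_mul]

private theorem l4_dst {a : Ω} (hl : v l ≤ 1) (hx : v (x - a) ≤ 1)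
    (hd : v (y - (l * x + k)) ≤ 1) :
    dst v x y a (l * a + k) = max (v (x - a)) (v (y - (l * x + k))) := by
  have hm : v (l * (x - a)) ≤ v (x - a) := by
    rw [map_mul]
    exact mul_le_of_le_one_left' hl
  have e : max (v (x - a)) (v (y - (l * a + k))) = max (v (x - a)) (v (y - (l * x + k))) := by
    apply le_antisymm
    · refine max_le (le_max_left _ _) ?_
      rw [show y - (l * a + k) = l * (x - a) + (y - (l * x + k)) by ring]
      exact v.map_add_le (hm.trans (le_max_left _ _)) (le_max_right _ _)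
    · refine max_le (le_max_left _ _) ?_
      rw [show y - (l * x + k) = y - (l * a + k) - l * (x - a) by ring]
      exact v.map_sub_le (le_max_right _ _) (hm.trans (le_max_left _ _))
  rw [dst, e, min_eq_right (max_le hx hd)]

private theorem l4_two {a b c : Ω} (ha : v a ≤ 1) (hb : v b ≤ 1) (hc : v c ≤ 1)
    (h : v (a * b + a * c + b * c) = 1) :
    (v b = 1 ∧ v c = 1) ∨ (v a = 1 ∧ v c = 1) ∨ (v a = 1 ∧ v b = 1) := by
  have l1 : ∀ {p q : Ω}, v p < 1 → v q ≤ 1 → v (p * q) < 1 := fun hp hq => by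
    rw [map_mul]
    exact lt_of_le_of_lt (mul_le_of_le_one_right' hq) hp
  have l2 : ∀ {p q : Ω}, v p ≤ 1 → v q < 1 → v (p * q) < 1 := fun hp hq => by
    rw [mul_comm]
    exact l1 hq hp
  have n : ∀ {p q r : Ω}, p + q + r = a * b + a * c + b * c → v p < 1 → v q < 1 → v r < 1 →
      False := fun e hp hq hr => by
    have := v.map_add_lt (v.map_add_lt hp hq) hr
    rw [e, h] at this
    exact lt_irrefl _ this
  rcases ha.eq_or_lt with pa | pa <;> rcases hb.eq_or_lt with pb | pb <;>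
    rcases hc.eq_or_lt with pc | pc
  · exact Or.inl ⟨pb, pc⟩
  · exact Or.inr (Or.inr ⟨pa, pb⟩)
  · exact Or.inr (Or.inl ⟨pa, pc⟩)
  · exact (n rfl (l2 ha pb) (l2 ha pc) (l1 pb hc)).elim
  · exact Or.inl ⟨pb, pc⟩
  · exact (n rfl (l1 pa hb) (l1 pa hc) (l2 hb pc)).elim
  · exact (n rfl (l1 pa hb) (l1 pa hc) (l1 pb hc)).elim
  · exact (n rfl (l1 pa hb) (l1 pa hc) (l1 pb hc)).elim

/-- All three points are integral (`Col.int`). For non-integral `(x, y)` both sides are `1`.
Otherwise put `δ = v (y - L x)`, `δ' = v (y + L x)`, so `δ δ' = ∏ v (x - x i)` (`Col.fac`) and the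
factors on the right are `max (v (x - x i)) δ`. If `δ < 1` and `y` is a unit then `δ' = 1`. If
`δ < 1` and `y` is small then `x` is a unit and exactly one `x i` is congruent to `x` (from `e1`,
`e2`: `2 l (l x + k) - 3 x ^ 2 = -∑ (x - x i) (x - x j)` is a unit). -/
theorem line_int (h6 : v 6 = 1) (h : Col l k x₁ x₂ x₃) (hl : v l ≤ 1) (hk : v k ≤ 1)
    (hxy : On x y) :
    v (y - (l * x + k)) * hgt v (pt x y) ^ 3 =
      hgt v (pt x y - pt x₁ (l * x₁ + k)) * hgt v (pt x y - pt x₂ (l * x₂ + k)) *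
        hgt v (pt x y - pt x₃ (l * x₃ + k)) := by
  obtain ⟨i1, i2, i3⟩ := h.int hl hk
  obtain ⟨o1, o2, o3⟩ := h.on
  by_cases hx : v x ≤ 1
  · have hy := hxy.int hx
    have hL : v (l * x + k) ≤ 1 := by
      refine v.map_add_le ?_ hk
      rw [map_mul]
      exact mul_le_one' hl hx
    have hd := v.map_sub_le hy hL
    have hd' := v.map_add_le hy hL
    have d1 := v.map_sub_le hx i1
    have d2 := v.map_sub_le hx i2
    have d3 := v.map_sub_le hx i3
    rw [hgt_int h6 hxy hx, one_pow, mul_one, hgt_dst h6 hxy o1 i1, hgt_dst h6 hxy o2 i2,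
      hgt_dst h6 hxy o3 i3, l4_dst hl d1 hd, l4_dst hl d2 hd, l4_dst hl d3 hd]
    have e : (y - (l * x + k)) * (y + (l * x + k)) = (x - x₁) * (x - x₂) * (x - x₃) := by
      have := h.fac x
      unfold On at hxy
      linear_combination hxy - this
    refine l4_max hd hd' d1 d2 d3 (by rw [← map_mul, e, map_mul, map_mul]) ?_
    rcases hd.eq_or_lt with p | p
    · exact Or.inl p
    refine Or.inr ?_
    rcases hy.eq_or_lt with q | q
    · left
      have t : v (2 * y) = 1 := by rw [map_mul, val_two h6, q, one_mul]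
      rw [show y + (l * x + k) = 2 * y - (y - (l * x + k)) by ring,
        v.map_sub_eq_of_lt_left (t ▸ p), t]
    · right
      have ux : v x = 1 := hx.eq_or_lt.resolve_right fun r => hxy.unit ⟨r, q⟩
      have sL : v (l * x + k) < 1 := by
        rw [show l * x + k = y - (y - (l * x + k)) by ring]
        exact v.map_sub_lt q p
      have t : v (3 * x ^ 2) = 1 := by rw [map_mul, map_pow, val_three h6, ux, one_pow, one_mul]
      have t' : v (2 * l * (l * x + k)) < 1 := by
        rw [map_mul, map_mul, val_two h6, one_mul]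
        exact lt_of_le_of_lt (mul_le_of_le_one_left' hl) sL
      refine l4_two d1 d2 d3 ?_
      rw [show (x - x₁) * (x - x₂) + (x - x₁) * (x - x₃) + (x - x₂) * (x - x₃) =
        3 * x ^ 2 - 2 * l * (l * x + k) by linear_combination h.e2 - 2 * x * h.e1,
        v.map_sub_eq_of_lt_left (t ▸ t'), t]
  · rw [not_le] at hx
    have hL : v (l * x + k) < v y := by
      refine lt_of_le_of_lt (v.map_add_le ?_ (hk.trans hx.le)) (hxy.big hx).2
      rw [map_mul]
      exact mul_le_of_le_one_left' hl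
    rw [(hgt_mixed h6 hxy o1 hx i1).1, (hgt_mixed h6 hxy o2 hx i2).1,
      (hgt_mixed h6 hxy o3 hx i3).1, v.map_sub_eq_of_lt_left hL, mul_comm,
      (hgt_big h6 hxy hx).2.2.2.1, one_mul, one_mul]

/-- All three points are non-integral (`Col.far`). For integral `(x, y)` both sides are `1`.
Otherwise let `z = x / y`, `u = 1 / y` (so `u = z ^ 3 + u ^ 3`), `c = (1 - l z) / k`; then
`y - L x = -k y (u - c)` and by `Col.chart`, `Col.prod`
`(k ^ 3 - l ^ 3) ∏ (z - z i) = k ^ 3 (z ^ 3 + c ^ 3 - c) = k ^ 3 (u - c) (1 - (u ^ 2 + u c + c ^ 2))`;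
`hgt_sub_big`. -/
theorem line_far (h6 : v 6 = 1) (h : Col l k x₁ x₂ x₃) (hk : 1 < v k) (hl : v l < v k)
    (hxy : On x y) :
    v (y - (l * x + k)) * hgt v (pt x y) ^ 3 * (hgt v (pt x₁ (l * x₁ + k)) *
      hgt v (pt x₂ (l * x₂ + k)) * hgt v (pt x₃ (l * x₃ + k))) =
      hgt v (pt x y - pt x₁ (l * x₁ + k)) * hgt v (pt x y - pt x₂ (l * x₂ + k)) *
        hgt v (pt x y - pt x₃ (l * x₃ + k)) := by
  obtain ⟨i1, i2, i3, hp, -⟩ := h.far hk hl
  obtain ⟨o1, o2, o3⟩ := h.on
  rw [map_mul, map_mul, ← (hgt_big h6 o1 i1).1, ← (hgt_big h6 o2 i2).1,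
    ← (hgt_big h6 o3 i3).1] at hp
  by_cases hx : v x ≤ 1
  · have hy := hxy.int hx
    have t : v (y - l * x) < v k := by
      refine v.map_sub_lt (lt_of_le_of_lt hy hk) ?_
      rw [map_mul]
      exact lt_of_le_of_lt (mul_le_of_le_one_right' hx) hl
    rw [hgt_int h6 hxy hx, one_pow, mul_one, hgt_comm v (pt x y), hgt_comm v (pt x y),
      hgt_comm v (pt x y), (hgt_mixed h6 o1 hxy i1 hx).1, (hgt_mixed h6 o2 hxy i2 hx).1,
      (hgt_mixed h6 o3 hxy i3 hx).1, show y - (l * x + k) = y - l * x - k by ring,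
      v.map_sub_eq_of_lt_right t, mul_comm, hp, one_mul, one_mul]
  · rw [not_le] at hx
    have ne : ∀ {a b : Ω}, On a b → 1 < v a → b ≠ 0 := fun o i e => by
      have := i.trans (o.big i).2
      rw [e, map_zero] at this
      exact not_lt_zero this
    have y0 := ne hxy hx
    have y1 := ne o1 i1
    have y2 := ne o2 i2
    have y3 := ne o3 i3
    have k0 : v k ≠ 0 := (zero_lt_one.trans hk).ne'
    have k1 : k ≠ 0 := fun e => k0 (by rw [e, map_zero])
    have v0 : v y ≠ 0 := (zero_lt_one.trans (hx.trans (hxy.big hx).2)).ne'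
    obtain ⟨b1, b2, -, b3, -⟩ := hgt_big h6 hxy hx
    rw [hgt_sub_big h6 hxy o1 hx i1, hgt_sub_big h6 hxy o2 hx i2, hgt_sub_big h6 hxy o3 hx i3]
    rw [b1] at b2
    obtain ⟨z, hz⟩ : ∃ z, z = x / y := ⟨_, rfl⟩
    obtain ⟨u, hu⟩ : ∃ u, u = 1 / y := ⟨_, rfl⟩
    obtain ⟨c, hc⟩ : ∃ c, c = (1 - l * z) / k := ⟨_, rfl⟩
    rw [← hz] at b2 ⊢
    have su : v u < 1 := by
      rw [hu, map_div₀, map_one, one_div]
      exact inv_lt_one_of_one_lt₀ (hx.trans (hxy.big hx).2)
    have sc : v c < 1 := by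
      rw [hc, map_div₀, div_lt_one₀ (zero_lt_one.trans hk)]
      refine v.map_sub_lt (by rwa [map_one]) ?_
      rw [map_mul]
      exact lt_of_le_of_lt (mul_le_of_le_one_right' b2.le) hl
    have l1 : ∀ {p q : Ω}, v p < 1 → v q < 1 → v (p * q) < 1 := fun hp hq => by
      rw [map_mul]
      exact lt_of_le_of_lt (mul_le_of_le_one_right' hq.le) hp
    have w : v (1 - (u * u + u * c + c * c)) = 1 :=
      v.map_one_sub_of_lt (v.map_add_lt (v.map_add_lt (l1 su su) (l1 su sc)) (l1 sc sc))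
    have eu : u = z ^ 3 + u ^ 3 := by
      unfold On at hxy
      rw [hu, hz]
      field_simp
      exact hxy
    have ec : 1 - l * z = k * c := by rw [hc]; field_simp
    have eA : y - (l * x + k) = y * k * (c - u) := by
      have a1 : y * z = x := by rw [hz]; field_simp
      have a2 : y * u = 1 := by rw [hu]; field_simp
      linear_combination y * ec + l * a1 + k * a2
    have eP : (k ^ 3 - l ^ 3) * ((z - x₁ / (l * x₁ + k)) * (z - x₂ / (l * x₂ + k)) *
        (z - x₃ / (l * x₃ + k))) = k ^ 3 * (-(c - u) * (1 - (u * u + u * c + c * c))) := by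
      have ch := h.chart z
      rw [ec] at ch
      rw [← h.prod]
      have : (l * x₁ + k) * (l * x₂ + k) * (l * x₃ + k) * ((z - x₁ / (l * x₁ + k)) *
          (z - x₂ / (l * x₂ + k)) * (z - x₃ / (l * x₃ + k))) =
          (z * (l * x₁ + k) - x₁) * (z * (l * x₂ + k) - x₂) * (z * (l * x₃ + k) - x₃) := by
        field_simp
      rw [this, ch]
      linear_combination -k ^ 3 * eu
    have vk : v (k ^ 3 - l ^ 3) = v k ^ 3 := by
      rw [v.map_sub_eq_of_lt_left, map_pow]
      rw [map_pow, map_pow]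
      exact pow_lt_pow_left₀ hl zero_le three_ne_zero
    have eV := congrArg v eP
    simp only [map_mul, vk, map_pow, w, Valuation.map_neg, mul_one] at eV
    rw [mul_left_cancel₀ (pow_ne_zero 3 k0) eV, eA, map_mul, map_mul]
    calc _ = v (c - u) * (hgt v (pt x y) ^ 3 * v y) * (hgt v (pt x₁ (l * x₁ + k)) *
          hgt v (pt x₂ (l * x₂ + k)) * hgt v (pt x₃ (l * x₃ + k)) * v k) := by
          simp only [mul_comm, mul_left_comm, mul_assoc]
      _ = _ := by rw [b3, hp, mul_one, mul_one]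

end Pool.Agent.P.MP_ee618e_ag.X.Y
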