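import Pool.Agent.P.MP_ee618e_ag.Y.L4

/-! L5: the value of a linear function, steep lines; slopes; parabolas. -/

namespace Pool.Agent.P.MP_ee618e_ag.X.Y

open IsDedekindDomain
open scoped Classical

variable {Ω : Type} [Field Ω] {Γ : Type} [LinearOrderedCommGroupWithZero Γ] {v : Valuation Ω Γ}
  {l k x y x₁ x₂ x₃ a b x' y' m m' : Ω}

namespace L5

theorem val_dom {A B : Ω} {c : Γ} (hc : c < 1) (h : v B ≤ v A * c) : v (A + B) = v A := by
  by_cases h0 : v A = 0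
  · rw [h0, zero_mul, le_zero_iff, Valuation.zero_iff] at h
    rw [h, add_zero]
  · exact v.map_add_eq_of_lt_left (h.trans_lt (mul_lt_of_lt_one_right (zero_lt_iff.2 h0) hc))

theorem val_steep {B C : Ω} (hl : 1 < v l) (h : v B ≤ v C) : v (B - l * C) = v l * v C := by
  have h0 : v l ≠ 0 := (zero_lt_one.trans hl).ne'
  have := val_dom (v := v) (A := -(l * C)) (B := B) (inv_lt_one_of_one_lt₀ hl) (by
    rwa [v.map_neg, v.map_mul, mul_comm (v l), mul_inv_cancel_right₀ h0])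
  rwa [v.map_neg, v.map_mul, neg_add_eq_sub] at this

theorem small {B C : Ω} (hl : 1 < v l) (e : l * C = B) (h : v B ≤ 1) : v C < 1 := by
  by_contra h1
  rw [← e, v.map_mul] at h
  exact absurd ((le_mul_of_one_le_right' (not_lt.1 h1)).trans h) (not_le.2 hl)

theorem mul_int {B C : Ω} (h : v B ≤ 1) (h' : v C ≤ 1) : v (B * C) ≤ 1 := by
  rw [v.map_mul]
  exact mul_le_one' h h'

theorem mul_small {B C : Ω} (h : v B < 1) (h' : v C ≤ 1) : v (B * C) < 1 := by
  rw [v.map_mul]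
  exact (mul_le_of_le_one_right' h').trans_lt h

theorem sig_int (hx : v x ≤ 1) (ha : v a ≤ 1) : v (x ^ 2 + x * a + a ^ 2) ≤ 1 := by
  rw [sq, sq]
  exact v.map_add_le (v.map_add_le (mul_int hx hx) (mul_int hx ha)) (mul_int ha ha)

theorem diff (hxy : On x y) (hab : On a b) :
    (y - b) * (y + b) = (x - a) * (x ^ 2 + x * a + a ^ 2) := by
  unfold On at hxy hab
  linear_combination hxy - hab

theorem sig_unit (h6 : v 6 = 1) (hab : On a b) (hx : v x ≤ 1) (ha : v a ≤ 1) (hb : v b < 1)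
    (e : v (x - a) < 1) : v (x ^ 2 + x * a + a ^ 2) = 1 := by
  have h1 : v a = 1 := le_antisymm ha (not_lt.1 fun h => hab.unit ⟨h, hb⟩)
  refine val_congr (c := 3 * a ^ 2) (by rw [v.map_mul, v.map_pow, val_three h6, h1]; simp) ?_
  rw [show 3 * a ^ 2 - (x ^ 2 + x * a + a ^ 2) = -((x - a) * (x + a + a)) by ring, v.map_neg]
  exact mul_small e (v.map_add_le (v.map_add_le hx ha) ha)

/-- near a point with small ordinate the ordinate is the parameter -/
theorem dst_y (h6 : v 6 = 1) (hxy : On x y) (hab : On a b) (hx : v x ≤ 1) (ha : v a ≤ 1)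
    (hb : v b < 1) (e : v (x - a) < 1) :
    v (x - a) ≤ v (y - b) ∧ dst v x y a b = v (y - b) := by
  have h1 := congrArg v (diff hxy hab)
  rw [v.map_mul, v.map_mul, sig_unit h6 hab hx ha hb e, mul_one] at h1
  have h2 : v (x - a) ≤ v (y - b) :=
    h1 ▸ mul_le_of_le_one_right' (v.map_add_le (hxy.int hx) hb.le)
  exact ⟨h2, by rw [dst, max_eq_right h2, min_eq_right (v.map_sub_le (hxy.int hx) hb.le)]⟩

/-- the case where the ordinates are units -/
theorem unit_case (h : Col l k x₁ x₂ x₃) (hl : 1 < v l) (h₁ : v x₁ ≤ 1) (hxy : On x y)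
    (hx : v x ≤ 1) (e1 : v (y + (l * x₁ + k)) = 1) (e2 : v (l * x₁ + k + (l * x₂ + k)) < 1) :
    v (y - (l * x + k)) = v l * (dst v x y x₁ (l * x₁ + k) * dst v x y x₂ (l * x₂ + k)) := by
  have h1 := congrArg v (diff hxy h.on.1)
  rw [v.map_mul, v.map_mul, e1, mul_one] at h1
  have h2 : v (y - (l * x₁ + k)) ≤ v (x - x₁) := h1 ▸ mul_le_of_le_one_right' (sig_int hx h₁)
  have h3 : v (y - (l * x₂ + k)) = 1 := val_congr e1 (by
    rwa [show y + (l * x₁ + k) - (y - (l * x₂ + k)) = l * x₁ + k + (l * x₂ + k) by ring])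
  rw [dst, dst, max_eq_left h2, min_eq_right (v.map_sub_le hx h₁), h3,
    min_eq_left (le_max_right _ _), mul_one, ← val_steep hl h2]
  congr 1
  ring

/-- integral points -/
theorem int_case (h6 : v 6 = 1) (h : Col l k x₁ x₂ x₃) (hl : 1 < v l) (h₁ : v x₁ ≤ 1)
    (h₂ : v x₂ ≤ 1) (hxy : On x y) (hx : v x ≤ 1) :
    v (y - (l * x + k)) = v l * (dst v x y x₁ (l * x₁ + k) * dst v x y x₂ (l * x₂ + k)) := by
  obtain ⟨o1, o2, -⟩ := h.on
  obtain ⟨s1, s2⟩ := h.sl
  have y0 := hxy.int hx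
  have y1 := o1.int h₁
  have y2 := o2.int h₂
  have a1 := small hl s1 (v.map_sub_le y1 y2)
  have a2 := small hl s2 (sig_int h₁ h₂)
  rcases (v.map_sub_le hx h₁).eq_or_lt with b1 | b1
  · have b2 : v (x - x₂) = 1 := val_congr b1 (by
      rwa [show x - x₁ - (x - x₂) = -(x₁ - x₂) by ring, v.map_neg])
    have := val_steep hl ((v.map_sub_le y0 y1).trans b1.ge)
    rw [dst, dst, b1, b2, min_eq_left (le_max_left _ _), min_eq_left (le_max_left _ _), mul_one,
      ← b1, ← this]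
    congr 1
    ring
  have b2 : v (x - x₂) < 1 := by
    rw [show x - x₂ = x - x₁ + (x₁ - x₂) by ring]
    exact v.map_add_lt b1 a1
  rcases y1.eq_or_lt with c1 | c1
  · rcases (v.map_add_le y0 y1).eq_or_lt with d | d
    · exact unit_case h hl h₁ hxy hx d a2
    · rw [mul_comm (dst _ _ _ _ _)]
      refine unit_case h.swap₁₂ hl h₂ hxy hx ?_ (by rwa [add_comm])
      refine val_congr (c := -(2 * (l * x₁ + k)))
        (by rw [v.map_neg, v.map_mul, val_two h6, c1, mul_one]) ?_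
      rw [show -(2 * (l * x₁ + k)) - (y + (l * x₂ + k)) =
        -(y + (l * x₁ + k) + (l * x₁ + k + (l * x₂ + k))) by ring, v.map_neg]
      exact v.map_add_lt d a2
  · have c2 : v (l * x₂ + k) < 1 := by
      rw [show l * x₂ + k = l * x₁ + k + (l * x₂ + k) - (l * x₁ + k) by ring]
      exact v.map_sub_lt a2 c1
    obtain ⟨-, d1⟩ := dst_y h6 hxy o1 hx h₁ c1 b1
    obtain ⟨d3, d2⟩ := dst_y h6 hxy o2 hx h₂ c2 b2
    have e : (y - (l * x + k)) * (x ^ 2 + x * x₁ + x₁ ^ 2) = (y - (l * x₁ + k)) *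
        ((x - x₂) * (x + x₁ + x₂) - l * (y - (l * x₂ + k))) := by
      linear_combination l * diff hxy o1 - (y - (l * x₁ + k)) * s2
    have e' := congrArg v e
    rw [v.map_mul, v.map_mul, sig_unit h6 o1 hx h₁ c1 b1, mul_one, val_steep hl (by
      rw [v.map_mul]
      exact (mul_le_of_le_one_right' (v.map_add_le (v.map_add_le hx h₁) h₂)).trans d3)] at e'
    rw [e', d1, d2, mul_left_comm]

end L5

/-- The third point has height `(v l)⁻¹`. Non-integral `(x, y)`: with `z = x / y`, `z₃ = x₃ / y₃`,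
`y - L x = x (z₃ - z) / (z z₃) + k (x - x₃) / x₃`, and the second term is smaller by `hgt_par`
(`v (x - x₃) v (z z₃) ^ 2 = v (z - z₃) v (z + z₃)`). Integral `(x, y)`: if `v (L x) = v l` both
sides are `1` (`L x = y₁ + l (x - x₁)`; then `x - x₁`, `x - x₂` are units). Otherwise
`x ≡ x₁ ≡ x₂`; `y₁ ≡ -y₂` as the sum of the two points is close to the origin. If `y` is a unit it
is congruent to exactly one of `y₁`, `y₂`, say `y₁`, and `y - L x = (y - y₁) - l (x - x₁)` with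
`v (y - y₁) ≤ v (x - x₁)`. If `y` is small, so are `y₁`, `y₂`, heights are `v (y - y i)` and
`(y - L x) Σ(x, x₁) = (y - y₁) ((x - x₂) (x + x₁ + x₂) - l (y - y₂))` by `Col.sl`. -/
theorem line_steep (h6 : v 6 = 1) (h : Col l k x₁ x₂ x₃) (hl : 1 < v l) (hk : v k ≤ v l)
    (h₁ : v x₁ ≤ 1) (h₂ : v x₂ ≤ 1) (h₃ : v x₃ = v l ^ 2) (hxy : On x y) :
    v (y - (l * x + k)) * hgt v (pt x y) ^ 3 * hgt v (pt x₃ (l * x₃ + k)) =
      hgt v (pt x y - pt x₁ (l * x₁ + k)) * hgt v (pt x y - pt x₂ (l * x₂ + k)) *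
        hgt v (pt x y - pt x₃ (l * x₃ + k)) := by
  obtain ⟨o1, o2, o3⟩ := h.on
  have b3 : 1 < v x₃ := h₃ ▸ one_lt_pow₀ hl two_ne_zero
  obtain ⟨g1, -, g2, -, -⟩ := hgt_big h6 o3 b3
  have g3 : v l * hgt v (pt x₃ (l * x₃ + k)) = 1 := by
    rw [h₃, ← mul_pow, mul_comm] at g2
    exact (pow_eq_one_iff_of_nonneg zero_le two_ne_zero).1 g2
  rcases le_or_gt (v x) 1 with hx | hx
  · rw [hgt_int h6 hxy hx, hgt_sub_int h6 hxy o1 hx h₁, hgt_sub_int h6 hxy o2 hx h₂,
      hgt_comm v (pt x y), (hgt_mixed h6 o3 hxy b3 hx).1, L5.int_case h6 h hl h₁ h₂ hxy hx,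
      one_pow, mul_one, mul_one, mul_right_comm, g3, one_mul]
  · obtain ⟨f1, f2, f3, -, -⟩ := hgt_big h6 hxy hx
    have par := hgt_par h6 hxy o3
    rw [(hgt_mixed h6 hxy o1 hx h₁).1, (hgt_mixed h6 hxy o2 hx h₂).1, one_mul, one_mul]
    rw [hgt_sub_big h6 hxy o3 hx b3] at par ⊢
    have n : ∀ {t : Ω}, 1 < v t → t ≠ 0 := fun ht e => by
      rw [e, v.map_zero] at ht
      exact absurd ht (not_lt.2 zero_le)
    have n1 := n hx
    have n2 := n (hx.trans (hxy.big hx).2)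
    have n3 := n b3
    have n4 := n (b3.trans (o3.big b3).2)
    have hP := hgt_le v (pt x y + pt x₃ (l * x₃ + k))
    rw [f1] at f2 f3 par ⊢
    rw [g1] at g2 g3 par ⊢
    set z := x / y with hz
    set w := x₃ / (l * x₃ + k) with hw
    have e : (y - (l * x + k)) * z ^ 3 * w =
        -(z ^ 2 * x * (z - w)) + k * (x - x₃) * z ^ 3 * w / x₃ := by
      rw [hz, hw]
      field_simp
      ring
    have e1 : v (-(z ^ 2 * x * (z - w))) = v (z - w) := by
      rw [v.map_neg, v.map_mul, v.map_mul, v.map_pow, f3, one_mul]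
    rw [← v.map_pow, ← v.map_mul, ← v.map_mul, e, L5.val_dom f2, e1]
    have e2 : (v x₃)⁻¹ = v w ^ 2 := (eq_inv_of_mul_eq_one_left g2).symm
    have e3 : v k * v w ≤ 1 := g3 ▸ mul_le_mul_left hk _
    rw [e1, map_div₀, v.map_mul, v.map_mul, v.map_mul, v.map_pow, div_eq_mul_inv, e2]
    calc v k * v (x - x₃) * v z ^ 3 * v w * v w ^ 2
        = v (x - x₃) * v z ^ 2 * v w ^ 2 * (v k * v w) * v z := by
          simp only [pow_succ, pow_zero, one_mul, mul_comm, mul_left_comm]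
      _ ≤ v (z - w) * v z := by
          rw [par]
          exact mul_le_mul_left ((mul_le_of_le_one_right' e3).trans
            (mul_le_of_le_one_right' hP)) _

/-- `line_int`, `line_steep` (with `Col.steep` and the permutations), `line_far` -/
theorem hgt_line (h6 : v 6 = 1) (h : Col l k x₁ x₂ x₃) (hxy : On x y) :
    v (y - (l * x + k)) * hgt v (pt x y) ^ 3 * (hgt v (pt x₁ (l * x₁ + k)) *
      hgt v (pt x₂ (l * x₂ + k)) * hgt v (pt x₃ (l * x₃ + k))) =
      hgt v (pt x y - pt x₁ (l * x₁ + k)) * hgt v (pt x y - pt x₂ (l * x₂ + k)) *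
        hgt v (pt x y - pt x₃ (l * x₃ + k)) := by
  obtain ⟨o1, o2, o3⟩ := h.on
  by_cases h1 : v l ≤ 1 ∧ v k ≤ 1
  · obtain ⟨i1, i2, i3⟩ := h.int h1.1 h1.2
    rw [hgt_int h6 o1 i1, hgt_int h6 o2 i2, hgt_int h6 o3 i3, mul_one, mul_one, mul_one]
    exact line_int h6 h h1.1 h1.2 hxy
  rcases le_or_gt (v k) (v l) with h2 | h2
  · have hl : 1 < v l := not_le.1 fun e => h1 ⟨e, h2.trans e⟩
    rcases h.steep hl h2 with ⟨i1, i2, i3⟩ | ⟨i1, i2, i3⟩ | ⟨i1, i2, i3⟩
    · rw [hgt_int h6 o1 i1, hgt_int h6 o2 i2, one_mul, one_mul]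
      exact line_steep h6 h hl h2 i1 i2 i3 hxy
    · rw [hgt_int h6 o1 i1, hgt_int h6 o3 i2, one_mul, mul_one,
        line_steep h6 h.swap₂₃ hl h2 i1 i2 i3 hxy, mul_right_comm]
    · rw [hgt_int h6 o2 i1, hgt_int h6 o3 i2, mul_one, mul_one,
        line_steep h6 h.swap₁₃ hl h2 i2 i1 i3 hxy]
      simp only [mul_assoc, mul_comm]
  · exact line_far h6 h (not_le.1 fun e => h1 ⟨h2.le.trans e, e⟩) h2 hxy

end Pool.Agent.P.MP_ee618e_ag.X.Y
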