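import Pool.Agent.P.MP_ee618e_ag.Y.L5

/-! L6: differences of slopes, parabolas. -/

namespace Pool.Agent.P.MP_ee618e_ag.X.Y

open IsDedekindDomain
open scoped Classical

variable {Ω : Type} [Field Ω] {Γ : Type} [LinearOrderedCommGroupWithZero Γ] {v : Valuation Ω Γ}
  {x y a b x' y' m m' : Ω}

theorem hgt_pt_ne (h6 : v 6 = 1) (h : On x y) : hgt v (pt x y) ≠ 0 := fun e =>
  pt_ne_zero (six_ne h6) h (hgt_eq_zero.1 e)

theorem slope_aux (h6 : v 6 = 1) (hxy : On x y) (hab : On a b)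
    (h : Sl m x y a b) (h' : Sl m' x' y' a b) (hx : x ≠ a) :
    v (m - m') * (hgt v (pt x y) * hgt v (pt x y + pt a b) * hgt v (pt x' y') *
      hgt v (pt x' y' + pt a b)) =
      hgt v (pt a b) * hgt v (pt x y - pt x' y') * hgt v (pt x y + pt a b + pt x' y') := by
  obtain ⟨hc, hy'⟩ := h'.col hab
  have hs := hc.sum (six_ne h6)
  have hl := hgt_line h6 hc hxy
  have hb : m' * a + (b - m' * a) = b := by ring
  rw [← hy', hb] at hs hl
  rw [eq_neg_of_add_eq_zero_right hs, hgt_neg, sub_neg_eq_add] at hl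
  have e1 : y - (m' * x + (b - m' * a)) = (m - m') * (x - a) := by linear_combination -h.1
  have e2 : pt x y + (pt x' y' + pt a b) = pt x y + pt a b + pt x' y' := by abel
  rw [e1, e2, map_mul] at hl
  have hp := hgt_par h6 hxy hab
  have n1 := hgt_pt_ne h6 hxy
  have n2 := hgt_pt_ne h6 hab
  have n3 : hgt v (pt x y - pt a b) ≠ 0 := fun e =>
    hx ((pt_inj (six_ne h6) hxy hab).1 (sub_eq_zero.1 (hgt_eq_zero.1 e))).1
  generalize hgt v (pt x y) = E at *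
  generalize hgt v (pt a b) = P at *
  generalize hgt v (pt x' y') = Q at *
  generalize hgt v (pt x y - pt a b) = D at *
  generalize hgt v (pt x y + pt a b) = S at *
  generalize hgt v (pt x' y' + pt a b) = R at *
  generalize hgt v (pt x y - pt x' y') = D' at *
  generalize hgt v (pt x y + pt a b + pt x' y') = T at *
  generalize v (m - m') = M at *
  generalize v (x - a) = X at *
  refine mul_right_cancel₀ (mul_ne_zero (mul_ne_zero n3 (pow_ne_zero 2 n1)) n2) ?_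
  calc M * (E * S * Q * R) * (D * E ^ 2 * P) = M * E ^ 3 * (Q * P * R) * (D * S) := by
        simp only [pow_succ, pow_zero, one_mul]; ac_rfl
    _ = M * X * E ^ 3 * (Q * P * R) * (E ^ 2 * P ^ 2) := by
        rw [← hp]; ac_rfl
    _ = P * D' * T * (D * E ^ 2 * P) := by
        rw [hl]; simp only [pow_succ, pow_zero, one_mul]; ac_rfl

/-- If `x ≠ a`: `(m - m') (x - a) = y - L x` for the line `L` through `(x', y')`, `(a, b)`
(`Sl.col`), whose third point is `-(P + Q)` (`Col.sum`); `hgt_line`, `hgt_par`, cancel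
`hgt (e - P) hgt e ^ 2 hgt P`. The statement is symmetric in `e`, `Q`. If `x = a = x'` then
`e = P = Q` (`Sl.not_opp`), both sides vanish (`Sl.unique`). -/
theorem hgt_slope (h6 : v 6 = 1) (hxy : On x y) (hxy' : On x' y') (hab : On a b)
    (h : Sl m x y a b) (h' : Sl m' x' y' a b) :
    v (m - m') * (hgt v (pt x y) * hgt v (pt x y + pt a b) * hgt v (pt x' y') *
      hgt v (pt x' y' + pt a b)) =
      hgt v (pt a b) * hgt v (pt x y - pt x' y') * hgt v (pt x y + pt a b + pt x' y') := by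
  by_cases hx : x = a
  · by_cases hx' : x' = a
    · have h0 : b ^ 2 - a ^ 3 ≠ 0 := by
        have : b ^ 2 - a ^ 3 = 1 := by unfold On at hab; linear_combination hab
        rw [this]; exact one_ne_zero
      have key : ∀ {n z w : Ω}, On z w → Sl n z w a b → z = a → w = b := by
        intro n z w hz hn e
        have : (w - b) * (w + b) = 0 := by
          unfold On at hz hab; rw [e] at hz; linear_combination hz - hab
        rcases mul_eq_zero.1 this with k | k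
        · exact sub_eq_zero.1 k
        · exact absurd ⟨e, eq_neg_of_add_eq_zero_left k⟩ (hn.not_opp (six_ne h6) h0)
      have hy := key hxy h hx
      have hy' := key hxy' h' hx'
      subst hx hx' hy hy'
      rw [h.unique (six_ne h6) h' h0, sub_self, sub_self, map_zero, hgt_zero]
      simp
    · have k := slope_aux h6 hxy' hab h' h hx'
      have e2 : pt x' y' + pt a b + pt x y = pt x y + pt a b + pt x' y' := by abel
      rw [Valuation.map_sub_swap, hgt_comm, e2] at k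
      rw [← k]; ac_rfl
  · exact slope_aux h6 hxy hab h h' hx

theorem parab_aux (h6 : v 6 = 1) {l k l' k' x₀ x₁ x₂ x₃ s : Ω} (c₁ : Col l k x₀ x₁ s)
    (c₂ : Col l' k' x₂ x₃ s) (hs : l' * s + k' = -(l * s + k)) :
    v (s - x₀) * v (s - x₁) * hgt v (pt s (l * s + k)) ^ 4 *
      (hgt v (pt x₀ (l * x₀ + k)) * hgt v (pt x₁ (l * x₁ + k)) *
        hgt v (pt x₂ (l' * x₂ + k')) * hgt v (pt x₃ (l' * x₃ + k'))) =
      hgt v (pt s (l * s + k) - pt x₀ (l * x₀ + k)) * hgt v (pt s (l * s + k) - pt x₁ (l * x₁ + k)) *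
        hgt v (pt s (l * s + k) - pt x₂ (l' * x₂ + k')) *
        hgt v (pt s (l * s + k) - pt x₃ (l' * x₃ + k')) := by
  obtain ⟨o₀, o₁, os⟩ := c₁.on
  have s₁ := c₁.sum (six_ne h6)
  have s₂ := c₂.sum (six_ne h6)
  rw [hs, ← neg_pt] at s₂
  have p₀ := hgt_par h6 os o₀
  have p₁ := hgt_par h6 os o₁
  have n₀ := hgt_pt_ne h6 o₀
  have n₁ := hgt_pt_ne h6 o₁
  generalize pt s (l * s + k) = e at *
  generalize pt x₀ (l * x₀ + k) = e₀ at *
  generalize pt x₁ (l * x₁ + k) = e₁ at *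
  generalize pt x₂ (l' * x₂ + k') = e₂ at *
  generalize pt x₃ (l' * x₃ + k') = e₃ at *
  have a₀ : e + e₀ = -e₁ := by rw [eq_neg_iff_add_eq_zero, ← s₁]; abel
  have a₁ : e + e₁ = -e₀ := by rw [eq_neg_iff_add_eq_zero, ← s₁]; abel
  have a₂ : e - e₂ = e₃ := by rw [← sub_eq_zero, ← neg_eq_zero, ← s₂]; abel
  have a₃ : e - e₃ = e₂ := by rw [← sub_eq_zero, ← neg_eq_zero, ← s₂]; abel
  rw [a₀, hgt_neg] at p₀
  rw [a₁, hgt_neg] at p₁
  rw [a₂, a₃]
  generalize hgt v (e - e₀) = D₀ at *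
  generalize hgt v (e - e₁) = D₁ at *
  generalize hgt v e = E at *
  generalize hgt v e₀ = H₀ at *
  generalize hgt v e₁ = H₁ at *
  generalize hgt v e₂ = H₂ at *
  generalize hgt v e₃ = H₃ at *
  generalize v (s - x₀) = X₀ at *
  generalize v (s - x₁) = X₁ at *
  refine mul_right_cancel₀ (mul_ne_zero n₀ n₁) ?_
  calc X₀ * X₁ * E ^ 4 * (H₀ * H₁ * H₂ * H₃) * (H₀ * H₁) =
        X₀ * E ^ 2 * H₀ ^ 2 * (X₁ * E ^ 2 * H₁ ^ 2) * (H₂ * H₃) := by
        simp only [pow_succ, pow_zero, one_mul]; ac_rfl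
    _ = D₀ * D₁ * H₃ * H₂ * (H₀ * H₁) := by rw [p₀, p₁]; ac_rfl

theorem parab_gen (h6 : v 6 = 1) {l k l' k' x₀ x₁ x₂ x₃ s c t : Ω} (c₁ : Col l k x₀ x₁ s)
    (c₂ : Col l' k' x₂ x₃ s) (hs : l' * s + k' = -(l * s + k)) (hxy : On x y) (hx : x ≠ s)
    (ht : c * ((y - (l * x + k)) * (y - (l' * x + k'))) = -((x - s) * t)) :
    v t * hgt v (pt x y) ^ 4 *
      (hgt v (pt x₀ (l * x₀ + k)) * hgt v (pt x₁ (l * x₁ + k)) *
        hgt v (pt x₂ (l' * x₂ + k')) * hgt v (pt x₃ (l' * x₃ + k'))) =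
      v c * (hgt v (pt x y - pt x₀ (l * x₀ + k)) * hgt v (pt x y - pt x₁ (l * x₁ + k)) *
        hgt v (pt x y - pt x₂ (l' * x₂ + k')) * hgt v (pt x y - pt x₃ (l' * x₃ + k'))) := by
  have os := c₁.on.2.2
  have l₁ := hgt_line h6 c₁ hxy
  have l₂ := hgt_line h6 c₂ hxy
  rw [hs, ← neg_pt, hgt_neg, sub_neg_eq_add] at l₂
  have hp := hgt_par h6 hxy os
  have hv := congrArg v ht
  rw [Valuation.map_neg, map_mul, map_mul, map_mul] at hv
  have n₁ := hgt_pt_ne h6 hxy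
  have n₂ := hgt_pt_ne h6 os
  have n₃ : v (x - s) ≠ 0 := by rw [Ne, Valuation.zero_iff]; exact sub_ne_zero.2 hx
  generalize pt s (l * s + k) = S at *
  generalize pt x y = e at *
  generalize hgt v (e - pt x₀ (l * x₀ + k)) = D₀ at *
  generalize hgt v (e - pt x₁ (l * x₁ + k)) = D₁ at *
  generalize hgt v (e - pt x₂ (l' * x₂ + k')) = D₂ at *
  generalize hgt v (e - pt x₃ (l' * x₃ + k')) = D₃ at *
  generalize hgt v (pt x₀ (l * x₀ + k)) = H₀ at *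
  generalize hgt v (pt x₁ (l * x₁ + k)) = H₁ at *
  generalize hgt v (pt x₂ (l' * x₂ + k')) = H₂ at *
  generalize hgt v (pt x₃ (l' * x₃ + k')) = H₃ at *
  generalize hgt v (e - S) = A at *
  generalize hgt v (e + S) = B at *
  generalize hgt v e = E at *
  generalize hgt v S = H at *
  generalize v (y - (l * x + k)) = U at *
  generalize v (y - (l' * x + k')) = U' at *
  generalize v (x - s) = X at *
  generalize v t = T at *
  generalize v c = C at *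
  refine mul_right_cancel₀ (mul_ne_zero (mul_ne_zero n₃ (pow_ne_zero 2 n₁)) (pow_ne_zero 2 n₂)) ?_
  calc T * E ^ 4 * (H₀ * H₁ * H₂ * H₃) * (X * E ^ 2 * H ^ 2) =
        X * T * (E ^ 3 * (H₀ * H₁ * H) * (E ^ 3 * (H₂ * H₃ * H))) := by
        simp only [pow_succ, pow_zero, one_mul]; ac_rfl
    _ = C * (U * E ^ 3 * (H₀ * H₁ * H) * (U' * E ^ 3 * (H₂ * H₃ * H))) := by
        rw [← hv]; ac_rfl
    _ = C * (D₀ * D₁ * D₂ * D₃) * (X * E ^ 2 * H ^ 2) := by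
        rw [l₁, l₂, hp]; ac_rfl

/-- Let `u = (z - x₀) (z - x₁)`, `u' = (z - x₂) (z - x₃)`, `L₁ = p - p₂ u`, `L₂ = p - p₂ u'` (both
linear) and define `s` by `L₁ + L₂ = (z - s) / p₂` (compare coefficients: `p₂ ^ 2 (u - u') +
2 p₂ L₁` is monic of degree one). Then `Col` holds for `L₁` with `x₀, x₁, s`, for `L₂` with
`x₂, x₃, s` (`col_of_fac`, `L₁ ^ 2 - z ^ 3 - 1 = -u (z - s)`), `L₂ s = -L₁ s`, and
`(y - L₁) (y - L₂) = -(x - s) (y - p) / p₂` on the curve. If `x ≠ s` use `hgt_line` twice and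
`hgt_par`. If `e = (s, L₁ s)` then `y - p = -p₂ u`; use `hgt_par` twice and `e = e₂ + e₃`,
`e + e₀ + e₁ = 0` (`Col.sum`). The case `e = (s, L₂ s)` is symmetric. -/
theorem hgt_parab [Infinite Ω] (h6 : v 6 = 1) {p₂ p₁ p₀ x₀ x₁ x₂ x₃ : Ω} (h0 : p₂ ≠ 0)
    (fac : ∀ z, (p₂ * z ^ 2 + p₁ * z + p₀) ^ 2 - z ^ 3 - 1 =
      p₂ ^ 2 * ((z - x₀) * (z - x₁) * (z - x₂) * (z - x₃))) (hxy : On x y) :
    v (y - (p₂ * x ^ 2 + p₁ * x + p₀)) * hgt v (pt x y) ^ 4 *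
      (hgt v (pt x₀ (p₂ * x₀ ^ 2 + p₁ * x₀ + p₀)) * hgt v (pt x₁ (p₂ * x₁ ^ 2 + p₁ * x₁ + p₀)) *
        hgt v (pt x₂ (p₂ * x₂ ^ 2 + p₁ * x₂ + p₀)) * hgt v (pt x₃ (p₂ * x₃ ^ 2 + p₁ * x₃ + p₀))) =
      v p₂ * (hgt v (pt x y - pt x₀ (p₂ * x₀ ^ 2 + p₁ * x₀ + p₀)) *
        hgt v (pt x y - pt x₁ (p₂ * x₁ ^ 2 + p₁ * x₁ + p₀)) *
        hgt v (pt x y - pt x₂ (p₂ * x₂ ^ 2 + p₁ * x₂ + p₀)) *
        hgt v (pt x y - pt x₃ (p₂ * x₃ ^ 2 + p₁ * x₃ + p₀))) := by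
  have h6' := six_ne h6
  have hE : p₂ * (p₁ + p₂ * (x₀ + x₁) + (p₁ + p₂ * (x₂ + x₃))) = 1 := by
    refine mul_left_cancel₀ h6' ?_
    linear_combination fac 2 - 3 * fac 1 + 3 * fac 0 - fac (-1)
  obtain ⟨l, hl⟩ : ∃ l, l = p₁ + p₂ * (x₀ + x₁) := ⟨_, rfl⟩
  obtain ⟨l', hl'⟩ : ∃ l, l = p₁ + p₂ * (x₂ + x₃) := ⟨_, rfl⟩
  obtain ⟨k, hk⟩ : ∃ k, k = p₀ - p₂ * (x₀ * x₁) := ⟨_, rfl⟩
  obtain ⟨k', hk'⟩ : ∃ k, k = p₀ - p₂ * (x₂ * x₃) := ⟨_, rfl⟩
  obtain ⟨s, hs⟩ : ∃ s, s = -(p₂ * (k + k')) := ⟨_, rfl⟩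
  have f₁ : ∀ z, (l * z + k) ^ 2 - z ^ 3 - 1 = -((z - x₀) * (z - x₁) * (z - s)) := fun z => by
    rw [hs, hl, hk, hk']
    linear_combination fac z - (z - x₀) * (z - x₁) * z * hE
  have f₂ : ∀ z, (l' * z + k') ^ 2 - z ^ 3 - 1 = -((z - x₂) * (z - x₃) * (z - s)) := fun z => by
    rw [hs, hl', hk, hk']
    linear_combination fac z - (z - x₂) * (z - x₃) * z * hE
  have c₁ := col_of_fac h6' f₁
  have c₂ := col_of_fac h6' f₂
  have hE' : p₂ * (l + l') = 1 := by rw [hl, hl']; exact hE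
  have hL : l' * s + k' = -(l * s + k) := by
    refine mul_left_cancel₀ h0 ?_
    linear_combination s * hE' + hs
  have e₀ : p₂ * x₀ ^ 2 + p₁ * x₀ + p₀ = l * x₀ + k := by rw [hl, hk]; ring
  have e₁ : p₂ * x₁ ^ 2 + p₁ * x₁ + p₀ = l * x₁ + k := by rw [hl, hk]; ring
  have e₂ : p₂ * x₂ ^ 2 + p₁ * x₂ + p₀ = l' * x₂ + k' := by rw [hl', hk']; ring
  have e₃ : p₂ * x₃ ^ 2 + p₁ * x₃ + p₀ = l' * x₃ + k' := by rw [hl', hk']; ring
  have u₁ : p₂ * x ^ 2 + p₁ * x + p₀ = l * x + k + p₂ * ((x - x₀) * (x - x₁)) := by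
    rw [hl, hk]; ring
  have u₂ : p₂ * x ^ 2 + p₁ * x + p₀ = l' * x + k' + p₂ * ((x - x₂) * (x - x₃)) := by
    rw [hl', hk']; ring
  rw [e₀, e₁, e₂, e₃]
  by_cases hx : x = s
  · subst hx
    have : (y - (l * x + k)) * (y + (l * x + k)) = 0 := by
      unfold On at hxy
      linear_combination hxy - f₁ x
    rcases mul_eq_zero.1 this with e | e
    · have hy : y = l * x + k := sub_eq_zero.1 e
      have ht : y - (p₂ * x ^ 2 + p₁ * x + p₀) = -(p₂ * ((x - x₀) * (x - x₁))) := by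
        rw [u₁, hy]; ring
      rw [ht, Valuation.map_neg, map_mul, map_mul, hy, ← parab_aux h6 c₁ c₂ hL]
      ac_rfl
    · have hy : y = l' * x + k' := by rw [hL]; exact eq_neg_of_add_eq_zero_left e
      have ht : y - (p₂ * x ^ 2 + p₁ * x + p₀) = -(p₂ * ((x - x₂) * (x - x₃))) := by
        rw [u₂, hy]; ring
      have k2 := parab_aux h6 c₂ c₁ (by rw [hL, neg_neg])
      rw [ht, Valuation.map_neg, map_mul, map_mul, hy]
      calc _ = v p₂ * (v (x - x₂) * v (x - x₃) * hgt v (pt x (l' * x + k')) ^ 4 *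
          (hgt v (pt x₂ (l' * x₂ + k')) * hgt v (pt x₃ (l' * x₃ + k')) *
            hgt v (pt x₀ (l * x₀ + k)) * hgt v (pt x₁ (l * x₁ + k)))) := by ac_rfl
        _ = _ := by rw [k2]; ac_rfl
  · refine parab_gen h6 c₁ c₂ hL hxy hx ?_
    unfold On at hxy
    rw [u₁]
    linear_combination p₂ * hxy - p₂ * f₁ x - (y - (l * x + k)) * x * hE' - (y - (l * x + k)) * hs

/-- Each `Q` is congruent to points `±(x, y)`, `x ∈ A`, for at most one `x` (`hgt_sub_le`,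
`hgt_sub_int`, `Triv.eq`); `A` is infinite. -/
theorem exists_gen {A : Subfield Ω} [IsAlgClosed A] (h6 : v 6 = 1) (hA : Triv A v)
    (Q : Finset (EP Ω)) (F : Finset Ω) : ∃ x ∈ A, ∃ y ∈ A, On x y ∧ y ≠ 0 ∧ x ∉ F ∧
      ∀ P ∈ Q, hgt v (pt x y - P) = 1 ∧ hgt v (pt x (-y) - P) = 1 := by
  have hinf : (A : Set Ω).Infinite := Set.infinite_coe_iff.1 (inferInstanceAs (Infinite A))
  have hB : ∀ P : EP Ω, {x | x ∈ A ∧ ∃ y ∈ A, On x y ∧ hgt v (pt x y - P) ≠ 1}.Subsingleton := by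
    rintro P x ⟨hx, y, -, ho, h1⟩ x' ⟨hx', y', -, ho', h2⟩
    have k := hgt_sub_le h6 (pt x y - P) (pt x' y' - P)
    rw [sub_sub_sub_cancel_right, hgt_sub_int h6 ho ho' (hA.le hx) (hA.le hx')] at k
    exact hA.eq hx hx' (dst_lt.1 (k.trans_lt (max_lt (lt_of_le_of_ne (hgt_le v _) h1)
      (lt_of_le_of_ne (hgt_le v _) h2)))).1
  have hfin : ((F : Set Ω) ∪ ((Polynomial.nthRoots 3 (-1 : Ω)).toFinset : Set Ω) ∪
      ⋃ P ∈ (Q : Set (EP Ω)), {x | x ∈ A ∧ ∃ y ∈ A, On x y ∧ hgt v (pt x y - P) ≠ 1}).Finite :=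
    (F.finite_toSet.union (Finset.finite_toSet _)).union
      (Q.finite_toSet.biUnion fun P _ => (hB P).finite)
  obtain ⟨x, hx, hn⟩ := hinf.exists_notMem_finite hfin
  obtain ⟨y, hy⟩ := IsAlgClosed.exists_pow_nat_eq ((⟨x, hx⟩ : A) ^ 3 + 1) (n := 2) (by norm_num)
  have ho : On x y := by
    have := congrArg (fun z : A => (z : Ω)) hy
    simpa [On] using this
  simp only [Set.mem_union, Set.mem_iUnion, not_or, not_exists] at hn
  refine ⟨x, hx, y, y.2, ho, fun e => hn.1.2 ?_, hn.1.1, fun P hP => ⟨?_, ?_⟩⟩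
  · rw [Finset.mem_coe, Multiset.mem_toFinset, Polynomial.mem_nthRoots (by norm_num)]
    unfold On at ho
    rw [e] at ho
    linear_combination -ho
  · by_contra k
    exact hn.2 P hP ⟨hx, y, y.2, ho, k⟩
  · by_contra k
    exact hn.2 P hP ⟨hx, -y, neg_mem y.2, ho.neg, k⟩

end Pool.Agent.P.MP_ee618e_ag.X.Y
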