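import Pool.Agent.P.MP_ee618e_ag.Y.L6

/-! L7: the function `w sl(e, P) - w' sl(e, P')`. -/

namespace Pool.Agent.P.MP_ee618e_ag.X.Y

open IsDedekindDomain
open scoped Classical

variable {Ω : Type} [Field Ω] {Γ : Type} [LinearOrderedCommGroupWithZero Γ] {v : Valuation Ω Γ}
  {x y m m' : Ω}

namespace L7

theorem coef [Infinite Ω] {p₃ p₂ p₁ p₀ : Ω} (h : ∀ z, p₃ * z ^ 3 + p₂ * z ^ 2 + p₁ * z + p₀ = 0) :
    p₃ = 0 ∧ p₂ = 0 ∧ p₁ = 0 ∧ p₀ = 0 := by
  have hf : (Polynomial.C p₃ * Polynomial.X ^ 3 + Polynomial.C p₂ * Polynomial.X ^ 2 +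
      Polynomial.C p₁ * Polynomial.X + Polynomial.C p₀ : Polynomial Ω) = 0 := by
    apply Polynomial.funext
    intro z
    simpa using h z
  have h3 := congrArg (fun f => Polynomial.coeff f 3) hf
  have h2 := congrArg (fun f => Polynomial.coeff f 2) hf
  have h1 := congrArg (fun f => Polynomial.coeff f 1) hf
  have h0 := congrArg (fun f => Polynomial.coeff f 0) hf
  simp [Polynomial.coeff_X, Polynomial.coeff_C, Polynomial.coeff_X_pow] at h3 h2 h1 h0
  exact ⟨h3, h2, h1, h0⟩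

theorem quad [IsAlgClosed Ω] (p q : Ω) : ∃ u u' : Ω, u + u' = p ∧ u * u' = q := by
  obtain ⟨u, hu⟩ := IsAlgClosed.exists_root
    (Polynomial.X ^ 2 - Polynomial.C p * Polynomial.X + Polynomial.C q : Polynomial Ω) (by
      have : (Polynomial.X ^ 2 - Polynomial.C p * Polynomial.X + Polynomial.C q :
          Polynomial Ω).degree = 2 := by compute_degree!
      rw [this]; decide)
  simp [Polynomial.IsRoot] at hu
  exact ⟨u, p - u, by ring, by linear_combination -hu⟩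

theorem cubic [IsAlgClosed Ω] (p q s : Ω) : ∃ u₀ u₁ u₂ : Ω, ∀ z,
    z ^ 3 + p * z ^ 2 + q * z + s = (z - u₀) * (z - u₁) * (z - u₂) := by
  obtain ⟨u, hu⟩ := IsAlgClosed.exists_root
    (Polynomial.X ^ 3 + Polynomial.C p * Polynomial.X ^ 2 + Polynomial.C q * Polynomial.X +
      Polynomial.C s : Polynomial Ω) (by
      have : (Polynomial.X ^ 3 + Polynomial.C p * Polynomial.X ^ 2 +
          Polynomial.C q * Polynomial.X + Polynomial.C s : Polynomial Ω).degree = 3 := by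
        compute_degree!
      rw [this]; decide)
  simp [Polynomial.IsRoot] at hu
  obtain ⟨u₁, u₂, h1, h2⟩ := quad (-p - u) (q + p * u + u ^ 2)
  refine ⟨u, u₁, u₂, fun z => ?_⟩
  linear_combination hu + (z - u) * z * h1 - (z - u) * h2

theorem qd_r {w w' a b a' b' l k r : Ω} (col : Col l k a a' r) (hb : b = l * a + k)
    (hb' : b' = l * a' + k) : qd w w' a b a' b' l r = (w - w') * l * (l * r + k) := by
  have h1 := (col.swap₂₃).sl.2
  have h2 := (col.swap₁₃.swap₁₂).sl.2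
  subst hb hb'
  unfold qd
  linear_combination -w * h1 + w' * h2

theorem mul_le {c d : Ω} (hc : v c ≤ 1) (hd : v d ≤ 1) : v (c * d) ≤ 1 := by
  rw [map_mul]; exact mul_le_one' hc hd

theorem mul_le' {c d : Ω} {δ : Γ} (hc : v c ≤ 1) (hd : v d ≤ δ) : v (c * d) ≤ δ := by
  rw [map_mul]; simpa using mul_le_mul' hc hd

theorem mul_lt {c d : Ω} {δ : Γ} (hc : v c ≤ 1) (hd : v d < δ) : v (c * d) < δ :=
  lt_of_le_of_lt (mul_le' hc le_rfl) hd

theorem root_int {s₁ s₂ s₃ u : Ω} (h1 : v s₁ ≤ 1) (h2 : v s₂ ≤ 1) (h3 : v s₃ ≤ 1)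
    (h : u ^ 3 = s₁ * u ^ 2 - s₂ * u + s₃) : v u ≤ 1 := by
  by_contra hu
  rw [not_le] at hu
  have e2 : v u ^ 2 < v u ^ 3 := pow_lt_pow_right₀ hu (by norm_num)
  have e1 : v u < v u ^ 3 := by simpa using pow_lt_pow_right₀ hu (show 1 < 3 by norm_num)
  have e0 : 1 < v u ^ 3 := one_lt_pow₀ hu (by norm_num)
  have : v (s₁ * u ^ 2 - s₂ * u + s₃) < v u ^ 3 :=
    v.map_add_lt (v.map_sub_lt (mul_lt h1 (by rwa [map_pow])) (mul_lt h2 e1)) (h3.trans_lt e0)
  rw [← h, map_pow] at this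
  exact lt_irrefl _ this

theorem all_int {u : Fin 3 → Ω} (h1 : v (u 0 + u 1 + u 2) ≤ 1)
    (h2 : v (u 0 * u 1 + u 0 * u 2 + u 1 * u 2) ≤ 1) (h3 : v (u 0 * u 1 * u 2) ≤ 1) (i : Fin 3) :
    v (u i) ≤ 1 := by
  refine root_int h1 h2 h3 ?_
  fin_cases i <;> simp <;> ring

theorem perm3 {u t : Fin 3 → Ω} (h1 : t 0 + t 1 + t 2 = u 0 + u 1 + u 2)
    (h2 : t 0 * t 1 + t 0 * t 2 + t 1 * t 2 = u 0 * u 1 + u 0 * u 2 + u 1 * u 2)
    (h3 : t 0 * t 1 * t 2 = u 0 * u 1 * u 2) : ∃ e : Equiv.Perm (Fin 3), ∀ i, t i = u (e i) := by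
  have h : (t 0 - u 0) * (t 0 - u 1) * (t 0 - u 2) = 0 := by
    linear_combination t 0 ^ 2 * h1 - t 0 * h2 + h3
  have two : ∀ {p q p' q' c : Ω}, c + p + q = c + p' + q' →
      c * p + c * q + p * q = c * p' + c * q' + p' * q' → (p = p' ∧ q = q') ∨ (p = q' ∧ q = p') := by
    intro p q p' q' c e1 e2
    have : (p - p') * (p - q') = 0 := by linear_combination (p + c) * e1 - e2
    rcases mul_eq_zero.1 this with e | e
    · exact Or.inl ⟨by linear_combination e, by linear_combination e1 - e⟩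
    · exact Or.inr ⟨by linear_combination e, by linear_combination e1 - e⟩
  rcases mul_eq_zero.1 h with h | h
  · rcases mul_eq_zero.1 h with h | h
    · have e := sub_eq_zero.1 h
      rcases two (c := t 0) (p := t 1) (q := t 2) (p' := u 1) (q' := u 2) (by rw [h1, e])
        (by rw [h2, e]) with ⟨a, b⟩ | ⟨a, b⟩
      · exact ⟨1, fun i => by fin_cases i <;> simp [e, a, b]⟩
      · exact ⟨Equiv.swap 1 2, fun i => by fin_cases i <;> simp [e, a, b, Equiv.swap_apply_def]⟩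
    · have e := sub_eq_zero.1 h
      rcases two (c := t 0) (p := t 1) (q := t 2) (p' := u 0) (q' := u 2) (by rw [h1, e]; ring)
        (by rw [h2, e]; ring) with ⟨a, b⟩ | ⟨a, b⟩
      · exact ⟨Equiv.swap 0 1, fun i => by fin_cases i <;> simp [e, a, b, Equiv.swap_apply_def]⟩
      · exact ⟨Equiv.swap 0 2 * Equiv.swap 0 1, fun i => by
          fin_cases i <;> simp [e, a, b, Equiv.swap_apply_def]⟩
  · have e := sub_eq_zero.1 h
    rcases two (c := t 0) (p := t 1) (q := t 2) (p' := u 0) (q' := u 1) (by rw [h1, e]; ring)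
      (by rw [h2, e]; ring) with ⟨a, b⟩ | ⟨a, b⟩
    · exact ⟨Equiv.swap 0 1 * Equiv.swap 0 2, fun i => by
        fin_cases i <;> simp [e, a, b, Equiv.swap_apply_def]⟩
    · exact ⟨Equiv.swap 0 2, fun i => by fin_cases i <;> simp [e, a, b, Equiv.swap_apply_def]⟩

end L7

/-- The quartic on the left of `fac` has leading coefficient `(w - w') ^ 2` and the root `r`:
`qd r = (w - w') l (l r + k)` by `Col.sl`. -/
theorem exists_tri [IsAlgClosed Ω] {w w' a b a' b' l : Ω} (hab : On a' b') (h : Sl l a b a' b')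
    (hw : w ≠ w') (hl : l ≠ 0) : ∃ T : Tri Ω, T.w = w ∧ T.w' = w' ∧ T.a = a ∧ T.b = b ∧
      T.a' = a' ∧ T.b' = b' ∧ T.l = l := by
  obtain ⟨col, hb⟩ := h.col hab
  set k := b' - l * a' with hk
  set r := l ^ 2 - a - a' with hr
  have hb' : b' = l * a' + k := by rw [hk]; ring
  have hq := L7.qd_r (w := w) (w' := w') col hb hb'
  have hon : (l * r + k) ^ 2 = r ^ 3 + 1 := col.on.2.2
  have hc : w - w' ≠ 0 := sub_ne_zero.2 hw
  set c := w - w' with hcd
  set A := w * a - w' * a' with hA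
  set B := w * a ^ 2 - w' * a' ^ 2 - l * (w * b - w' * b') with hB
  have hqd : ∀ z, qd w w' a b a' b' l z = c * z ^ 2 + A * z + B := fun z => rfl
  obtain ⟨u₀, u₁, u₂, hu⟩ := L7.cubic ((2 * c * A - c ^ 2 * l ^ 2 + c ^ 2 * r) / c ^ 2)
    ((A ^ 2 + 2 * c * B + (2 * c * A - c ^ 2 * l ^ 2 + c ^ 2 * r) * r) / c ^ 2)
    ((2 * A * B + (A ^ 2 + 2 * c * B + (2 * c * A - c ^ 2 * l ^ 2 + c ^ 2 * r) * r) * r) / c ^ 2)
  refine ⟨⟨w, w', a, b, a', b', l, k, r, ![u₀, u₁, u₂], col, hb, hb', hw, hl, fun z => ?_⟩,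
    rfl, rfl, rfl, rfl, rfl, rfl, rfl⟩
  have h0 : (c * r ^ 2 + A * r + B) ^ 2 - (c * l) ^ 2 * (r ^ 3 + 1) = 0 := by
    rw [← hqd, hq, ← hon]; ring
  rw [Fin.prod_univ_three]
  simp only [Matrix.cons_val_zero, Matrix.cons_val_one, Matrix.cons_val]
  rw [← hu z, hqd, ← hcd]
  field_simp
  linear_combination h0

namespace Tri

variable (T : Tri Ω)

theorem on (i : Fin 3) : On (T.x i) (T.y i) := by
  have hc : T.w - T.w' ≠ 0 := sub_ne_zero.2 T.c0
  have hl := T.l0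
  have h := T.fac (T.x i)
  rw [Finset.prod_eq_zero (Finset.mem_univ i) (sub_self _)] at h
  unfold On Tri.y
  field_simp
  linear_combination h

theorem on_ab : On T.a T.b ∧ On T.a' T.b' := by
  have h := T.col.on
  rw [← T.hb, ← T.hb'] at h
  exact ⟨h.1, h.2.1⟩

theorem key (h : Sl m x y T.a T.b) (h' : Sl m' x y T.a' T.b') :
    (T.w * m - T.w' * m') * (y + (T.l * x + T.k)) =
      qd T.w T.w' T.a T.b T.a' T.b' T.l x + (T.w - T.w') * T.l * y := by
  have hb := T.hb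
  have hb' := T.hb'
  unfold qd
  linear_combination T.w * h.2 + T.w * T.l * h.1 - T.w' * h'.2 - T.w' * T.l * h'.1 -
    T.w * m * hb + T.w' * m' * hb'

theorem root {i : Fin 3} (h : Sl m (T.x i) (T.y i) T.a T.b) (h' : Sl m' (T.x i) (T.y i) T.a' T.b')
    (h0 : T.y i + (T.l * T.x i + T.k) ≠ 0) : T.w * m = T.w' * m' := by
  have hc : T.w - T.w' ≠ 0 := sub_ne_zero.2 T.c0
  have hl := T.l0
  have hk := T.key h h'
  have : qd T.w T.w' T.a T.b T.a' T.b' T.l (T.x i) + (T.w - T.w') * T.l * T.y i = 0 := by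
    unfold Tri.y
    field_simp
    ring
  rw [this] at hk
  exact sub_eq_zero.1 ((mul_eq_zero.1 hk).resolve_right h0)

/-- a point of the curve on the line `-L` -/
theorem on_line (hxy : On x y) (h0 : y + (T.l * x + T.k) = 0) :
    (x = T.a ∧ y = -T.b) ∨ (x = T.a' ∧ y = -T.b') ∨ x = T.r := by
  have h := T.col.fac x
  have hy : y = -(T.l * x + T.k) := by linear_combination h0
  have h1 : (x - T.a) * (x - T.a') * (x - T.r) = 0 := by
    unfold On at hxy
    rw [hy] at hxy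
    linear_combination h - hxy
  rcases mul_eq_zero.1 h1 with h1 | h1
  · rcases mul_eq_zero.1 h1 with h1 | h1
    · have e := sub_eq_zero.1 h1
      exact Or.inl ⟨e, by rw [hy, e, T.hb]⟩
    · have e := sub_eq_zero.1 h1
      exact Or.inr (Or.inl ⟨e, by rw [hy, e, T.hb']⟩)
  · exact Or.inr (Or.inr (sub_eq_zero.1 h1))

/-- `key`, `hgt_parab` with `p = -qd / ((w - w') l)`, `p₂ = -1 / l`, `x₀ = r` (the point is minus
the third point of the line), `hgt_line` for `Col.neg`; cancel -/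
theorem val [Infinite Ω] (h6 : v 6 = 1) (hxy : On x y) (h : Sl m x y T.a T.b) (h' : Sl m' x y T.a' T.b')
    (h0 : y + (T.l * x + T.k) ≠ 0) :
    v (T.w * m - T.w' * m') * (hgt v (pt x y) * hgt v (pt x y + pt T.a T.b) *
      hgt v (pt x y + pt T.a' T.b')) =
      T.K v * (hgt v (pt T.a T.b) * hgt v (pt T.a' T.b')) * ∏ i, hgt v (pt x y - T.e i) := by
  have h60 := six_ne h6
  have hc : T.w - T.w' ≠ 0 := sub_ne_zero.2 T.c0
  have hl := T.l0
  set p₂ : Ω := -1 / T.l with hp₂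
  set p₁ : Ω := -(T.w * T.a - T.w' * T.a') / ((T.w - T.w') * T.l) with hp₁
  set p₀ : Ω := -(T.w * T.a ^ 2 - T.w' * T.a' ^ 2 - T.l * (T.w * T.b - T.w' * T.b')) /
    ((T.w - T.w') * T.l) with hp₀
  have hp : ∀ z, p₂ * z ^ 2 + p₁ * z + p₀ =
      -qd T.w T.w' T.a T.b T.a' T.b' T.l z / ((T.w - T.w') * T.l) := by
    intro z
    rw [hp₂, hp₁, hp₀]
    unfold qd
    field_simp
    ring
  have hp0 : p₂ ≠ 0 := div_ne_zero (by simp) hl
  have hfac : ∀ z, (p₂ * z ^ 2 + p₁ * z + p₀) ^ 2 - z ^ 3 - 1 =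
      p₂ ^ 2 * ((z - T.r) * (z - T.x 0) * (z - T.x 1) * (z - T.x 2)) := by
    intro z
    have := T.fac z
    rw [Fin.prod_univ_three] at this
    rw [hp, hp₂]
    field_simp
    linear_combination this
  have h1 := hgt_parab h6 hp0 hfac hxy
  have hr : p₂ * T.r ^ 2 + p₁ * T.r + p₀ = -T.l * T.r + -T.k := by
    rw [hp, L7.qd_r T.col T.hb T.hb']
    field_simp
    ring
  have he : ∀ i, pt (T.x i) (p₂ * T.x i ^ 2 + p₁ * T.x i + p₀) = T.e i := by
    intro i
    rw [hp]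
    rfl
  rw [hr, he, he, he] at h1
  have h2 := hgt_line h6 T.col.neg hxy
  have ea : pt T.a (-T.l * T.a + -T.k) = -pt T.a T.b := by
    rw [neg_pt, T.hb]; congr 1; ring
  have ea' : pt T.a' (-T.l * T.a' + -T.k) = -pt T.a' T.b' := by
    rw [neg_pt, T.hb']; congr 1; ring
  rw [ea, ea', hgt_neg, hgt_neg, sub_neg_eq_add, sub_neg_eq_add,
    show y - (-T.l * x + -T.k) = y + (T.l * x + T.k) by ring] at h2
  have h3 : v (T.w * m - T.w' * m') * v (y + (T.l * x + T.k)) * v p₂ =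
      v (T.w - T.w') * v (y - (p₂ * x ^ 2 + p₁ * x + p₀)) * (v T.l * v p₂) := by
    have : qd T.w T.w' T.a T.b T.a' T.b' T.l x + (T.w - T.w') * T.l * y =
        (T.w - T.w') * (y - (p₂ * x ^ 2 + p₁ * x + p₀)) * T.l := by
      rw [hp]
      field_simp
      ring
    rw [← map_mul, T.key h h', this, map_mul, map_mul, mul_assoc]
  have h4 : v T.l * v p₂ = 1 := by
    rw [← map_mul, hp₂, show T.l * (-1 / T.l) = -1 by field_simp, v.map_neg, map_one]
  have n1 : hgt v (pt x y) ≠ 0 := fun e => pt_ne_zero h60 hxy (hgt_eq_zero.1 e)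
  have n2 : hgt v (pt T.a T.b) ≠ 0 := fun e => pt_ne_zero h60 T.on_ab.1 (hgt_eq_zero.1 e)
  have n3 : hgt v (pt T.a' T.b') ≠ 0 := fun e => pt_ne_zero h60 T.on_ab.2 (hgt_eq_zero.1 e)
  have n4 : hgt v (pt T.r (-T.l * T.r + -T.k)) ≠ 0 := fun e =>
    pt_ne_zero h60 T.col.neg.on.2.2 (hgt_eq_zero.1 e)
  have n5 : v (y + (T.l * x + T.k)) ≠ 0 := (Valuation.ne_zero_iff v).2 h0
  have n6 : ∀ i, hgt v (T.e i) ≠ 0 := fun i e => pt_ne_zero h60 (T.on i) (hgt_eq_zero.1 e)
  have n7 : hgt v (pt x y - pt T.r (-T.l * T.r + -T.k)) ≠ 0 := by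
    intro e
    rw [e, mul_zero] at h2
    exact mul_ne_zero (mul_ne_zero n5 (pow_ne_zero _ n1)) (mul_ne_zero (mul_ne_zero n2 n3) n4) h2
  have n8 : v p₂ ≠ 0 := (Valuation.ne_zero_iff v).2 hp0
  unfold Tri.K
  rw [Fin.prod_univ_three, Fin.prod_univ_three]
  rw [h4, mul_one] at h3
  generalize v (T.w * m - T.w' * m') = V at *
  generalize v (y + (T.l * x + T.k)) = Y at *
  generalize v (y - (p₂ * x ^ 2 + p₁ * x + p₀)) = Z at *
  generalize hgt v (pt x y - pt T.r (-T.l * T.r + -T.k)) = D at *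
  generalize hgt v (pt T.r (-T.l * T.r + -T.k)) = R at *
  have m0 := n6 0
  have m1 := n6 1
  have m2 := n6 2
  apply mul_right_cancel₀ (mul_ne_zero (mul_ne_zero n7 n8) (mul_ne_zero (mul_ne_zero m0 m1) m2))
  calc V * (hgt v (pt x y) * hgt v (pt x y + pt T.a T.b) * hgt v (pt x y + pt T.a' T.b')) *
        (D * v p₂ * (hgt v (T.e 0) * hgt v (T.e 1) * hgt v (T.e 2)))
      = V * hgt v (pt x y) * v p₂ * (hgt v (T.e 0) * hgt v (T.e 1) * hgt v (T.e 2)) *
        (hgt v (pt x y + pt T.a T.b) * hgt v (pt x y + pt T.a' T.b') * D) := by ac_rfl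
    _ = (V * Y * v p₂) * (hgt v (pt T.a T.b) * hgt v (pt T.a' T.b')) * (hgt v (pt x y) ^ 4 *
        (R * hgt v (T.e 0) * hgt v (T.e 1) * hgt v (T.e 2))) := by
        rw [← h2, pow_succ _ 3]; ac_rfl
    _ = v (T.w - T.w') * (hgt v (pt T.a T.b) * hgt v (pt T.a' T.b')) * (Z * hgt v (pt x y) ^ 4 *
        (R * hgt v (T.e 0) * hgt v (T.e 1) * hgt v (T.e 2))) := by
        rw [h3]; ac_rfl
    _ = _ := by
        rw [h1]
        field_simp

theorem K_mul (h6 : v 6 = 1) : T.K v * ∏ i, hgt v (T.e i) = v (T.w - T.w') ∧ T.K v ≠ 0 := by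
  have h60 := six_ne h6
  have n6 : ∏ i, hgt v (T.e i) ≠ 0 :=
    Finset.prod_ne_zero_iff.2 fun i _ e => pt_ne_zero h60 (T.on i) (hgt_eq_zero.1 e)
  have hc : v (T.w - T.w') ≠ 0 := (Valuation.ne_zero_iff v).2 (sub_ne_zero.2 T.c0)
  exact ⟨div_mul_cancel₀ _ n6, div_ne_zero hc n6⟩

/-- Evaluate `val` at generic constant points `(x, ±y)` (`exists_gen` for the points `e i`, `-P`,
`-P'` and the two points with abscissa `r`), where it gives `K = v (N(x, ±y))`,
`N = w (y - b) (x - a') - w' (y - b') (x - a)`. The difference of the two values is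
`2 y ((w - w') x + (w' a - w a'))`; use two values of `x`. For the upper bound write
`N = (w - w') (y - b) (x - a') + w' ((y - b) (a - a') - (b - b') (x - a))`. -/
theorem K_bounds [Infinite Ω] {A : Subfield Ω} [IsAlgClosed A] (h6 : v 6 = 1) (hA : Triv A v)
    (hw : v T.w = 1) (hw' : v T.w' = 1) (ha : v T.a ≤ 1) (ha' : v T.a' ≤ 1) :
    v (T.w - T.w') ≤ T.K v ∧ v (T.w' * T.a - T.w * T.a') ≤ T.K v ∧
      T.K v ≤ max (v (T.w - T.w')) (max (v (T.a - T.a')) (v (T.b - T.b'))) := by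
  have hb : v T.b ≤ 1 := T.on_ab.1.int ha
  have main : ∀ x y : Ω, x ∈ A → On x y → x ≠ T.a → x ≠ T.a' → x ≠ T.r →
      (∀ i, hgt v (pt x y - T.e i) = 1) → hgt v (pt x y - pt T.a T.b) = 1 →
      hgt v (pt x y - -pt T.a T.b) = 1 → hgt v (pt x y - pt T.a' T.b') = 1 →
      hgt v (pt x y - -pt T.a' T.b') = 1 →
      v (T.w * (y - T.b) * (x - T.a') - T.w' * (y - T.b') * (x - T.a)) = T.K v := by
    intro x y hx hxy n1 n2 n3 g0 g1 g2 g3 g4
    rw [sub_neg_eq_add] at g2 g4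
    have o1 := T.on_ab.1
    have o2 := T.on_ab.2
    obtain ⟨m, hm⟩ := exists_sl (x := x) (y := y) (a := T.a) (b := T.b)
      (by unfold On at hxy o1; linear_combination hxy - o1) (fun e => n1 e.1)
    obtain ⟨m', hm'⟩ := exists_sl (x := x) (y := y) (a := T.a') (b := T.b')
      (by unfold On at hxy o2; linear_combination hxy - o2) (fun e => n2 e.1)
    have h0 : y + (T.l * x + T.k) ≠ 0 := fun e => by
      rcases T.on_line hxy e with e | e | e
      exacts [n1 e.1, n2 e.1, n3 e]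
    have hv := T.val h6 hxy hm hm' h0
    have i0 := hgt_int h6 hxy (hA.le hx)
    have i1 := hgt_int h6 o1 ha
    have i2 := hgt_int h6 o2 ha'
    have p1 := hgt_par h6 hxy o1
    have p2 := hgt_par h6 hxy o2
    simp only [g0, g1, g2, g3, g4, i0, i1, i2, mul_one, one_pow, Finset.prod_const_one] at hv p1 p2
    have : T.w * (y - T.b) * (x - T.a') - T.w' * (y - T.b') * (x - T.a) =
        (T.w * m - T.w' * m') * (x - T.a) * (x - T.a') := by
      rw [← hm.1, ← hm'.1]; ring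
    rw [this, map_mul, map_mul, hv, p1, p2, mul_one, mul_one]
  have gen : ∀ F : Finset Ω, ∃ x ∈ A, x ∉ F ∧
      v ((T.w - T.w') * x + (T.w' * T.a - T.w * T.a')) ≤ T.K v ∧
      T.K v ≤ max (v (T.w - T.w')) (max (v (T.a - T.a')) (v (T.b - T.b'))) := by
    intro F
    obtain ⟨x, hx, y, hy, hxy, y0, hF, hQ⟩ := exists_gen h6 hA
      (Finset.univ.image T.e ∪ {pt T.a T.b, -pt T.a T.b, pt T.a' T.b', -pt T.a' T.b'})
      (F ∪ {T.a, T.a', T.r})
    simp only [Finset.mem_union, Finset.mem_insert, Finset.mem_singleton, not_or] at hF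
    obtain ⟨hF, n1, n2, n3⟩ := hF
    have q0 := fun i => hQ (T.e i) (by simp)
    have q1 := hQ (pt T.a T.b) (by simp)
    have q2 := hQ (-pt T.a T.b) (by simp)
    have q3 := hQ (pt T.a' T.b') (by simp)
    have q4 := hQ (-pt T.a' T.b') (by simp)
    have k1 := main x y hx hxy n1 n2 n3 (fun i => (q0 i).1) q1.1 q2.1 q3.1 q4.1
    have k2 := main x (-y) hx hxy.neg n1 n2 n3 (fun i => (q0 i).2) q1.2 q2.2 q3.2 q4.2
    refine ⟨x, hx, hF, ?_, ?_⟩
    · have := v.map_sub_le k1.le k2.le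
      rw [show T.w * (y - T.b) * (x - T.a') - T.w' * (y - T.b') * (x - T.a) -
        (T.w * (-y - T.b) * (x - T.a') - T.w' * (-y - T.b') * (x - T.a)) =
        2 * y * ((T.w - T.w') * x + (T.w' * T.a - T.w * T.a')) by ring, map_mul, map_mul,
        val_two h6, hA y hy y0, one_mul, one_mul] at this
      exact this
    · rw [← k1, show T.w * (y - T.b) * (x - T.a') - T.w' * (y - T.b') * (x - T.a) =
        (y - T.b) * (x - T.a') * (T.w - T.w') +
          T.w' * ((y - T.b) * (T.a - T.a') - (x - T.a) * (T.b - T.b')) by ring]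
      have j1 : v (y - T.b) ≤ 1 := v.map_sub_le (hA.le hy) hb
      have j2 : v (x - T.a') ≤ 1 := v.map_sub_le (hA.le hx) ha'
      have j3 : v (x - T.a) ≤ 1 := v.map_sub_le (hA.le hx) ha
      exact v.map_add_le (L7.mul_le' (L7.mul_le j1 j2) (le_max_left _ _))
        (L7.mul_le' hw'.le (v.map_sub_le
          (L7.mul_le' j1 ((le_max_left _ _).trans (le_max_right _ _)))
          (L7.mul_le' j3 ((le_max_right _ _).trans (le_max_right _ _)))))
  obtain ⟨x₁, hx₁, -, b₁, up⟩ := gen ∅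
  obtain ⟨x₂, hx₂, n, b₂, -⟩ := gen {x₁}
  have n' : x₁ - x₂ ≠ 0 := sub_ne_zero.2 fun e => n (by simp [e])
  have c1 : v (T.w - T.w') ≤ T.K v := by
    have := v.map_sub_le b₁ b₂
    rwa [show (T.w - T.w') * x₁ + (T.w' * T.a - T.w * T.a') -
      ((T.w - T.w') * x₂ + (T.w' * T.a - T.w * T.a')) = (T.w - T.w') * (x₁ - x₂) by ring, map_mul,
      hA _ (A.sub_mem hx₁ hx₂) n', mul_one] at this
  refine ⟨c1, ?_, up⟩
  have := v.map_sub_le b₁ (L7.mul_le' (hA.le hx₁) c1)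
  rwa [show (T.w - T.w') * x₁ + (T.w' * T.a - T.w * T.a') - x₁ * (T.w - T.w') =
    T.w' * T.a - T.w * T.a' by ring] at this

/-- the coefficients of `fac` (compare polynomials; `Ω` is infinite, or use five values) -/
theorem vieta [Infinite Ω] :
    (T.w - T.w') * (T.x 0 + T.x 1 + T.x 2) =
      (T.w - T.w') * (T.a + T.a') - 2 * (T.w * T.a - T.w' * T.a') ∧
    (T.w - T.w') ^ 2 * (T.r * (T.x 0 * T.x 1 * T.x 2)) =
      qd T.w T.w' T.a T.b T.a' T.b' T.l 0 ^ 2 - ((T.w - T.w') * T.l) ^ 2 ∧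
    (T.w - T.w') ^ 2 * (T.x 0 * T.x 1 * T.x 2 +
      T.r * (T.x 0 * T.x 1 + T.x 0 * T.x 2 + T.x 1 * T.x 2)) =
      -(2 * qd T.w T.w' T.a T.b T.a' T.b' T.l 0 * (T.w * T.a - T.w' * T.a')) := by
  have hc : T.w - T.w' ≠ 0 := sub_ne_zero.2 T.c0
  have e1 := T.col.e1
  set c := T.w - T.w' with hcd
  set A := T.w * T.a - T.w' * T.a' with hA
  set B := T.w * T.a ^ 2 - T.w' * T.a' ^ 2 - T.l * (T.w * T.b - T.w' * T.b') with hB
  have hqd : ∀ z, qd T.w T.w' T.a T.b T.a' T.b' T.l z = c * z ^ 2 + A * z + B := fun z => rfl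
  obtain ⟨h3, -, h1, h0⟩ := L7.coef
    (p₃ := 2 * c * A - c ^ 2 * T.l ^ 2 + c ^ 2 * (T.r + (T.x 0 + T.x 1 + T.x 2)))
    (p₂ := A ^ 2 + 2 * c * B - c ^ 2 * (T.x 0 * T.x 1 + T.x 0 * T.x 2 + T.x 1 * T.x 2 +
      T.r * (T.x 0 + T.x 1 + T.x 2)))
    (p₁ := 2 * A * B + c ^ 2 * (T.x 0 * T.x 1 * T.x 2 +
      T.r * (T.x 0 * T.x 1 + T.x 0 * T.x 2 + T.x 1 * T.x 2)))
    (p₀ := B ^ 2 - (c * T.l) ^ 2 - c ^ 2 * (T.r * (T.x 0 * T.x 1 * T.x 2))) (fun z => by
      have := T.fac z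
      rw [Fin.prod_univ_three, hqd, ← hcd] at this
      linear_combination this)
  rw [hqd]
  refine ⟨mul_left_cancel₀ hc ?_, ?_, ?_⟩
  · linear_combination h3 - c ^ 2 * e1
  · linear_combination -h0
  · linear_combination h1

/-- Near the opposite point. `l (a - a') = b - b'` is a unit, so `1 < v l`, `v r = v l ^ 2`;
`v (qd 0) < v l`; by `vieta` the symmetric functions of the `x i` are integral. -/
theorem star [Infinite Ω] (h6 : v 6 = 1) (hw : v T.w = 1) (ha : v T.a ≤ 1) (hb : v T.b = 1)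
    (e1 : v (T.w + T.w') < 1) (e2 : v (T.a - T.a') < 1) (e3 : v (T.b + T.b') < 1) :
    1 < v T.r ∧ ∀ i, v (T.x i) ≤ 1 ∧ v (T.y i) < 1 := by
  obtain ⟨v1, v3, v2⟩ := T.vieta
  have t2 := val_two h6
  have hw' : v T.w' = 1 := by
    have := val_congr (c' := -T.w') hw (by rwa [sub_neg_eq_add])
    rwa [v.map_neg] at this
  have hb' : v T.b' = 1 := by
    have := val_congr (c' := -T.b') hb (by rwa [sub_neg_eq_add])
    rwa [v.map_neg] at this
  have ha' : v T.a' ≤ 1 := by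
    have := v.map_sub_le ha e2.le
    rwa [sub_sub_cancel] at this
  have hc : v (T.w - T.w') = 1 :=
    val_congr (c := 2 * T.w) (by rw [map_mul, t2, hw, one_mul])
      (by rwa [show 2 * T.w - (T.w - T.w') = T.w + T.w' by ring])
  have hd : v (T.b - T.b') = 1 :=
    val_congr (c := 2 * T.b) (by rw [map_mul, t2, hb, one_mul])
      (by rwa [show 2 * T.b - (T.b - T.b') = T.b + T.b' by ring])
  have hl : 1 < v T.l := by
    by_contra hl
    rw [not_lt] at hl
    have := L7.mul_lt hl e2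
    rw [show T.l * (T.a - T.a') = T.b - T.b' by rw [T.hb, T.hb']; ring, hd] at this
    exact lt_irrefl _ this
  have hl0 : 0 < v T.l := lt_trans zero_lt_one hl
  have hl2 : v T.l < v T.l ^ 2 := by simpa using pow_lt_pow_right₀ hl (show 1 < 2 by norm_num)
  have hr : v T.r = v T.l ^ 2 := by
    rw [show T.r = T.l ^ 2 - (T.a + T.a') by linear_combination T.col.e1, v.map_sub_eq_of_lt_left,
      map_pow]
    rw [map_pow]
    exact (v.map_add_le ha ha').trans_lt (hl.trans hl2)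
  have hA : v (T.w * T.a - T.w' * T.a') ≤ 1 :=
    v.map_sub_le (L7.mul_le hw.le ha) (L7.mul_le hw'.le ha')
  have hB : v (T.w * T.a ^ 2 - T.w' * T.a' ^ 2 - T.l * (T.w * T.b - T.w' * T.b')) < v T.l := by
    refine v.map_sub_lt ((v.map_sub_le (L7.mul_le hw.le ?_) (L7.mul_le hw'.le ?_)).trans_lt hl) ?_
    · rw [map_pow]; exact pow_le_one' ha _
    · rw [map_pow]; exact pow_le_one' ha' _
    · have : v (T.w * T.b - T.w' * T.b') < 1 := by
        rw [show T.w * T.b - T.w' * T.b' = T.b * (T.w + T.w') - T.w' * (T.b + T.b') by ring]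
        exact v.map_sub_lt (L7.mul_lt hb.le e1) (L7.mul_lt hw'.le e3)
      rw [map_mul]
      exact mul_lt_of_lt_one_right hl0 this
  have hq : ∀ z, v z ≤ 1 → v (qd T.w T.w' T.a T.b T.a' T.b' T.l z) < v T.l := by
    intro z hz
    unfold qd
    refine v.map_add_lt ((v.map_add_le (L7.mul_le hc.le ?_) (L7.mul_le hA hz)).trans_lt hl) hB
    rw [map_pow]; exact pow_le_one' hz _
  have hq0 := hq 0 (by simp)
  have s1 : v (T.x 0 + T.x 1 + T.x 2) ≤ 1 := by
    have := congrArg v v1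
    rw [map_mul, hc, one_mul] at this
    rw [this]
    exact v.map_sub_le (L7.mul_le hc.le (v.map_add_le ha ha')) (L7.mul_le t2.le hA)
  have s3 : v (T.x 0 * T.x 1 * T.x 2) = 1 := by
    have := congrArg v v3
    rw [map_mul, map_pow, hc, one_pow, one_mul, map_mul, hr, v.map_sub_eq_of_lt_right, map_pow,
      map_mul v (T.w - T.w'), hc, one_mul] at this
    · exact (mul_eq_left₀ (pow_ne_zero _ hl0.ne')).1 this
    · rw [map_pow, map_pow, map_mul, hc, one_mul]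
      exact pow_lt_pow_left₀ hq0 zero_le (by norm_num)
  have s2 : v (T.x 0 * T.x 1 + T.x 0 * T.x 2 + T.x 1 * T.x 2) ≤ 1 := by
    have h1 := congrArg v v2
    rw [map_mul, map_pow, hc, one_pow, one_mul, v.map_neg] at h1
    have h2 : v (T.x 0 * T.x 1 * T.x 2 +
        T.r * (T.x 0 * T.x 1 + T.x 0 * T.x 2 + T.x 1 * T.x 2)) < v T.l := by
      rw [h1, mul_comm _ (T.w * T.a - T.w' * T.a')]
      exact L7.mul_lt hA (L7.mul_lt t2.le hq0)
    have h3 := v.map_sub_lt h2 (s3.trans_lt hl)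
    rw [add_sub_cancel_left, map_mul, hr] at h3
    by_contra h4
    rw [not_le] at h4
    exact lt_irrefl _ (((hl2.trans (lt_mul_of_one_lt_right (pow_pos hl0 _) h4))).trans h3)
  have hi := L7.all_int s1 s2 s3.le
  refine ⟨hr ▸ hl.trans hl2, fun i => ⟨hi i, ?_⟩⟩
  unfold Tri.y
  rw [map_div₀, v.map_neg, map_mul, hc, one_mul, div_lt_one₀ hl0]
  exact hq _ (hi i)

/-- Near a point conjugate under an automorphism of order three. `a - a'` is a unit, `l` is small,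
`r ≡ -a - a' ≡ η ^ 2 a` is a unit, `qd 0` is small; by `vieta` the product and the second symmetric
function of the `x i` are small and the sum is a unit. -/
theorem eta [Infinite Ω] (h6 : v 6 = 1) {η : Ω} (hη : η ^ 2 + η + 1 = 0) (hw : v T.w = 1)
    (ha : v T.a = 1) (e1 : v (T.w' - η * T.w) < 1) (e2 : v (T.a' - η * T.a) < 1)
    (e3 : v (T.b - T.b') < 1) :
    (∀ i, v (T.x i) ≤ 1) ∧ (Finset.univ.filter fun i => v (T.x i) < 1).card = 2 := by
  obtain ⟨v1, v3, v2⟩ := T.vieta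
  have t2 := val_two h6
  have η3 : η ^ 3 = 1 := by linear_combination (η - 1) * hη
  have hη1 : v η = 1 := by
    have := congrArg v η3
    rw [map_pow, map_one] at this
    exact (pow_eq_one_iff_of_nonneg zero_le (by norm_num)).1 this
  have hη2 : v (1 - η) = 1 := by
    have h1 : v (1 - η) ≤ 1 := v.map_sub_le (by simp) hη1.le
    have h2 : v (2 + η) ≤ 1 := v.map_add_le t2.le hη1.le
    have h3 : v (2 + η) * v (1 - η) = 1 := by
      rw [← map_mul, show (2 + η) * (1 - η) = 3 by linear_combination -hη, val_three h6]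
    refine le_antisymm h1 ?_
    calc 1 = v (2 + η) * v (1 - η) := h3.symm
      _ ≤ 1 * v (1 - η) := mul_le_mul' h2 le_rfl
      _ = _ := one_mul _
  have hw' : v T.w' = 1 :=
    val_congr (c := η * T.w) (by rw [map_mul, hη1, hw, one_mul]) (by rwa [v.map_sub_swap])
  have ha' : v T.a' = 1 :=
    val_congr (c := η * T.a) (by rw [map_mul, hη1, ha, one_mul]) (by rwa [v.map_sub_swap])
  have hb : v T.b ≤ 1 := T.on_ab.1.int ha.le
  have hb' : v T.b' ≤ 1 := T.on_ab.2.int ha'.le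
  have hc : v (T.w - T.w') = 1 :=
    val_congr (c := (1 - η) * T.w) (by rw [map_mul, hη2, hw, one_mul])
      (by rwa [show (1 - η) * T.w - (T.w - T.w') = T.w' - η * T.w by ring])
  have hd : v (T.a - T.a') = 1 :=
    val_congr (c := (1 - η) * T.a) (by rw [map_mul, hη2, ha, one_mul])
      (by rwa [show (1 - η) * T.a - (T.a - T.a') = T.a' - η * T.a by ring])
  have hl : v T.l < 1 := by
    rwa [show T.b - T.b' = T.l * (T.a - T.a') by rw [T.hb, T.hb']; ring, map_mul, hd, mul_one] at e3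
  have hr : v T.r = 1 := by
    refine val_congr (c := η ^ 2 * T.a) (by rw [map_mul, map_pow, hη1, ha, one_pow, one_mul]) ?_
    rw [show η ^ 2 * T.a - T.r = (T.a' - η * T.a) - T.l * T.l by
      linear_combination T.a * hη - T.col.e1]
    exact v.map_sub_lt e2 (L7.mul_lt hl.le hl)
  have hA : v (T.w * T.a - T.w' * T.a') ≤ 1 :=
    v.map_sub_le (L7.mul_le hw.le ha.le) (L7.mul_le hw'.le ha'.le)
  have hq0 : v (qd T.w T.w' T.a T.b T.a' T.b' T.l 0) < 1 := by
    rw [show qd T.w T.w' T.a T.b T.a' T.b' T.l 0 = -(T.a' * T.a' * (T.w' - η * T.w)) -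
      η * T.w * (T.a' + η * T.a) * (T.a' - η * T.a) - (T.w * T.b - T.w' * T.b') * T.l by
        unfold qd; linear_combination -(T.w * T.a ^ 2) * η3]
    refine v.map_sub_lt (v.map_sub_lt ?_ (L7.mul_lt (L7.mul_le (L7.mul_le hη1.le hw.le)
      (v.map_add_le ha'.le (L7.mul_le hη1.le ha.le))) e2))
      (L7.mul_lt (v.map_sub_le (L7.mul_le hw.le hb) (L7.mul_le hw'.le hb')) hl)
    rw [v.map_neg]
    exact L7.mul_lt (L7.mul_le ha'.le ha'.le) e1
  have s1 : v (T.x 0 + T.x 1 + T.x 2) = 1 := by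
    have := congrArg v v1
    rw [map_mul, hc, one_mul] at this
    rw [this]
    refine val_congr (c := η ^ 2 * (1 - η) * (T.w * T.a))
      (by simp only [map_mul, map_pow, hη1, hη2, hw, ha, one_pow, mul_one]) ?_
    rw [show η ^ 2 * (1 - η) * (T.w * T.a) -
      ((T.w - T.w') * (T.a + T.a') - 2 * (T.w * T.a - T.w' * T.a')) =
      (T.a - T.a') * (T.w' - η * T.w) - (1 + η) * T.w * (T.a' - η * T.a) by
        linear_combination (T.w * T.a * (1 - η)) * hη]
    exact v.map_sub_lt (L7.mul_lt hd.le e1)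
      (L7.mul_lt (L7.mul_le (v.map_add_le (by simp) hη1.le) hw.le) e2)
  have s3 : v (T.x 0 * T.x 1 * T.x 2) < 1 := by
    have := congrArg v v3
    rw [map_mul, map_pow, hc, one_pow, one_mul, map_mul, hr, one_mul] at this
    rw [this, pow_two, pow_two]
    have h1 := L7.mul_lt hc.le hl
    exact v.map_sub_lt (L7.mul_lt hq0.le hq0) (L7.mul_lt h1.le h1)
  have s2 : v (T.x 0 * T.x 1 + T.x 0 * T.x 2 + T.x 1 * T.x 2) < 1 := by
    have h1 := congrArg v v2
    rw [map_mul, map_pow, hc, one_pow, one_mul, v.map_neg] at h1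
    have h2 : v (T.x 0 * T.x 1 * T.x 2 +
        T.r * (T.x 0 * T.x 1 + T.x 0 * T.x 2 + T.x 1 * T.x 2)) < 1 := by
      rw [h1, mul_comm _ (T.w * T.a - T.w' * T.a')]
      exact L7.mul_lt hA (L7.mul_lt t2.le hq0)
    have h3 := v.map_sub_lt h2 s3
    rwa [add_sub_cancel_left, map_mul, hr, one_mul] at h3
  have hi := L7.all_int s1.le s2.le s3.le
  refine ⟨hi, ?_⟩
  have un : ∀ i, ¬ v (T.x i) < 1 → v (T.x i) = 1 := fun i h => le_antisymm (hi i) (not_lt.1 h)
  have one : ∀ {p q t : Ω}, v p < 1 → v q = 1 → v t = 1 → v (p * q + p * t + q * t) = 1 := by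
    intro p q t hp hq ht
    refine val_congr (c := q * t) (by rw [map_mul, hq, ht, one_mul]) ?_
    rw [show q * t - (p * q + p * t + q * t) = -((q + t) * p) by ring, v.map_neg]
    exact L7.mul_lt (v.map_add_le hq.le ht.le) hp
  rw [Finset.card_filter, Fin.sum_univ_three]
  by_cases c0 : v (T.x 0) < 1 <;> by_cases c1 : v (T.x 1) < 1 <;> by_cases c2 : v (T.x 2) < 1 <;>
    simp only [c0, c1, c2, if_true, if_false]
  · exact absurd s1 (v.map_add_lt (v.map_add_lt c0 c1) c2).ne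
  · exact absurd (one c0 (un 1 c1) (un 2 c2)) s2.ne
  · refine absurd (one c1 (un 0 c0) (un 2 c2)) ?_
    rw [show T.x 1 * T.x 0 + T.x 1 * T.x 2 + T.x 0 * T.x 2 =
      T.x 0 * T.x 1 + T.x 0 * T.x 2 + T.x 1 * T.x 2 by ring]
    exact s2.ne
  · refine absurd (one c2 (un 0 c0) (un 1 c1)) ?_
    rw [show T.x 2 * T.x 0 + T.x 2 * T.x 1 + T.x 0 * T.x 1 =
      T.x 0 * T.x 1 + T.x 0 * T.x 2 + T.x 1 * T.x 2 by ring]
    exact s2.ne
  · refine absurd ?_ s3.ne
    rw [map_mul, map_mul, un 0 c0, un 1 c1, un 2 c2, one_mul, one_mul]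

/-- an automorphism which fixes the data permutes the zeros (`Polynomial.roots` of
`∏ (X - C (x i))`) -/
theorem perm [Infinite Ω] (h6 : (6 : Ω) ≠ 0) {σ : Au Ω} (h1 : σ T.w = T.w) (h2 : σ T.w' = T.w')
    (h3 : σ T.a = T.a) (h4 : σ T.b = T.b) (h5 : σ T.a' = T.a') (h7 : σ T.b' = T.b') :
    ∃ e : Equiv.Perm (Fin 3), ∀ i, σ (T.x i) = T.x (e i) ∧ σ (T.y i) = T.y (e i) := by
  have hc : T.w - T.w' ≠ 0 := sub_ne_zero.2 T.c0
  have hs : Sl T.l T.a T.b T.a' T.b' := by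
    have := T.col.sl
    rwa [← T.hb, ← T.hb'] at this
  have hl : σ T.l = T.l := by
    have := hs.map σ
    rw [h3, h4, h5, h7] at this
    refine this.unique h6 hs ?_
    have o := T.on_ab.2
    unfold On at o
    rw [o]; simp
  have hr : σ T.r = T.r := by
    rw [show T.r = T.l ^ 2 - T.a - T.a' by linear_combination T.col.e1]
    simp only [map_sub, map_pow, hl, h3, h5]
  have hq : ∀ z, σ (qd T.w T.w' T.a T.b T.a' T.b' T.l z) =
      qd T.w T.w' T.a T.b T.a' T.b' T.l (σ z) := by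
    intro z
    unfold qd
    simp only [map_add, map_sub, map_mul, map_pow, h1, h2, h3, h4, h5, h7, hl]
  have hf : ∀ z, (z - T.r) * ((z - σ (T.x 0)) * (z - σ (T.x 1)) * (z - σ (T.x 2))) =
      (z - T.r) * ((z - T.x 0) * (z - T.x 1) * (z - T.x 2)) := by
    intro z
    obtain ⟨z, rfl⟩ := σ.surjective z
    have a1 := congrArg σ (T.fac z)
    have a2 := T.fac (σ z)
    rw [Fin.prod_univ_three] at a1 a2
    simp only [map_add, map_sub, map_mul, map_pow, map_one, hq, h1, h2, hl, hr] at a1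
    exact mul_left_cancel₀ (pow_ne_zero 2 hc) (a1.symm.trans a2)
  obtain ⟨k3, k2, k1, -⟩ := L7.coef
    (p₃ := (T.x 0 + T.x 1 + T.x 2) - (σ (T.x 0) + σ (T.x 1) + σ (T.x 2)))
    (p₂ := (σ (T.x 0) * σ (T.x 1) + σ (T.x 0) * σ (T.x 2) + σ (T.x 1) * σ (T.x 2) +
      T.r * (σ (T.x 0) + σ (T.x 1) + σ (T.x 2))) - (T.x 0 * T.x 1 + T.x 0 * T.x 2 + T.x 1 * T.x 2 +
      T.r * (T.x 0 + T.x 1 + T.x 2)))
    (p₁ := (T.x 0 * T.x 1 * T.x 2 + T.r * (T.x 0 * T.x 1 + T.x 0 * T.x 2 + T.x 1 * T.x 2)) -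
      (σ (T.x 0) * σ (T.x 1) * σ (T.x 2) +
      T.r * (σ (T.x 0) * σ (T.x 1) + σ (T.x 0) * σ (T.x 2) + σ (T.x 1) * σ (T.x 2))))
    (p₀ := T.r * (σ (T.x 0) * σ (T.x 1) * σ (T.x 2)) - T.r * (T.x 0 * T.x 1 * T.x 2))
    (fun z => by linear_combination hf z)
  obtain ⟨e, he⟩ := L7.perm3 (u := T.x) (t := fun i => σ (T.x i)) (by linear_combination -k3)
    (by linear_combination k2 + T.r * k3) (by linear_combination -k1 - T.r * (k2 + T.r * k3))
  refine ⟨e, fun i => ⟨he i, ?_⟩⟩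
  unfold Tri.y
  rw [map_div₀, map_neg, hq, he i, map_mul, map_sub, h1, h2, hl]

end Tri

end Pool.Agent.P.MP_ee618e_ag.X.Y
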