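import Pool.Agent.P.MP_ee618e_ag.Y.N3

/-! M1: the difference of the second slopes, cases with a large slope. -/

namespace Pool.Agent.P.MP_ee618e_ag.X.Y

open IsDedekindDomain
open scoped Classical

variable {Ω : Type} [Field Ω] [Infinite Ω] {Γ : Type} [LinearOrderedCommGroupWithZero Γ]
  {v : Valuation Ω Γ} {D : Ln Ω} {A : Subfield Ω} {r : Fin 4 → Ω} {J : Finset (Ω × Ω)}
  {s w s' w' x y m n n' : Ω}

omit [Infinite Ω] in
theorem m1_sub {a b c : Ω} (h1 : v (a - b) < 1) (h2 : v (a - c) < 1) : v (c - b) < 1 := by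
  rw [show c - b = (a - b) - (a - c) by ring]; exact v.map_sub_lt h1 h2

omit [Infinite Ω] in
theorem m1_add {a b c : Ω} (h1 : v (a + b) < 1) (h2 : v (a - c) < 1) : v (c + b) < 1 := by
  rw [show c + b = (a + b) - (a - c) by ring]; exact v.map_sub_lt h1 h2

theorem m1_sq {μ : Γ} (h : 1 < μ) : μ < μ ^ 2 := by
  simpa using pow_lt_pow_right₀ h (show 1 < 2 by norm_num)

omit [Infinite Ω] in
theorem m1_mul {a b : Ω} {δ : Γ} (ha : v a ≤ δ) (hb : v b ≤ 1) : v (a * b) ≤ δ := by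
  rw [mul_comm]; exact n1_mul hb ha

omit [Infinite Ω] in
theorem m1_two (v : Valuation Ω Γ) : v 2 ≤ 1 := by simpa using val_nat v 2

omit [Infinite Ω] in
theorem m1_gd (h : D.Ok A r) (hA : Triv A v) {μ : Γ} (h1 : 1 < μ) (hm : v m ≤ μ) (hn : v n ≤ μ)
    (e : v (m - n) = μ) : v (D.gd m n) = μ ^ 2 := by
  have a0 := hA.le h.ok₀.αA
  have a1 := hA.le h.ok₁.αA
  have e1 : v ((m - n) ^ 2 * D.θ') = μ ^ 2 := by
    rw [map_mul, map_pow, e, hA _ h.mem.1 h.mem.2.1, mul_one]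
  rw [Ln.gd, v.map_add_eq_of_lt_right, e1]
  rw [e1]
  refine lt_of_le_of_lt (v.map_add_le (v.map_add_le ?_ ?_) ?_) (m1_sq h1)
  · exact (n1_mul (hA.le h.κA) (v.map_sub_le a1 (n1_mul (hA.le h.ωA) a0))).trans h1.le
  · exact m1_mul (v.map_sub_le hm (n1_mul (m1_two v) hn)) a1
  · exact m1_mul (v.map_sub_le (n1_mul (m1_two v) hm) hn) a0

namespace Ml

omit [Infinite Ω] in
theorem basic (h : Ml D A r J v s w s' w' x y m n n') : v 6 = 1 ∧ v s ≤ 1 ∧ v w = 1 ∧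
    v (s' - s) ≤ 1 ∧ v (∏ i, (s - r i)) = 1 ∧ v (∏ i, (s' - r i)) = 1 := by
  have hw := h.triv w h.wA h.w0
  refine ⟨h.triv.six h.ok.ok₀.h6, h.triv.le h.sA, hw, v.map_sub_le h.s1 (h.triv.le h.sA), ?_, ?_⟩
  · rw [← h.eq, map_pow, hw, one_pow]
  · rw [← h.eq', map_pow, h.w1, one_pow]

omit [Infinite Ω] in
/-- `pt_eq` twice, `g_sub`, `g_sub'` -/
theorem key (h : Ml D A r J v s w s' w' x y m n n') :
    w ^ 2 * x = D.xx s m n ∧ w' ^ 2 * x = D.xx s' m n' ∧ D.g s m n = 0 ∧ D.g s' m n' = 0 ∧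
      (n - n') * (D.u (m, n) s - (D.θ s + m) * (n - n')) = (s' - s) * D.gd m n' := by
  obtain ⟨e1, e2⟩ := h.ok.pt_eq h.m₁ h.n₁ h.gd.d0
  obtain ⟨e3, e4⟩ := h.ok.pt_eq h.m₂ h.n₂ h.d0
  exact ⟨e1, e3, e2, e4, by linear_combination D.g_sub s s' m n' - D.g_sub' s m n n' + e2 - e4⟩

omit [Infinite Ω] in
theorem vals (h : Ml D A r J v s w s' w' x y m n n') : v (w ^ 2 * x) = v x ∧ v (w ^ 3 * y) = v y ∧
    v (w' ^ 2 * x) = v x ∧ v (w' ^ 3 * y) = v y := by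
  simp only [map_mul, map_pow, h.basic.2.2.1, h.w1, one_pow, one_mul, and_self]

omit [Infinite Ω] in
theorem far (h : Ml D A r J v s w s' w' x y m n n') (hx : v x ≤ 1) {S : Sec Ω} (hS : S.Ok A r)
    {l : Ω} : (Sl l (w ^ 2 * x) (w ^ 3 * y) (S.a s) (S.b s) →
      (v l ≤ 1 ↔ ¬ (v (w ^ 2 * x - S.a s) < 1 ∧ v (w ^ 3 * y + S.b s) < 1))) ∧
    (Sl l (w' ^ 2 * x) (w' ^ 3 * y) (S.a s') (S.b s') →
      (v l ≤ 1 ↔ ¬ (v (w' ^ 2 * x - S.a s') < 1 ∧ v (w' ^ 3 * y + S.b s') < 1))) := by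
  obtain ⟨h6, hs, -, -, q, q'⟩ := h.basic
  obtain ⟨e1, e2, e3, e4⟩ := h.vals
  have hy := h.on.int hx
  exact ⟨fun k => k.far h6 (e1 ▸ hx) (e2 ▸ hy) (hS.int h.triv hs).1 (hS.int h.triv hs).2
      (by rw [hS.eq, q]),
    fun k => k.far h6 (e3 ▸ hx) (e4 ▸ hy) (hS.int h.triv h.s1).1 (hS.int h.triv h.s1).2
      (by rw [hS.eq, q'])⟩

omit [Infinite Ω] in
theorem cc_of1 (h : Ml D A r J v s w s' w' x y m n n') {S : Sec Ω} (hS : S.Ok A r)
    (e : v (s' - s) < 1) (h1 : v (w ^ 2 * x - S.a s) < 1 ∧ v (w ^ 3 * y + S.b s) < 1) :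
    Cc v w w' x y ↔ v (w' ^ 2 * x - S.a s') < 1 ∧ v (w' ^ 3 * y + S.b s') < 1 := by
  obtain ⟨l1, l2, -⟩ := hS.lip h.triv h.basic.2.1 h.s1
  have k1 : v (w ^ 2 * x - S.a s') < 1 := by
    rw [show w ^ 2 * x - S.a s' = w ^ 2 * x - S.a s - (S.a s' - S.a s) by ring]
    exact v.map_sub_lt h1.1 (l1.trans_lt e)
  have k2 : v (w ^ 3 * y + S.b s') < 1 := by
    rw [show w ^ 3 * y + S.b s' = w ^ 3 * y + S.b s + (S.b s' - S.b s) by ring]
    exact v.map_add_lt h1.2 (l2.trans_lt e)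
  refine ⟨fun c => ⟨m1_sub k1 c.1, m1_add k2 c.2⟩, fun c => ⟨?_, ?_⟩⟩
  · rw [show w ^ 2 * x - w' ^ 2 * x = w ^ 2 * x - S.a s' - (w' ^ 2 * x - S.a s') by ring]
    exact v.map_sub_lt k1 c.1
  · rw [show w ^ 3 * y - w' ^ 3 * y = w ^ 3 * y + S.b s' - (w' ^ 3 * y + S.b s') by ring]
    exact v.map_sub_lt k2 c.2

omit [Infinite Ω] in
/-- Put `X = w ^ 2 x`. `v m = v y / v x`; `(m - n) X = m a₀ - n a₁ + b₁ - b₀` gives
`v (m - n), v (m - n') ≤ v x / v y`; eliminating `y` from `m₁`,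
`X (X - m ^ 2 + a₀) + a₀ ^ 2 + m ^ 2 a₀ - 2 m b₀ = 0`, so `X - m ^ 2` is integral and
`v u = v x`; `gd m n' = m (α₀ - α₁) + O(1)`. -/
theorem big (h : Ml D A r J v s w s' w' x y m n n') (hx : 1 < v x) :
    v (n - n') * v y = v (s' - s) * v x := by
  obtain ⟨-, hs, -, -, -, -⟩ := h.basic
  obtain ⟨e1, e2, e3, e4⟩ := h.vals
  obtain ⟨hy2, hy⟩ := h.on.big hx
  have x0 : v x ≠ 0 := (zero_lt_one.trans hx).ne'
  have sl : ∀ {l X Y a b : Ω}, Sl l X Y a b → v X = v x → v Y = v y → v a ≤ 1 → v b ≤ 1 →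
      v l * v x = v y := fun {l X Y a b} k hX hY ha hb => by
    have := congrArg v k.1
    rwa [map_mul, v.map_sub_eq_of_lt_left (by rw [hX]; exact ha.trans_lt hx),
      v.map_sub_eq_of_lt_left (by rw [hY]; exact hb.trans_lt (hx.trans hy)), hX, hY] at this
  obtain ⟨a0, b0⟩ := h.ok.ok₀.int h.triv hs
  obtain ⟨a1, b1⟩ := h.ok.ok₁.int h.triv hs
  obtain ⟨a0', b0'⟩ := h.ok.ok₀.int h.triv h.s1
  obtain ⟨a1', b1'⟩ := h.ok.ok₁.int h.triv h.s1
  have vm := sl h.m₁ e1 e2 a0 b0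
  have vn : v n = v m := mul_right_cancel₀ x0 ((sl h.n₁ e1 e2 a1 b1).trans vm.symm)
  have vn' : v n' = v m := mul_right_cancel₀ x0 ((sl h.n₂ e3 e4 a1' b1').trans vm.symm)
  have m2 : v m ^ 2 = v x := by
    refine mul_right_cancel₀ (pow_ne_zero 2 x0) ?_
    rw [← mul_pow, vm, hy2, pow_succ']
  have m1 : 1 < v m := not_le.1 fun e => (not_le.2 hx) (m2 ▸ pow_le_one' e 2)
  have mx : v m < v x := m2 ▸ m1_sq m1
  have df : ∀ {l X Y a b a' b' : Ω}, Sl m X Y a b → Sl l X Y a' b' → v X = v x → v l = v m →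
      v a ≤ 1 → v b ≤ 1 → v a' ≤ 1 → v b' ≤ 1 → v (m - l) ≤ 1 :=
    fun {l X Y a b a' b'} k k' hX hl ha hb ha' hb' => by
      have e : (m - l) * X = m * a - l * a' + (b' - b) := by linear_combination k.1 - k'.1
      have e' : v (m - l) * v x ≤ 1 * v x := by
        rw [← hX, ← map_mul, e, hX, one_mul]
        exact v.map_add_le (v.map_sub_le (m1_mul mx.le ha) (m1_mul (hl ▸ mx.le) ha'))
          ((v.map_sub_le hb' hb).trans hx.le)
      exact le_of_mul_le_mul_right e' (zero_lt_iff.2 x0)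
  have d1 := df h.m₁ h.n₁ e1 vn a0 b0 a1 b1
  have d2 := df h.m₂ h.n₂ e3 vn' a0' b0' a1' b1'
  have d3 : v (n - n') ≤ 1 := by
    rw [show n - n' = (m - n') - (m - n) by ring]; exact v.map_sub_le d2 d1
  have d4 : v (w ^ 2 * x - m ^ 2 + D.S₀.a s) ≤ 1 := by
    have e : (w ^ 2 * x - m ^ 2 + D.S₀.a s) * (w ^ 2 * x) =
        2 * D.S₀.b s * m - m ^ 2 * D.S₀.a s - D.S₀.a s ^ 2 := by
      linear_combination m * h.m₁.1 * (-1) - h.m₁.2
    have e' : v (w ^ 2 * x - m ^ 2 + D.S₀.a s) * v x ≤ 1 * v x := by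
      rw [← e1, ← map_mul, e, e1, one_mul]
      exact v.map_sub_le (v.map_sub_le (n1_mul (n1_mul (m1_two v) b0) mx.le)
        (m1_mul (by rw [map_pow, m2]) a0)) ((n1_pow a0 2).trans hx.le)
    exact le_of_mul_le_mul_right e' (zero_lt_iff.2 x0)
  obtain ⟨k1, -, -, -, k⟩ := h.key
  obtain ⟨t1, -, -, t2, t3⟩ := h.ok.int h.triv hs
  have g1 : v (D.u (m, n) s - (D.θ s + m) * (n - n')) = v x := by
    rw [show D.u (m, n) s - (D.θ s + m) * (n - n') = w ^ 2 * x +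
      ((w ^ 2 * x - m ^ 2 + D.S₀.a s) - (D.θ s + m) * (n - n')) by
        simp only [Ln.u, ← k1]; ring, v.map_add_eq_of_lt_left, e1]
    rw [e1]
    exact v.map_sub_lt (d4.trans_lt hx)
      ((m1_mul (v.map_add_le (t1.trans m1.le) le_rfl) d3).trans_lt mx)
  have g2 : v (D.gd m n') = v m := by
    have α0 := h.triv.le h.ok.ok₀.αA
    have α1 := h.triv.le h.ok.ok₁.αA
    have e : v (m * (D.S₁.α - D.S₀.α)) = v m := by rw [map_mul, t3, mul_one]
    rw [show D.gd m n' = D.κ * (D.S₁.α - D.ω * D.S₀.α) + 2 * (m - n') * D.S₁.α +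
      (m - n') * D.S₀.α + (m - n') ^ 2 * D.θ' - m * (D.S₁.α - D.S₀.α) by
        simp only [Ln.gd]; ring, v.map_sub_eq_of_lt_right, e]
    rw [e]
    refine lt_of_le_of_lt (v.map_add_le (v.map_add_le (v.map_add_le ?_ ?_) ?_) ?_) m1
    · exact n1_mul (h.triv.le h.ok.κA) (v.map_sub_le α1 (n1_mul (h.triv.le h.ok.ωA) α0))
    · exact n1_mul (n1_mul (m1_two v) d2) α1
    · exact n1_mul d2 α0
    · exact n1_mul (n1_pow d2 2) t2.le
  have k' := congrArg v k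
  rw [map_mul, map_mul, g1, g2] at k'
  rw [← vm, mul_comm (v m), ← mul_assoc, k', mul_assoc, ← pow_two, m2]

/-- A section `sec z` is never congruent to minus the first or second section (`Ok.sl`, `Sl.far`
with the constant slopes). So if the point is congruent to one of these four points, all `eps`
are `1`. -/
theorem eps_one (h : Ml D A r J v s w s' w' x y m n n') (hx : v x ≤ 1)
    (h1 : 1 < v m ∨ 1 < v n ∨ 1 < v n') : ∏ z ∈ J, D.eps v s w s' w' x y z = 1 := by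
  obtain ⟨h6, hs, -, -, q, q'⟩ := h.basic
  refine Finset.prod_eq_one fun z hz => ?_
  have hz' := (h.hJ z).1 hz
  have hS := h.ok.sec_ok hz'
  have nf : ∀ {S : Sec Ω} {l t : Ω}, S.Ok A r → l ∈ A → v t ≤ 1 → v (∏ i, (t - r i)) = 1 →
      Sl l ((D.sec z).a t) ((D.sec z).b t) (S.a t) (S.b t) →
      ¬ (v ((D.sec z).a t - S.a t) < 1 ∧ v ((D.sec z).b t + S.b t) < 1) :=
    fun {S l t} k hl ht e sl => (sl.far h6 (hS.int h.triv ht).1 (hS.int h.triv ht).2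
      (k.int h.triv ht).1 (k.int h.triv ht).2 (by rw [k.eq, e])).1 (h.triv.le hl)
  unfold Ln.eps
  split_ifs with c
  swap
  · rfl
  rcases h1 with h1 | h1 | h1
  · have k := not_not.1 fun e => not_le.2 h1 (((h.far hx h.ok.ok₀).1 h.m₁).2 e)
    exact absurd ⟨m1_sub k.1 c.1, m1_add k.2 c.2⟩
      (nf h.ok.ok₀ hz'.1 hs q (h.ok.sl hz'.2.2 s).1)
  · have k := not_not.1 fun e => not_le.2 h1 (((h.far hx h.ok.ok₁).1 h.n₁).2 e)
    exact absurd ⟨m1_sub k.1 c.1, m1_add k.2 c.2⟩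
      (nf h.ok.ok₁ hz'.2.1 hs q (h.ok.sl hz'.2.2 s).2)
  · have k := not_not.1 fun e => not_le.2 h1 (((h.far hx h.ok.ok₁).2 h.n₂).2 e)
    refine le_antisymm (dst_le _ _ _ _ _) (not_lt.1 fun e => ?_)
    rw [dst_lt] at e
    exact nf h.ok.ok₁ hz'.2.1 h.s1 q' (h.ok.sl hz'.2.2 s').2 ⟨m1_sub k.1 e.1, m1_add k.2 e.2⟩

omit [Infinite Ω] in
/-- both `u - (θ + m) (n - n')` and `gd m n'` have value `v m ^ 2`
(`u = -a₀ - 2 a₁ - 2 (m - n) θ - m ^ 2 + 2 m n`); by `Sl.far` the two twisted points are congruent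
to `(a₀, -b₀)` at `s`, `s'` -/
theorem steep_m (h : Ml D A r J v s w s' w' x y m n n') (hx : v x ≤ 1) (hn : v n ≤ 1)
    (hn' : v n' ≤ 1) (hm : 1 < v m) :
    v (n - n') = if Cc v w w' x y then v (s' - s) else 1 := by
  obtain ⟨-, hs, -, t0, -, -⟩ := h.basic
  obtain ⟨k1, -, -, -, k⟩ := h.key
  have m2 := m1_sq hm
  have g1 : v (D.u (m, n) s - (D.θ s + m) * (n - n')) = v m ^ 2 := by
    rw [show D.u (m, n) s - (D.θ s + m) * (n - n') =
      (2 * (w ^ 2 * x) + D.S₀.a s - (D.θ s + m) * (n - n')) - m ^ 2 by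
        simp only [Ln.u, ← k1]; ring, v.map_sub_eq_of_lt_right, map_pow]
    rw [map_pow]
    refine lt_of_le_of_lt (v.map_sub_le (le_trans (v.map_add_le ?_ ?_) hm.le) ?_) m2
    · exact n1_mul (m1_two v) (h.vals.1 ▸ hx)
    · exact (h.ok.ok₀.int h.triv hs).1
    · exact m1_mul (v.map_add_le ((h.ok.int h.triv hs).1.trans hm.le) le_rfl) (v.map_sub_le hn hn')
  have g2 := m1_gd h.ok h.triv hm le_rfl (hn'.trans hm.le)
    (v.map_sub_eq_of_lt_left (hn'.trans_lt hm))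
  have k' := congrArg v k
  rw [map_mul, map_mul, g1, g2] at k'
  rw [mul_right_cancel₀ (pow_ne_zero 2 (zero_lt_one.trans hm).ne') k']
  split_ifs with c
  · rfl
  · refine le_antisymm t0 (not_lt.1 fun e => c ?_)
    exact (h.cc_of1 h.ok.ok₀ e
      (not_not.1 fun e => not_le.2 hm (((h.far hx h.ok.ok₀).1 h.m₁).2 e))).2
      (not_not.1 fun e => not_le.2 hm (((h.far hx h.ok.ok₀).2 h.m₂).2 e))

omit [Infinite Ω] in
/-- If only one of `n`, `n'` is large then `Cc` and `v (s' - s) < 1` contradict `Sl.far`. If both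
are large the twisted points are congruent to `(a₁, -b₁)` at `s`, `s'`. Then `m` is integral
(`d s` is a unit) and `m ≡ -θ s`; also `d s' (m + θ s')` and `β s' (m + θ s')` are small (`βθ`), so
`m ≡ -θ s'` (`skew`), hence `v (s' - s) < 1` and `Cc`. Write `g s m n = c₀ + c₁ n + c₂ n ^ 2`,
`c₂ = θ + m`, `c₁ = -2 a₁ - a₀ - 2 m θ - m ^ 2 ≡ θ ^ 2 - 2 a₁ - a₀` a unit; the cofactor in `key` is
`G = c₁ + c₂ (n + n')`, `n ^ 2 G = -(c₁ n + c₀) n' - c₀ n` has value `v n * v n'`, and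
`v (gd m n') = v n' ^ 2`. -/
theorem steep_n (h : Ml D A r J v s w s' w' x y m n n') (hx : v x ≤ 1)
    (hn : 1 < v n ∨ 1 < v n') :
    v (n - n') = max 1 (v n) * max 1 (v n') * if Cc v w w' x y then v (s' - s) else 1 := by
  obtain ⟨-, hs, -, t0, -, -⟩ := h.basic
  have f1 := (h.far hx h.ok.ok₁).1 h.n₁
  have f2 := (h.far hx h.ok.ok₁).2 h.n₂
  by_cases p' : v n' ≤ 1
  · have p := hn.resolve_right (not_lt.2 p')
    rw [v.map_sub_eq_of_lt_left (p'.trans_lt p), max_eq_right p.le, max_eq_left p', mul_one]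
    split_ifs with c
    · rw [le_antisymm t0 (not_lt.1 fun e => f2.1 p'
        ((h.cc_of1 h.ok.ok₁ e (not_not.1 fun e => not_le.2 p (f1.2 e))).1 c)), mul_one]
    · rw [mul_one]
  have k2 := not_not.1 fun e => p' (f2.2 e)
  replace p' := not_le.1 p'
  by_cases p : v n ≤ 1
  · rw [v.map_sub_eq_of_lt_right (p.trans_lt p'), max_eq_right p'.le, max_eq_left p, one_mul]
    split_ifs with c
    · refine (mul_one _).symm.trans (congrArg _ (le_antisymm t0 (not_lt.1 fun e => f1.1 p ?_)).symm)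
      obtain ⟨l1, l2, -⟩ := h.ok.ok₁.lip h.triv hs h.s1
      constructor
      · rw [show w ^ 2 * x - D.S₁.a s = (w ^ 2 * x - w' ^ 2 * x) + (w' ^ 2 * x - D.S₁.a s') +
          (D.S₁.a s' - D.S₁.a s) by ring]
        exact v.map_add_lt (v.map_add_lt c.1 k2.1) (l1.trans_lt e)
      · rw [show w ^ 3 * y + D.S₁.b s = (w ^ 3 * y - w' ^ 3 * y) + (w' ^ 3 * y + D.S₁.b s') -
          (D.S₁.b s' - D.S₁.b s) by ring]
        exact v.map_sub_lt (v.map_add_lt c.2 k2.2) (l2.trans_lt e)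
    · rw [mul_one]
  have k1 := not_not.1 fun e => p (f1.2 e)
  replace p := not_le.1 p
  obtain ⟨mθ, -, md⟩ := h.ok.mem.2.2.2 s h.sA
  have vd : v (D.d s) = 1 := h.triv _ md h.gd.d0
  have hm : v m ≤ 1 := ((h.far hx h.ok.ok₀).1 h.m₁).2 fun e =>
    (m1_sub e.1 k1.1).ne vd
  have dm : ∀ {X Y t : Ω}, Sl m X Y (D.S₀.a t) (D.S₀.b t) → v (X - D.S₁.a t) < 1 →
      v (Y + D.S₁.b t) < 1 → v (D.d t * (m + D.θ t)) < 1 := fun {X Y t} k e1 e2 => by
    rw [show D.d t * (m + D.θ t) = (Y + D.S₁.b t) - m * (X - D.S₁.a t) by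
      have := h.ok.hθ t
      simp only [Ln.d] at this ⊢
      linear_combination k.1 - this]
    exact v.map_sub_lt e2 (L2.mul_lt hm e1)
  have c2 : v (m + D.θ s) < 1 := by
    have := dm h.m₁ k1.1 k1.2
    rwa [map_mul, vd, one_mul] at this
  obtain ⟨a0, b0⟩ := h.ok.ok₀.int h.triv hs
  obtain ⟨a1, b1⟩ := h.ok.ok₁.int h.triv hs
  obtain ⟨t1, t2, -, t3, -⟩ := h.ok.int h.triv hs
  have c2' : v (m + D.θ s') < 1 := by
    obtain ⟨a0', -⟩ := h.ok.ok₀.int h.triv h.s1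
    obtain ⟨a1', -⟩ := h.ok.ok₁.int h.triv h.s1
    obtain ⟨-, u2, u3, -, -⟩ := h.ok.int h.triv h.s1
    have e1 := dm h.m₂ k2.1 k2.2
    have e2 : v (D.β s' * (m + D.θ s')) < 1 := by
      rw [show D.β s' * (m + D.θ s') = m * (w' ^ 3 * y + D.S₁.b s') -
          (w' ^ 2 * x + D.S₁.a s' + D.S₀.a s') * (w' ^ 2 * x - D.S₁.a s') by
        linear_combination h.ok.βθ s' - m * h.ok.hβ s' - h.m₂.2]
      exact v.map_sub_lt (L2.mul_lt hm k2.2)
        (L2.mul_lt (v.map_add_le (v.map_add_le (h.vals.2.2.1 ▸ hx) a1') a0') k2.1)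
    rcases not_and_or.1 (h.ok.skew h.triv h.s1) with e | e
    · rwa [map_mul, le_antisymm u3 (not_lt.1 e), one_mul] at e1
    · rwa [map_mul, le_antisymm u2 (not_lt.1 e), one_mul] at e2
  have ss : v (s' - s) < 1 := by
    have := v.map_sub_lt c2' c2
    rwa [add_sub_add_left_eq_sub, D.θ_sub, map_mul, t3, one_mul] at this
  rw [if_pos ((h.cc_of1 h.ok.ok₁ ss k1).2 k2), max_eq_right p.le, max_eq_right p'.le]
  obtain ⟨-, -, g0, -, k⟩ := h.key
  have c1 : v (D.θ s ^ 2 - 2 * D.S₁.a s - D.S₀.a s - (m + D.θ s) * (m + D.θ s)) = 1 := by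
    have e : v (D.θ s ^ 2 - 2 * D.S₁.a s - D.S₀.a s) = 1 := h.triv _
      (sub_mem (sub_mem (pow_mem mθ 2) (mul_mem (ofNat_mem A 2) (h.ok.ok₁.a_mem h.sA).1))
        (h.ok.ok₀.a_mem h.sA).1) h.gd.c0
    rw [v.map_sub_eq_of_lt_left (by rw [e]; exact L2.mul_lt c2.le c2), e]
  have c0 : v (D.β s + m * D.S₁.a s + 2 * m * D.S₀.a s + m ^ 2 * D.θ s) ≤ 1 :=
    v.map_add_le (v.map_add_le (v.map_add_le t2 (n1_mul hm a1)) (n1_mul (n1_mul (m1_two v) hm) a0))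
      (n1_mul (n1_pow hm 2) t1)
  generalize hc1 : D.θ s ^ 2 - 2 * D.S₁.a s - D.S₀.a s - (m + D.θ s) * (m + D.θ s) = e1 at c1
  generalize hc0 : D.β s + m * D.S₁.a s + 2 * m * D.S₀.a s + m ^ 2 * D.θ s = e0 at c0
  have e : n ^ 2 * (D.u (m, n) s - (D.θ s + m) * (n - n')) = -((e1 * n + e0) * n' + e0 * n) := by
    rw [← hc1, ← hc0]
    simp only [Ln.g] at g0
    simp only [Ln.u, Ln.xx]
    linear_combination (n + n') * g0
  have v1 : v ((e1 * n + e0) * n') = v n * v n' := by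
    have e2 : v (e1 * n) = v n := by rw [map_mul, c1, one_mul]
    rw [map_mul, v.map_add_eq_of_lt_left (by rw [e2]; exact c0.trans_lt p), e2]
  have n0 : 0 < v n := zero_lt_one.trans p
  have n0' : 0 < v n' := zero_lt_one.trans p'
  have g1 := congrArg v e
  rw [map_mul, map_pow, v.map_neg, v.map_add_eq_of_lt_left
    (by rw [v1]; exact (n1_mul c0 le_rfl).trans_lt (lt_mul_of_one_lt_right n0 p')), v1] at g1
  have g2 := m1_gd h.ok h.triv p' (hm.trans p'.le) le_rfl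
    (v.map_sub_eq_of_lt_right (hm.trans_lt p'))
  have k' := congrArg v k
  rw [map_mul, map_mul, g2] at k'
  refine mul_right_cancel₀ (mul_pos n0 n0').ne' ?_
  rw [← g1, mul_left_comm, k', g1]
  simp only [pow_two, mul_assoc, mul_comm, mul_left_comm]

end Ml

end Pool.Agent.P.MP_ee618e_ag.X.Y
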