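import Pool.Agent.P.MP_ee618e_ag.Y.L2
import Pool.Agent.P.MP_ee618e_ag.X.FT2

/-! N1: sections `b ^ 2 - a ^ 3 = q`. -/

namespace Pool.Agent.P.MP_ee618e_ag.X.Y

open IsDedekindDomain Polynomial
open scoped Classical

variable {Ω : Type} [Field Ω] {Γ : Type} [LinearOrderedCommGroupWithZero Γ] {v : Valuation Ω Γ}
  {A : Subfield Ω} {r : Fin 4 → Ω} {S : Sec Ω} {s w s' w' : Ω}

theorem n1_mul {x y : Ω} {δ : Γ} (hx : v x ≤ 1) (hy : v y ≤ δ) : v (x * y) ≤ δ := by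
  rw [map_mul, ← one_mul δ]
  exact mul_le_mul' hx hy

theorem n1_pow {x : Ω} (hx : v x ≤ 1) (n : ℕ) : v (x ^ n) ≤ 1 := by
  rw [map_pow]
  exact pow_le_one' hx n

theorem n1_ne {x : Ω} (hx : v x = 1) : x ≠ 0 := by
  rintro rfl
  simp at hx

theorem n1_le {x y : Ω} (hy : v y ≤ 1) (h : v (x - y) < 1) : v x ≤ 1 := by
  rw [← sub_add_cancel x y]
  exact v.map_add_le h.le hy

/-- congruent integral elements -/
def n1C (v : Valuation Ω Γ) (x y : Ω) : Prop := v y ≤ 1 ∧ v (x - y) < 1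

theorem n1C.refl {x : Ω} (h : v x ≤ 1) : n1C v x x := ⟨h, by simp⟩

theorem n1C.add {x y x' y' : Ω} (h : n1C v x y) (h' : n1C v x' y') : n1C v (x + x') (y + y') :=
  ⟨v.map_add_le h.1 h'.1, by
    rw [show x + x' - (y + y') = (x - y) + (x' - y') by ring]
    exact v.map_add_lt h.2 h'.2⟩

theorem n1C.sub {x y x' y' : Ω} (h : n1C v x y) (h' : n1C v x' y') : n1C v (x - x') (y - y') :=
  ⟨v.map_sub_le h.1 h'.1, by
    rw [show x - x' - (y - y') = (x - y) - (x' - y') by ring]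
    exact v.map_sub_lt h.2 h'.2⟩

theorem n1C.mul {x y x' y' : Ω} (h : n1C v x y) (h' : n1C v x' y') : n1C v (x * x') (y * y') :=
  ⟨n1_mul h.1 h'.1, by
    rw [show x * x' - y * y' = x * (x' - y') + y' * (x - y) by ring]
    exact v.map_add_lt ((n1_mul (n1_le h.1 h.2) le_rfl).trans_lt h'.2)
      ((n1_mul h'.1 le_rfl).trans_lt h.2)⟩

theorem n1C.val {x y : Ω} (h : n1C v x y) (hy : v y = 1) : v x = 1 :=
  val_congr hy (by rw [v.map_sub_swap]; exact h.2)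

theorem n1_fin {c₂ c₁ c₀ : Ω} (h : ¬ (c₂ = 0 ∧ c₁ = 0 ∧ c₀ = 0)) :
    {s : Ω | c₂ * s ^ 2 + c₁ * s + c₀ = 0}.Finite := by
  have h0 : C c₂ * X ^ 2 + C c₁ * X + C c₀ ≠ 0 := fun e => h
    ⟨by simpa using congrArg (coeff · 2) e, by simpa using congrArg (coeff · 1) e,
      by simpa using congrArg (coeff · 0) e⟩
  refine (finite_setOfPred_isRoot h0).subset fun s hs => ?_
  simpa using hs

theorem n1_root [IsAlgClosed A] {n : ℕ} (c : Fin (n + 1) → Ω) (hc : ∀ i, c i ∈ A)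
    (h0 : c (Fin.last n) ≠ 0) (e : ∑ i, c i * s ^ (i : ℕ) = 0) : s ∈ A := by
  have h : s ∈ Acl (A : Set Ω) := by
    refine mem_acl_of_root (∑ i : Fin (n + 1), monomial (i : ℕ) (c i)) (fun e => h0 ?_)
      (fun j => subset_acl _ ?_) (by simpa [eval_finsetSum] using e)
    · have := congrArg (coeff · n) e
      simp only [finsetSum_coeff, coeff_monomial, coeff_zero] at this
      rwa [Finset.sum_eq_single (Fin.last n)
        (fun i _ hi => if_neg fun e : (i : ℕ) = n => hi (Fin.ext e)) (by simp),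
        if_pos (Fin.val_last n)] at this
    · rw [finsetSum_coeff]
      refine sum_mem (S := A) fun i _ => ?_
      rw [coeff_monomial]
      split_ifs
      · exact hc i
      · exact zero_mem A
  rwa [acl_eq] at h

namespace Sec

theorem Ok.a_mem (h : S.Ok A r) (hs : s ∈ A) : S.a s ∈ A ∧ S.b s ∈ A ∧ S.jac s ∈ A := by
  have ha : S.a s ∈ A := add_mem (mul_mem h.αA hs) h.γA
  have hb : S.b s ∈ A := add_mem (add_mem (pow_mem hs 2) (mul_mem h.β₁A hs)) h.β₀A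
  exact ⟨ha, hb, sub_mem (mul_mem (mul_mem (ofNat_mem A 3) h.αA) hb)
    (mul_mem (mul_mem (ofNat_mem A 2) ha) (add_mem (mul_mem (ofNat_mem A 2) hs) h.β₁A))⟩

theorem Ok.xy_mem (h : S.Ok A r) {K : Subfield Ω} (hK : A ≤ K) (hs : s ∈ K) (hw : w ∈ K) :
    S.x s w ∈ K ∧ S.y s w ∈ K := by
  exact ⟨div_mem (add_mem (mul_mem (hK h.αA) hs) (hK h.γA)) (pow_mem hw 2),
    div_mem (add_mem (add_mem (pow_mem hs 2) (mul_mem (hK h.β₁A) hs)) (hK h.β₀A)) (pow_mem hw 3)⟩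

theorem Ok.map (h : S.Ok A r) {σ : Au Ω} (hσ : σ ∈ Fix (A : Set Ω)) (s w : Ω) :
    σ (S.a s) = S.a (σ s) ∧ σ (S.b s) = S.b (σ s) ∧ σ (S.x s w) = S.x (σ s) (σ w) ∧
      σ (S.y s w) = S.y (σ s) (σ w) := by
  have ha : σ (S.a s) = S.a (σ s) := by
    rw [a, a, map_add, map_mul, hσ _ h.αA, hσ _ h.γA]
  have hb : σ (S.b s) = S.b (σ s) := by
    rw [b, b, map_add, map_add, map_mul, map_pow, hσ _ h.β₁A, hσ _ h.β₀A]
  exact ⟨ha, hb, by rw [x, x, map_div₀, map_pow, ha], by rw [y, y, map_div₀, map_pow, hb]⟩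

theorem Ok.on (h : S.Ok A r) (hw : w ≠ 0) (e : w ^ 6 = ∏ i, (s - r i)) :
    On (S.x s w) (S.y s w) := by
  have e1 := h.eq s
  rw [On, x, y]
  field_simp
  linear_combination e1 - e

theorem scale (S : Sec Ω) (s : Ω) (hw : w ≠ 0) :
    w ^ 2 * S.x s w = S.a s ∧ w ^ 3 * S.y s w = S.b s := by
  exact ⟨mul_div_cancel₀ _ (pow_ne_zero 2 hw), mul_div_cancel₀ _ (pow_ne_zero 3 hw)⟩

/-- Otherwise `a z = α (z - s)`, `b z = (z - s) (z + s + β₁)`, so `(X - C s) ^ 2` divides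
`∏ (X - C (r i))` (`Polynomial.funext`), which is separable. -/
theorem Ok.ne [Infinite Ω] (h : S.Ok A r) (s : Ω) : ¬ (S.a s = 0 ∧ S.b s = 0) := by
  rintro ⟨ha, hb⟩
  have e : ∏ i, (X - C (r i)) =
      (X - C s) * (X - C s) * ((X + C (s + S.β₁)) ^ 2 - C (S.α ^ 3) * (X - C s)) := by
    refine Polynomial.funext fun z => ?_
    have e1 : S.a z = S.α * (z - s) := by
      rw [a] at ha ⊢
      linear_combination ha
    have e2 : S.b z = (z - s) * (z + (s + S.β₁)) := by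
      rw [b] at hb ⊢
      linear_combination hb
    simp only [eval_prod, eval_sub, eval_X, eval_C, eval_mul, eval_pow, eval_add]
    rw [← h.eq z, e1, e2]
    ring
  exact not_isUnit_X_sub_C s
    ((separable_prod_X_sub_C_iff.2 h.inj).squarefree _ ⟨_, e⟩)

theorem Ok.n1_a [IsAlgClosed Ω] (h : S.Ok A r) : ¬ (S.α = 0 ∧ S.γ = 0) := by
  rintro ⟨h1, h2⟩
  obtain ⟨z, hz⟩ := IsAlgClosed.exists_root (C 1 * X ^ 2 + C S.β₁ * X + C S.β₀)
    (by rw [degree_quadratic one_ne_zero]; norm_num)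
  refine h.ne z ⟨by rw [a, h1, h2]; ring, ?_⟩
  simpa [b] using hz

/-- `a ≠ 0` as a polynomial by `Ok.ne` at a root of `b`; the leading coefficient of `jac` is `-α`,
and `jac = -2 γ (2 s + β₁)` if `α = 0` -/
theorem Ok.fin [IsAlgClosed Ω] (h : S.Ok A r) : {s | ¬ S.Gd s}.Finite := by
  have h2 := two_ne h.h6
  have f1 := n1_fin (c₂ := 0) (c₁ := S.α) (c₀ := S.γ) fun e => h.n1_a e.2
  have f2 := n1_fin (c₂ := 1) (c₁ := S.β₁) (c₀ := S.β₀) fun e => one_ne_zero e.1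
  have f3 := n1_fin (c₂ := -S.α) (c₁ := S.α * S.β₁ - 4 * S.γ)
    (c₀ := 3 * S.α * S.β₀ - 2 * S.γ * S.β₁) fun e => by
      have e1 := neg_eq_zero.1 e.1
      refine h.n1_a ⟨e1, mul_left_cancel₀ (mul_ne_zero h2 h2) ?_⟩
      linear_combination S.β₁ * e1 - e.2.1
  refine ((f1.union f2).union f3).subset fun s hs => ?_
  simp only [Gd, Set.mem_ofPred_eq, not_and_or, not_not, jac, a, b] at hs
  simp only [Set.mem_union, Set.mem_ofPred_eq]
  rcases hs with e | e | e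
  · exact Or.inl (Or.inl (by linear_combination e))
  · exact Or.inl (Or.inr (by linear_combination e))
  · exact Or.inr (by linear_combination e)

/-- If `x = c ∈ A` then `s'` is a root of `a ^ 3 - c ^ 3 q`, so this polynomial over `A` vanishes
(`mem_acl_of_root`, `acl_eq`); by degrees `c = 0` and `a = 0`. If `y = c ∈ A` then `x ^ 3 ∈ A`. -/
theorem Ok.not_mem [IsAlgClosed Ω] [IsAlgClosed A] (h : S.Ok A r) (hs : s' ∉ A)
    (e : w' ^ 6 = ∏ i, (s' - r i)) : w' ≠ 0 ∧ S.x s' w' ∉ A ∧ S.y s' w' ∉ A := by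
  have w0 : w' ≠ 0 := by
    rintro rfl
    obtain ⟨i, -, hi⟩ := Finset.prod_eq_zero_iff.1 (e.symm.trans (by simp))
    exact hs (sub_eq_zero.1 hi ▸ h.rA i)
  have hx : S.x s' w' ∉ A := by
    intro hc
    have e1 := (S.scale s' w0).1
    have e2 := h.eq s'
    generalize S.x s' w' = c at hc e1
    have e3 : S.a s' ^ 3 = c ^ 3 * (S.b s' ^ 2 - S.a s' ^ 3) := by
      rw [e2, ← e, ← e1]
      ring
    have a1 := h.αA
    have a2 := h.γA
    have a3 := h.β₁A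
    have a4 := h.β₀A
    by_cases c0 : c = 0
    · rw [c0, mul_zero, a] at e1
      by_cases α0 : S.α = 0
      · exact h.n1_a ⟨α0, by linear_combination -e1 - s' * α0⟩
      · refine hs (n1_root ![S.γ, S.α] (fun i => ?_) α0 ?_)
        · fin_cases i <;> simpa
        · simp only [Fin.sum_univ_succ]
          simp
          linear_combination -e1
    · refine hs (n1_root ![c ^ 3 * S.β₀ ^ 2 - (1 + c ^ 3) * S.γ ^ 3,
        c ^ 3 * (2 * S.β₁ * S.β₀) - (1 + c ^ 3) * (3 * S.α * S.γ ^ 2),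
        c ^ 3 * (S.β₁ ^ 2 + 2 * S.β₀) - (1 + c ^ 3) * (3 * S.α ^ 2 * S.γ),
        c ^ 3 * (2 * S.β₁) - (1 + c ^ 3) * S.α ^ 3, c ^ 3] (fun i => ?_) (pow_ne_zero 3 c0) ?_)
      · have a5 := ofNat_mem A 2
        have a6 := ofNat_mem A 3
        fin_cases i <;> simp only [Fin.zero_eta, Fin.mk_one, Fin.reduceFinMk, Matrix.cons_val] <;>
          apply_rules (maxDepth := 40) [sub_mem, mul_mem, add_mem, pow_mem, one_mem]
      · simp only [Fin.sum_univ_succ]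
        simp
        rw [a, b] at e3
        linear_combination -e3
  refine ⟨w0, hx, fun hc => hx ?_⟩
  have e1 := h.on w0 e
  rw [On] at e1
  refine n1_root ![1 - S.y s' w' ^ 2, 0, 0, 1] (fun i => ?_) one_ne_zero ?_
  · fin_cases i
    · exact sub_mem (one_mem A) (pow_mem hc 2)
    · exact zero_mem A
    · exact zero_mem A
    · exact one_mem A
  · simp only [Fin.sum_univ_succ]
    simp
    linear_combination -e1

theorem Ok.int (h : S.Ok A r) (hA : Triv A v) (hs : v s ≤ 1) : v (S.a s) ≤ 1 ∧ v (S.b s) ≤ 1 := by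
  exact ⟨v.map_add_le (n1_mul (hA.le h.αA) hs) (hA.le h.γA),
    v.map_add_le (v.map_add_le (n1_pow hs 2) (n1_mul (hA.le h.β₁A) hs)) (hA.le h.β₀A)⟩

theorem Ok.lip (h : S.Ok A r) (hA : Triv A v) (hs : v s ≤ 1) (hs' : v s' ≤ 1) :
    v (S.a s' - S.a s) ≤ v (s' - s) ∧ v (S.b s' - S.b s) ≤ v (s' - s) ∧
      v (∏ i, (s' - r i) - ∏ i, (s - r i)) ≤ v (s' - s) := by
  have e1 : v (S.a s' - S.a s) ≤ v (s' - s) := by
    rw [show S.a s' - S.a s = S.α * (s' - s) by rw [a, a]; ring]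
    exact n1_mul (hA.le h.αA) le_rfl
  have e2 : v (S.b s' - S.b s) ≤ v (s' - s) := by
    rw [show S.b s' - S.b s = (s' + s + S.β₁) * (s' - s) by rw [b, b]; ring]
    exact n1_mul (v.map_add_le (v.map_add_le hs' hs) (hA.le h.β₁A)) le_rfl
  obtain ⟨a1, b1⟩ := h.int hA hs
  obtain ⟨a2, b2⟩ := h.int hA hs'
  refine ⟨e1, e2, ?_⟩
  rw [← h.eq, ← h.eq, show S.b s' ^ 2 - S.a s' ^ 3 - (S.b s ^ 2 - S.a s ^ 3) =
    (S.b s' + S.b s) * (S.b s' - S.b s) -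
      (S.a s' ^ 2 + S.a s' * S.a s + S.a s ^ 2) * (S.a s' - S.a s) by ring]
  exact v.map_sub_le (n1_mul (v.map_add_le b2 b1) e2)
    (n1_mul (v.map_add_le (v.map_add_le (n1_pow a2 2) (n1_mul a2 a1)) (n1_pow a1 2)) e1)

/-- `val_root` with `n = 6`, `Ok.lip` -/
theorem Ok.lip' (h : S.Ok A r) (hA : Triv A v) (hs : v s ≤ 1) (hw : v w = 1)
    (e : w ^ 6 = ∏ i, (s - r i)) (e' : w' ^ 6 = ∏ i, (s' - r i)) (h1 : v (s' - s) < 1)
    (h2 : v (w' - w) < 1) : v (w' - w) ≤ v (s' - s) ∧ v (S.x s' w' - S.x s w) ≤ v (s' - s) ∧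
      v (S.y s' w' - S.y s w) ≤ v (s' - s) := by
  have hs' := n1_le hs h1
  obtain ⟨l1, l2, l3⟩ := h.lip hA hs hs'
  obtain ⟨a1, b1⟩ := h.int hA hs
  have h3 : v (w - w') < 1 := by rwa [v.map_sub_swap]
  have hw' := val_congr hw h3
  have w0 : w ≠ 0 := n1_ne hw
  have w0' : w' ≠ 0 := n1_ne hw'
  have l4 : v (w' - w) ≤ v (s' - s) := by
    rwa [← val_root (hA.six h.h6) dvd_rfl hw' h2, e, e']
  refine ⟨l4, ?_, ?_⟩
  · rw [show S.x s' w' - S.x s w = (w ^ 2 * (S.a s' - S.a s) - S.a s * (w' + w) * (w' - w)) /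
      (w' ^ 2 * w ^ 2) by rw [x, x]; field_simp; ring, map_div₀, map_mul, map_pow, map_pow, hw, hw']
    simp only [one_pow, mul_one, div_one]
    exact v.map_sub_le (n1_mul (n1_pow hw.le 2) l1)
      (n1_mul (n1_mul a1 (v.map_add_le hw'.le hw.le)) l4)
  · rw [show S.y s' w' - S.y s w = (w ^ 3 * (S.b s' - S.b s) -
      S.b s * (w' ^ 2 + w' * w + w ^ 2) * (w' - w)) /
      (w' ^ 3 * w ^ 3) by rw [y, y]; field_simp; ring, map_div₀, map_mul, map_pow, map_pow, hw, hw']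
    simp only [one_pow, mul_one, div_one]
    exact v.map_sub_le (n1_mul (n1_pow hw.le 3) l2) (n1_mul (n1_mul b1 (v.map_add_le
      (v.map_add_le (n1_pow hw'.le 2) (n1_mul hw'.le hw.le)) (n1_pow hw.le 2))) l4)

/-- The map `x` is unramified at a good point. With `a₁ = a s₁` etc.:
`a₁ ^ 3 w₂ ^ 6 - a₂ ^ 3 w₁ ^ 6 = a₁ ^ 3 b₂ ^ 2 - a₂ ^ 3 b₁ ^ 2 = (s₁ - s₂) U` with
`U ≡ a ^ 2 b jac` a unit, and the left side is `(a₁ w₂ ^ 2 - a₂ w₁ ^ 2)` times a unit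
(`val_root` with `n = 3`). -/
theorem Ok.ud (h : S.Ok A r) (hA : Triv A v) (hs : s ∈ A) (hw : w ∈ A) (w0 : w ≠ 0) (gd : S.Gd s)
    {s₁ w₁ s₂ w₂ : Ω} (e₁ : w₁ ^ 6 = ∏ i, (s₁ - r i)) (e₂ : w₂ ^ 6 = ∏ i, (s₂ - r i))
    (h1 : v (s₁ - s) < 1) (h2 : v (w₁ - w) < 1) (h3 : v (s₂ - s) < 1) (h4 : v (w₂ - w) < 1) :
    v (S.x s₁ w₁ - S.x s₂ w₂) = v (s₁ - s₂) ∧ v (S.y s₁ w₁ - S.y s₂ w₂) ≤ v (s₁ - s₂) := by
  have vs := hA.le hs
  have vw := hA w hw w0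
  obtain ⟨m1, m2, m3⟩ := h.a_mem hs
  have va := hA _ m1 gd.1
  have vb := hA _ m2 gd.2.1
  have vj := hA _ m3 gd.2.2
  have s1 := n1_le vs h1
  have s2 := n1_le vs h3
  have w1 : v w₁ = 1 := val_congr vw (by rwa [v.map_sub_swap])
  have w2 : v w₂ = 1 := val_congr vw (by rwa [v.map_sub_swap])
  have d1 : v (s₁ - s₂) < 1 := by
    rw [show s₁ - s₂ = (s₁ - s) - (s₂ - s) by ring]
    exact v.map_sub_lt h1 h3
  have d2 : v (w₁ - w₂) < 1 := by
    rw [show w₁ - w₂ = (w₁ - w) - (w₂ - w) by ring]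
    exact v.map_sub_lt h2 h4
  obtain ⟨-, l1, l2⟩ := h.lip' hA s2 w2 e₂ e₁ d1 d2
  refine ⟨?_, l2⟩
  obtain ⟨p1, p2, -⟩ := h.lip hA vs s1
  obtain ⟨p3, p4, -⟩ := h.lip hA vs s2
  have c1 : n1C v s₁ s := ⟨vs, h1⟩
  have c2 : n1C v s₂ s := ⟨vs, h3⟩
  have a1 : n1C v (S.a s₁) (S.a s) := ⟨va.le, p1.trans_lt h1⟩
  have a2 : n1C v (S.a s₂) (S.a s) := ⟨va.le, p3.trans_lt h3⟩
  have b1 : n1C v (S.b s₁) (S.b s) := ⟨vb.le, p2.trans_lt h1⟩
  have b2 : n1C v (S.b s₂) (S.b s) := ⟨vb.le, p4.trans_lt h3⟩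
  have u := (((n1C.refl (hA.le h.αA)).mul (b2.mul b2)).mul
    (((a1.mul a1).add (a1.mul a2)).add (a2.mul a2))).sub ((((a2.mul a2).mul a2).mul
      ((c1.add c2).add (n1C.refl (hA.le h.β₁A)))).mul (b1.add b2))
  have u1 := u.val ((congrArg v (by rw [jac]; ring)).trans
    (show v (S.a s * S.a s * S.b s * S.jac s) = 1 by simp only [map_mul, va, vb, vj, mul_one]))
  have x1 : v (S.x s₁ w₁) = 1 := by rw [x, map_div₀, map_pow, a1.val va, w1, one_pow, div_one]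
  have n1 := n1_ne w1
  have n2 := n1_ne w2
  have q1 : w₁ ^ 6 = S.b s₁ ^ 2 - S.a s₁ ^ 3 := e₁.trans (h.eq s₁).symm
  have q2 : w₂ ^ 6 = S.b s₂ ^ 2 - S.a s₂ ^ 3 := e₂.trans (h.eq s₂).symm
  have k1 : S.a s₁ - S.a s₂ = S.α * (s₁ - s₂) := by rw [a, a]; ring
  have k2 : S.b s₁ - S.b s₂ = (s₁ + s₂ + S.β₁) * (s₁ - s₂) := by rw [b, b]; ring
  have key : S.x s₁ w₁ ^ 3 - S.x s₂ w₂ ^ 3 = (S.α * (S.b s₂ * S.b s₂) *
      (S.a s₁ * S.a s₁ + S.a s₁ * S.a s₂ + S.a s₂ * S.a s₂) -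
      S.a s₂ * S.a s₂ * S.a s₂ * (s₁ + s₂ + S.β₁) * (S.b s₁ + S.b s₂)) * (s₁ - s₂) /
        (w₁ ^ 6 * w₂ ^ 6) := by
    rw [x, x]
    field_simp
    linear_combination S.a s₁ ^ 3 * q2 - S.a s₂ ^ 3 * q1 +
      S.b s₂ ^ 2 * (S.a s₁ ^ 2 + S.a s₁ * S.a s₂ + S.a s₂ ^ 2) * k1 -
      S.a s₂ ^ 3 * (S.b s₁ + S.b s₂) * k2
  rw [← val_root (hA.six h.h6) (n := 3) (by norm_num) x1 (l1.trans_lt d1), key, map_div₀, map_mul,
    u1, map_mul, map_pow, map_pow, w1, w2]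
  simp

/-- `α (s' - s) = w' ^ 2 x' - w ^ 2 x` and `w' x - w x' = (w' - w) x + w (x - x')` -/
theorem Ok.sep (h : S.Ok A r) (hA : Triv A v) (α0 : S.α ≠ 0) (hs : v s ≤ 1) (hs' : v s' ≤ 1)
    (hw : v w = 1) (hw' : v w' = 1) :
    v (s' - s) ≤ max (v (w - w')) (v (w' * S.x s w - w * S.x s' w')) := by
  have _ := hs'
  have w0 := n1_ne hw
  have e1 := (S.scale s w0).1
  have e2 := (S.scale s' (n1_ne hw')).1
  have hx : v (S.x s w) ≤ 1 := by
    rw [x, map_div₀, map_pow, hw, one_pow, div_one]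
    exact (h.int hA hs).1
  have e3 : w * S.α * (s' - s) = -((w' ^ 2 + w' * w + w ^ 2) * S.x s w * (w - w') +
      w' ^ 2 * (w' * S.x s w - w * S.x s' w')) := by
    rw [a] at e1 e2
    linear_combination w * e1 - w * e2
  have e4 := congrArg v e3
  rw [map_mul, map_mul, hw, hA _ h.αA α0, one_mul, one_mul, v.map_neg] at e4
  rw [e4]
  exact v.map_add_le (n1_mul (n1_mul (v.map_add_le (v.map_add_le (n1_pow hw'.le 2)
    (n1_mul hw'.le hw.le)) (n1_pow hw.le 2)) hx) (le_max_left _ _))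
    (n1_mul (n1_pow hw'.le 2) (le_max_right _ _))

end Sec

/-- sixth roots of congruent units differ by a root of unity -/
theorem exists_zeta {ζ : Ω} (hζ : IsPrimitiveRoot ζ 6) (h6 : v 6 = 1) (hw : v w = 1)
    (e : v (w' ^ 6 - w ^ 6) < 1) : ∃! i : Fin 6, v (ζ ^ (i : ℕ) * w' - w) < 1 := by
  have e1 := congrArg (Polynomial.eval w) (X_pow_sub_C_eq_prod hζ (α := w') (by norm_num) rfl)
  simp only [eval_prod, eval_sub, eval_X, eval_C, eval_pow] at e1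
  rw [v.map_sub_swap, e1, map_prod, Finset.prod_range] at e
  obtain ⟨i, hi⟩ : ∃ i : Fin 6, v (w - ζ ^ (i : ℕ) * w') < 1 := by
    by_contra hn
    exact absurd e (not_lt.2 (Finset.one_le_prod' fun i _ => not_lt.1 fun hi => hn ⟨i, hi⟩))
  refine ⟨i, (v.map_sub_swap _ _).trans_lt hi, fun j hj => ?_⟩
  have u1 := val_congr hw hi
  have u2 : v (ζ ^ (i : ℕ) * w' - ζ ^ (j : ℕ) * w') < 1 := by
    rw [show ζ ^ (i : ℕ) * w' - ζ ^ (j : ℕ) * w' =
      -((w - ζ ^ (i : ℕ) * w') + (ζ ^ (j : ℕ) * w' - w)) by ring, v.map_neg]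
    exact v.map_add_lt hi hj
  have u3 := val_root h6 dvd_rfl u1 u2
  rw [mul_pow, mul_pow, ← pow_mul, ← pow_mul, mul_comm _ 6, mul_comm _ 6, pow_mul, pow_mul,
    hζ.pow_eq_one, one_pow, one_pow, sub_self, map_zero, eq_comm, map_eq_zero, sub_eq_zero] at u3
  have w0 : w' ≠ 0 := right_ne_zero_of_mul (n1_ne u1)
  exact Fin.ext (hζ.pow_inj j.2 i.2 (mul_right_cancel₀ w0 u3).symm)

end Pool.Agent.P.MP_ee618e_ag.X.Y
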