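import Pool.Agent.P.MP_ee618e_ag.Y.D1
import Pool.Agent.P.MP_ee618e_ag.Y.N1
import Pool.Agent.P.MP_ee618e_ag.X.H1b

/-! R1: the coordinate ring of the sextic curve. -/

namespace Pool.Agent.P.MP_ee618e_ag.X.Y

open IsDedekindDomain
open scoped Classical

variable {Ω : Type} [Field Ω] [IsAlgClosed Ω] {Γ : Type} [LinearOrderedCommGroupWithZero Γ]
  {v : Valuation Ω Γ} (C : Sx Ω) {s w : Ω}

namespace Sx

omit [IsAlgClosed Ω] in
theorem ζA : C.ζ ∈ C.A := by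
  have h : C.ζ ∈ Acl (C.A : Set Ω) :=
    ((C.hζ.isIntegral (by norm_num)).tower_top (A := Subfield.closure (C.A : Set Ω))).isAlgebraic
  rwa [acl_eq] at h

omit [IsAlgClosed Ω] in
theorem w0 : C.w ≠ 0 := by
  intro h
  have e := C.eq
  rw [h] at e
  obtain ⟨i, -, hi⟩ := Finset.prod_eq_zero_iff.1 (e.symm.trans (by simp))
  exact C.tr (sub_eq_zero.1 hi ▸ C.rA i)

theorem td : TD C.A Set.univ 1 := by
  refine td_of_acl C.A ![C.s] ?_
  rw [Matrix.range_cons, Matrix.range_empty, Set.union_empty, C.alg]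

omit [IsAlgClosed Ω] in
theorem mem_R : C.s ∈ C.R ∧ C.w ∈ C.R ∧ C.w⁻¹ ∈ C.R ∧ ∀ c ∈ C.A, c ∈ C.R := by
  exact ⟨Algebra.subset_adjoin (by simp), Algebra.subset_adjoin (by simp),
    Algebra.subset_adjoin (by simp), fun c hc => C.R.algebraMap_mem ⟨c, hc⟩⟩

/-- the coordinates as elements of the ring -/
def r1s : C.R := ⟨C.s, C.mem_R.1⟩

def r1w : C.R := ⟨C.w, C.mem_R.2.1⟩

def r1i : C.R := ⟨C.w⁻¹, C.mem_R.2.2.1⟩

omit [IsAlgClosed Ω] in
theorem r1_ind {p : C.R → Prop} (hs : p C.r1s) (hw : p C.r1w) (hi : p C.r1i)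
    (hc : ∀ c : C.A, p (algebraMap C.A C.R c)) (hadd : ∀ f g, p f → p g → p (f + g))
    (hmul : ∀ f g, p f → p g → p (f * g)) (f : C.R) : p f := by
  obtain ⟨x, hx⟩ := f
  induction hx using Algebra.adjoin_induction with
  | mem y hy =>
    rcases hy with rfl | rfl | rfl
    exacts [hs, hw, hi]
  | algebraMap a => exact hc a
  | add a b _ _ ha hb => exact hadd _ _ ha hb
  | mul a b _ _ ha hb => exact hmul _ _ ha hb

omit [IsAlgClosed Ω] in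
theorem r1_sub (K : Subring Ω) (hs : C.s ∈ K) (hw : C.w ∈ K) (hi : C.w⁻¹ ∈ K)
    (hc : ∀ c ∈ C.A, c ∈ K) (f : C.R) : (f : Ω) ∈ K :=
  C.r1_ind (p := fun f => (f : Ω) ∈ K) hs hw hi (fun c => hc c c.2)
    (fun _ _ h h' => K.add_mem h h') (fun _ _ h h' => K.mul_mem h h') f

omit [IsAlgClosed Ω] in
theorem r1_inv : C.r1w * C.r1i = 1 := Subtype.ext (mul_inv_cancel₀ C.w0)

/-- the quartic polynomial -/
noncomputable def r1q : Polynomial C.A :=
  ∏ i, (Polynomial.X - Polynomial.C (⟨C.r i, C.rA i⟩ : C.A))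

omit [IsAlgClosed Ω] in
theorem r1_rel : C.r1w ^ 6 = Polynomial.aeval C.r1s C.r1q := by
  refine Subtype.ext ?_
  rw [r1q, map_prod]
  simpa [r1w, r1s, Subfield.algebraMap_ofSubfield] using C.eq

omit [IsAlgClosed Ω] in
theorem r1_eval (a : C.A) : ((C.r1q.eval a : C.A) : Ω) = ∏ i, ((a : Ω) - C.r i) := by
  rw [r1q, Polynomial.eval_prod]
  simp

omit [IsAlgClosed Ω] in
theorem r1_map {σ : Au Ω} (hA : σ ∈ St (C.A : Set Ω)) (hs : σ C.s = C.s) {c : Ω} (hc : c ∈ C.A)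
    (hw : σ C.w = c * C.w) (f : C.R) : σ f ∈ C.R := by
  obtain ⟨m1, m2, m3, m4⟩ := C.mem_R
  refine C.r1_sub (C.R.toSubring.comap (σ : Ω →+* Ω)) ?_ ?_ ?_ (fun c hc => ?_) f
  · show σ C.s ∈ C.R
    rwa [hs]
  · show σ C.w ∈ C.R
    rw [hw]
    exact mul_mem (m4 c hc) m2
  · show σ C.w⁻¹ ∈ C.R
    rw [map_inv₀, hw, mul_inv]
    exact mul_mem (m4 _ (inv_mem hc)) m3
  · exact m4 _ ((hA c).2 hc)

omit [IsAlgClosed Ω] in
theorem closure_R :
    Subfield.closure (C.R : Set Ω) = Subfield.closure ((C.A : Set Ω) ∪ {C.s, C.w}) := by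
  refine le_antisymm (Subfield.closure_le.2 fun x hx => ?_) (Subfield.closure_mono ?_)
  · have hw : C.w ∈ Subfield.closure ((C.A : Set Ω) ∪ {C.s, C.w}) :=
      Subfield.subset_closure (by simp)
    exact C.r1_sub (Subfield.closure ((C.A : Set Ω) ∪ {C.s, C.w})).toSubring
      (Subfield.subset_closure (by simp)) hw (Subfield.inv_mem _ hw)
      (fun c hc => Subfield.subset_closure (Or.inl hc)) ⟨x, hx⟩
  · rintro x (hx | rfl | rfl)
    exacts [C.mem_R.2.2.2 x hx, C.mem_R.1, C.mem_R.2.1]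

omit [IsAlgClosed Ω] in
theorem algR : Acl (C.R : Set Ω) = Set.univ := by
  refine Set.eq_univ_of_univ_subset (C.alg ▸ acl_mono ?_)
  rintro x (hx | rfl)
  exacts [C.mem_R.2.2.2 x hx, C.mem_R.1]

omit [IsAlgClosed Ω] in
theorem fix_R : Fix (C.R : Set Ω) = C.H := by
  rw [← fix_closure, C.closure_R, fix_closure, H]

omit [IsAlgClosed Ω] in
theorem st_R {σ : Au Ω} (hA : σ ∈ St (C.A : Set Ω)) (hs : σ C.s = C.s) {c : Ω} (hc : c ∈ C.A)
    (hw : σ C.w = c * C.w) : σ ∈ St (C.R : Set Ω) := by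
  refine fun x => ⟨fun hx => ?_, fun hx => C.r1_map hA hs hc hw ⟨x, hx⟩⟩
  have hA' : σ⁻¹ ∈ St (C.A : Set Ω) := inv_mem hA
  have c0 : c ≠ 0 := by
    rintro rfl
    exact C.w0 ((map_eq_zero σ).1 (hw.trans (zero_mul _)))
  have h := C.r1_map hA' (σ.symm_apply_eq.2 hs.symm) (c := σ⁻¹ c⁻¹) ((hA' _).2 (inv_mem hc))
    (σ.symm_apply_eq.2 (by
      rw [map_mul, hw]
      show C.w = σ (σ.symm c⁻¹) * (c * C.w)
      rw [σ.apply_symm_apply, inv_mul_cancel_left₀ c0])) ⟨σ x, hx⟩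
  exact σ.symm_apply_apply x ▸ h

omit [IsAlgClosed Ω] in
theorem σ_pow (i : ℕ) : C.σ ^ i ∈ Fix (C.A : Set Ω) ∧ (C.σ ^ i) C.s = C.s ∧
    (C.σ ^ i) C.w = C.ζ ^ i * C.w ∧ C.σ ^ i ∈ St (C.R : Set Ω) := by
  have h1 : C.σ ^ i ∈ Fix (C.A : Set Ω) := pow_mem C.σA i
  have h2 : (C.σ ^ i) C.s = C.s ∧ (C.σ ^ i) C.w = C.ζ ^ i * C.w := by
    induction i with
    | zero => simp
    | succ i ih =>
      have ih' := ih (pow_mem C.σA i)
      rw [pow_succ']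
      refine ⟨?_, ?_⟩
      · show C.σ ((C.σ ^ i) C.s) = C.s
        rw [ih'.1, C.σs]
      · show C.σ ((C.σ ^ i) C.w) = _
        rw [ih'.2, map_mul, C.σw, C.σA _ (pow_mem C.ζA i)]
        ring
  exact ⟨h1, h2.1, h2.2, C.st_R (fix_le_st _ h1) h2.1 (pow_mem C.ζA i) h2.2⟩

/-- `res_const` with `k := C.A`, `A := ⊤` for `v.valuationSubring` -/
theorem res (hA : Triv C.A v) (h : ∃ z, 1 < v z) : ∀ z, v z ≤ 1 → ∃ c ∈ C.A, v (z - c) < 1 := by
  intro z hz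
  obtain ⟨y, hy⟩ := h
  obtain ⟨c, hc, h1⟩ := res_const (O := v.valuationSubring) (k := C.A) (A := ⊤)
    (fun c hc => hA.le hc) (fun h => absurd (h (Subfield.mem_top y)) (not_le.2 hy)) C.td
    (Subfield.mem_top z) hz
  rw [ValuationSubring.mem_nonunits_iff] at h1
  exact ⟨c, hc, (Valuation.isEquiv_valuation_valuationSubring v).lt_one_iff_lt_one.2 h1⟩

omit [IsAlgClosed Ω] in
theorem int_iff (hA : Triv C.A v) : (∀ a : C.R, v a ≤ 1) ↔ v C.s ≤ 1 ∧ v C.w = 1 := by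
  refine ⟨fun h => ⟨h C.r1s, le_antisymm (h C.r1w) ?_⟩, fun h => ?_⟩
  · have h1 : v C.w⁻¹ ≤ 1 := h C.r1i
    rw [map_inv₀] at h1
    exact (inv_le_one₀ (zero_lt_iff.2 ((map_ne_zero v).2 C.w0))).1 h1
  · refine C.r1_sub v.integer h.1 h.2.le ?_ fun c hc => hA.le hc
    show v C.w⁻¹ ≤ 1
    rw [map_inv₀, h.2, inv_one]

/-- the ideal `P` is the point `(s, w)` -/
def At (P : Ideal C.R) (s w : Ω) : Prop :=
  C.Pt s w ∧ ∀ a : C.R, (a : Ω) = C.s - s ∨ (a : Ω) = C.w - w → a ∈ P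

omit [IsAlgClosed Ω] in
theorem r1_comap (P : Ideal C.R) {f : C.R} (hf : f ∈ P) (f0 : f ≠ 0) :
    P.comap (Polynomial.aeval C.r1s : Polynomial C.A →ₐ[C.A] C.R).toRingHom ≠ ⊥ := by
  let _ : Algebra (Polynomial C.A) C.R :=
    (Polynomial.aeval C.r1s : Polynomial C.A →ₐ[C.A] C.R).toRingHom.toAlgebra
  have e : ∀ p : Polynomial C.A, algebraMap (Polynomial C.A) C.R p = Polynomial.aeval C.r1s p :=
    fun _ => rfl
  have h0 : ∀ p : Polynomial C.A, IsAlgebraic (Polynomial C.A) (Polynomial.aeval C.r1s p) :=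
    fun p => e p ▸ isAlgebraic_algebraMap p
  refine Ideal.comap_ne_bot_of_algebraic_mem f0 hf
    (C.r1_ind (p := fun g => IsAlgebraic (Polynomial C.A) g) ?_ ?_ ?_ (fun c => ?_)
      (fun _ _ h h' => h.add h') (fun _ _ h h' => h.mul h') f)
  · simpa using h0 Polynomial.X
  · refine IsAlgebraic.of_pow (n := 6) (by norm_num) ?_
    rw [C.r1_rel]
    exact h0 _
  · refine ⟨Polynomial.C C.r1q * Polynomial.X ^ 6 - 1, fun h => ?_, ?_⟩
    · simpa using congrArg (Polynomial.eval 0) h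
    · rw [map_sub, map_mul, map_pow, map_one, Polynomial.aeval_C, Polynomial.aeval_X, e,
        ← C.r1_rel, ← mul_pow, C.r1_inv, one_pow, sub_self]
  · simpa using h0 (Polynomial.C c)

omit [IsAlgClosed Ω] in
/-- A nonzero `f ∈ P` is algebraic over `A[s]`, so `P` contains a nonzero polynomial in `s`;
`exists_root` for `s`, then for `X ^ 6 - q s` and `w`; `w` is a unit. -/
theorem exists_at (P : Ideal C.R) [P.IsPrime] (hP : P ≠ ⊥) : ∃ s w, C.At P s w := by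
  obtain ⟨f, hf, f0⟩ := Submodule.exists_mem_ne_zero_of_ne_bot hP
  obtain ⟨N, hN, N0⟩ := Submodule.exists_mem_ne_zero_of_ne_bot (C.r1_comap P hf f0)
  obtain ⟨a, ha⟩ := H1b.exists_root P (z := C.r1s) N0 hN
  obtain ⟨k, hk⟩ := H1b.taylor1 C.r1q C.r1s a
  have hq : C.r1w ^ 6 - algebraMap C.A C.R (C.r1q.eval a) ∈ P := by
    rw [C.r1_rel, hk, add_sub_cancel_left]
    exact P.mul_mem_left _ ha
  obtain ⟨b, hb⟩ := H1b.exists_root P (z := C.r1w)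
    (N := Polynomial.X ^ 6 - Polynomial.C (C.r1q.eval a))
    (Polynomial.X_pow_sub_C_ne_zero (by norm_num) _) (by simpa using hq)
  have h1 : b ^ 6 - C.r1q.eval a = 0 := by
    refine H1b.const_eq_zero P ?_
    obtain ⟨l, hl⟩ := sub_dvd_pow_sub_pow C.r1w (algebraMap C.A C.R b) 6
    rw [show algebraMap C.A C.R (b ^ 6 - C.r1q.eval a) =
      (C.r1w ^ 6 - algebraMap C.A C.R (C.r1q.eval a)) - (C.r1w - algebraMap C.A C.R b) * l by
        rw [← hl, map_sub, map_pow]; ring]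
    exact P.sub_mem hq (P.mul_mem_right _ hb)
  refine ⟨a, b, ⟨a.2, b.2, fun b0 => ?_, ?_⟩, ?_⟩
  · rw [show b = 0 from Subtype.ext b0, map_zero, sub_zero] at hb
    exact Ideal.IsPrime.ne_top' (Ideal.eq_top_of_isUnit_mem P hb
      (IsUnit.of_mul_eq_one _ C.r1_inv))
  · rw [← C.r1_eval, ← sub_eq_zero.1 h1]
    simp
  · rintro g (hg | hg)
    · rwa [show g = C.r1s - algebraMap C.A C.R a from Subtype.ext hg]
    · rwa [show g = C.r1w - algebraMap C.A C.R b from Subtype.ext hg]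

omit [IsAlgClosed Ω] in
/-- every element is congruent to a constant modulo `(s' - s, w' - w)` -/
theorem const (h : C.Pt s w) {a b : C.R} (ha : (a : Ω) = C.s - s) (hb : (b : Ω) = C.w - w)
    (f : C.R) : ∃ c : C.A, f - algebraMap C.A C.R c ∈ Ideal.span {a, b} := by
  have ea : a = C.r1s - algebraMap C.A C.R ⟨s, h.sA⟩ := Subtype.ext ha
  have eb : b = C.r1w - algebraMap C.A C.R ⟨w, h.wA⟩ := Subtype.ext hb
  refine C.r1_ind (p := fun f => ∃ c : C.A, f - algebraMap C.A C.R c ∈ Ideal.span {a, b})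
    ⟨⟨s, h.sA⟩, by rw [← ea]; exact Ideal.subset_span (by simp)⟩
    ⟨⟨w, h.wA⟩, by rw [← eb]; exact Ideal.subset_span (by simp)⟩ ?_
    (fun c => ⟨c, by simp⟩) ?_ ?_ f
  · refine ⟨⟨w⁻¹, inv_mem h.wA⟩, Ideal.mem_span_pair.2
      ⟨0, -(C.r1i * algebraMap C.A C.R ⟨w⁻¹, inv_mem h.wA⟩), Subtype.ext ?_⟩⟩
    have h1 := h.w0
    have h2 := C.w0
    show 0 * (a : Ω) + -(C.w⁻¹ * w⁻¹) * b = C.w⁻¹ - w⁻¹
    rw [hb]
    field_simp
    ring
  · rintro f g ⟨c, hc⟩ ⟨d, hd⟩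
    refine ⟨c + d, ?_⟩
    rw [map_add, add_sub_add_comm]
    exact add_mem hc hd
  · rintro f g ⟨c, hc⟩ ⟨d, hd⟩
    refine ⟨c * d, ?_⟩
    rw [show f * g - algebraMap C.A C.R (c * d) = f * (g - algebraMap C.A C.R d) +
      algebraMap C.A C.R d * (f - algebraMap C.A C.R c) by rw [map_mul]; ring]
    exact add_mem (Ideal.mul_mem_left _ _ hd) (Ideal.mul_mem_left _ _ hc)

omit [IsAlgClosed Ω] in
/-- `(w' - w) ∑ w' ^ i w ^ (5 - i) = q s' - q s`; the sum is congruent to `6 w ^ 5` -/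
theorem At.loc {P : Ideal C.R} [P.IsPrime] (h : C.At P s w) {a b : C.R} (ha : (a : Ω) = C.s - s)
    (hb : (b : Ω) = C.w - w) : P = Ideal.span {a, b} ∧ ∃ α β : C.R, α ∉ P ∧ b * α + a * β = 0 := by
  have hM : Ideal.span {a, b} ≤ P := Ideal.span_le.2 (by
    rintro z (rfl | rfl)
    exacts [h.2 _ (Or.inl ha), h.2 _ (Or.inr hb)])
  refine ⟨le_antisymm (fun f hf => ?_) hM, ?_⟩
  · obtain ⟨c, hc⟩ := C.const h.1 ha hb f
    have h2 := P.sub_mem hf (hM hc)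
    rw [sub_sub_cancel] at h2
    rwa [H1b.const_eq_zero P h2, map_zero, sub_zero] at hc
  · have ea : a = C.r1s - algebraMap C.A C.R ⟨s, h.1.sA⟩ := Subtype.ext ha
    have eb : b = C.r1w - algebraMap C.A C.R ⟨w, h.1.wA⟩ := Subtype.ext hb
    obtain ⟨k, hk⟩ := H1b.taylor1 C.r1q C.r1s ⟨s, h.1.sA⟩
    have e1 : C.r1q.eval ⟨s, h.1.sA⟩ = ⟨w, h.1.wA⟩ ^ 6 :=
      Subtype.ext ((C.r1_eval _).trans h.1.eq.symm)
    rw [← ea, e1, map_pow, ← C.r1_rel] at hk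
    have c0 : (6 * (⟨w, h.1.wA⟩ : C.A) ^ 5) ≠ 0 := fun e =>
      mul_ne_zero C.h6 (pow_ne_zero 5 h.1.w0) (congrArg Subtype.val e)
    generalize (⟨w, h.1.wA⟩ : C.A) = c at eb hk c0
    refine ⟨algebraMap C.A C.R (6 * c ^ 5) + b * (C.r1w ^ 4 + 2 * C.r1w ^ 3 * algebraMap _ _ c +
      3 * C.r1w ^ 2 * algebraMap _ _ c ^ 2 + 4 * C.r1w * algebraMap _ _ c ^ 3 +
      5 * algebraMap _ _ c ^ 4), -k, fun hm => c0 (H1b.const_eq_zero P ?_), ?_⟩
    · exact (Ideal.add_mem_iff_left P (P.mul_mem_right _ (h.2 _ (Or.inr hb)))).1 hm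
    · rw [map_mul, map_pow, map_ofNat, eb]
      linear_combination hk

/-- `dvr_of`, `IsDedekindDomainDvr`; see `Hyp.isDedekind` in `X/H1b.lean` -/
instance ded : IsDedekindDomain C.R := by
  have : Algebra.FiniteType C.A C.R :=
    (Subalgebra.fg_iff_finiteType _).1 (Subalgebra.fg_def.2 ⟨_, Set.toFinite _, rfl⟩)
  have : IsNoetherianRing C.R := Algebra.FiniteType.isNoetherianRing C.A C.R
  have : IsDedekindDomainDvr C.R := ⟨fun P hP hP' => by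
    obtain ⟨s, w, h⟩ := C.exists_at P hP
    obtain ⟨h1, α, β, h2, h3⟩ := At.loc C h (a := C.r1s - algebraMap C.A C.R ⟨s, h.1.sA⟩)
      (b := C.r1w - algebraMap C.A C.R ⟨w, h.1.wA⟩) rfl rfl
    exact H1b.dvr_of P hP h1 h2 h3⟩
  infer_instance

variable {C} {P : HeightOneSpectrum C.R}

/-- every element of `P` has order at least `ord P a` (`ord_le_iff`), `exists_unif` -/
theorem At.ord (h : C.At P.asIdeal s w) {a : C.R} (ha : (a : Ω) = C.s - s) :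
    a ≠ 0 ∧ ord P a = 1 := by
  have a0 : a ≠ 0 := by
    rintro rfl
    exact C.tr (sub_eq_zero.1 ha.symm ▸ h.1.sA)
  refine ⟨a0, le_antisymm ?_ ((le_ord_iff a0).2 (by rw [pow_one]; exact h.2 _ (Or.inl ha)))⟩
  obtain ⟨π, π0, hπ⟩ := exists_unif P
  obtain ⟨h1, α, β, h2, h3⟩ := At.loc C h ha
    (b := C.r1w - algebraMap C.A C.R ⟨w, h.1.wA⟩) rfl
  have h4 := (le_ord_iff π0).1 hπ.ge
  rw [pow_one, h1] at h4
  obtain ⟨x, y, e⟩ := Ideal.mem_span_pair.1 h4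
  rw [← hπ]
  exact (ord_le_iff π0 a0).2 ⟨α, x * α - y * β, h2, by linear_combination -α * e + y * h3⟩

theorem At.ctr (h : C.At P.asIdeal s w) (hA : Triv C.A v) :
    Ctr v P ↔ v (C.s - s) < 1 ∧ v (C.w - w) < 1 := by
  have ha : ((C.r1s - algebraMap C.A C.R ⟨s, h.1.sA⟩ : C.R) : Ω) = C.s - s := rfl
  have hb : ((C.r1w - algebraMap C.A C.R ⟨w, h.1.wA⟩ : C.R) : Ω) = C.w - w := rfl
  generalize C.r1s - algebraMap C.A C.R ⟨s, h.1.sA⟩ = a at ha
  generalize C.r1w - algebraMap C.A C.R ⟨w, h.1.wA⟩ = b at hb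
  refine ⟨fun hc => ⟨ha ▸ (hc.2 a).2 (h.2 _ (Or.inl ha)), hb ▸ (hc.2 b).2 (h.2 _ (Or.inr hb))⟩,
    fun hc => ?_⟩
  have h1 : ∀ f : C.R, v f ≤ 1 := (C.int_iff hA).2 ⟨n1_le (hA.le h.1.sA) hc.1,
    val_congr (hA w h.1.wA h.1.w0) (by rw [v.map_sub_swap]; exact hc.2)⟩
  have h2 := (At.loc C h ha hb).1
  have h3 : ∀ f ∈ P.asIdeal, v (f : Ω) < 1 := by
    intro f hf
    rw [h2] at hf
    obtain ⟨x, y, rfl⟩ := Ideal.mem_span_pair.1 hf
    exact v.map_add_lt ((n1_mul (h1 x) le_rfl).trans_lt (ha ▸ hc.1))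
      ((n1_mul (h1 y) le_rfl).trans_lt (hb ▸ hc.2))
  refine ⟨h1, fun f => ⟨fun hf => ?_, h3 f⟩⟩
  obtain ⟨c, hc⟩ := C.const h.1 ha hb f
  rw [← h2] at hc
  have h4 : v ((f : Ω) - c) < 1 := h3 _ hc
  have h5 : (c : Ω) = 0 := hA.eq c.2 (zero_mem _) (by
    rw [show (c : Ω) - 0 = f - (f - c) by ring]
    exact v.map_sub_lt hf h4)
  rwa [show c = 0 from Subtype.ext h5, map_zero, sub_zero] at hc

theorem At.pv (h : C.At P.asIdeal s w) (hA : Triv C.A v) :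
    pv v P = nr v (C.s - s) (C.w - w) := by
  rw [nr]
  split_ifs with hc
  · obtain ⟨h1, h2⟩ := h.ord (a := C.r1s - algebraMap C.A C.R ⟨s, h.1.sA⟩) rfl
    exact ((h.ctr hA).2 hc).pv_eq h1 h2
  · exact pv_of_not fun h1 => hc ((h.ctr hA).1 h1)

theorem fin_at {F : Set Ω} (hF : F.Finite) :
    {P : HeightOneSpectrum C.R | ∃ s ∈ F, ∃ w, C.At P.asIdeal s w}.Finite := by
  refine (hF.biUnion (t := fun s => {P : HeightOneSpectrum C.R | ∃ w, C.At P.asIdeal s w})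
    fun s _ => ?_).subset fun P ⟨s, hs, h⟩ => Set.mem_biUnion hs h
  by_cases hs : s ∈ C.A
  · have a0 : C.r1s - algebraMap C.A C.R ⟨s, hs⟩ ≠ 0 := fun e =>
      C.tr (sub_eq_zero.1 (show C.s - s = 0 from congrArg Subtype.val e) ▸ hs)
    refine (Ideal.finite_factors (I := Ideal.span {C.r1s - algebraMap C.A C.R ⟨s, hs⟩})
      (by simpa using a0)).subset fun P ⟨w, h⟩ => ?_
    exact Ideal.dvd_span_singleton.2 (h.2 _ (Or.inl rfl))
  · exact Set.finite_empty.subset fun P ⟨w, h⟩ => hs h.1.sA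

end Sx

end Pool.Agent.P.MP_ee618e_ag.X.Y
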